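import Pool.Agent.Lib.MP_05cdf2_gt.H.HDef

/-! MP_05cdf2_gt, stream H (helper63): removal of bad simplices, abstract form. (complete) -/

set_option autoImplicit false
set_option linter.unusedSectionVars false

namespace TorH
open Finsupp Tor TorA

variable {A : Type} [DecidableEq A]

/-- a well founded relation has a rank function with values in a well ordered small type -/
theorem exists_rank {α : Type} (r : α → α → Prop) (h : WellFounded r) :
    ∃ (ι : Type) (_ : LinearOrder ι) (_ : WellFoundedLT ι) (f : α → ι), ∀ x y, r x y → f x < f y := by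
  have : IsWellFounded α r := ⟨h⟩
  let S : Setoid α := Setoid.ker (IsWellFounded.rank r)
  let F : Quotient S → Ordinal := Quotient.lift (IsWellFounded.rank r) (fun a b hab => hab)
  have hF : Function.Injective F := by
    intro a b
    refine Quotient.inductionOn₂ a b ?_
    intro a b hab
    exact Quotient.sound hab
  let L : LinearOrder (Quotient S) := LinearOrder.lift' F hF
  refine ⟨Quotient S, L, ?_, fun x => Quotient.mk S x, ?_⟩
  · refine ⟨?_⟩
    have h2 : WellFounded (fun a b : Ordinal => a < b) := wellFounded_lt
    exact InvImage.wf F h2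
  · intro x y hxy
    show F _ < F _
    exact IsWellFounded.rank_lt_of_rel hxy

theorem ne_of_po_nonempty {α : Type} [PartialOrder α] {P : Set α} (h : AcI (Po P)) : AcI (Po P) := h

/-- the boundary of a simplex -/
theorem sphere_ac (τ : Finset A) : Ac (Po {x : Finset A | x.Nonempty ∧ x ⊂ τ}) (τ.card - 1) := by
  induction τ using Finset.induction_on with
  | empty => exact Ac_zero _
  | insert a τ ha ih =>
    rw [Finset.card_insert_of_notMem ha, Nat.add_sub_cancel]
    rcases τ.eq_empty_or_nonempty with rfl | hne
    · exact Ac_zero _
    · have h1 : {x : Finset A | x.Nonempty ∧ x ⊂ insert a τ} =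
          insert τ {x : Finset A | x.Nonempty ∧ x ⊂ insert a τ ∧ x ≠ τ} := by
        ext x
        simp only [Set.mem_setOf_eq, Set.mem_insert_iff]
        constructor
        · rintro ⟨h1, h2⟩
          by_cases hx : x = τ
          · exact Or.inl hx
          · exact Or.inr ⟨h1, h2, hx⟩
        · rintro (rfl | ⟨h1, h2, -⟩)
          · exact ⟨hne, Finset.ssubset_insert ha⟩
          · exact ⟨h1, h2⟩
      have hcard : τ.card = (τ.card - 1) + 1 := by
        have := Finset.card_pos.2 hne
        omega
      rw [h1, hcard]
      refine add_one_ac _ _ (fun h => h.2.2 rfl) ?_ ?_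
      · refine AcI.ac ?_ _
        refine AcI_of_up_down (fun x => insert a x) {a} ?_ ?_ ?_ ?_ ?_
        · refine ⟨Finset.singleton_nonempty a, ?_, ?_⟩
          · rw [Finset.ssubset_iff_subset_ne]
            refine ⟨by simp, ?_⟩
            intro h
            obtain ⟨b, hb⟩ := hne
            have : b ∈ ({a} : Finset A) := h ▸ Finset.mem_insert_of_mem hb
            rw [Finset.mem_singleton] at this
            exact ha (this ▸ hb)
          · intro h
            exact ha (h ▸ Finset.mem_singleton_self a)
        · rintro x ⟨hx1, hx2, hx3⟩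
          refine ⟨Finset.insert_nonempty _ _, ?_, ?_⟩
          · rw [Finset.ssubset_iff_subset_ne]
            refine ⟨Finset.insert_subset (Finset.mem_insert_self _ _) hx2.subset, ?_⟩
            intro h
            apply hx3
            apply Finset.Subset.antisymm
            · intro b hb
              rcases Finset.mem_insert.1 (hx2.subset hb) with rfl | h3
              · exfalso
                rw [Finset.insert_eq_of_mem hb] at h
                exact hx2.ne h
              · exact h3
            · intro b hb
              have : b ∈ insert a x := h ▸ Finset.mem_insert_of_mem hb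
              rcases Finset.mem_insert.1 this with rfl | h3
              · exact absurd hb ha
              · exact h3
          · intro h
            exact ha (h ▸ Finset.mem_insert_self a x)
        · intro x _ y _ hxy
          exact Finset.insert_subset_insert a hxy
        · intro x _
          exact Finset.subset_insert a x
        · intro x _
          intro b hb
          rw [Finset.mem_singleton] at hb
          subst hb
          exact Finset.mem_insert_self _ _
      · have h2 : Lk {x : Finset A | x.Nonempty ∧ x ⊂ insert a τ ∧ x ≠ τ} τ =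
            {x : Finset A | x.Nonempty ∧ x ⊂ τ} := by
          ext x
          constructor
          · rintro ⟨⟨h1, h2, h3⟩, h4 | h4⟩
            · exact ⟨h1, lt_of_le_of_ne h4 h3⟩
            · exfalso
              have h4' : τ ⊆ x := h4
              have h5 : τ ⊂ x := lt_of_le_of_ne h4' (Ne.symm h3)
              obtain ⟨b, hb1, hb2⟩ := Finset.exists_of_ssubset h5
              rcases Finset.mem_insert.1 (h2.subset hb1) with rfl | h6
              · exact h2.2 (Finset.insert_subset hb1 h4')
              · exact hb2 h6
          · rintro ⟨h1, h2⟩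
            exact ⟨⟨h1, h2.trans (Finset.ssubset_insert ha), h2.ne⟩, Or.inl h2.subset⟩
        rw [h2]
        exact ih

/-- removal of bad simplices: `b ρ` is the bad part of `ρ` -/
theorem bad_ac {Q : Finset A → Prop} (hQ : ∀ ρ ρ', ρ ⊆ ρ' → Q ρ' → Q ρ)
    (hwf : WellFounded (fun x y : Finset A => Q x ∧ y ⊂ x))
    (b : Finset A → Finset A) (hb : ∀ ρ, b ρ ⊆ ρ) (hmono : ∀ ρ ρ', ρ ⊆ ρ' → b ρ ⊆ b ρ')
    (hbb : ∀ ρ, b (b ρ) = b ρ) {n : ℕ} (hP : Ac (Po (Sx Q)) n)
    (hL : ∀ τ, τ.Nonempty → Q τ → b τ = τ → ∃ e, n ≤ τ.card - 1 + e ∧
      Ac (Po {ρ | ρ.Nonempty ∧ Disjoint ρ τ ∧ Q (τ ∪ ρ) ∧ b (τ ∪ ρ) = τ}) e) :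
    Ac (Po {ρ | ρ.Nonempty ∧ Q ρ ∧ b ρ = ∅}) n := by
  obtain ⟨ι, _, _, f, hf⟩ := exists_rank _ hwf
  set P : Set (Finset A) := Sx Q with hPdef
  set P' : Set (Finset A) := {ρ | ρ.Nonempty ∧ Q ρ ∧ b ρ = ∅} with hP'def
  have hPP : P' ⊆ P := fun ρ h => ⟨h.1, h.2.1⟩
  let rk : Finset A → ℕ ×ₗ ι := fun ρ => toLex ((b ρ).card, f ρ)
  have hlt : ∀ x y, rk x < rk y ↔ (b x).card < (b y).card ∨ ((b x).card = (b y).card ∧ f x < f y) := by
    intro x y
    exact Prod.Lex.toLex_lt_toLex
  have hord : ∀ x y : Finset A, Q x → y ⊂ x → f x < f y := fun x y h1 h2 => hf x y ⟨h1, h2⟩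
  have key : ∀ M ∈ P, M ∉ P' → Ac (Po (LkR P P' rk M)) n := by
    intro M hM hM'
    have hτne : (b M).Nonempty := by
      rw [Finset.nonempty_iff_ne_empty]
      intro h
      exact hM' ⟨hM.1, hM.2, h⟩
    by_cases hbM : b M = M
    · -- the bad simplex itself
      obtain ⟨e, hne, hAc⟩ := hL M hM.1 hM.2 hbM
      have hsplit : LkR P P' rk M = {x : Finset A | x.Nonempty ∧ x ⊂ M} ∪
          ((fun ρ => M ∪ ρ) '' {ρ | ρ.Nonempty ∧ Disjoint ρ M ∧ Q (M ∪ ρ) ∧ b (M ∪ ρ) = M}) := by
        ext x
        constructor
        · rintro ⟨h1, h2, h3 | h3, h4⟩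
          · exact Or.inl ⟨h1.1, lt_of_le_of_ne h3 h2⟩
          · right
            have h3' : M ⊆ x := h3
            have h5 : M ⊂ x := lt_of_le_of_ne h3' (Ne.symm h2)
            have h6 : M ⊆ b x := by
              have := hmono M x h3'
              rwa [hbM] at this
            have h7 : b x = M := by
              rcases h4 with h4 | h4
              · exfalso
                have h8 := h4.2.2
                rw [h8] at h6
                exact hM.1.ne_empty (Finset.subset_empty.1 h6)
              · rw [hlt, hbM] at h4
                rcases h4 with h4 | h4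
                · exact absurd (Finset.card_le_card h6) (not_le.2 h4)
                · exact (Finset.eq_of_subset_of_card_le h6 h4.1.le).symm
            refine ⟨x \ M, ⟨?_, Finset.sdiff_disjoint, ?_, ?_⟩, ?_⟩
            · rw [Finset.sdiff_nonempty]
              exact h5.2
            · rw [Finset.union_sdiff_of_subset h3']
              exact h1.2
            · rw [Finset.union_sdiff_of_subset h3']
              exact h7
            · exact Finset.union_sdiff_of_subset h3'
        · rintro (⟨h1, h2⟩ | ⟨ρ, ⟨h1, h2, h3, h4⟩, rfl⟩)
          · refine ⟨⟨h1, hQ _ _ h2.subset hM.2⟩, h2.ne, Or.inl h2.subset, Or.inr ?_⟩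
            rw [hlt, hbM]
            left
            exact lt_of_le_of_lt (Finset.card_le_card (hb x)) (Finset.card_lt_card h2)
          · have h5 : M ⊂ M ∪ ρ := by
              rw [Finset.ssubset_iff_subset_ne]
              refine ⟨Finset.subset_union_left, ?_⟩
              intro h
              obtain ⟨a, ha⟩ := h1
              have : a ∈ M := h ▸ Finset.mem_union_right _ ha
              exact (Finset.disjoint_left.1 h2 ha) this
            refine ⟨⟨hM.1.mono Finset.subset_union_left, h3⟩, h5.ne', Or.inr h5.subset, Or.inr ?_⟩
            rw [hlt, h4, hbM]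
            exact Or.inr ⟨rfl, hord _ _ h3 h5⟩
      rw [hsplit]
      refine Ac.mono (Ac_join ?_ (sphere_ac M) ?_) hne
      · rintro x ⟨-, hx⟩ y ⟨ρ, ⟨-, -, -, -⟩, rfl⟩
        exact lt_of_lt_of_le hx Finset.subset_union_left
      · refine (Ac_image _ ?_).2 hAc
        rintro x ⟨-, hx, -⟩ y ⟨-, hy, -⟩
        constructor
        · intro h a ha
          have h2 : a ∈ M ∪ y := h (Finset.mem_union_right _ ha)
          rcases Finset.mem_union.1 h2 with h3 | h3
          · exact absurd h3 (Finset.disjoint_left.1 hx ha)
          · exact h3
        · intro h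
          exact Finset.union_subset_union_right h
    · -- larger simplices with the same bad part
      set τ := b M with hτ
      have hτM : τ ⊂ M := lt_of_le_of_ne (hb M) hbM
      have hbτ : b τ = τ := hbb M
      have hsplit : LkR P P' rk M = {x : Finset A | x.Nonempty ∧ x ⊂ M ∧ ¬ τ ⊆ x} ∪
          {x | x ∈ LkR P P' rk M ∧ M ⊂ x} := by
        ext x
        constructor
        · rintro ⟨h1, h2, h3, h4⟩
          rcases h3 with h3 | h3
          · left
            have h5 : x ⊂ M := lt_of_le_of_ne h3 h2
            refine ⟨h1.1, h5, ?_⟩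
            intro h6
            have h7 : τ ⊆ b x := by
              have := hmono τ x h6
              rwa [hbτ] at this
            rcases h4 with h4 | h4
            · rw [h4.2.2] at h7
              exact hτne.ne_empty (Finset.subset_empty.1 h7)
            · rw [hlt] at h4
              rcases h4 with h4 | h4
              · exact absurd (Finset.card_le_card h7) (not_le.2 h4)
              · exact absurd h4.2 (not_lt.2 (hord _ _ hM.2 h5).le)
          · right
            exact ⟨⟨h1, h2, Or.inr h3, h4⟩, lt_of_le_of_ne h3 (Ne.symm h2)⟩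
        · rintro (⟨h1, h2, h3⟩ | ⟨h1, -⟩)
          · refine ⟨⟨h1, hQ _ _ h2.subset hM.2⟩, h2.ne, Or.inl h2.subset, Or.inr ?_⟩
            rw [hlt]
            left
            have h4 : b x ⊆ τ := hmono _ _ h2.subset
            refine Finset.card_lt_card (lt_of_le_of_ne h4 ?_)
            intro h5
            have h6 := hb x
            rw [h5] at h6
            exact h3 h6
          · exact h1
      rw [hsplit]
      have hMτ : (M \ τ).Nonempty := by
        rw [Finset.sdiff_nonempty]
        exact hτM.2
      refine AcI.ac (AcI_join_left ?_ ?_) _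
      · rintro x ⟨-, hx, -⟩ y ⟨-, hy⟩
        exact lt_trans hx hy
      · refine AcI_of_up_down (fun x => x ∪ M \ τ) (M \ τ) ?_ ?_ ?_ ?_ ?_
        · refine ⟨hMτ, ?_, ?_⟩
          · rw [Finset.ssubset_iff_subset_ne]
            refine ⟨Finset.sdiff_subset, ?_⟩
            intro h
            obtain ⟨a, ha⟩ := hτne
            have h5 : a ∈ M := hb M ha
            rw [← h] at h5
            exact (Finset.mem_sdiff.1 h5).2 ha
          · intro h
            obtain ⟨a, ha⟩ := hτne
            exact (Finset.mem_sdiff.1 (h ha)).2 ha
        · rintro x ⟨h1, h2, h3⟩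
          have hno : ¬ τ ⊆ x ∪ M \ τ := by
            intro h
            apply h3
            intro a ha
            rcases Finset.mem_union.1 (h ha) with h4 | h4
            · exact h4
            · exact absurd ha (Finset.mem_sdiff.1 h4).2
          refine ⟨h1.mono Finset.subset_union_left, ?_, hno⟩
          rw [Finset.ssubset_iff_subset_ne]
          refine ⟨Finset.union_subset h2.subset Finset.sdiff_subset, ?_⟩
          intro h
          apply hno
          rw [h]
          exact hb M
        · intro x _ y _ hxy
          exact Finset.union_subset_union_left hxy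
        · intro x _
          exact Finset.subset_union_left
        · intro x _
          exact Finset.subset_union_right
  intro m hm z hz hbz
  have hz' : z ∈ Sup (Ln (Po P) m) := Finsupp.supported_mono (Ln_mono (Fl_mono hPP) m) hz
  refine rank_bd hPP rk ?_ key hm hz hbz (hP m hm z hz' hbz)
  intro x hx _ y hy _ hxy hne h
  have h1 : x ⊂ y := lt_of_le_of_ne hxy hne
  have h2 : f y < f x := hord _ _ hy.2 h1
  have h3 : ((b x).card, f x) = ((b y).card, f y) := toLex.injective h
  have h4 := congrArg Prod.snd h3
  simp only at h4
  rw [h4] at h2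
  exact lt_irrefl _ h2

end TorH
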