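import Pool.Agent.Lib.MP_05cdf2_gt.H.HBad

/-! MP_05cdf2_gt, stream H (helper63): suspension over one arc, and the double complex of two kinds of systems. (complete) -/

set_option autoImplicit false
set_option linter.unusedSectionVars false

namespace TorH
open Finsupp Tor TorA

variable {A : Type} [DecidableEq A]

/-- suspension: if the systems without `a` are acyclic and the link of `a` is `Ac e` then everything is `Ac (e + 1)` -/
theorem suspension {Q : Finset A → Prop} (hQ : ∀ ρ ρ', ρ ⊆ ρ' → Q ρ' → Q ρ)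
    (hwf : WellFounded (fun x y : Finset A => Q x ∧ y ⊂ x)) (a : A)
    (h0 : AcI (Po {ρ | ρ.Nonempty ∧ Q ρ ∧ a ∉ ρ})) {e : ℕ}
    (hL : Ac (Po {ρ : Finset A | ρ.Nonempty ∧ a ∉ ρ ∧ Q (insert a ρ)}) e) : Ac (Po (Sx Q)) (e + 1) := by
  obtain ⟨ι, _, _, f, hf⟩ := exists_rank _ hwf
  set P : Set (Finset A) := Sx Q with hPdef
  set P' : Set (Finset A) := {ρ | ρ.Nonempty ∧ Q ρ ∧ a ∉ ρ} with hP'def
  have hPP : P' ⊆ P := fun ρ h => ⟨h.1, h.2.1⟩
  have hord : ∀ x y : Finset A, Q x → y ⊂ x → f x < f y := fun x y h1 h2 => hf x y ⟨h1, h2⟩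
  have hin : ∀ M ∈ P, M ∉ P' → a ∈ M := by
    intro M hM hM'
    by_contra h
    exact hM' ⟨hM.1, hM.2, h⟩
  refine rank_ac hPP f ?_ ?_ (h0.ac _)
  · intro x hx _ y hy _ hxy hne h
    exact absurd h (hord _ _ hy.2 (lt_of_le_of_ne hxy hne)).ne'
  · intro M hM hM'
    have haM := hin M hM hM'
    by_cases hMa : M = {a}
    · subst hMa
      have h1 : LkR P P' f {a} = (fun ρ => insert a ρ) ''
          {ρ : Finset A | ρ.Nonempty ∧ a ∉ ρ ∧ Q (insert a ρ)} := by
        ext x
        constructor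
        · rintro ⟨h1, h2, h3, h4⟩
          rcases h3 with h3 | h3
          · exfalso
            have h5 : x = ∅ ∨ x = {a} := Finset.subset_singleton_iff.1 h3
            rcases h5 with h5 | h5
            · exact h1.1.ne_empty h5
            · exact h2 h5
          · have h5 : a ∈ x := h3 (Finset.mem_singleton_self a)
            refine ⟨x.erase a, ⟨?_, Finset.notMem_erase _ _, ?_⟩, Finset.insert_erase h5⟩
            · rw [Finset.nonempty_iff_ne_empty]
              intro h6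
              apply h2
              rw [← Finset.insert_erase h5, h6]
              rfl
            · rw [Finset.insert_erase h5]
              exact h1.2
        · rintro ⟨ρ, ⟨h1, h2, h3⟩, rfl⟩
          have h4 : {a} ⊂ insert a ρ := by
            rw [Finset.ssubset_iff_subset_ne]
            refine ⟨by simp, ?_⟩
            intro h5
            obtain ⟨b, hb⟩ := h1
            have h6 : b ∈ ({a} : Finset A) := h5 ▸ Finset.mem_insert_of_mem hb
            rw [Finset.mem_singleton] at h6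
            exact h2 (h6 ▸ hb)
          exact ⟨⟨Finset.insert_nonempty _ _, h3⟩, h4.ne', Or.inr h4.subset, Or.inr (hord _ _ h3 h4)⟩
      rw [h1]
      refine (Ac_image _ ?_).2 hL
      rintro x ⟨-, hx, -⟩ y ⟨-, hy, -⟩
      constructor
      · intro h b hb
        have h2 : b ∈ insert a y := h (Finset.mem_insert_of_mem hb)
        rcases Finset.mem_insert.1 h2 with rfl | h3
        · exact absurd hb hx
        · exact h3
      · intro h
        exact Finset.insert_subset_insert a h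
    · have hne : (M.erase a).Nonempty := by
        rw [Finset.nonempty_iff_ne_empty]
        intro h
        apply hMa
        rw [← Finset.insert_erase haM, h]
        rfl
      have h1 : LkR P P' f M = {x : Finset A | x.Nonempty ∧ x ⊆ M.erase a} ∪
          {x | x ∈ LkR P P' f M ∧ M ⊂ x} := by
        ext x
        constructor
        · rintro ⟨h1, h2, h3, h4⟩
          rcases h3 with h3 | h3
          · left
            refine ⟨h1.1, ?_⟩
            rcases h4 with h4 | h4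
            · exact Finset.subset_erase.2 ⟨h3, h4.2.2⟩
            · exact absurd h4 (not_lt.2 (hord _ _ hM.2 (lt_of_le_of_ne h3 h2)).le)
          · right
            exact ⟨⟨h1, h2, Or.inr h3, h4⟩, lt_of_le_of_ne h3 (Ne.symm h2)⟩
        · rintro (⟨h1, h2⟩ | ⟨h1, -⟩)
          · have h3 := Finset.subset_erase.1 h2
            refine ⟨⟨h1, hQ _ _ h3.1 hM.2⟩, ?_, Or.inl h3.1, Or.inl ⟨h1, hQ _ _ h3.1 hM.2, h3.2⟩⟩
            rintro rfl
            exact h3.2 haM
          · exact h1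
      rw [h1]
      have h2 : AcI (Po {x : Finset A | x.Nonempty ∧ x ⊆ M.erase a}) :=
        AcI_of_max (M.erase a) ⟨hne, Finset.Subset.refl _⟩ fun x hx => hx.2
      refine AcI.ac (AcI_join_left ?_ h2) _
      rintro x ⟨-, hx⟩ y ⟨-, hy⟩
      exact lt_of_le_of_lt (hx.trans (Finset.erase_subset _ _)) hy

/-- pairs of systems -/
def Wd (T : Finset A → Finset A → Prop) : Set (Finset A × Finset A) :=
  {x | (x.1.Nonempty ∨ x.2.Nonempty) ∧ T x.1 x.2}

/-- the link of a pair `(λ, ρ)` with `ρ` nonempty, pairs added by increasing size of `ρ`, decreasing `λ` -/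
theorem dbl_link {T : Finset A → Finset A → Prop}
    (hT : ∀ l l' r r', l ⊆ l' → r ⊆ r' → T l' r' → T l r)
    {ι : Type} [LinearOrder ι] [WellFoundedLT ι] (f : Finset A → ι)
    (hf : ∀ x y : Finset A, T x ∅ → y ⊂ x → f x < f y)
    {k e : ℕ} (M : Finset A × Finset A) (hM : M ∈ Wd T) (hM2 : M.2.Nonempty)
    (hk : k ≤ M.2.card - 1 + e)
    (hL : M.1 = ∅ → Ac (Po {l | l.Nonempty ∧ T l M.2}) e) :
    Ac (Po (LkR (Wd T) {x | x ∈ Wd T ∧ x.2 = ∅}
      (fun x => (toLex (x.2.card, f x.1) : ℕ ×ₗ ι)) M)) k := by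
  obtain ⟨l, r⟩ := M
  simp only at hM2 hk hL
  set rk : Finset A × Finset A → ℕ ×ₗ ι := fun x => toLex (x.2.card, f x.1) with hrk
  have hlt : ∀ x y, rk x < rk y ↔ x.2.card < y.2.card ∨ (x.2.card = y.2.card ∧ f x.1 < f y.1) := by
    intro x y
    exact Prod.Lex.toLex_lt_toLex
  have hTM : T l r := hM.2
  have hsplit : LkR (Wd T) {x | x ∈ Wd T ∧ x.2 = ∅} rk (l, r) =
      {x | x ∈ Wd T ∧ x.1 ⊆ l ∧ x.2 ⊂ r} ∪ {x | x ∈ Wd T ∧ l ⊂ x.1 ∧ x.2 = r} := by
    ext ⟨l', r'⟩
    constructor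
    · rintro ⟨h1, h2, h3, h4⟩
      rcases h3 with h3 | h3
      · left
        refine ⟨h1, h3.1, ?_⟩
        rcases h4 with h4 | h4
        · have h5 : r' = ∅ := h4.2
          show r' ⊂ r
          rw [h5]
          exact Finset.empty_ssubset.2 hM2
        · rw [hlt] at h4
          rcases h4 with h4 | ⟨h4, h5⟩
          · refine lt_of_le_of_ne h3.2 ?_
            rintro rfl
            exact lt_irrefl _ h4
          · exfalso
            have h6 : r' = r := Finset.eq_of_subset_of_card_le h3.2 h4.ge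
            have h7 : l' ⊂ l := lt_of_le_of_ne h3.1 (fun h => h2 (by rw [h, h6]))
            exact lt_asymm h5 (hf _ _ (hT _ _ _ _ (Finset.Subset.refl _) (Finset.empty_subset _) hTM) h7)
      · right
        have h5 : r ⊆ r' := h3.2
        rcases h4 with h4 | h4
        · exfalso
          have h6 : r' = ∅ := h4.2
          rw [h6] at h5
          exact hM2.ne_empty (Finset.subset_empty.1 h5)
        · rw [hlt] at h4
          rcases h4 with h4 | ⟨h4, -⟩
          · exact absurd (Finset.card_le_card h5) (not_le.2 h4)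
          · have h6 : r = r' := Finset.eq_of_subset_of_card_le h5 h4.le
            refine ⟨h1, lt_of_le_of_ne h3.1 ?_, h6.symm⟩
            intro h
            have h7 : l = l' := h
            exact h2 (by rw [h6, h7])
    · rintro (⟨h1, h2, h3⟩ | ⟨h1, h2, h3⟩)
      · refine ⟨h1, ?_, Or.inl ⟨h2, h3.subset⟩, Or.inr ?_⟩
        · intro h
          exact h3.ne (congrArg Prod.snd h)
        · rw [hlt]
          exact Or.inl (Finset.card_lt_card h3)
      · have h3' : r' = r := h3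
        subst h3'
        refine ⟨h1, ?_, Or.inr ⟨h2.subset, Finset.Subset.refl _⟩, Or.inr ?_⟩
        · intro h
          exact h2.ne (congrArg Prod.fst h).symm
        · rw [hlt]
          right
          refine ⟨rfl, hf _ _ (hT _ _ _ _ (Finset.Subset.refl _) (Finset.empty_subset _) h1.2) h2⟩
  rw [hsplit]
  have hjoin : ∀ x ∈ {x | x ∈ Wd T ∧ x.1 ⊆ l ∧ x.2 ⊂ r}, ∀ y ∈ {x | x ∈ Wd T ∧ l ⊂ x.1 ∧ x.2 = r}, x < y := by
    rintro ⟨a, b⟩ ⟨-, h1, h2⟩ ⟨c, d⟩ ⟨-, h3, h4⟩
    have h4' : d = r := h4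
    subst h4'
    refine lt_of_le_of_ne ⟨h1.trans h3.subset, h2.subset⟩ ?_
    intro h
    exact h2.ne (congrArg Prod.snd h)
  by_cases hl : l = ∅
  · subst hl
    refine Ac.mono (Ac_join hjoin (a := r.card - 1) (b := e) ?_ ?_) hk
    · have h1 : {x | x ∈ Wd T ∧ x.1 ⊆ (∅ : Finset A) ∧ x.2 ⊂ r} =
          (fun y => ((∅ : Finset A), y)) '' {x : Finset A | x.Nonempty ∧ x ⊂ r} := by
        ext ⟨a, b⟩
        constructor
        · rintro ⟨h1, h2, h3⟩
          have h2' : a = ∅ := Finset.subset_empty.1 h2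
          subst h2'
          refine ⟨b, ⟨?_, h3⟩, rfl⟩
          rcases h1.1 with h4 | h4
          · exact absurd h4 Finset.not_nonempty_empty
          · exact h4
        · rintro ⟨y, ⟨h1, h2⟩, h3⟩
          have h4 : a = ∅ := (congrArg Prod.fst h3).symm
          have h5 : b = y := (congrArg Prod.snd h3).symm
          subst h4 h5
          exact ⟨⟨Or.inr h1, hT _ _ _ _ (Finset.Subset.refl _) h2.subset hTM⟩, Finset.Subset.refl _, h2⟩
      rw [h1]
      refine (Ac_image _ ?_).2 (sphere_ac r)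
      intro x _ y _
      exact ⟨fun h => h.2, fun h => ⟨Finset.Subset.refl _, h⟩⟩
    · have h1 : {x | x ∈ Wd T ∧ (∅ : Finset A) ⊂ x.1 ∧ x.2 = r} =
          (fun y => (y, r)) '' {x : Finset A | x.Nonempty ∧ T x r} := by
        ext ⟨a, b⟩
        constructor
        · rintro ⟨h1, h2, h3⟩
          have h3' : b = r := h3
          subst h3'
          exact ⟨a, ⟨Finset.empty_ssubset.1 h2, h1.2⟩, rfl⟩
        · rintro ⟨y, ⟨h1, h2⟩, h3⟩
          have h4 : a = y := (congrArg Prod.fst h3).symm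
          have h5 : b = r := (congrArg Prod.snd h3).symm
          subst h4 h5
          exact ⟨⟨Or.inl h1, h2⟩, Finset.empty_ssubset.2 h1, rfl⟩
      rw [h1]
      refine (Ac_image _ ?_).2 (hL rfl)
      intro x _ y _
      exact ⟨fun h => h.1, fun h => ⟨h, Finset.Subset.refl _⟩⟩
  · have hlne : l.Nonempty := Finset.nonempty_iff_ne_empty.2 hl
    refine AcI.ac (AcI_join_left hjoin ?_) _
    refine AcI_of_up_down (fun x => (l, x.2)) (l, ∅) ?_ ?_ ?_ ?_ ?_
    · exact ⟨⟨Or.inl hlne, hT _ _ _ _ (Finset.Subset.refl _) (Finset.empty_subset _) hTM⟩,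
        Finset.Subset.refl _, Finset.empty_ssubset.2 hM2⟩
    · rintro ⟨a, b⟩ ⟨-, -, h3⟩
      exact ⟨⟨Or.inl hlne, hT _ _ _ _ (Finset.Subset.refl _) h3.subset hTM⟩, Finset.Subset.refl _, h3⟩
    · intro x _ y _ hxy
      exact ⟨Finset.Subset.refl _, hxy.2⟩
    · rintro ⟨a, b⟩ ⟨-, h2, -⟩
      exact ⟨h2, Finset.Subset.refl _⟩
    · intro x _
      exact ⟨Finset.Subset.refl _, Finset.empty_subset _⟩

theorem dbl_comp {T : Finset A → Finset A → Prop}
    (hT : ∀ l l' r r', l ⊆ l' → r ⊆ r' → T l' r' → T l r)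
    {ι : Type} [LinearOrder ι] (f : Finset A → ι)
    (hf : ∀ x y : Finset A, T x ∅ → y ⊂ x → f x < f y) :
    ∀ x ∈ Wd T, x ∉ {x | x ∈ Wd T ∧ x.2 = ∅} → ∀ y ∈ Wd T, y ∉ {x | x ∈ Wd T ∧ x.2 = ∅} → x ≤ y → x ≠ y →
      (toLex (x.2.card, f x.1) : ℕ ×ₗ ι) ≠ toLex (y.2.card, f y.1) := by
  rintro ⟨a, b⟩ _ _ ⟨c, d⟩ hy _ hxy hne h
  have h3 : (b.card, f a) = (d.card, f c) := toLex.injective h
  have h4 : b.card = d.card := congrArg Prod.fst h3
  have h5 : f a = f c := congrArg Prod.snd h3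
  have h6 : b = d := Finset.eq_of_subset_of_card_le hxy.2 h4.ge
  have h7 : a ⊂ c := lt_of_le_of_ne hxy.1 (fun h => hne (by rw [h, h6]))
  exact absurd h5 (hf _ _ (hT _ _ _ _ (Finset.Subset.refl _) (Finset.empty_subset _) hy.2) h7).ne'

/-- the double complex -/
theorem dbl_ac {T : Finset A → Finset A → Prop}
    (hT : ∀ l l' r r', l ⊆ l' → r ⊆ r' → T l' r' → T l r)
    (hwf1 : WellFounded (fun x y : Finset A => T x ∅ ∧ y ⊂ x))
    (hwf2 : WellFounded (fun x y : Finset A => T ∅ x ∧ y ⊂ x)) {n : ℕ}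
    (h0 : Ac (Po {l | l.Nonempty ∧ T l ∅}) n)
    (h1 : ∀ r, r.Nonempty → T ∅ r → Ac (Po {l | l.Nonempty ∧ T l r}) n)
    (h2 : ∀ l, l.Nonempty → T l ∅ → ∃ e, n ≤ l.card - 1 + e ∧ Ac (Po {r | r.Nonempty ∧ T l r}) e) :
    Ac (Po {r | r.Nonempty ∧ T ∅ r}) n := by
  obtain ⟨ι, _, _, f, hf'⟩ := exists_rank _ hwf1
  have hf : ∀ x y : Finset A, T x ∅ → y ⊂ x → f x < f y := fun x y h3 h4 => hf' x y ⟨h3, h4⟩
  obtain ⟨κ, _, _, g, hg'⟩ := exists_rank _ hwf2
  have hg : ∀ x y : Finset A, T ∅ x → y ⊂ x → g x < g y := fun x y h3 h4 => hg' x y ⟨h3, h4⟩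
  -- step A
  have hW : Ac (Po (Wd T)) n := by
    rcases n with _ | n
    · exact Ac_zero _
    refine rank_ac (P' := {x | x ∈ Wd T ∧ x.2 = ∅}) (fun x hx => hx.1)
      (fun x => (toLex (x.2.card, f x.1) : ℕ ×ₗ ι)) (dbl_comp hT f hf) ?_ ?_
    · intro M hM hM'
      have hM2 : M.2.Nonempty := by
        rw [Finset.nonempty_iff_ne_empty]
        intro h
        exact hM' ⟨hM, h⟩
      refine dbl_link hT f hf (e := n + 1) M hM hM2 (by omega) ?_
      intro h3
      refine h1 M.2 hM2 ?_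
      rw [← h3]
      exact hM.2
    · have h3 : {x | x ∈ Wd T ∧ x.2 = (∅ : Finset A)} = (fun y => (y, (∅ : Finset A))) ''
          {l | l.Nonempty ∧ T l ∅} := by
        ext ⟨a, b⟩
        constructor
        · rintro ⟨h4, h5⟩
          have h5' : b = ∅ := h5
          subst h5'
          refine ⟨a, ⟨?_, h4.2⟩, rfl⟩
          rcases h4.1 with h6 | h6
          · exact h6
          · exact absurd h6 Finset.not_nonempty_empty
        · rintro ⟨y, ⟨h4, h5⟩, h6⟩
          have h7 : a = y := (congrArg Prod.fst h6).symm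
          have h8 : b = ∅ := (congrArg Prod.snd h6).symm
          subst h7 h8
          exact ⟨⟨Or.inl h4, h5⟩, rfl⟩
      rw [h3]
      refine (Ac_image _ ?_).2 h0
      intro x _ y _
      exact ⟨fun h => h.1, fun h => ⟨h, Finset.Subset.refl _⟩⟩
  -- swap
  let T' : Finset A → Finset A → Prop := fun r l => T l r
  have hT' : ∀ l l' r r', l ⊆ l' → r ⊆ r' → T' l' r' → T' l r := fun l l' r r' h3 h4 h5 =>
    hT _ _ _ _ h4 h3 h5
  have hW' : Ac (Po (Wd T')) n := by
    have h3 : Wd T' = Prod.swap '' (Wd T) := by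
      ext ⟨a, b⟩
      constructor
      · rintro ⟨h4, h5⟩
        exact ⟨(b, a), ⟨h4.symm, h5⟩, rfl⟩
      · rintro ⟨⟨c, d⟩, ⟨h4, h5⟩, h6⟩
        have h7 : a = d := (congrArg Prod.fst h6).symm
        have h8 : b = c := (congrArg Prod.snd h6).symm
        subst h7 h8
        exact ⟨h4.symm, h5⟩
    rw [h3]
    refine (Ac_image _ ?_).2 hW
    intro x _ y _
    exact Prod.swap_le_swap
  -- step B
  have hfin : Ac (Po {x | x ∈ Wd T' ∧ x.2 = ∅}) n := by
    intro m hm z hz hbz
    have hz' : z ∈ Sup (Ln (Po (Wd T')) m) :=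
      Finsupp.supported_mono (Ln_mono (Fl_mono fun x hx => hx.1) m) hz
    refine rank_bd (P := Wd T') (P' := {x | x ∈ Wd T' ∧ x.2 = ∅}) (fun x hx => hx.1)
      (fun x => (toLex (x.2.card, g x.1) : ℕ ×ₗ κ)) (dbl_comp hT' g hg) (n := n) ?_ hm hz hbz
      (hW' m hm z hz' hbz)
    intro M hM hM'
    have hM2 : M.2.Nonempty := by
      rw [Finset.nonempty_iff_ne_empty]
      intro h
      exact hM' ⟨hM, h⟩
    have hTM : T M.2 M.1 := hM.2
    obtain ⟨e, h3, h4⟩ := h2 M.2 hM2 (hT _ _ _ _ (Finset.Subset.refl _) (Finset.empty_subset _) hTM)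
    exact dbl_link hT' g hg (e := e) M hM hM2 h3 (fun _ => h4)
  have h3 : {x | x ∈ Wd T' ∧ x.2 = (∅ : Finset A)} = (fun y => (y, (∅ : Finset A))) ''
      {r | r.Nonempty ∧ T ∅ r} := by
    ext ⟨a, b⟩
    constructor
    · rintro ⟨h4, h5⟩
      have h5' : b = ∅ := h5
      subst h5'
      refine ⟨a, ⟨?_, h4.2⟩, rfl⟩
      rcases h4.1 with h6 | h6
      · exact h6
      · exact absurd h6 Finset.not_nonempty_empty
    · rintro ⟨y, ⟨h4, h5⟩, h6⟩
      have h7 : a = y := (congrArg Prod.fst h6).symm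
      have h8 : b = ∅ := (congrArg Prod.snd h6).symm
      subst h7 h8
      exact ⟨⟨Or.inl h4, h5⟩, rfl⟩
  rw [h3] at hfin
  refine (Ac_image _ ?_).1 hfin
  intro x _ y _
  exact ⟨fun h => h.1, fun h => ⟨h, Finset.Subset.refl _⟩⟩

end TorH
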