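import Pool.Agent.Lib.MP_05cdf2_gt.A.TRank
import Pool.Agent.Lib.MP_05cdf2_gt.A.TRet
import Pool.Agent.Lib.MP_05cdf2_gt.A.TJoin

/-! MP_05cdf2_gt, stream H (helper63): abstract arc complexes, definitions.

`A` = type of arcs, `Sy C ρ` = `ρ` is a system (pairwise compatible), `cls a` = class of the arc `a` in a rational
vector space `V`. `sp U ρ` = span of `U` and the classes of `ρ`; `nc U ρ` = the non coloops of `ρ` modulo `U`;
`Ind U ρ` = no non coloops (the classes of `ρ` are independent modulo `U`). -/

set_option autoImplicit false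

namespace TorH
open Finsupp Tor TorA

variable {A V : Type} [DecidableEq A] [AddCommGroup V] [Module ℚ V]

/-- pairwise compatible -/
def Sy (C : A → A → Prop) (ρ : Finset A) : Prop := ∀ a ∈ ρ, ∀ b ∈ ρ, C a b

theorem Sy.mono {C : A → A → Prop} {ρ ρ' : Finset A} (h : Sy C ρ') (h' : ρ ⊆ ρ') : Sy C ρ :=
  fun a ha b hb => h a (h' ha) b (h' hb)

/-- span of `U` and the classes of `ρ` -/
noncomputable def sp (cls : A → V) (U : Submodule ℚ V) (ρ : Finset A) : Submodule ℚ V :=
  U ⊔ Submodule.span ℚ (cls '' (ρ : Set A))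

open Classical in
/-- the elements of `ρ` which are dependent on the others modulo `U` -/
noncomputable def nc (cls : A → V) (U : Submodule ℚ V) (ρ : Finset A) : Finset A :=
  ρ.filter fun a => cls a ∈ sp cls U (ρ.erase a)

/-- independent modulo `U` -/
def Ind (cls : A → V) (U : Submodule ℚ V) (ρ : Finset A) : Prop := ∀ a ∈ ρ, cls a ∉ sp cls U (ρ.erase a)

/-- nonempty systems satisfying `Q` (`Q` closed under subsets) -/
def Sx (Q : Finset A → Prop) : Set (Finset A) := {ρ | ρ.Nonempty ∧ Q ρ}

end TorH
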