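import Pool.Agent.Lib.MP_05cdf2_gt.H.HDef

/-! MP_05cdf2_gt, stream H (helper63): abstract flow lemma. (complete)

`Z` = set of systems, `μ a` = number of crossings of the arc `a` with the target arc `t`. If every finite set `F` of systems of
`Z` in which some arc crosses `t` has an elementary step (an arc `a` of `F` and a finset `D` of total crossing number less than
`μ a` such that `ρ ∪ D` and `ρ.erase a ∪ D` are in `Z` for all the `ρ` of `F` which contain `a`) then `Z` is acyclic. -/

set_option autoImplicit false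
set_option linter.unusedSectionVars false

namespace TorH
open Finsupp Tor TorA

variable {A : Type} [DecidableEq A]

/-- total crossing number of a system -/
def mS (μ : A → ℕ) (ρ : Finset A) : ℕ := ∑ a ∈ ρ, μ a

theorem mS_union_le (μ : A → ℕ) (ρ D : Finset A) : mS μ (ρ ∪ D) ≤ mS μ ρ + mS μ D := by
  unfold mS
  rw [← Finset.sum_union_inter]
  exact Nat.le_add_right _ _

theorem mS_erase {μ : A → ℕ} {ρ : Finset A} {a : A} (ha : a ∈ ρ) : mS μ (ρ.erase a) + μ a = mS μ ρ :=
  Finset.sum_erase_add _ _ ha

theorem flow_abs (Z : Set (Finset A)) (μ : A → ℕ) (t : A)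
    (h0 : ∀ ρ ∈ Z, (∀ a ∈ ρ, μ a = 0) → insert t ρ ∈ Z) (ht : ({t} : Finset A) ∈ Z)
    (hstep : ∀ F : Finset (Finset A), (∀ ρ ∈ F, ρ ∈ Z) → (∃ ρ ∈ F, ∃ a ∈ ρ, μ a ≠ 0) →
      ∃ (a : A) (D : Finset A), (∃ ρ ∈ F, a ∈ ρ) ∧ ∑ b ∈ D, μ b < μ a ∧
        ∀ ρ ∈ F, a ∈ ρ → ρ ∪ D ∈ Z ∧ ρ.erase a ∪ D ∈ Z) : AcI (Po Z) := by
  have key : ∀ (N : ℕ) (F : Finset (Finset A)), (∀ ρ ∈ F, ρ ∈ Z) → ∑ ρ ∈ F, mS μ ρ = N →
      ∀ (m : ℕ) (z : Ch (Finset A)), z ∈ Sup (Ln (Po (F : Set (Finset A))) m) → bd z = 0 →
        ∃ w ∈ Sup (Ln (Po Z) (m + 1)), bd w = z := by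
    intro N
    induction N using Nat.strong_induction_on with
    | _ N ih =>
      intro F hF hN m z hz hb
      by_cases h : ∃ ρ ∈ F, ∃ a ∈ ρ, μ a ≠ 0
      · obtain ⟨a, D, ⟨ρ0, hρ0, haρ0⟩, hD, hst⟩ := hstep F hF h
        classical
        let f : Finset A → Finset A := fun ρ => if a ∈ ρ then ρ ∪ D else ρ
        let g : Finset A → Finset A := fun ρ => if a ∈ ρ then ρ.erase a ∪ D else ρ
        have hf1 : ∀ ρ, a ∈ ρ → f ρ = ρ ∪ D := fun ρ h => if_pos h
        have hf2 : ∀ ρ, a ∉ ρ → f ρ = ρ := fun ρ h => if_neg h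
        have hg1 : ∀ ρ, a ∈ ρ → g ρ = ρ.erase a ∪ D := fun ρ h => if_pos h
        have hg2 : ∀ ρ, a ∉ ρ → g ρ = ρ := fun ρ h => if_neg h
        have hfZ : ∀ x ∈ (F : Set (Finset A)), f x ∈ Z := by
          intro x hx
          by_cases hax : a ∈ x
          · rw [hf1 x hax]
            exact (hst x hx hax).1
          · rw [hf2 x hax]
            exact hF x hx
        have hgZ : ∀ x ∈ (F : Set (Finset A)), g x ∈ Z := by
          intro x hx
          by_cases hax : a ∈ x
          · rw [hg1 x hax]
            exact (hst x hx hax).2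
          · rw [hg2 x hax]
            exact hF x hx
        have mf : ∀ x ∈ (F : Set (Finset A)), ∀ y ∈ (F : Set (Finset A)), x ≤ y → f x ≤ f y := by
          intro x _ y _ hxy
          by_cases hax : a ∈ x
          · rw [hf1 x hax, hf1 y (hxy hax)]
            exact Finset.union_subset_union_left hxy
          · rw [hf2 x hax]
            by_cases hay : a ∈ y
            · rw [hf1 y hay]
              exact hxy.trans Finset.subset_union_left
            · rw [hf2 y hay]
              exact hxy
        have mg : ∀ x ∈ (F : Set (Finset A)), ∀ y ∈ (F : Set (Finset A)), x ≤ y → g x ≤ g y := by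
          intro x _ y _ hxy
          by_cases hax : a ∈ x
          · rw [hg1 x hax, hg1 y (hxy hax)]
            exact Finset.union_subset_union_left (Finset.erase_subset_erase a hxy)
          · rw [hg2 x hax]
            by_cases hay : a ∈ y
            · rw [hg1 y hay]
              refine Finset.Subset.trans ?_ Finset.subset_union_left
              exact Finset.subset_erase.2 ⟨hxy, hax⟩
            · rw [hg2 y hay]
              exact hxy
        have hgf : ∀ x ∈ (F : Set (Finset A)), g x ≤ f x := by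
          intro x _
          by_cases hax : a ∈ x
          · rw [hf1 x hax, hg1 x hax]
            exact Finset.union_subset_union_left (Finset.erase_subset a x)
          · rw [hf2 x hax, hg2 x hax]
        have hidf : ∀ x ∈ (F : Set (Finset A)), x ≤ f x := by
          intro x _
          by_cases hax : a ∈ x
          · rw [hf1 x hax]
            exact Finset.subset_union_left
          · rw [hf2 x hax]
        obtain ⟨w1, hw1, b1⟩ := Po_homotopy (P := (F : Set (Finset A))) (Q := Z) (fun x => x) f
          (fun x hx => hF x hx) hfZ (fun x _ y _ hxy => hxy) mf hidf hz hb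
        obtain ⟨w2, hw2, b2⟩ := Po_homotopy (P := (F : Set (Finset A))) (Q := Z) g f
          hgZ hfZ mg mf hgf hz hb
        have hz' : mapDomain (List.map g) z ∈ Sup (Ln (Po ((F.image g : Finset (Finset A)) : Set (Finset A))) m) := by
          refine map_mem_Ln (S := Po (F : Set (Finset A))) ?_ hz
          rintro l ⟨hl1, hl2⟩
          refine ⟨?_, ?_⟩
          · rw [List.pairwise_map]
            exact hl1.imp_of_mem fun hx hy hxy => mg _ (hl2 _ hx) _ (hl2 _ hy) hxy
          · intro x hx
            rw [List.mem_map] at hx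
            obtain ⟨y, hy, rfl⟩ := hx
            rw [Finset.mem_coe]
            exact Finset.mem_image_of_mem g (hl2 y hy)
        have hb' : bd (mapDomain (List.map g) z) = 0 := by
          rw [bd_map, hb, mapDomain_zero]
        have hle : ∀ ρ ∈ F, mS μ (g ρ) ≤ mS μ ρ := by
          intro ρ _
          by_cases haρ : a ∈ ρ
          · rw [hg1 ρ haρ]
            have h1 := mS_union_le μ (ρ.erase a) D
            have h2 := mS_erase (μ := μ) haρ
            have h3 : mS μ D < μ a := hD
            omega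
          · rw [hg2 ρ haρ]
        have hlt : mS μ (g ρ0) < mS μ ρ0 := by
          rw [hg1 ρ0 haρ0]
          have h1 := mS_union_le μ (ρ0.erase a) D
          have h2 := mS_erase (μ := μ) haρ0
          have h3 : mS μ D < μ a := hD
          omega
        have hsum : ∑ ρ ∈ F.image g, mS μ ρ < N := by
          rw [← hN]
          calc ∑ ρ ∈ F.image g, mS μ ρ ≤ ∑ ρ ∈ F, mS μ (g ρ) :=
                Finset.sum_image_le_of_nonneg (fun _ _ => Nat.zero_le _)
            _ < ∑ ρ ∈ F, mS μ ρ := Finset.sum_lt_sum hle ⟨ρ0, hρ0, hlt⟩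
        have hF' : ∀ ρ ∈ F.image g, ρ ∈ Z := by
          intro ρ hρ
          obtain ⟨x, hx, rfl⟩ := Finset.mem_image.1 hρ
          exact hgZ x hx
        obtain ⟨w3, hw3, b3⟩ := ih _ hsum (F.image g) hF' rfl m _ hz' hb'
        refine ⟨w2 + w3 - w1, ?_, ?_⟩
        · exact Submodule.sub_mem _ (Submodule.add_mem _ hw2 hw3) hw1
        · rw [map_sub, map_add, b1, b2, b3, TCon_id]
          abel
      · push Not at h
        have hin : ∀ x ∈ (F : Set (Finset A)), insert t x ∈ Z := fun x hx => h0 x (hF x hx) (h x hx)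
        obtain ⟨w1, hw1, b1⟩ := Po_homotopy (P := (F : Set (Finset A))) (Q := Z) (fun x => x) (fun x => insert t x)
          (fun x hx => hF x hx) hin (fun x _ y _ hxy => hxy)
          (fun x _ y _ hxy => Finset.insert_subset_insert t hxy) (fun x _ => Finset.subset_insert t x) hz hb
        obtain ⟨w2, hw2, b2⟩ := Po_homotopy (P := (F : Set (Finset A))) (Q := Z) (fun _ => {t}) (fun x => insert t x)
          (fun x hx => ht) hin (fun x _ y _ _ => le_refl _)
          (fun x _ y _ hxy => Finset.insert_subset_insert t hxy)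
          (fun x _ => Finset.singleton_subset_iff.2 (Finset.mem_insert_self t x)) hz hb
        obtain ⟨w3, hw3, b3⟩ := const_bound ({t} : Finset A) hz hb
        have hw3' : w3 ∈ Sup (Ln (Po Z) (m + 1)) := by
          refine Sup_mono (Ln_mono ?_ _) hw3
          intro l hl
          refine ⟨List.pairwise_of_forall_mem_list ?_, fun x hx => by rw [hl x hx]; exact ht⟩
          intro x hx y hy
          rw [hl x hx, hl y hy]
        refine ⟨w2 + w3 - w1, ?_, ?_⟩
        · exact Submodule.sub_mem _ (Submodule.add_mem _ hw2 hw3') hw1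
        · rw [map_sub, map_add, b1, b2, b3, TCon_id]
          abel
  intro n m _ z hz hb
  classical
  let F : Finset (Finset A) := z.support.biUnion fun l => l.toFinset
  have hF : ∀ ρ ∈ F, ρ ∈ Z := by
    intro ρ hρ
    rw [Finset.mem_biUnion] at hρ
    obtain ⟨l, hl, hρl⟩ := hρ
    have h1 : l ∈ Ln (Po Z) m := (Finsupp.mem_supported ℤ z).1 hz hl
    exact h1.1.2 ρ (List.mem_toFinset.1 hρl)
  have hz' : z ∈ Sup (Ln (Po (F : Set (Finset A))) m) := by
    rw [Finsupp.mem_supported]
    intro l hl
    have h1 : l ∈ Ln (Po Z) m := (Finsupp.mem_supported ℤ z).1 hz hl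
    refine ⟨⟨h1.1.1, fun x hx => ?_⟩, h1.2⟩
    rw [Finset.mem_coe, Finset.mem_biUnion]
    exact ⟨l, hl, List.mem_toFinset.2 hx⟩
  exact key _ F hF rfl m z hz' hb

end TorH
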