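import Pool.Agent.Lib.MP_05cdf2_gt.H.HDef

/-! MP_05cdf2_gt, stream H (helper63): linear algebra of non coloops. (complete) -/

set_option autoImplicit false
set_option linter.unusedSectionVars false

namespace TorH
open Module

variable {A V : Type} [DecidableEq A] [AddCommGroup V] [Module ℚ V] {cls : A → V} {U : Submodule ℚ V}

theorem sp_mono {U U' : Submodule ℚ V} {ρ ρ' : Finset A} (hU : U ≤ U') (h : ρ ⊆ ρ') :
    sp cls U ρ ≤ sp cls U' ρ' :=
  sup_le_sup hU (Submodule.span_mono (Set.image_mono (Finset.coe_subset.2 h)))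

theorem le_sp {ρ : Finset A} : U ≤ sp cls U ρ := le_sup_left

theorem mem_sp {ρ : Finset A} {a : A} (h : a ∈ ρ) : cls a ∈ sp cls U ρ :=
  Submodule.mem_sup_right (Submodule.subset_span ⟨a, h, rfl⟩)

theorem sp_le {ρ : Finset A} {W : Submodule ℚ V} (h1 : U ≤ W) (h2 : ∀ a ∈ ρ, cls a ∈ W) :
    sp cls U ρ ≤ W := by
  refine sup_le h1 (Submodule.span_le.2 ?_)
  rintro _ ⟨a, ha, rfl⟩
  exact h2 a ha

theorem sp_sp {ρ ρ' : Finset A} : sp cls (sp cls U ρ) ρ' = sp cls U (ρ ∪ ρ') := by
  apply le_antisymm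
  · refine sp_le (sp_mono le_rfl Finset.subset_union_left) ?_
    intro a ha
    exact mem_sp (Finset.mem_union_right _ ha)
  · refine sp_le (le_sp.trans le_sp) ?_
    intro a ha
    rcases Finset.mem_union.1 ha with h | h
    · exact le_sp (mem_sp h)
    · exact mem_sp h

theorem sp_empty : sp cls U ∅ = U := by
  apply le_antisymm
  · exact sp_le le_rfl (by simp)
  · exact le_sp

theorem sp_insert_of_mem {ρ : Finset A} {a : A} (h : cls a ∈ sp cls U ρ) :
    sp cls U (insert a ρ) = sp cls U ρ := by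
  apply le_antisymm
  · refine sp_le le_sp ?_
    intro b hb
    rcases Finset.mem_insert.1 hb with rfl | hb
    · exact h
    · exact mem_sp hb
  · exact sp_mono le_rfl (Finset.subset_insert _ _)

theorem mem_nc {ρ : Finset A} {a : A} : a ∈ nc cls U ρ ↔ a ∈ ρ ∧ cls a ∈ sp cls U (ρ.erase a) := by
  classical
  unfold nc
  rw [Finset.mem_filter]

theorem nc_sub (ρ : Finset A) : nc cls U ρ ⊆ ρ := fun _ ha => (mem_nc.1 ha).1

theorem nc_mono (ρ ρ' : Finset A) (h : ρ ⊆ ρ') : nc cls U ρ ⊆ nc cls U ρ' := by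
  intro a ha
  rw [mem_nc] at ha ⊢
  exact ⟨h ha.1, sp_mono le_rfl (Finset.erase_subset_erase _ h) ha.2⟩

theorem nc_eq_empty_iff {ρ : Finset A} : nc cls U ρ = ∅ ↔ Ind cls U ρ := by
  constructor
  · intro h a ha h2
    have : a ∈ nc cls U ρ := mem_nc.2 ⟨ha, h2⟩
    rw [h] at this
    exact absurd this (Finset.notMem_empty a)
  · intro h
    rw [Finset.eq_empty_iff_forall_notMem]
    intro a ha
    rw [mem_nc] at ha
    exact h a ha.1 ha.2

/-- exchange -/
theorem exchange {W : Submodule ℚ V} {x y : V} (h : x ∈ W ⊔ Submodule.span ℚ {y}) (h2 : x ∉ W) :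
    y ∈ W ⊔ Submodule.span ℚ {x} := by
  rw [Submodule.mem_sup] at h ⊢
  obtain ⟨w, hw, z, hz, rfl⟩ := h
  obtain ⟨c, rfl⟩ := Submodule.mem_span_singleton.1 hz
  have hc : c ≠ 0 := by
    rintro rfl
    apply h2
    rw [zero_smul, add_zero]
    exact hw
  refine ⟨-(c⁻¹ • w), W.neg_mem (W.smul_mem _ hw), c⁻¹ • (w + c • y),
    Submodule.smul_mem _ _ (Submodule.mem_span_singleton_self _), ?_⟩
  rw [smul_add, smul_smul, inv_mul_cancel₀ hc, one_smul]
  abel

theorem sp_insert {ρ : Finset A} {a : A} :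
    sp cls U (insert a ρ) = sp cls U ρ ⊔ Submodule.span ℚ {cls a} := by
  apply le_antisymm
  · refine sp_le (le_sp.trans le_sup_left) ?_
    intro b hb
    rcases Finset.mem_insert.1 hb with rfl | hb
    · exact Submodule.mem_sup_right (Submodule.mem_span_singleton_self _)
    · exact Submodule.mem_sup_left (mem_sp hb)
  · refine sup_le (sp_mono le_rfl (Finset.subset_insert _ _)) ?_
    rw [Submodule.span_singleton_le_iff_mem]
    exact mem_sp (Finset.mem_insert_self _ _)

/-- coloops may be removed from a spanning set -/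
theorem mem_of_coloops {ρ κ : Finset A} (hκ : ∀ b ∈ κ, b ∈ ρ ∧ cls b ∉ sp cls U (ρ.erase b)) {a : A}
    (ha : a ∈ nc cls U ρ) : cls a ∈ sp cls U ((ρ.erase a) \ κ) := by
  induction κ using Finset.induction_on with
  | empty =>
    rw [Finset.sdiff_empty]
    exact (mem_nc.1 ha).2
  | insert b κ hb ih =>
    have h1 := ih fun c hc => hκ c (Finset.mem_insert_of_mem hc)
    by_contra h2
    obtain ⟨hbρ, hbc⟩ := hκ b (Finset.mem_insert_self _ _)
    have hab : b ≠ a := by
      rintro rfl
      exact hbc (mem_nc.1 ha).2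
    have h3 : (ρ.erase a) \ κ = insert b ((ρ.erase a) \ insert b κ) := by
      ext c
      simp only [Finset.mem_sdiff, Finset.mem_erase, Finset.mem_insert]
      constructor
      · rintro ⟨⟨h4, h5⟩, h6⟩
        by_cases hc : c = b
        · exact Or.inl hc
        · exact Or.inr ⟨⟨h4, h5⟩, fun h => h.elim hc h6⟩
      · rintro (rfl | ⟨h4, h5⟩)
        · exact ⟨⟨hab, hbρ⟩, hb⟩
        · exact ⟨h4, fun h => h5 (Or.inr h)⟩
    rw [h3, sp_insert] at h1
    have h4 := exchange h1 h2
    apply hbc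
    have h5 : sp cls U ((ρ.erase a) \ insert b κ) ⊔ Submodule.span ℚ {cls a} ≤ sp cls U (ρ.erase b) := by
      refine sup_le (sp_mono le_rfl ?_) ?_
      · intro c hc
        rw [Finset.mem_sdiff, Finset.mem_erase, Finset.mem_insert] at hc
        rw [Finset.mem_erase]
        exact ⟨fun h => hc.2 (Or.inl h), hc.1.2⟩
      · rw [Submodule.span_singleton_le_iff_mem]
        exact mem_sp (Finset.mem_erase.2 ⟨hab.symm, (mem_nc.1 ha).1⟩)
    exact h5 h4

theorem nc_nc (ρ : Finset A) : nc cls U (nc cls U ρ) = nc cls U ρ := by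
  apply Finset.Subset.antisymm (nc_sub _)
  intro a ha
  rw [mem_nc]
  refine ⟨ha, ?_⟩
  have h1 := mem_of_coloops (κ := ρ \ nc cls U ρ) (cls := cls) (U := U) (ρ := ρ) ?_ ha
  · refine sp_mono le_rfl ?_ h1
    intro c hc
    rw [Finset.mem_sdiff, Finset.mem_erase, Finset.mem_sdiff] at hc
    rw [Finset.mem_erase]
    refine ⟨hc.1.1, ?_⟩
    by_contra h
    exact hc.2 ⟨hc.1.2, h⟩
  · intro b hb
    rw [Finset.mem_sdiff] at hb
    refine ⟨hb.1, fun h => hb.2 (mem_nc.2 ⟨hb.1, h⟩)⟩

/-- the systems with given bad part -/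
theorem nc_union_iff {τ ρ : Finset A} (hτ : nc cls U τ = τ) (hd : Disjoint ρ τ) :
    nc cls U (τ ∪ ρ) = τ ↔ Ind cls (sp cls U τ) ρ := by
  have key : ∀ b ∈ ρ, sp cls U ((τ ∪ ρ).erase b) = sp cls (sp cls U τ) (ρ.erase b) := by
    intro b hb
    rw [sp_sp]
    congr 1
    rw [Finset.erase_union_distrib, Finset.erase_eq_of_notMem (Finset.disjoint_left.1 hd hb)]
  constructor
  · intro h b hb h2
    rw [← key b hb] at h2
    have h3 : b ∈ nc cls U (τ ∪ ρ) := mem_nc.2 ⟨Finset.mem_union_right _ hb, h2⟩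
    rw [h] at h3
    exact Finset.disjoint_left.1 hd hb h3
  · intro h
    apply Finset.Subset.antisymm
    · intro a ha
      rcases Finset.mem_union.1 (nc_sub _ ha) with h1 | h1
      · exact h1
      · exfalso
        have h2 := (mem_nc.1 ha).2
        rw [key a h1] at h2
        exact h a h1 h2
    · intro a ha
      have h1 : a ∈ nc cls U τ := by rwa [hτ]
      exact nc_mono _ _ Finset.subset_union_left h1

section
variable [FiniteDimensional ℚ V]

theorem finrank_quot_le {U U' : Submodule ℚ V} (h : U ≤ U') : finrank ℚ (V ⧸ U') ≤ finrank ℚ (V ⧸ U) := by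
  have h1 := Submodule.finrank_quotient_add_finrank U
  have h2 := Submodule.finrank_quotient_add_finrank U'
  have h3 := Submodule.finrank_mono h
  omega

theorem finrank_quot_lt {U U' : Submodule ℚ V} (h : U < U') : finrank ℚ (V ⧸ U') < finrank ℚ (V ⧸ U) := by
  have h1 := Submodule.finrank_quotient_add_finrank U
  have h2 := Submodule.finrank_quotient_add_finrank U'
  have h3 := Submodule.finrank_lt_finrank_of_lt h
  omega

theorem finrank_sup_span_le (W : Submodule ℚ V) (x : V) :
    finrank ℚ (V ⧸ W) ≤ finrank ℚ (V ⧸ (W ⊔ Submodule.span ℚ {x})) + 1 := by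
  have h1 := Submodule.finrank_quotient_add_finrank W
  have h2 := Submodule.finrank_quotient_add_finrank (W ⊔ Submodule.span ℚ {x})
  have h3 := Submodule.finrank_add_le_finrank_add_finrank W (Submodule.span ℚ {x})
  have h4 : finrank ℚ (Submodule.span ℚ {x}) ≤ 1 := by
    have h5 := finrank_span_le_card (R := ℚ) ({x} : Set V)
    simpa using h5
  omega

/-- a system of `k` arcs lowers the dimension by at most `k` -/
theorem finrank_sp_le (ρ : Finset A) :
    finrank ℚ (V ⧸ U) ≤ finrank ℚ (V ⧸ sp cls U ρ) + ρ.card := by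
  induction ρ using Finset.induction_on with
  | empty => rw [sp_empty, Finset.card_empty, add_zero]
  | insert a ρ ha ih =>
    rw [sp_insert, Finset.card_insert_of_notMem ha]
    have := finrank_sup_span_le (sp cls U ρ) (cls a)
    omega

/-- an independent system of `k` arcs lowers the dimension by `k` -/
theorem finrank_sp_ind {ρ : Finset A} (h : Ind cls U ρ) :
    finrank ℚ (V ⧸ U) = finrank ℚ (V ⧸ sp cls U ρ) + ρ.card := by
  induction ρ using Finset.induction_on with
  | empty => rw [sp_empty, Finset.card_empty, add_zero]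
  | insert a ρ ha ih =>
    have h1 : Ind cls U ρ := by
      intro b hb h2
      refine h b (Finset.mem_insert_of_mem hb) (sp_mono le_rfl ?_ h2)
      exact Finset.erase_subset_erase _ (Finset.subset_insert _ _)
    have h2 : cls a ∉ sp cls U ρ := by
      have := h a (Finset.mem_insert_self _ _)
      rwa [Finset.erase_insert ha] at this
    have h3 : sp cls U ρ < sp cls U (insert a ρ) := by
      refine lt_of_le_of_ne (sp_mono le_rfl (Finset.subset_insert _ _)) ?_
      intro h4
      apply h2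
      rw [h4]
      exact mem_sp (Finset.mem_insert_self _ _)
    have h4 := finrank_quot_lt h3
    have h5 := finrank_sup_span_le (sp cls U ρ) (cls a)
    rw [← sp_insert] at h5
    rw [Finset.card_insert_of_notMem ha, ih h1]
    omega

/-- a dependent system of `k` arcs lowers the dimension by at most `k - 1` -/
theorem finrank_sp_nc {τ : Finset A} (hne : τ.Nonempty) (hτ : nc cls U τ = τ) :
    finrank ℚ (V ⧸ U) ≤ finrank ℚ (V ⧸ sp cls U τ) + (τ.card - 1) := by
  obtain ⟨a, ha⟩ := hne
  have h1 : a ∈ nc cls U τ := by rwa [hτ]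
  have h2 := (mem_nc.1 h1).2
  have h3 : sp cls U τ = sp cls U (τ.erase a) := by
    conv_lhs => rw [← Finset.insert_erase ha]
    exact sp_insert_of_mem h2
  rw [h3, ← Finset.card_erase_of_mem ha]
  exact finrank_sp_le _

end

end TorH
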