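import Pool.Agent.Lib.MP_05cdf2_gt.H.HZero
import Pool.Agent.Lib.MP_05cdf2_gt.H.HDbl

/-! MP_05cdf2_gt, stream H (helper63): (H1), systems of allowed arcs, and its corollary (H), abstract form. (complete)

`al a` = the arc `a` is allowed; `As s` = nonempty systems of allowed arcs compatible with `s`, none of them in `s`;
`adm s` = the cut system `s` is admissible. Geometric input `hg`: for an admissible system `s` either `As s` is acyclic,
or for every nonempty system `l` of non allowed arcs compatible with `s` and independent modulo `s`: `As (s ∪ l)` is acyclic, or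
there is an allowed arc `a` with class in the span of `s ∪ l` such that `As (s ∪ l)` without `a` is acyclic, and `s ∪ l ∪ {a}` is
admissible. Conclusion: `As s` is `Ac (dim V / span s)`. -/

set_option autoImplicit false
set_option linter.unusedSectionVars false

namespace TorH
open Finsupp Tor TorA Module

variable {A V : Type} [DecidableEq A] [AddCommGroup V] [Module ℚ V]

/-- allowed systems compatible with `s`, disjoint from `s` -/
def As (C : A → A → Prop) (al : A → Prop) (s : Finset A) : Set (Finset A) :=
  {ρ | ρ.Nonempty ∧ Sy C (s ∪ ρ) ∧ ∀ a ∈ ρ, al a ∧ a ∉ s}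

/-- span of the classes of `s` -/
noncomputable abbrev Sn (cls : A → V) (s : Finset A) : Submodule ℚ V := sp cls ⊥ s

variable [FiniteDimensional ℚ V]

theorem H1 (C : A → A → Prop) (cls : A → V) (al : A → Prop) (adm : Finset A → Prop)
    (hwf : WellFounded (fun x y : Finset A => Sy C x ∧ y ⊂ x))
    (hflow : ∀ (s : Finset A) (U : Submodule ℚ V), Sy C s → U ≠ ⊤ → AcI (Po (Zs C cls s U)))
    (hg : ∀ s : Finset A, Sy C s → adm s → AcI (Po (As C al s)) ∨
      ∀ l : Finset A, l.Nonempty → Sy C (s ∪ l) → (∀ a ∈ l, ¬ al a) → Ind cls (Sn cls s) l →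
        AcI (Po (As C al (s ∪ l))) ∨
        ∃ a : A, a ∉ s ∪ l ∧ al a ∧ Sy C (insert a (s ∪ l)) ∧ cls a ∈ Sn cls (s ∪ l) ∧
          adm (insert a (s ∪ l)) ∧ AcI (Po {ρ | ρ ∈ As C al (s ∪ l) ∧ a ∉ ρ})) :
    ∀ (n : ℕ) (s : Finset A), Sy C s → adm s → finrank ℚ (V ⧸ Sn cls s) = n →
      Ac (Po (As C al s)) n := by
  intro n
  induction n using Nat.strong_induction_on with
  | _ n ih =>
    intro s hs hadm hn
    rcases hg s hs hadm with h | hg
    · exact h.ac n
    let T : Finset A → Finset A → Prop := fun l r =>
      Sy C (s ∪ (l ∪ r)) ∧ Ind cls (Sn cls s) l ∧ ∀ a ∈ r, al a ∧ a ∉ s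
    have hT : ∀ l l' r r', l ⊆ l' → r ⊆ r' → T l' r' → T l r := by
      intro l l' r r' h1 h2 h3
      exact ⟨h3.1.mono (Finset.union_subset_union_right (Finset.union_subset_union h1 h2)),
        h3.2.1.mono h1, fun a ha => h3.2.2 a (h2 ha)⟩
    have hInd0 : Ind cls (Sn cls s) ∅ := fun a ha => absurd ha (Finset.notMem_empty a)
    have hX : {r | r.Nonempty ∧ T ∅ r} = As C al s := by
      ext r
      constructor
      · rintro ⟨h1, h2, -, h3⟩
        rw [Finset.empty_union] at h2
        exact ⟨h1, h2, h3⟩
      · rintro ⟨h1, h2, h3⟩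
        refine ⟨h1, ?_, hInd0, h3⟩
        rw [Finset.empty_union]
        exact h2
    rw [← hX]
    refine dbl_ac hT ?_ ?_ ?_ ?_ ?_
    · refine Subrelation.wf ?_ hwf
      rintro x y ⟨h1, h2⟩
      refine ⟨h1.1.mono ?_, h2⟩
      intro a ha
      exact Finset.mem_union_right _ (Finset.mem_union_left _ ha)
    · refine Subrelation.wf ?_ hwf
      rintro x y ⟨h1, h2⟩
      refine ⟨h1.1.mono ?_, h2⟩
      intro a ha
      exact Finset.mem_union_right _ (Finset.mem_union_right _ ha)
    · have h1 : {l | l.Nonempty ∧ T l ∅} = Li C cls s (Sn cls s) := by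
        ext l
        constructor
        · rintro ⟨h1, h2, h3, -⟩
          rw [Finset.union_empty] at h2
          exact ⟨h1, h2, h3⟩
        · rintro ⟨h1, h2, h3⟩
          refine ⟨h1, ?_, h3, fun a ha => absurd ha (Finset.notMem_empty a)⟩
          rw [Finset.union_empty]
          exact h2
      rw [h1]
      exact H0 C cls hwf hflow n s _ hs hn
    · intro r hr hTr
      have h1 : {l | l.Nonempty ∧ T l r} = Li C cls (s ∪ r) (Sn cls s) := by
        ext l
        constructor
        · rintro ⟨h1, h2, h3, -⟩
          refine ⟨h1, ?_, h3⟩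
          rw [Finset.union_assoc, Finset.union_comm r l]
          exact h2
        · rintro ⟨h1, h2, h3⟩
          refine ⟨h1, ?_, h3, hTr.2.2⟩
          rw [Finset.union_assoc, Finset.union_comm r l] at h2
          exact h2
      rw [h1]
      refine H0 C cls hwf hflow n (s ∪ r) _ ?_ hn
      have h2 := hTr.1
      rwa [Finset.empty_union] at h2
    · intro l hl hTl
      have hsl : Sy C (s ∪ l) := by
        have h2 := hTl.1
        rwa [Finset.union_empty] at h2
      have hInd : Ind cls (Sn cls s) l := hTl.2.1
      by_cases hw : ∃ w ∈ l, al w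
      · obtain ⟨w, hwl, hwal⟩ := hw
        have hws : w ∉ s := fun h => hInd.notMem hwl (mem_sp h)
        refine ⟨n, by omega, AcI.ac ?_ n⟩
        refine AcI_of_up_down (fun x => insert w x) {w} ?_ ?_ ?_ ?_ ?_
        · refine ⟨Finset.singleton_nonempty w, ?_, hInd, ?_⟩
          · refine hsl.mono (Finset.union_subset_union_right ?_)
            intro a ha
            rcases Finset.mem_union.1 ha with h | h
            · exact h
            · rw [Finset.mem_singleton.1 h]
              exact hwl
          · intro a ha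
            rw [Finset.mem_singleton.1 ha]
            exact ⟨hwal, hws⟩
        · rintro x ⟨h1, h2, h3, h4⟩
          refine ⟨Finset.insert_nonempty _ _, ?_, h3, ?_⟩
          · refine h2.mono ?_
            intro a ha
            rcases Finset.mem_union.1 ha with h | h
            · exact Finset.mem_union_left _ h
            · refine Finset.mem_union_right _ ?_
              rcases Finset.mem_union.1 h with h | h
              · exact Finset.mem_union_left _ h
              · rcases Finset.mem_insert.1 h with rfl | h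
                · exact Finset.mem_union_left _ hwl
                · exact Finset.mem_union_right _ h
          · intro a ha
            rcases Finset.mem_insert.1 ha with rfl | h
            · exact ⟨hwal, hws⟩
            · exact h4 a h
        · intro x _ y _ hxy
          exact Finset.insert_subset_insert w hxy
        · intro x _
          exact Finset.subset_insert w x
        · intro x _
          exact Finset.singleton_subset_iff.2 (Finset.mem_insert_self w x)
      · push Not at hw
        have hY : {r | r.Nonempty ∧ T l r} = As C al (s ∪ l) := by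
          ext r
          constructor
          · rintro ⟨h1, h2, -, h4⟩
            refine ⟨h1, ?_, fun a ha => ⟨(h4 a ha).1, ?_⟩⟩
            · rw [Finset.union_assoc]
              exact h2
            · intro h
              rcases Finset.mem_union.1 h with h | h
              · exact (h4 a ha).2 h
              · exact hw a h (h4 a ha).1
          · rintro ⟨h1, h2, h4⟩
            refine ⟨h1, ?_, hInd, fun a ha => ⟨(h4 a ha).1, fun h => (h4 a ha).2 (Finset.mem_union_left _ h)⟩⟩
            rw [Finset.union_assoc] at h2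
            exact h2
        rw [hY]
        rcases hg l hl hsl hw hInd with h | ⟨a, ha1, ha2, ha3, ha4, ha5, ha6⟩
        · exact ⟨n, by omega, h.ac n⟩
        · have hdim : finrank ℚ (V ⧸ Sn cls s) = finrank ℚ (V ⧸ Sn cls (insert a (s ∪ l))) + l.card := by
            have h1 : Sn cls (insert a (s ∪ l)) = sp cls (Sn cls s) l := by
              unfold Sn
              rw [sp_insert_of_mem ha4, sp_sp]
            rw [h1]
            exact finrank_sp_ind hInd
          have hlc : 0 < l.card := Finset.card_pos.2 hl
          have h1 := ih _ (by omega) (insert a (s ∪ l)) ha3 ha5 rfl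
          refine ⟨finrank ℚ (V ⧸ Sn cls (insert a (s ∪ l))) + 1, by omega, ?_⟩
          let Q : Finset A → Prop := fun ρ => Sy C ((s ∪ l) ∪ ρ) ∧ ∀ b ∈ ρ, al b ∧ b ∉ s ∪ l
          have hQ : ∀ ρ ρ', ρ ⊆ ρ' → Q ρ' → Q ρ := fun ρ ρ' h2 h3 =>
            ⟨h3.1.mono (Finset.union_subset_union_right h2), fun b hb => h3.2 b (h2 hb)⟩
          have hwf' : WellFounded (fun x y : Finset A => Q x ∧ y ⊂ x) := by
            refine Subrelation.wf ?_ hwf
            rintro x y ⟨h2, h3⟩
            exact ⟨h2.1.mono Finset.subset_union_right, h3⟩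
          refine suspension hQ hwf' a ?_ ?_
          · have h2 : {ρ | ρ.Nonempty ∧ Q ρ ∧ a ∉ ρ} = {ρ | ρ ∈ As C al (s ∪ l) ∧ a ∉ ρ} := by
              ext ρ
              exact ⟨fun h => ⟨⟨h.1, h.2.1.1, h.2.1.2⟩, h.2.2⟩, fun h => ⟨h.1.1, ⟨h.1.2.1, h.1.2.2⟩, h.2⟩⟩
            rw [h2]
            exact ha6
          · have h2 : {ρ : Finset A | ρ.Nonempty ∧ a ∉ ρ ∧ Q (insert a ρ)} = As C al (insert a (s ∪ l)) := by
              ext ρ
              constructor
              · rintro ⟨h3, h4, h5, h6⟩
                refine ⟨h3, ?_, ?_⟩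
                · rw [Finset.insert_union, ← Finset.union_insert]
                  exact h5
                · intro b hb
                  refine ⟨(h6 b (Finset.mem_insert_of_mem hb)).1, ?_⟩
                  intro h7
                  rcases Finset.mem_insert.1 h7 with rfl | h7
                  · exact h4 hb
                  · exact (h6 b (Finset.mem_insert_of_mem hb)).2 h7
              · rintro ⟨h3, h4, h5⟩
                refine ⟨h3, fun h => (h5 a h).2 (Finset.mem_insert_self _ _), ?_, ?_⟩
                · rw [Finset.insert_union, ← Finset.union_insert] at h4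
                  exact h4
                · intro b hb
                  rcases Finset.mem_insert.1 hb with rfl | hb
                  · exact ⟨ha2, ha1⟩
                  · exact ⟨(h5 b hb).1, fun h => (h5 b hb).2 (Finset.mem_insert_of_mem h)⟩
            rw [h2]
            exact h1

/-- (H): allowed systems independent in a larger space `V'` (`π : V' → V` maps classes to classes); `ad` = admissible
systems -/
theorem H2 {V' : Type} [AddCommGroup V'] [Module ℚ V'] (C : A → A → Prop) (cls : A → V) (cls' : A → V')
    (π : V' →ₗ[ℚ] V) (hπ : ∀ a, π (cls' a) = cls a) (al : A → Prop) (ad : Finset A → Prop)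
    (had : ∀ s t : Finset A, ad s → Sy C (s ∪ t) → (∀ a ∈ t, al a) → ad (s ∪ t))
    (hwf : WellFounded (fun x y : Finset A => Sy C x ∧ y ⊂ x))
    (hA : ∀ s : Finset A, Sy C s → ad s → Ac (Po (As C al s)) (finrank ℚ (V ⧸ Sn cls s))) :
    ∀ s : Finset A, Sy C s → ad s →
      Ac (Po {ρ | ρ ∈ As C al s ∧ Ind cls' (Sn cls' s) ρ}) (finrank ℚ (V ⧸ Sn cls s)) := by
  have hmap : ∀ (t : Finset A), Submodule.map π (Sn cls' t) ≤ Sn cls t := by
    intro t
    rw [Submodule.map_le_iff_le_comap]
    refine sp_le bot_le ?_
    intro a ha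
    rw [Submodule.mem_comap, hπ]
    exact mem_sp ha
  intro s
  induction s using hwf.induction with
  | _ s ih =>
    intro hs hal
    let Q : Finset A → Prop := fun ρ => Sy C (s ∪ ρ) ∧ ∀ a ∈ ρ, al a ∧ a ∉ s
    have hQ : ∀ ρ ρ', ρ ⊆ ρ' → Q ρ' → Q ρ := fun ρ ρ' h h2 =>
      ⟨h2.1.mono (Finset.union_subset_union_right h), fun a ha => h2.2 a (h ha)⟩
    have hwf' : WellFounded (fun x y : Finset A => Q x ∧ y ⊂ x) := by
      refine Subrelation.wf ?_ hwf
      rintro x y ⟨h1, h2⟩
      exact ⟨h1.1.mono Finset.subset_union_right, h2⟩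
    have h1 := bad_ac hQ hwf' (nc cls' (Sn cls' s)) nc_sub nc_mono nc_nc
      (n := finrank ℚ (V ⧸ Sn cls s)) ?_ ?_
    · have h2 : {ρ | ρ ∈ As C al s ∧ Ind cls' (Sn cls' s) ρ} =
          {ρ | ρ.Nonempty ∧ Q ρ ∧ nc cls' (Sn cls' s) ρ = ∅} := by
        ext ρ
        constructor
        · rintro ⟨⟨h3, h4, h5⟩, h6⟩
          exact ⟨h3, ⟨h4, h5⟩, nc_eq_empty_iff.2 h6⟩
        · rintro ⟨h3, h4, h5⟩
          exact ⟨⟨h3, h4.1, h4.2⟩, nc_eq_empty_iff.1 h5⟩
      rw [h2]
      exact h1
    · exact hA s hs hal
    · intro τ hτne hτQ hτ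
      have hsτ : s ⊂ s ∪ τ := by
        rw [Finset.ssubset_iff_subset_ne]
        refine ⟨Finset.subset_union_left, ?_⟩
        intro h
        obtain ⟨a, ha⟩ := hτne
        have h3 : a ∈ s ∪ τ := Finset.mem_union_right _ ha
        rw [← h] at h3
        exact (hτQ.2 a ha).2 h3
      have hal' : ad (s ∪ τ) := had s τ hal hτQ.1 fun a ha => (hτQ.2 a ha).1
      have h3 := ih (s ∪ τ) ⟨hτQ.1, hsτ⟩ hτQ.1 hal'
      have hnc : nc cls (Sn cls s) τ = τ := by
        apply Finset.Subset.antisymm (nc_sub _)
        intro a ha
        have h4 : a ∈ nc cls' (Sn cls' s) τ := by rwa [hτ]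
        rw [mem_nc] at h4 ⊢
        refine ⟨ha, ?_⟩
        have h5 : π (cls' a) ∈ Submodule.map π (sp cls' (Sn cls' s) (τ.erase a)) :=
          Submodule.mem_map_of_mem h4.2
        rw [hπ] at h5
        have h6 : sp cls' (Sn cls' s) (τ.erase a) = Sn cls' (s ∪ τ.erase a) := sp_sp
        rw [h6] at h5
        have h7 : sp cls (Sn cls s) (τ.erase a) = Sn cls (s ∪ τ.erase a) := sp_sp
        rw [h7]
        exact hmap _ h5
      have h4 := finrank_sp_nc hτne hnc
      have h5 : sp cls (Sn cls s) τ = Sn cls (s ∪ τ) := sp_sp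
      rw [h5] at h4
      refine ⟨finrank ℚ (V ⧸ Sn cls (s ∪ τ)), by omega, ?_⟩
      have h6 : {ρ | ρ.Nonempty ∧ Disjoint ρ τ ∧ Q (τ ∪ ρ) ∧ nc cls' (Sn cls' s) (τ ∪ ρ) = τ} =
          {ρ | ρ ∈ As C al (s ∪ τ) ∧ Ind cls' (Sn cls' (s ∪ τ)) ρ} := by
        have h7 : sp cls' (Sn cls' s) τ = Sn cls' (s ∪ τ) := sp_sp
        ext ρ
        constructor
        · rintro ⟨h8, h9, h10, h11⟩
          refine ⟨⟨h8, ?_, ?_⟩, ?_⟩
          · rw [Finset.union_assoc]
            exact h10.1
          · intro a ha
            have h12 := h10.2 a (Finset.mem_union_right _ ha)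
            refine ⟨h12.1, ?_⟩
            intro h13
            rcases Finset.mem_union.1 h13 with h13 | h13
            · exact h12.2 h13
            · exact Finset.disjoint_left.1 h9 ha h13
          · rw [← h7]
            exact (nc_union_iff hτ h9).1 h11
        · rintro ⟨⟨h8, h9, h10⟩, h11⟩
          have h12 : Disjoint ρ τ := by
            rw [Finset.disjoint_left]
            intro a ha ha2
            exact (h10 a ha).2 (Finset.mem_union_right _ ha2)
          refine ⟨h8, h12, ⟨?_, ?_⟩, ?_⟩
          · rw [← Finset.union_assoc]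
            exact h9
          · intro a ha
            rcases Finset.mem_union.1 ha with h13 | h13
            · exact hτQ.2 a h13
            · exact ⟨(h10 a h13).1, fun h14 => (h10 a h13).2 (Finset.mem_union_left _ h14)⟩
          · rw [nc_union_iff hτ h12, h7]
            exact h11
      rw [h6]
      exact h3

end TorH
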