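import Pool.Agent.Lib.MP_05cdf2_gt.H.HBad
import Pool.Agent.Lib.MP_05cdf2_gt.H.HLin

/-! MP_05cdf2_gt, stream H (helper63): (H0), independent systems of arbitrary arcs. (complete)

`Zs C cls s U` = systems compatible with `s` all of whose classes are not in `U`; `Li C cls s U` = systems compatible with
`s` whose classes are independent modulo `U`. If all the `Zs` with `U ≠ ⊤` are acyclic then `Li C cls s U` is `Ac (dim V/U)`. -/

set_option autoImplicit false
set_option linter.unusedSectionVars false

namespace TorH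
open Finsupp Tor TorA Module

variable {A V : Type} [DecidableEq A] [AddCommGroup V] [Module ℚ V]

/-- systems compatible with `s`, no class in `U` -/
def Zs (C : A → A → Prop) (cls : A → V) (s : Finset A) (U : Submodule ℚ V) : Set (Finset A) :=
  {ρ | ρ.Nonempty ∧ Sy C (s ∪ ρ) ∧ ∀ a ∈ ρ, cls a ∉ U}

/-- systems compatible with `s`, independent modulo `U` -/
def Li (C : A → A → Prop) (cls : A → V) (s : Finset A) (U : Submodule ℚ V) : Set (Finset A) :=
  {ρ | ρ.Nonempty ∧ Sy C (s ∪ ρ) ∧ Ind cls U ρ}

theorem Ind.notMem {cls : A → V} {U : Submodule ℚ V} {ρ : Finset A} (h : Ind cls U ρ) {a : A}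
    (ha : a ∈ ρ) : cls a ∉ U := fun h2 => h a ha (le_sp h2)

theorem Ind.mono {cls : A → V} {U : Submodule ℚ V} {ρ ρ' : Finset A} (h : Ind cls U ρ') (h' : ρ ⊆ ρ') :
    Ind cls U ρ :=
  fun a ha h2 => h a (h' ha) (sp_mono le_rfl (Finset.erase_subset_erase _ h') h2)

variable [FiniteDimensional ℚ V]

theorem H0 (C : A → A → Prop) (cls : A → V)
    (hwf : WellFounded (fun x y : Finset A => Sy C x ∧ y ⊂ x))
    (hflow : ∀ (s : Finset A) (U : Submodule ℚ V), Sy C s → U ≠ ⊤ → AcI (Po (Zs C cls s U))) :
    ∀ (n : ℕ) (s : Finset A) (U : Submodule ℚ V), Sy C s → finrank ℚ (V ⧸ U) = n →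
      Ac (Po (Li C cls s U)) n := by
  intro n
  induction n using Nat.strong_induction_on with
  | _ n ih =>
    intro s U hs hn
    by_cases hU : U = ⊤
    · subst hU
      have h0 : finrank ℚ (V ⧸ (⊤ : Submodule ℚ V)) = 0 := by
        have h1 := Submodule.finrank_quotient_add_finrank (⊤ : Submodule ℚ V)
        rw [finrank_top] at h1
        omega
      rw [← hn, h0]
      exact Ac_zero _
    · have hZ := (hflow s U hs hU).ac n
      let Q : Finset A → Prop := fun ρ => Sy C (s ∪ ρ) ∧ ∀ a ∈ ρ, cls a ∉ U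
      have hQ : ∀ ρ ρ', ρ ⊆ ρ' → Q ρ' → Q ρ := fun ρ ρ' h h2 =>
        ⟨h2.1.mono (Finset.union_subset_union_right h), fun a ha => h2.2 a (h ha)⟩
      have hwf' : WellFounded (fun x y : Finset A => Q x ∧ y ⊂ x) := by
        refine Subrelation.wf ?_ hwf
        rintro x y ⟨h1, h2⟩
        exact ⟨h1.1.mono Finset.subset_union_right, h2⟩
      have h1 := bad_ac hQ hwf' (nc cls U) nc_sub nc_mono nc_nc (n := n) hZ ?_
      · have h2 : Li C cls s U = {ρ | ρ.Nonempty ∧ Q ρ ∧ nc cls U ρ = ∅} := by
          ext ρ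
          constructor
          · rintro ⟨h3, h4, h5⟩
            exact ⟨h3, ⟨h4, fun a ha => h5.notMem ha⟩, nc_eq_empty_iff.2 h5⟩
          · rintro ⟨h3, h4, h5⟩
            exact ⟨h3, h4.1, nc_eq_empty_iff.1 h5⟩
        rw [h2]
        exact h1
      · intro τ hτne hτQ hτ
        have hlt : finrank ℚ (V ⧸ sp cls U τ) < finrank ℚ (V ⧸ U) := by
          apply finrank_quot_lt
          refine lt_of_le_of_ne le_sp ?_
          intro h2
          obtain ⟨a, ha⟩ := hτne
          exact hτQ.2 a ha (h2 ▸ mem_sp ha)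
        have h2 := finrank_sp_nc hτne hτ (U := U)
        have h3 := ih _ (hn ▸ hlt) (s ∪ τ) (sp cls U τ) hτQ.1 rfl
        refine ⟨finrank ℚ (V ⧸ sp cls U τ), by omega, ?_⟩
        have h4 : {ρ | ρ.Nonempty ∧ Disjoint ρ τ ∧ Q (τ ∪ ρ) ∧ nc cls U (τ ∪ ρ) = τ} =
            Li C cls (s ∪ τ) (sp cls U τ) := by
          ext ρ
          constructor
          · rintro ⟨h5, h6, h7, h8⟩
            refine ⟨h5, ?_, (nc_union_iff hτ h6).1 h8⟩
            rw [Finset.union_assoc]
            exact h7.1
          · rintro ⟨h5, h6, h7⟩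
            have h8 : Disjoint ρ τ := by
              rw [Finset.disjoint_left]
              intro a ha ha2
              exact h7.notMem ha (mem_sp ha2)
            refine ⟨h5, h8, ⟨?_, ?_⟩, (nc_union_iff hτ h8).2 h7⟩
            · rw [← Finset.union_assoc]
              exact h6
            · intro a ha
              rcases Finset.mem_union.1 ha with h9 | h9
              · exact hτQ.2 a h9
              · exact fun h10 => h7.notMem h9 (le_sp h10)
        rw [h4]
        exact h3

end TorH
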