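import Pool.Agent.Lib.MP_05cdf2_gt.H.XFill
import Pool.Agent.Lib.MP_05cdf2_gt.H.HOne

/-! MP_05cdf2_gt, stream H (helper63): arcs with types, fat graph of a system. (complete)

`AD K Ω T`: `E` (region), `A` (base), background system `s0`, successor `bs` and predecessor `bp` (boundary arcs, in `s0`),
types `ty x y` = type of the chord `{x, y}` at `x`, heavy types `hv`. `al` = allowed arcs: not in `A`, the types at the ends are different
or heavy. `Nx X x y z`: `z` is the neighbour of `y` after `x` (rotation at `y`) for the finite set of arcs `X`. -/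

set_option autoImplicit false
set_option linter.unusedSectionVars false

namespace TorH
open TorM TorA

/-- region with typed bottoms -/
structure AD (K Ω T : Type) [Group K] [LinearOrder Ω] [CS K Ω] where
  E : Ω → Ω → Prop
  A : Ω → Ω → Prop
  hE : NE K E
  hA : NE K A
  sub : ∀ {x y}, A x y → E x y
  ty : Ω → Ω → T
  hv : T → Prop
  s0 : Finset (Arc K Ω)
  bs : Ω → Ω
  bp : Ω → Ω
  bs_ne : ∀ y, bs y ≠ y
  bp_ne : ∀ y, bp y ≠ y
  bs_first : ∀ y v, v ≠ y → v = bs y ∨ Cyc y (bs y) v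
  bp_last : ∀ y v, v ≠ y → v = bp y ∨ Cyc y v (bp y)
  bs_mem : ∀ y, arc K y (bs y) ∈ s0
  bp_mem : ∀ y, arc K y (bp y) ∈ s0
  bs_A : ∀ y, A y (bs y)
  bp_A : ∀ y, A y (bp y)
  T1 : ∀ p u v, E p u → E p v → ¬ A p u → ¬ A p v → (∀ c d, arc K c d ∈ s0 → ¬ Cr c d u v) → ty p u = ty p v
  T2 : ∀ p p' u, A p p' → E p u → ¬ A p u → ty p u = ty p' u
  T3 : ∀ (k : K) x y, ty (k • x) (k • y) = ty x y

variable {K Ω T : Type} [Group K] [LinearOrder Ω] [CS K Ω] (M : AD K Ω T)

/-- allowed chord -/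
def AD.ok (x y : Ω) : Prop := M.E x y ∧ ¬ M.A x y ∧ (M.ty x y ≠ M.ty y x ∨ M.hv (M.ty x y))

/-- allowed arc -/
def AD.al (a : Arc K Ω) : Prop := ∀ x y : Ω, TorH.arc K x y = a → M.ok x y

variable {M}

theorem NE.smul_iff {E : Ω → Ω → Prop} (hE : NE K E) (k : K) {x y : Ω} : E (k • x) (k • y) ↔ E x y := by
  constructor
  · intro h
    have := hE.smul k⁻¹ h
    rwa [inv_smul_smul, inv_smul_smul] at this
  · exact hE.smul k

theorem ok_smul (k : K) {x y : Ω} : M.ok (k • x) (k • y) ↔ M.ok x y := by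
  unfold AD.ok
  rw [M.hE.smul_iff, M.hA.smul_iff, M.T3, M.T3]

theorem ok_symm {x y : Ω} (h : M.ok x y) : M.ok y x := by
  refine ⟨M.hE.symm h.1, fun h' => h.2.1 (M.hA.symm h'), ?_⟩
  rcases h.2.2 with h' | h'
  · exact Or.inl h'.symm
  · by_cases he : M.ty x y = M.ty y x
    · exact Or.inr (he ▸ h')
    · exact Or.inl fun h => he h.symm

theorem al_mk {x y : Ω} : M.al (arc K x y) ↔ M.ok x y := by
  constructor
  · intro h
    exact h x y rfl
  · intro h x' y' h1
    rw [arc_eq] at h1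
    obtain ⟨k, ⟨h1, h2⟩ | ⟨h1, h2⟩⟩ := h1
    · rw [← h1, ← h2] at h
      exact (ok_smul k).1 h
    · rw [← h1, ← h2] at h
      exact ok_symm ((ok_smul k).1 h)

theorem al_in {a : Arc K Ω} (h : M.al a) : In M.E a := fun x y hxy => (h x y hxy).1

/-! combinatorics of the cyclic order -/

section
variable {α : Type} [LinearOrder α]

theorem cyc_ne {x y z : α} (h : Cyc x y z) : x ≠ y ∧ y ≠ z ∧ x ≠ z := by
  unfold Cyc at h
  grind

theorem cyc_tot {x y z : α} (h1 : x ≠ y) (h2 : y ≠ z) (h3 : x ≠ z) : Cyc x y z ∨ Cyc x z y := by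
  unfold Cyc
  grind

theorem cyc_as {x y z : α} (h : Cyc x y z) : ¬ Cyc x z y := by
  unfold Cyc at *
  grind

theorem cyc_tr {x a b c : α} (h : Cyc x a b) (h' : Cyc x b c) : Cyc x a c := by
  unfold Cyc at *
  grind

theorem cyc_rot {x y z : α} : Cyc x y z ↔ Cyc y z x := by
  unfold Cyc
  tauto

/-- a chord which crosses `{y, w}` but neither `{y, t}` nor `{t, w}` ends at `t` -/
theorem quad {y t w c d : α} (h : Cr c d y w) (h1 : ¬ Cr c d y t) (h2 : ¬ Cr c d t w) : c = t ∨ d = t := by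
  by_contra hcon
  push Not at hcon
  unfold Cr Cyc at *
  grind

end

/-! neighbours -/

/-- `z` is the neighbour of `y` after `x` -/
def Nx (X : Finset (Arc K Ω)) (x y z : Ω) : Prop :=
  z ≠ y ∧ arc K y z ∈ X ∧ ∀ v, v ≠ y → arc K y v ∈ X → ¬ (Cyc x v z ∨ (x = z ∧ v ≠ x))

theorem nb_finite (X : Finset (Arc K Ω)) (y : Ω) : {z : Ω | arc K y z ∈ X}.Finite := by
  have h : ∀ a ∈ X, {z : Ω | arc K y z = a}.Finite := by
    intro a _
    obtain ⟨p, q, rfl⟩ := arc_surj a
    have h1 : {k : K | k • p = y}.Finite := by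
      refine Set.Subsingleton.finite ?_
      intro k hk l hl
      exact cs_inj ((show k • p = y from hk).trans (show l • p = y from hl).symm)
    have h2 : {k : K | k • q = y}.Finite := by
      refine Set.Subsingleton.finite ?_
      intro k hk l hl
      exact cs_inj ((show k • q = y from hk).trans (show l • q = y from hl).symm)
    refine ((h1.image fun k => k • q).union (h2.image fun k => k • p)).subset ?_
    intro z hz
    have hz' : arc K y z = arc K p q := hz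
    rw [eq_comm, arc_eq] at hz'
    obtain ⟨k, ⟨h3, h4⟩ | ⟨h3, h4⟩⟩ := hz'
    · exact Or.inl ⟨k, h3, h4⟩
    · exact Or.inr ⟨k, h4, h3⟩
  refine (X.finite_toSet.biUnion h).subset ?_
  intro z hz
  rw [Set.mem_iUnion₂]
  exact ⟨arc K y z, hz, rfl⟩

theorem nx_smul {X : Finset (Arc K Ω)} (k : K) {x y z : Ω} (h : Nx X x y z) : Nx X (k • x) (k • y) (k • z) := by
  refine ⟨fun h' => h.1 (smul_left_cancel k h'), by rw [arc_smul]; exact h.2.1, ?_⟩
  intro v hv hvX hcon
  refine h.2.2 (k⁻¹ • v) ?_ ?_ ?_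
  · intro h'
    apply hv
    rw [← h', smul_inv_smul]
  · rw [← arc_smul k, smul_inv_smul]
    exact hvX
  · rcases hcon with hcon | ⟨h1, h2⟩
    · left
      rw [← cs_cyc k, smul_inv_smul]
      exact hcon
    · refine Or.inr ⟨smul_left_cancel k h1, ?_⟩
      intro h3
      apply h2
      rw [← h3, smul_inv_smul]

theorem nx_unique {X : Finset (Arc K Ω)} {x y z z' : Ω} (h : Nx X x y z) (h' : Nx X x y z') : z = z' := by
  by_contra hne
  have h1 := h.2.2 z' h'.1 h'.2.1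
  have h2 := h'.2.2 z h.1 h.2.1
  push Not at h1 h2
  have a1 : x ≠ z := fun hh => hne (by rw [← hh]; exact (h1.2 hh).symm)
  have a2 : x ≠ z' := fun hh => hne (by rw [← hh]; exact h2.2 hh)
  rcases cyc_tot a1 hne a2 with h3 | h3
  · exact h2.1 h3
  · exact h1.1 h3

theorem nx_inj {X : Finset (Arc K Ω)} {x x' y z : Ω} (hx : x ≠ y) (hxX : arc K y x ∈ X) (hx' : x' ≠ y)
    (hxX' : arc K y x' ∈ X) (h : Nx X x y z) (h' : Nx X x' y z) : x = x' := by
  by_contra hne
  have h1 := h.2.2 x' hx' hxX'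
  have h2 := h'.2.2 x hx hxX
  push Not at h1 h2
  have a1 : x ≠ z := fun hh => hne (h1.2 hh).symm
  have a2 : x' ≠ z := fun hh => hne (h2.2 hh)
  rcases cyc_tot hne a2 a1 with h3 | h3
  · exact h1.1 h3
  · exact h2.1 (cyc_rot.1 (cyc_rot.1 h3))

theorem nx_exists {X : Finset (Arc K Ω)} {x y : Ω} (hx : x ≠ y) (hxX : arc K y x ∈ X) : ∃ z, Nx X x y z := by
  classical
  by_cases h0 : ∃ v, v ≠ y ∧ v ≠ x ∧ arc K y v ∈ X
  · set W : Set Ω := {v | v ≠ y ∧ v ≠ x ∧ arc K y v ∈ X} with hW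
    have hfin : W.Finite := (nb_finite X y).subset fun v hv => hv.2.2
    obtain ⟨v0, hv0⟩ := h0
    obtain ⟨z, hz, hmin⟩ := Finset.exists_min_image hfin.toFinset (rp x)
      ((Set.Finite.toFinset_nonempty hfin).2 ⟨v0, hv0⟩)
    rw [Set.Finite.mem_toFinset] at hz
    refine ⟨z, hz.1, hz.2.2, ?_⟩
    intro v hv hvX hcon
    rcases hcon with hcon | ⟨h1, h2⟩
    · have hvx : v ≠ x := fun hh => (cyc_ne hcon).1 hh.symm
      have h3 := hmin v ((Set.Finite.mem_toFinset hfin).2 ⟨hv, hvx, hvX⟩)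
      have h4 := (cyc_rp hvx hz.2.1).1 hcon
      exact absurd h4 (not_lt.2 h3)
    · exact hz.2.1 h1.symm
  · push Not at h0
    refine ⟨x, hx, hxX, ?_⟩
    intro v hv hvX hcon
    rcases hcon with hcon | ⟨-, h2⟩
    · exact (cyc_ne hcon).2.2 rfl
    · exact h0 v hv h2 hvX

end TorH
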