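import Mathlib
import Pool.Agent.Lib.MP_05cdf2_gt.M.Zeta
import Pool.Agent.Lib.MP_05cdf2_gt.M.Fin
import Pool.Agent.Lib.MP_05cdf2_gt.K.Chord
import Pool.Agent.Lib.MP_05cdf2_gt.H.YDef

/-! MP_05cdf2_gt, stream H (helper63): no element of the free group translates the whole circle. (complete)

`bw`: the intervals `[k ^ (n + 1) x, k ^ n x)` do not cover `F g`. Otherwise let `v p` be the index of the interval which contains `p`.
`S h = ∑ v (q h)` over the `q` with `v q = 0` is a homomorphism `F g → ℤ`, hence `S ζ = 0`; but `S ζ = -1`, because `q ζ` is the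
successor of `q`. -/

set_option autoImplicit false
set_option linter.unusedSectionVars false

namespace TorH
open TorM

variable {g : ℕ}

theorem no_mid (x p : F g) : ¬ Cyc x p (x * zeta g) := by
  intro h
  have h1 : Cyc (x⁻¹ * x) (x⁻¹ * p) (x⁻¹ * (x * zeta g)) := (cyc_mul _ _ _ _).2 h
  rw [inv_mul_cancel, inv_mul_cancel_left] at h1
  have h2 := cyc_ne h1
  have h3 := zeta_le h2.1.symm
  have h4 := one_lt h2.1.symm
  have h5 := one_lt_zeta h2.1.symm
  unfold Cyc at h1
  grind

section
variable {α : Type} [LinearOrder α]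

theorem bw1 {a b c d p : α} (h1 : Cyc b p a) (h2 : Cyc d p c) (h3 : Cyc a d c) (_ : Cyc a d b) (h5 : b = c ∨ Cyc a c b) :
    False := by
  unfold Cyc at *
  grind

theorem bw2 {a b c d : α} (h2 : Cyc d b c) (h3 : Cyc a d c) (h4 : Cyc a d b) (h5 : b = c ∨ Cyc a c b) :
    False := by
  unfold Cyc at *
  grind

theorem bw3 {a b c d : α} (h2 : Cyc b d a) (h3 : Cyc a d c) (h4 : Cyc a d b) (h5 : b = c ∨ Cyc a c b) :
    False := by
  unfold Cyc at *
  grind

end

/-- distinct powers -/
theorem bw_ne {k x : F g} (mono : ∀ n m l : ℤ, n < m → m < l → Cyc (k ^ n * x) (k ^ l * x) (k ^ m * x)) {n m : ℤ}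
    (h : n < m) : k ^ n * x ≠ k ^ m * x := by
  have h1 := mono n m (m + 1) h (by omega)
  exact (cyc_ne h1).2.2

theorem bw (k x : F g) (mono : ∀ n m l : ℤ, n < m → m < l → Cyc (k ^ n * x) (k ^ l * x) (k ^ m * x))
    (cov : ∀ p, ∃ n : ℤ, p = k ^ n * x ∨ p = k ^ (n + 1) * x ∨ Cyc (k ^ (n + 1) * x) p (k ^ n * x)) : False := by
  classical
  -- the intervals
  obtain ⟨I, hI⟩ : ∃ I : ℤ → F g → Prop, ∀ n p, I n p ↔ (p = k ^ (n + 1) * x ∨ Cyc (k ^ (n + 1) * x) p (k ^ n * x)) :=
    ⟨_, fun _ _ => Iff.rfl⟩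
  have hex : ∀ p, ∃ n, I n p := by
    intro p
    obtain ⟨n, h | h | h⟩ := cov p
    · refine ⟨n - 1, (hI _ _).2 (Or.inl ?_)⟩
      rw [h]
      congr 2
      ring
    · exact ⟨n, (hI _ _).2 (Or.inl h)⟩
    · exact ⟨n, (hI _ _).2 (Or.inr h)⟩
  have hlt : ∀ p n m, n < m → I n p → I m p → False := by
    intro p n m hnm h1 h2
    rw [hI] at h1 h2
    have e1 := mono n m (m + 1) hnm (by omega)
    have e2 := mono n (n + 1) (m + 1) (by omega) (by omega)
    have e3 : k ^ (n + 1) * x = k ^ m * x ∨ Cyc (k ^ n * x) (k ^ m * x) (k ^ (n + 1) * x) := by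
      rcases (Int.add_one_le_of_lt hnm).eq_or_lt with h | h
      · left
        rw [h]
      · right
        exact mono n (n + 1) m (by omega) h
    rcases h1 with h1 | h1 <;> rcases h2 with h2 | h2
    · exact bw_ne mono (by omega : n + 1 < m + 1) (h1.symm.trans h2)
    · rw [h1] at h2
      exact bw2 h2 e1 e2 e3
    · rw [h2] at h1
      exact bw3 h1 e1 e2 e3
    · exact bw1 h1 h2 e1 e2 e3
  have huniq : ∀ p n m, I n p → I m p → n = m := by
    intro p n m h1 h2
    rcases lt_trichotomy n m with h | h | h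
    · exact absurd (hlt p n m h h1 h2) id
    · exact h
    · exact absurd (hlt p m n h h2 h1) id
  choose v hv using hex
  have hve : ∀ p n, I n p → v p = n := fun p n h => huniq p _ _ (hv p) h
  have hIk : ∀ (a n : ℤ) p, I n p → I (n + a) (k ^ a * p) := by
    intro a n p h
    rw [hI] at h ⊢
    have e1 : k ^ (n + a + 1) * x = k ^ a * (k ^ (n + 1) * x) := by
      rw [← mul_assoc, ← zpow_add]
      congr 2
      ring
    have e2 : k ^ (n + a) * x = k ^ a * (k ^ n * x) := by
      rw [← mul_assoc, ← zpow_add]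
      congr 2
      ring
    rw [e1, e2, cyc_mul]
    rcases h with h | h
    · exact Or.inl (by rw [h])
    · exact Or.inr h
  have hvk : ∀ (a : ℤ) p, v (k ^ a * p) = v p + a := fun a p => hve _ _ (hIk a _ p (hv p))
  have hvx : v x = -1 := by
    refine hve _ _ ((hI _ _).2 (Or.inl ?_))
    rw [neg_add_cancel, zpow_zero, one_mul]
  have hne : k ^ (1 : ℤ) * x ≠ x := by
    have := bw_ne mono (show (0 : ℤ) < 1 by omega)
    rw [zpow_zero, one_mul] at this
    exact this.symm
  have hv0 : ∀ q, v q = 0 ↔ (q = k ^ (1 : ℤ) * x ∨ Cyc (k ^ (1 : ℤ) * x) q x) := by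
    intro q
    have h1 : I 0 q ↔ (q = k ^ (1 : ℤ) * x ∨ Cyc (k ^ (1 : ℤ) * x) q x) := by
      rw [hI, zero_add, zpow_zero, one_mul]
    rw [← h1]
    constructor
    · intro h
      have := hv q
      rwa [h] at this
    · exact hve q 0
  -- finite support
  have hfin : ∀ h : F g, {q | v q = 0 ∧ v (q * h) ≠ 0}.Finite := by
    intro h
    refine (((Set.finite_singleton (k ^ (1 : ℤ) * x)).union (Set.finite_singleton (x * h⁻¹))).union
      (cr_finite (k ^ (1 : ℤ) * x) x h)).subset ?_
    rintro q ⟨h1, h2⟩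
    rw [hv0] at h1
    rw [Ne, hv0] at h2
    push Not at h2
    rcases h1 with h1 | h1
    · exact Or.inl (Or.inl h1)
    · by_cases h3 : q * h = x
      · exact Or.inl (Or.inr (by rw [← h3, mul_inv_cancel_right]; rfl))
      · right
        show Cr _ _ _ _
        have h4 := h2.1
        have h5 := h2.2
        generalize q * h = r at h3 h4 h5
        clear * - h1 h3 h4 h5 hne
        unfold Cr Cyc at *
        grind
  let A := {q : F g // v q = 0}
  have hsup : ∀ h : F g, (Function.support fun q : A => v (q.1 * h)).Finite := by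
    intro h
    have h1 := (hfin h).preimage (Subtype.val_injective (p := fun q => v q = 0)).injOn
    refine h1.subset ?_
    intro q hq
    exact ⟨q.2, hq⟩
  obtain ⟨S, hS⟩ : ∃ S : F g → ℤ, ∀ h, S h = ∑ᶠ q : A, v (q.1 * h) := ⟨_, fun _ => rfl⟩
  have hT : ∀ (h : F g) (q : F g), v (k ^ (-(v (q * h))) * (q * h)) = 0 := by
    intro h q
    rw [hvk]
    ring
  have hmul : ∀ h1 h2, S (h1 * h2) = S h1 + S h2 := by
    intro h1 h2
    let T : A ≃ A :=
      { toFun := fun q => ⟨k ^ (-(v (q.1 * h1))) * (q.1 * h1), hT h1 q.1⟩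
        invFun := fun q => ⟨k ^ (-(v (q.1 * h1⁻¹))) * (q.1 * h1⁻¹), hT h1⁻¹ q.1⟩
        left_inv := by
          intro q
          apply Subtype.ext
          show k ^ (-(v (k ^ (-(v (q.1 * h1))) * (q.1 * h1) * h1⁻¹))) * (k ^ (-(v (q.1 * h1))) * (q.1 * h1) * h1⁻¹) = q.1
          have e1 : k ^ (-(v (q.1 * h1))) * (q.1 * h1) * h1⁻¹ = k ^ (-(v (q.1 * h1))) * q.1 := by group
          rw [e1, hvk, q.2, ← mul_assoc, ← zpow_add]
          simp
        right_inv := by
          intro q
          apply Subtype.ext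
          show k ^ (-(v (k ^ (-(v (q.1 * h1⁻¹))) * (q.1 * h1⁻¹) * h1))) * (k ^ (-(v (q.1 * h1⁻¹))) * (q.1 * h1⁻¹) * h1) = q.1
          have e1 : k ^ (-(v (q.1 * h1⁻¹))) * (q.1 * h1⁻¹) * h1 = k ^ (-(v (q.1 * h1⁻¹))) * q.1 := by group
          rw [e1, hvk, q.2, ← mul_assoc, ← zpow_add]
          simp }
    have e1 : ∀ q : A, v (q.1 * (h1 * h2)) = v (q.1 * h1) + v ((T q).1 * h2) := by
      intro q
      show _ = v (q.1 * h1) + v (k ^ (-(v (q.1 * h1))) * (q.1 * h1) * h2)
      rw [mul_assoc (k ^ (-(v (q.1 * h1)))), hvk, mul_assoc]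
      ring
    rw [hS, hS, hS, ← finsum_comp_equiv T (f := fun q : A => v (q.1 * h2)), ← finsum_add_distrib (hsup h1)]
    · exact finsum_congr e1
    · exact (hsup h2).preimage T.injective.injOn
  let Φ : F g →* Multiplicative ℤ :=
    { toFun := fun h => Multiplicative.ofAdd (S h)
      map_one' := by
        have h1 := hmul 1 1
        rw [mul_one] at h1
        have h2 : S 1 = 0 := by omega
        rw [h2]
        rfl
      map_mul' := fun h1 h2 => by
        rw [hmul]
        rfl }
  have hz : S (zeta g) = 0 := by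
    have := map_zeta Φ
    exact Multiplicative.ofAdd.injective this
  -- the value at `ζ`
  have hq0 : v (x * (zeta g)⁻¹) = 0 := by
    rw [hv0]
    have e1 : x * (zeta g)⁻¹ * zeta g = x := by group
    have h1 := no_mid (x * (zeta g)⁻¹) (k ^ (1 : ℤ) * x)
    rw [e1] at h1
    by_cases h2 : x * (zeta g)⁻¹ = k ^ (1 : ℤ) * x
    · exact Or.inl h2
    · right
      have h3 : x * (zeta g)⁻¹ ≠ x := by
        intro h
        have h4 : zeta g = 1 := by simpa using h
        have h5 : ∀ y : F g, y = 1 := by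
          intro y
          by_contra hy
          have := one_lt_zeta hy
          rw [h4] at this
          exact lt_irrefl _ this
        exact hne (by rw [h5 (k ^ (1 : ℤ) * x), h5 x])
      clear * - h1 h2 h3 hne
      unfold Cyc at *
      grind
  have hval : ∀ q : A, q ≠ ⟨x * (zeta g)⁻¹, hq0⟩ → v (q.1 * zeta g) = 0 := by
    intro q hq
    have h1 := q.2
    rw [hv0] at h1 ⊢
    have h2 : q.1 * zeta g ≠ x := by
      intro h
      apply hq
      apply Subtype.ext
      show q.1 = x * (zeta g)⁻¹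
      rw [← h]
      group
    have h3 := no_mid q.1 x
    have h4 : q.1 ≠ x := by
      intro h
      have := q.2
      rw [h, hvx] at this
      omega
    generalize q.1 * zeta g = r at h2 h3
    clear * - h1 h2 h3 h4 hne
    unfold Cyc at *
    grind
  have hS1 : S (zeta g) = -1 := by
    rw [hS, finsum_eq_single _ (⟨x * (zeta g)⁻¹, hq0⟩ : A) hval]
    show v (x * (zeta g)⁻¹ * zeta g) = -1
    rw [show x * (zeta g)⁻¹ * zeta g = x by group]
    exact hvx
  omega

end TorH
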