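import Pool.Agent.Lib.MP_05cdf2_gt.H.WPoly

/-! MP_05cdf2_gt, stream H (helper63): a system has at most `3 |σ|` non degenerate arcs, `σ` a filling system. (complete)

`bound_fill`, `bound_sys`, `sys_wf`. -/

set_option autoImplicit false
set_option linter.unusedSectionVars false

namespace TorH
open TorM TorA Function

variable {K Ω : Type} [Group K] [LinearOrder Ω] [CS K Ω] {X : Finset (Arc K Ω)}

theorem pcG (X : Finset (Arc K Ω)) : Pc X ∅ (fun x y => GX X (x, y)) :=
  ⟨fun h => h, fun k _ _ h => GX.smul h k, fun _ hn => ⟨hn.1.symm, hn.2.1⟩, fun h _ => h.swap⟩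

theorem os_card (X : Finset (Arc K Ω)) : (pcG X).os.card ≤ 2 * X.card := by
  classical
  have h1 : (pcG X).os ⊆ X.image (fun a => oa K (rep a).1 (rep a).2) ∪ X.image (fun a => oa K (rep a).2 (rep a).1) := by
    intro o ho
    obtain ⟨x, y, rfl, hxy⟩ := (pcG X).os_ex ho
    have h2 := arc_rep (arc K x y)
    rw [arc_eq] at h2
    rw [Finset.mem_union, Finset.mem_image, Finset.mem_image]
    obtain ⟨k, h2 | h2⟩ := h2
    · exact Or.inl ⟨_, hxy.2, oa_eq.2 ⟨k, h2⟩⟩
    · exact Or.inr ⟨_, hxy.2, oa_eq.2 ⟨k, h2.2, h2.1⟩⟩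
  refine (Finset.card_le_card h1).trans ((Finset.card_union_le _ _).trans ?_)
  have h2 : (X.image (fun a => oa K (rep a).1 (rep a).2)).card ≤ X.card := Finset.card_image_le
  have h3 : (X.image (fun a => oa K (rep a).2 (rep a).1)).card ≤ X.card := Finset.card_image_le
  omega

/-- the face of an oriented arc -/
def Fc (X : Finset (Arc K Ω)) (u : OA K Ω) : Set (OA K Ω) :=
  {v | ∃ i, v = oa K ((nxp X)^[i] (orep u)).1 ((nxp X)^[i] (orep u)).2}

theorem fc_oa {x y : Ω} (h : GX X (x, y)) :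
    Fc X (oa K x y) = {v | ∃ i, v = oa K ((nxp X)^[i] (x, y)).1 ((nxp X)^[i] (x, y)).2} := by
  obtain ⟨k, hk⟩ := orep_eq (K := K) x y
  have hk' : orep (oa K x y) = k • (x, y) := hk
  unfold Fc
  rw [hk']
  have e : ∀ i, oa K ((nxp X)^[i] (k • (x, y))).1 ((nxp X)^[i] (k • (x, y))).2 =
      oa K ((nxp X)^[i] (x, y)).1 ((nxp X)^[i] (x, y)).2 := by
    intro i
    rw [nxp_iter_smul h]
    exact (oa_eq.2 ⟨k, rfl, rfl⟩).symm
  simp only [e]

theorem fc_iter {o : Ω × Ω} (h : GX X o) (hp : 0 < minimalPeriod (nxp X) o) (n : ℕ) :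
    Fc X (oa K ((nxp X)^[n] o).1 ((nxp X)^[n] o).2) = Fc X (oa K o.1 o.2) := by
  have h1 := nxp_iter_good h n
  rw [fc_oa (x := ((nxp X)^[n] o).1) (y := ((nxp X)^[n] o).2) h1, fc_oa (x := o.1) (y := o.2) h]
  ext v
  constructor
  · rintro ⟨i, rfl⟩
    refine ⟨i + n, ?_⟩
    rw [iterate_add_apply]
  · rintro ⟨i, rfl⟩
    obtain ⟨m, hm⟩ : ∃ m, i + m * minimalPeriod (nxp X) o = (i + m * minimalPeriod (nxp X) o - n) + n := by
      refine ⟨n, ?_⟩
      have : n ≤ n * minimalPeriod (nxp X) o := Nat.le_mul_of_pos_right _ hp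
      omega
    refine ⟨i + m * minimalPeriod (nxp X) o - n, ?_⟩
    have h2 : (nxp X)^[i + m * minimalPeriod (nxp X) o] o = (nxp X)^[i] o := by
      rw [iterate_add_apply]
      have h3 : IsPeriodicPt (nxp X) (m * minimalPeriod (nxp X) o) o :=
        (isPeriodicPt_minimalPeriod (nxp X) o).const_mul m
      rw [show (nxp X)^[m * minimalPeriod (nxp X) o] o = o from h3]
    rw [hm, iterate_add_apply] at h2
    have h4 : ((nxp X)^[i + m * minimalPeriod (nxp X) o - n] (((nxp X)^[n] o).1, ((nxp X)^[n] o).2)) =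
        (nxp X)^[i] (o.1, o.2) := h2
    rw [h4]

open Classical in
/-- oriented arcs of the closed faces with at least three sides -/
noncomputable def Oc (X : Finset (Arc K Ω)) : Finset (OA K Ω) :=
  (pcG X).os.filter fun u => 3 ≤ minimalPeriod (nxp X) (orep u)

theorem mem_Oc {x y : Ω} : oa K x y ∈ Oc X ↔ GX X (x, y) ∧ 3 ≤ minimalPeriod (nxp X) (x, y) := by
  unfold Oc
  rw [Finset.mem_filter, (pcG X).mem_os]
  refine and_congr_right fun h => ?_
  obtain ⟨k, hk⟩ := orep_eq (K := K) x y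
  have hk' : orep (oa K x y) = k • (x, y) := hk
  rw [hk', minPer_smul h]

theorem oc_fib (ht : NT K) {x y : Ω} (h : oa K x y ∈ Oc X) {n : ℕ} (hn : 0 < n) (hn2 : n ≤ 2) :
    oa K ((nxp X)^[n] (x, y)).1 ((nxp X)^[n] (x, y)).2 ≠ oa K x y := by
  obtain ⟨hG, h3⟩ := mem_Oc.1 h
  intro hcon
  rw [eq_comm, oa_eq] at hcon
  obtain ⟨k, h4, h5⟩ := hcon
  have h6 : (nxp X)^[n] (x, y) = k • (x, y) := Prod.ext h4.symm h5.symm
  have h7 : ∀ m : ℕ, ((nxp X)^[n])^[m] (x, y) = k ^ m • (x, y) := by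
    intro m
    induction m with
    | zero => rw [pow_zero, one_smul]; rfl
    | succ m ih =>
      rw [iterate_succ_apply', ih, nxp_iter_smul hG, h6, pow_succ, mul_smul]
  have h8 : IsPeriodicPt (nxp X) (n * minimalPeriod (nxp X) (x, y)) (x, y) :=
    (isPeriodicPt_minimalPeriod (nxp X) (x, y)).const_mul n
  have h9 : k ^ (minimalPeriod (nxp X) (x, y)) • (x, y) = (1 : K) • (x, y) := by
    rw [← h7, ← iterate_mul, one_smul]
    exact h8
  have h10 := ht _ _ (by omega) (pair_smul_inj h9)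
  rw [h10, one_smul] at h6
  have h11 : IsPeriodicPt (nxp X) n (x, y) := h6
  have := h11.minimalPeriod_le hn
  omega

theorem cl_card (ht : NT K) (X : Finset (Arc K Ω)) [DecidableEq (Set (OA K Ω))] :
    3 * ((Oc X).image (Fc X)).card ≤ 2 * X.card := by
  refine le_trans ?_ (os_card X)
  refine le_trans (Finset.mul_card_image_le_card (Oc X) 3 ?_) (Finset.card_le_card (Finset.filter_subset _ _))
  intro b hb
  obtain ⟨u, hu, rfl⟩ := Finset.mem_image.1 hb
  obtain ⟨⟨x, y⟩, hxy⟩ : ∃ t, orep u = t := ⟨_, rfl⟩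
  have hu' : oa K x y = u := by
    have := oa_rep u
    rwa [hxy] at this
  subst hu'
  have h1 := mem_Oc.1 hu
  have hmem : ∀ n, oa K ((nxp X)^[n] (x, y)).1 ((nxp X)^[n] (x, y)).2 ∈
      (Oc X).filter fun a => Fc X a = Fc X (oa K x y) := by
    intro n
    rw [Finset.mem_filter]
    refine ⟨mem_Oc.2 ⟨nxp_iter_good h1.1 n, ?_⟩, fc_iter h1.1 (by omega) n⟩
    have h2 : minimalPeriod (nxp X) ((nxp X)^[n] (x, y)) = minimalPeriod (nxp X) (x, y) :=
      minimalPeriod_apply_iterate (minimalPeriod_pos_iff_mem_periodicPts.1 (by omega)) n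
    have h3 : minimalPeriod (nxp X) (((nxp X)^[n] (x, y)).1, ((nxp X)^[n] (x, y)).2) =
        minimalPeriod (nxp X) (x, y) := h2
    rw [h3]
    exact h1.2
  have m0 := hmem 0
  have m1 := hmem 1
  have m2 := hmem 2
  have hne01 : oa K ((nxp X)^[1] (x, y)).1 ((nxp X)^[1] (x, y)).2 ≠ oa K x y := oc_fib ht hu one_pos one_le_two
  have hne02 : oa K ((nxp X)^[2] (x, y)).1 ((nxp X)^[2] (x, y)).2 ≠ oa K x y := oc_fib ht hu two_pos le_rfl
  have hne12 : oa K ((nxp X)^[2] (x, y)).1 ((nxp X)^[2] (x, y)).2 ≠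
      oa K ((nxp X)^[1] (x, y)).1 ((nxp X)^[1] (x, y)).2 := by
    have h2 := oc_fib (X := X) ht (Finset.mem_filter.1 m1).1 one_pos one_le_two
    exact h2
  have hsub : ({oa K x y, oa K ((nxp X)^[1] (x, y)).1 ((nxp X)^[1] (x, y)).2,
      oa K ((nxp X)^[2] (x, y)).1 ((nxp X)^[2] (x, y)).2} : Finset (OA K Ω)) ⊆
      (Oc X).filter fun a => Fc X a = Fc X (oa K x y) := by
    intro v hv
    rw [Finset.mem_insert, Finset.mem_insert, Finset.mem_singleton] at hv
    rcases hv with rfl | rfl | rfl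
    · exact m0
    · exact m1
    · exact m2
  refine le_trans (le_of_eq ?_) (Finset.card_le_card hsub)
  rw [Finset.card_insert_of_notMem, Finset.card_pair hne12.symm]
  rw [Finset.mem_insert, Finset.mem_singleton]
  rintro (h | h)
  · exact hne01 h.symm
  · exact hne02 h.symm

section lin
open Classical

/-- coordinates -/
noncomputable def evL (X : Finset (Arc K Ω)) (a : Arc K Ω) : (X → ℚ) →ₗ[ℚ] ℚ :=
  if h : a ∈ X then LinearMap.proj ⟨a, h⟩ else 0

noncomputable def jtL (X : Finset (Arc K Ω)) (x y : Ω) : (X → ℚ) →ₗ[ℚ] ℚ := sg K x y • evL X (arc K x y)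

theorem jtL_apply (j : X → ℚ) (x y : Ω) : jtL X x y j = jt (fun a => evL X a j) x y := by
  unfold jtL jt
  rw [LinearMap.smul_apply, smul_eq_mul, mul_comm]

noncomputable def fsL (X : Finset (Arc K Ω)) (o : Ω × Ω) : (X → ℚ) →ₗ[ℚ] ℚ :=
  ∑ i ∈ Finset.range (minimalPeriod (nxp X) o), jtL X ((nxp X)^[i] o).1 ((nxp X)^[i] o).2

theorem fsL_apply (j : X → ℚ) (o : Ω × Ω) : fsL X o j = fsum X (fun a => evL X a j) o := by
  unfold fsL fsum
  rw [LinearMap.sum_apply]
  exact Finset.sum_congr rfl fun i _ => jtL_apply j _ _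

theorem bound_fill (ht : NT K) {E : Ω → Ω → Prop} (hE : NE K E) (hX : Sy (CE E) X) (hXn : ∀ x : Ω, arc K x x ∉ X)
    (hf : Fi E X) {σ : Finset (Arc K Ω)} (hσ : Fi E σ) (hσE : ∀ a ∈ σ, In E a) : X.card ≤ 3 * σ.card := by
  have hcl := cl_card ht X
  -- choices
  have h1 : ∀ c : ((Oc X).image (Fc X) : Finset _), ∃ u, u ∈ Oc X ∧ Fc X u = c.1 :=
    fun c => Finset.mem_image.1 c.2
  choose uc huc1 huc2 using h1
  have h2 : ∀ a : σ, ∃ n, ∃ w : ℕ → Ω, w 0 = (rep a.1).1 ∧ w n = (rep a.1).2 ∧ ∀ i < n, GX X (w i, w (i + 1)) := by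
    intro a
    have h3 : E (rep a.1).1 (rep a.1).2 := hσE a.1 a.2 _ _ (arc_rep a.1)
    obtain ⟨n, s, w, h4, h5, h6, -⟩ := ps_of_gn hXn (fun _ => 0) (hf _ _ h3)
    exact ⟨n, w, h4, h5, h6⟩
  choose na wa hwa1 hwa2 hwa3 using h2
  set Φ : (X → ℚ) →ₗ[ℚ] ((((Oc X).image (Fc X) : Finset _) → ℚ) × (σ → ℚ)) :=
    (LinearMap.pi fun c => fsL X (orep (uc c))).prod
      (LinearMap.pi fun a => ∑ i ∈ Finset.range (na a), jtL X (wa a i) (wa a (i + 1))) with hΦ
  have hinj : Function.Injective Φ := by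
    rw [← LinearMap.ker_eq_bot, LinearMap.ker_eq_bot']
    intro j hj
    set J : Arc K Ω → ℚ := fun a => evL X a j with hJ
    have hj1 : ∀ c : ((Oc X).image (Fc X) : Finset _), fsum X J (orep (uc c)) = 0 := by
      intro c
      have h3 := congrFun (congrArg Prod.fst hj) c
      rw [← fsL_apply]
      exact h3
    have hj2 : ∀ a : σ, PS X J (na a) (rep a.1).1 (rep a.1).2 0 := by
      intro a
      have h3 := congrFun (congrArg Prod.snd hj) a
      refine ⟨wa a, hwa1 a, hwa2 a, hwa3 a, ?_⟩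
      have h4 : (∑ i ∈ Finset.range (na a), jtL X (wa a i) (wa a (i + 1))) j = 0 := h3
      rw [LinearMap.sum_apply] at h4
      rw [← h4]
      exact Finset.sum_congr rfl fun i _ => (jtL_apply j _ _)
    have hfs : ∀ o, GX X o → 3 ≤ minimalPeriod (nxp X) o → fsum X J o = 0 := by
      rintro ⟨x, y⟩ ho h3
      have h4 : oa K x y ∈ Oc X := mem_Oc.2 ⟨ho, h3⟩
      have h5 : Fc X (oa K x y) ∈ (Oc X).image (Fc X) := Finset.mem_image_of_mem _ h4
      have h6 := huc1 ⟨_, h5⟩
      have h7 : Fc X (uc ⟨_, h5⟩) = Fc X (oa K x y) := huc2 ⟨_, h5⟩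
      have h8 : oa K x y ∈ Fc X (uc ⟨_, h5⟩) := by
        rw [h7, fc_oa ho]
        exact ⟨0, rfl⟩
      obtain ⟨i, hi⟩ := h8
      rw [eq_comm, oa_eq] at hi
      obtain ⟨k, hk1, hk2⟩ := hi
      obtain ⟨⟨p, q⟩, hpq⟩ : ∃ t, orep (uc ⟨_, h5⟩) = t := ⟨_, rfl⟩
      have h9 := hj1 ⟨_, h5⟩
      have h10 : oa K p q ∈ Oc X := by
        have h11 := oa_rep (uc ⟨_, h5⟩)
        rw [hpq] at h11
        have h12 : oa K p q = uc ⟨_, h5⟩ := h11
        rw [h12]
        exact h6
      rw [hpq] at h9 hk1 hk2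
      have h11 := mem_Oc.1 h10
      have h12 : (x, y) = k • (nxp X)^[i] (p, q) := Prod.ext hk1.symm hk2.symm
      rw [h12, fsum_smul _ (nxp_iter_good h11.1 i), fsum_iter _ (by omega)]
      exact h9
    have hcz := closed_zero ht (CE.co hX) hfs
    have hz : ∀ x y, E x y → ∃ n, PS X J n x y 0 := by
      intro x y hxy
      have h3 := hσ x y hxy
      induction h3 with
      | refl => exact ⟨0, PS.nil _⟩
      | @tail b c h3 h4 ih =>
        obtain ⟨n, hn⟩ := ih (Gn.isIn hE hσE h3)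
        have h5 : ∃ m, PS X J m b c 0 := by
          have h6 := hj2 ⟨_, h4⟩
          have h7 := arc_rep (arc K b c)
          rw [arc_eq] at h7
          obtain ⟨k, ⟨h8, h9⟩ | ⟨h8, h9⟩⟩ := h7
          · have h10 := h6.smul k
            rw [h8, h9] at h10
            exact ⟨_, h10⟩
          · have h10 := (h6.smul k).symm ht
            rw [h8, h9, neg_zero] at h10
            exact ⟨_, h10⟩
        obtain ⟨m, hm⟩ := h5
        refine ⟨n + m, ?_⟩
        have := hn.trans hm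
        rwa [add_zero] at this
    funext ⟨a, ha⟩
    obtain ⟨⟨x, y⟩, hxy⟩ : ∃ t, rep a = t := ⟨_, rfl⟩
    have hmk := arc_rep a
    rw [hxy] at hmk
    simp only at hmk
    have hne : x ≠ y := by
      rintro rfl
      exact hXn x (hmk ▸ ha)
    have hG : GX X (x, y) := ⟨hne, by rw [hmk]; exact ha⟩
    obtain ⟨n, hn⟩ := hz x y (CE.isIn hX ha _ _ hmk)
    have h3 := hcz _ _ _ ((PS.single hG).trans (hn.symm ht))
    rw [neg_zero, add_zero] at h3
    unfold jt at h3
    have h4 := (mul_eq_zero.1 h3).resolve_right (sg_ne _ _)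
    rw [hmk, hJ] at h4
    simp only [evL, dif_pos ha, LinearMap.proj_apply] at h4
    exact h4
  have h3 := LinearMap.finrank_le_finrank_of_injective hinj
  rw [Module.finrank_prod, Module.finrank_fintype_fun_eq_card, Module.finrank_fintype_fun_eq_card,
    Module.finrank_fintype_fun_eq_card, Fintype.card_coe, Fintype.card_coe, Fintype.card_coe] at h3
  omega

/-- bound for all systems without degenerate arcs -/
theorem bound_sys (ht : NT K) {E : Ω → Ω → Prop} (hE : NE K E) {σ : Finset (Arc K Ω)} (hσ : Sy (CE E) σ)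
    (hσf : Fi E σ) (hX : Sy (CE E) X) (hXn : ∀ x : Ω, arc K x x ∉ X) : X.card ≤ 3 * σ.card := by
  obtain ⟨σ', h1, h2⟩ := fill_ext hE hX hσ hσf
  set Y : Finset (Arc K Ω) := (X ∪ σ').filter fun a => ∀ x : Ω, arc K x x ≠ a with hY
  have hYs : Sy (CE E) Y := h1.mono (Finset.filter_subset _ _)
  have hYn : ∀ x : Ω, arc K x x ∉ Y := by
    intro x hx
    exact (Finset.mem_filter.1 hx).2 x rfl
  have hYf : Fi E Y := by
    intro x y hxy
    have h3 := h2 x y hxy
    induction h3 with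
    | refl => exact Relation.ReflTransGen.refl
    | @tail b c h3 h4 ih =>
      have hxb : E x b := Gn.isIn hE (fun a ha => CE.isIn h1 (Finset.mem_union_right _ ha)) h3
      by_cases hbc : b = c
      · rw [← hbc]
        exact ih hxb
      · refine (ih hxb).tail ?_
        rw [hY, Finset.mem_filter]
        refine ⟨Finset.mem_union_right _ h4, ?_⟩
        intro z hz
        rw [arc_eq] at hz
        obtain ⟨k, ⟨h5, h6⟩ | ⟨h5, h6⟩⟩ := hz
        · exact hbc (h5.symm.trans h6)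
        · exact hbc (h6.symm.trans h5)
  have hXY : X ⊆ Y := by
    intro a ha
    rw [hY, Finset.mem_filter]
    refine ⟨Finset.mem_union_left _ ha, ?_⟩
    rintro x rfl
    exact hXn x ha
  exact (Finset.card_le_card hXY).trans (bound_fill ht hE hYs hYn hYf hσf fun a ha => CE.isIn hσ ha)

/-- the systems are well founded -/
theorem sys_wf (ht : NT K) {E : Ω → Ω → Prop} (hE : NE K E) {σ : Finset (Arc K Ω)} (hσ : Sy (CE E) σ)
    (hσf : Fi E σ) {P : Finset Ω} (hP : ∀ x : Ω, ∃ k : K, k • x ∈ P) :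
    WellFounded (fun x y : Finset (Arc K Ω) => Sy (CE E) x ∧ y ⊂ x) := by
  have hb : ∀ x : Finset (Arc K Ω), Sy (CE E) x → x.card ≤ 3 * σ.card + P.card := by
    intro x hx
    have h1 := Finset.card_filter_add_card_filter_not (s := x) (fun a => ∀ y : Ω, arc K y y ≠ a)
    have h2 : (x.filter fun a => ∀ y : Ω, arc K y y ≠ a).card ≤ 3 * σ.card := by
      refine bound_sys ht hE hσ hσf (hx.mono (Finset.filter_subset _ _)) ?_
      intro y hy
      exact (Finset.mem_filter.1 hy).2 y rfl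
    have h3 : (x.filter fun a => ¬ ∀ y : Ω, arc K y y ≠ a).card ≤ P.card := by
      refine le_trans (Finset.card_le_card ?_) (Finset.card_image_le (s := P) (f := fun y => arc K y y))
      intro a ha
      have h4 := (Finset.mem_filter.1 ha).2
      push Not at h4
      obtain ⟨y, rfl⟩ := h4
      obtain ⟨k, hk⟩ := hP y
      exact Finset.mem_image.2 ⟨_, hk, arc_smul k y y⟩
    omega
  refine Subrelation.wf (r := InvImage (· < ·) fun x : Finset (Arc K Ω) => 3 * σ.card + P.card - x.card) ?_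
    (InvImage.wf _ wellFounded_lt)
  rintro x y ⟨h1, h2⟩
  have h3 := Finset.card_lt_card h2
  have h4 := hb x h1
  show 3 * σ.card + P.card - x.card < 3 * σ.card + P.card - y.card
  omega

end lin

end TorH
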