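import Pool.Agent.Lib.MP_05cdf2_gt.H.WNext
import Pool.Agent.Lib.MP_05cdf2_gt.K.Poly
import Pool.Agent.Lib.MP_05cdf2_gt.L.GP

/-! MP_05cdf2_gt, stream H (helper63): chains of chords around a face with infinite stabiliser. (complete)

`Ch X W`: `W : ℤ → Ω` walks around a piece of the complement of `X`, clockwise, without returning. `Ch.side`, `Ch.mono`: positions.
`ch_of`: a closed walk with period `k ≠ 1` gives a chain. -/

set_option autoImplicit false
set_option linter.unusedSectionVars false

namespace TorH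
open TorM TorA

section
variable {α : Type} [LinearOrder α]

theorem ch1 {a b c d : α} (h1 : Cyc b d c) (_ : Cyc a c b) (h3 : Cyc a d b) (_ : Cyc a d c ∨ Cyc a c d) : Cyc a d c := by
  unfold Cyc at *
  grind

theorem ch2 {y x z z' : α} (h1 : Cyc x z z') (h2 : Cyc y x z') : Cyc y x z ∧ ¬ Cyc y z' z := by
  unfold Cyc at *
  grind

end

variable {K Ω : Type} [Group K] [LinearOrder Ω] [CS K Ω] {X : Finset (Arc K Ω)}

/-- a chain of chords of `X` around a face -/
structure Ch (X : Finset (Arc K Ω)) (W : ℤ → Ω) : Prop where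
  nx : ∀ i, Nx X (W i) (W (i + 1)) (W (i + 2))
  ne : ∀ i, W i ≠ W (i + 1)
  mem : ∀ i, arc K (W i) (W (i + 1)) ∈ X
  cw : ∀ i, Cyc (W i) (W (i + 2)) (W (i + 1))
  inj : Function.Injective W

theorem Ch.side (hX : Sy Co X) {W : ℤ → Ω} (h : Ch X W) {i j : ℤ} (h1 : j ≠ i) (h2 : j ≠ i + 1) :
    Cyc (W i) (W j) (W (i + 1)) := by
  have hcr : ∀ a b : ℤ, ¬ Cr (W a) (W (a + 1)) (W b) (W (b + 1)) := fun a b =>
    sy_co_iff (fun _ _ h => h) hX (h.mem a) (h.mem b)
  rcases lt_or_gt_of_ne h1 with h3 | h3
  · have h4 := path_side (p := W i) (q := W (i + 1)) (fun m : ℕ => W (i - 1 - m)) (i - 1 - j).toNat ?_ ?_ ?_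
    · have e1 : W (i - 1 - ((0 : ℕ) : ℤ)) = W (i - 1) := by rw [Nat.cast_zero, sub_zero]
      have e2 : i - 1 - (((i - 1 - j).toNat : ℕ) : ℤ) = j := by omega
      simp only [e1, e2] at h4
      rw [← h4]
      have h5 := h.cw (i - 1)
      rw [show i - 1 + 2 = i + 1 by ring, show i - 1 + 1 = i by ring] at h5
      exact cyc_rot.1 (cyc_rot.1 h5)
    · intro m _ hc
      have e3 : i - 1 - ((m + 1 : ℕ) : ℤ) + 1 = i - 1 - (m : ℤ) := by push_cast; ring
      have h5 := hcr i (i - 1 - ((m + 1 : ℕ) : ℤ))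
      rw [e3] at h5
      exact h5 (cr_swap2.1 hc)
    · intro m _ he
      have := h.inj he
      omega
    · intro m _ he
      have := h.inj he
      omega
  · have h4 := path_side (p := W i) (q := W (i + 1)) (fun m : ℕ => W (i + 2 + m)) (j - (i + 2)).toNat ?_ ?_ ?_
    · have e1 : W (i + 2 + ((0 : ℕ) : ℤ)) = W (i + 2) := by rw [Nat.cast_zero, add_zero]
      have e2 : i + 2 + (((j - (i + 2)).toNat : ℕ) : ℤ) = j := by omega
      simp only [e1, e2] at h4
      rw [← h4]
      exact h.cw i
    · intro m _ hc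
      have e3 : i + 2 + ((m + 1 : ℕ) : ℤ) = i + 2 + (m : ℤ) + 1 := by push_cast; ring
      rw [e3] at hc
      exact hcr _ _ hc
    · intro m _ he
      have := h.inj he
      omega
    · intro m _ he
      have := h.inj he
      omega

theorem Ch.mono (hX : Sy Co X) {W : ℤ → Ω} (h : Ch X W) {i j l : ℤ} (hij : i < j) (hjl : j < l) :
    Cyc (W i) (W l) (W j) := by
  obtain ⟨n, rfl⟩ : ∃ n : ℕ, j = i + 1 + n := ⟨(j - (i + 1)).toNat, by omega⟩
  clear hij
  induction n generalizing l with
  | zero =>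
    rw [Nat.cast_zero, add_zero] at hjl ⊢
    exact h.side hX (by omega) (by omega)
  | succ n ih =>
    have e : i + 1 + ((n + 1 : ℕ) : ℤ) = i + 1 + (n : ℤ) + 1 := by push_cast; ring
    rw [e] at hjl ⊢
    have h1 : Cyc (W (i + 1 + n)) (W l) (W (i + 1 + n + 1)) := h.side hX (by omega) (by omega)
    have h2 : Cyc (W i) (W (i + 1 + n + 1)) (W (i + 1 + n)) := ih (by omega)
    have h3 : Cyc (W i) (W l) (W (i + 1 + n)) := ih (by omega)
    refine ch1 h1 h2 h3 (cyc_tot ?_ ?_ ?_)
    · intro he
      have := h.inj he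
      omega
    · intro he
      have := h.inj he
      omega
    · intro he
      have := h.inj he
      omega

/-- a closed walk with a non trivial period does not return -/
theorem ch_inj (ht : NT K) (hX : Sy Co X) {W : ℤ → Ω} (nx : ∀ i, Nx X (W i) (W (i + 1)) (W (i + 2)))
    (ne : ∀ i, W i ≠ W (i + 1)) (mem : ∀ i, arc K (W i) (W (i + 1)) ∈ X)
    (cw : ∀ i, Cyc (W i) (W (i + 2)) (W (i + 1))) {k : K} (hk : k ≠ 1) {N : ℤ}
    (hper : ∀ i, W (i + N) = k • W i) : Function.Injective W := by
  classical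
  by_contra hinj
  have hex : ∃ d : ℕ, 0 < d ∧ ∃ i : ℤ, W i = W (i + d) := by
    unfold Function.Injective at hinj
    push Not at hinj
    obtain ⟨a, b, h1, h2⟩ := hinj
    rcases lt_or_gt_of_ne h2 with h3 | h3
    · exact ⟨(b - a).toNat, by omega, a, by rw [h1]; congr 1; omega⟩
    · exact ⟨(a - b).toNat, by omega, b, by rw [← h1]; congr 1; omega⟩
  obtain ⟨hd0, i, hi⟩ := Nat.find_spec hex
  have hmin : ∀ m < Nat.find hex, ¬ (0 < m ∧ ∃ i : ℤ, W i = W (i + m)) := fun m hm => Nat.find_min hex hm
  generalize Nat.find hex = d at hd0 hi hmin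
  have hdist : ∀ a b : ℤ, a < b → b < a + d → W a ≠ W b := by
    intro a b h1 h2 h3
    refine hmin (b - a).toNat (by omega) ⟨by omega, a, ?_⟩
    rw [h3]
    congr 1
    omega
  have hd1 : d ≠ 1 := by
    rintro rfl
    exact ne i (by rw [hi]; rfl)
  have hd2 : d ≠ 2 := by
    rintro rfl
    exact (cyc_ne (cw i)).1 (by rw [hi]; rfl)
  have hcr : ∀ a b c : ℤ, ∀ v, arc K (W a) v ∈ X → c = b + 1 → ¬ Cr (W a) v (W b) (W c) := by
    rintro a b c v h1 rfl
    exact sy_co_iff (fun _ _ h => h) hX h1 (mem b)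
  have key : W (i + d + 1) = W (i + 1) := by
    by_contra hne
    set y := W i with hy
    set x := W (i + d - 1) with hx
    set z := W (i + d + 1) with hz
    set z' := W (i + 1) with hz'
    have hn : Nx X x y z := by
      have := nx (i + d - 1)
      rw [show i + (d : ℤ) - 1 + 1 = i + d by ring, show i + (d : ℤ) - 1 + 2 = i + d + 1 by ring, ← hi] at this
      exact this
    have hxz' : x ≠ z' := (hdist (i + 1) (i + d - 1) (by omega) (by omega)).symm
    have h1 : ¬ (Cyc x z' z ∨ (x = z ∧ z' ≠ x)) := hn.2.2 z' (ne i).symm (mem i)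
    push Not at h1
    have h2 : x ≠ z := fun he => hxz' (h1.2 he).symm
    have h3 : Cyc x z z' := (cyc_tot h2 hne hxz').resolve_right h1.1
    have h4 : Cyc y x z' := by
      have h5 := path_side (p := y) (q := z') (fun m : ℕ => W (i + 2 + m)) (d - 3) ?_ ?_ ?_
      · have e1 : W (i + 2 + ((0 : ℕ) : ℤ)) = W (i + 2) := by rw [Nat.cast_zero, add_zero]
        have e2 : i + 2 + ((d - 3 : ℕ) : ℤ) = i + d - 1 := by omega
        simp only [e1, e2] at h5
        exact h5.1 (cw i)
      · intro m _ hc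
        refine hcr i (i + 2 + m) (i + 2 + ((m + 1 : ℕ) : ℤ)) _ (mem i) ?_ hc
        push_cast
        ring
      · intro m hm he
        exact hdist i (i + 2 + m) (by omega) (by omega) he.symm
      · intro m hm he
        exact hdist (i + 1) (i + 2 + m) (by omega) (by omega) he.symm
    have h5 := ch2 h3 h4
    have h6 := path_side (p := y) (q := z) (fun m : ℕ => W (i + 1 + m)) (d - 2) ?_ ?_ ?_
    · have e1 : W (i + 1 + ((0 : ℕ) : ℤ)) = z' := by rw [Nat.cast_zero, add_zero]
      have e2 : i + 1 + ((d - 2 : ℕ) : ℤ) = i + d - 1 := by omega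
      simp only [e1, e2] at h6
      exact h5.2 (h6.2 h5.1)
    · intro m _ hc
      have hm : arc K y z ∈ X := hn.2.1
      refine hcr i (i + 1 + m) (i + 1 + ((m + 1 : ℕ) : ℤ)) z hm ?_ hc
      push_cast
      ring
    · intro m hm he
      exact hdist i (i + 1 + m) (by omega) (by omega) he.symm
    · intro m hm he
      rcases Nat.eq_zero_or_pos m with rfl | hm0
      · rw [Nat.cast_zero, add_zero] at he
        exact hne he.symm
      · refine hmin (d - m) (by omega) ⟨by omega, i + 1 + m, ?_⟩
        rw [he]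
        show W (i + d + 1) = _
        congr 1
        omega
  have hall : ∀ m : ℕ, W (i + d + m) = W (i + m) := by
    have h2 : ∀ m : ℕ, W (i + d + m) = W (i + m) ∧ W (i + d + m + 1) = W (i + m + 1) := by
      intro m
      induction m with
      | zero =>
        rw [Nat.cast_zero, add_zero, add_zero]
        exact ⟨hi.symm, key⟩
      | succ m ih =>
        have e1 : i + (d : ℤ) + ((m + 1 : ℕ) : ℤ) = i + d + m + 1 := by push_cast; ring
        have e2 : i + ((m + 1 : ℕ) : ℤ) = i + m + 1 := by push_cast; ring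
        rw [e1, e2]
        refine ⟨ih.2, ?_⟩
        have n1 := nx (i + d + m)
        have n2 := nx (i + m)
        rw [ih.1, ih.2] at n1
        have e3 : i + (d : ℤ) + m + 1 + 1 = i + d + m + 2 := by ring
        have e4 : i + (m : ℤ) + 1 + 1 = i + m + 2 := by ring
        rw [e3, e4]
        exact nx_unique n1 n2
    exact fun m => (h2 m).1
  have hmul : ∀ m : ℕ, W (i + m * d) = W i := by
    intro m
    induction m with
    | zero => simp
    | succ m ih =>
      have h1 := hall (m * d)
      have e1 : i + (d : ℤ) + ((m * d : ℕ) : ℤ) = i + ((m + 1 : ℕ) : ℤ) * d := by push_cast; ring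
      have e2 : i + ((m * d : ℕ) : ℤ) = i + (m : ℤ) * d := by push_cast; ring
      rw [e1, e2, ih] at h1
      exact h1
  have hpow : ∀ m : ℕ, W (i + m * N) = k ^ m • W i := by
    intro m
    induction m with
    | zero => simp
    | succ m ih =>
      have e1 : i + ((m + 1 : ℕ) : ℤ) * N = i + (m : ℤ) * N + N := by push_cast; ring
      rw [e1, hper, ih, pow_succ', mul_smul]
  have hkd : k ^ d • W i = W i := by
    rcases le_or_gt 0 N with hN | hN
    · rw [← hpow d, mul_comm (d : ℤ) N]
      have h1 := hmul N.toNat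
      rwa [Int.toNat_of_nonneg hN] at h1
    · have hneg : ∀ j, W (j + -N) = k⁻¹ • W j := by
        intro j
        rw [eq_inv_smul_iff, ← hper]
        congr 1
        ring
      have hpow' : ∀ m : ℕ, W (i + m * -N) = (k⁻¹) ^ m • W i := by
        intro m
        induction m with
        | zero => simp
        | succ m ih =>
          have e1 : i + ((m + 1 : ℕ) : ℤ) * -N = i + (m : ℤ) * -N + -N := by push_cast; ring
          rw [e1, hneg, ih, pow_succ', mul_smul]
      have h1 := hmul (-N).toNat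
      rw [Int.toNat_of_nonneg (by omega), mul_comm, hpow' d, inv_pow, inv_smul_eq_iff] at h1
      exact h1.symm
  exact hk (ht k d hd0 (CS.free _ _ hkd))

end TorH
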