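import Pool.Agent.Lib.MP_05cdf2_gt.H.WCh

/-! MP_05cdf2_gt, stream H (helper63): chains from closed walks; the points on the side of the face. (complete)

`ch_of`: a closed walk with period `k ≠ 1`, always turning clockwise, extends to a chain `W : ℤ → Ω` with `W (i + N) = k W i`.
`Df ι W`: the points of the big space `Γ` (`ι : Ω → Γ` monotone, equivariant) on the side of the face of all the chords of the chain. -/

set_option autoImplicit false
set_option linter.unusedSectionVars false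

namespace TorH
open TorM TorA

variable {K Ω : Type} [Group K] [LinearOrder Ω] [CS K Ω] {X : Finset (Arc K Ω)}

theorem ch_of (ht : NT K) (hX : Sy Co X) {w : ℕ → Ω} {N : ℕ} {k : K} (hN : 0 < N)
    (hw : ∀ i, w i ≠ w (i + 1) ∧ arc K (w i) (w (i + 1)) ∈ X ∧ Nx X (w i) (w (i + 1)) (w (i + 2)))
    (h0 : w N = k • w 0) (h1 : w (N + 1) = k • w 1) (hk : k ≠ 1)
    (cw : ∀ i, Cyc (w i) (w (i + 2)) (w (i + 1))) :
    ∃ W : ℤ → Ω, Ch X W ∧ (∀ i : ℕ, W i = w i) ∧ ∀ i, W (i + N) = k • W i := by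
  have hp : ∀ m : ℕ, w (N + m) = k • w m ∧ w (N + m + 1) = k • w (m + 1) := by
    intro m
    induction m with
    | zero => exact ⟨h0, h1⟩
    | succ m ih =>
      refine ⟨ih.2, ?_⟩
      have n1 := (hw (N + m)).2.2
      have n2 := nx_smul k (hw m).2.2
      rw [ih.1, ih.2] at n1
      exact nx_unique n1 n2
  have hp' : ∀ m, w (m + N) = k • w m := fun m => by rw [add_comm]; exact (hp m).1
  have hpa : ∀ a r : ℕ, w (r + N * a) = k ^ a • w r := by
    intro a r
    induction a with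
    | zero => simp
    | succ a ih =>
      rw [show r + N * (a + 1) = r + N * a + N by ring, hp', ih, pow_succ', mul_smul]
  have hN' : (0 : ℤ) < N := by exact_mod_cast hN
  obtain ⟨W, hW⟩ : ∃ W : ℤ → Ω, ∀ i, W i = k ^ (i / N) • w (i % N).toNat := ⟨_, fun _ => rfl⟩
  have hL : ∀ (q : ℤ) (m : ℕ), W (q * N + m) = k ^ q • w m := by
    intro q m
    rw [hW]
    have e1 : (q * N + (m : ℤ)) / N = q + ((m / N : ℕ) : ℤ) := by
      rw [Int.natCast_div, add_comm, Int.add_mul_ediv_right _ _ hN'.ne', add_comm]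
    have e2 : (q * N + (m : ℤ)) % N = ((m % N : ℕ) : ℤ) := by
      rw [Int.natCast_mod, add_comm, Int.add_mul_emod_self_right]
    rw [e1, e2, Int.toNat_natCast, zpow_add, mul_smul, zpow_natCast]
    congr 1
    rw [← hpa]
    congr 1
    have := Nat.mod_add_div m N
    omega
  have hi : ∀ (i : ℤ) (j : ℕ), W (i + j) = k ^ (i / N) • w ((i % N).toNat + j) := by
    intro i j
    rw [← hL]
    congr 1
    push_cast
    rw [Int.toNat_of_nonneg (Int.emod_nonneg _ hN'.ne')]
    have := Int.emod_add_mul_ediv i N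
    linarith
  have hi0 : ∀ i : ℤ, W i = k ^ (i / N) • w ((i % N).toNat) := hW
  have hi1 : ∀ i : ℤ, W (i + 1) = k ^ (i / N) • w ((i % N).toNat + 1) := fun i => hi i 1
  have hi2 : ∀ i : ℤ, W (i + 2) = k ^ (i / N) • w ((i % N).toNat + 2) := fun i => hi i 2
  have hper : ∀ i, W (i + N) = k • W i := by
    intro i
    rw [hi, hi0, hp', ← mul_smul, ← mul_smul, ← zpow_add_one, ← zpow_one_add, add_comm]
  have nx : ∀ i, Nx X (W i) (W (i + 1)) (W (i + 2)) := by
    intro i
    rw [hi0 i, hi1, hi2]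
    exact nx_smul _ (hw _).2.2
  have ne : ∀ i, W i ≠ W (i + 1) := by
    intro i
    rw [hi0 i, hi1]
    intro h
    exact (hw _).1 (smul_left_cancel _ h)
  have mem : ∀ i, arc K (W i) (W (i + 1)) ∈ X := by
    intro i
    rw [hi0 i, hi1, arc_smul]
    exact (hw _).2.1
  have cw' : ∀ i, Cyc (W i) (W (i + 2)) (W (i + 1)) := by
    intro i
    rw [hi0 i, hi1, hi2, cs_cyc]
    exact cw _
  refine ⟨W, ⟨nx, ne, mem, cw', ch_inj ht hX nx ne mem cw' hk hper⟩, ?_, hper⟩
  intro i
  have := hL 0 i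
  rw [zero_mul, zero_add, zpow_zero, one_smul] at this
  exact this

/-! the big space -/

section
variable {α : Type} [LinearOrder α]

theorem df1 {a b c p q : α} (h1 : Cyc p a q) (h2 : Cyc p b q) (h3 : ¬ Cyc p c q) : ¬ Cr a b c p := by
  unfold Cr Cyc at *
  grind

theorem df2 {a b p q : α} (h1 : Cyc p a q) (h2 : Cyc p b q) : ¬ Cr a b p q := by
  unfold Cr Cyc at *
  grind

/-- strictly behind a chord -/
theorem df3 {p q a b : α} (h1 : ¬ Cyc p a q) (h2 : a ≠ p) (h3 : a ≠ q) (h4 : Cyc p b q) : Cr p q a b := by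
  unfold Cr Cyc at *
  grind

theorem df4 {a b c p : α} (h1 : Cyc a p b) (h2 : Cyc b p c) (_ : Cyc a c b) : Cyc a p c := by
  unfold Cyc at *
  grind

end

variable {Γ : Type} [LinearOrder Γ] [CS K Γ] {ι : Ω → Γ} {W : ℤ → Ω}

/-- the side of the face -/
def Df (ι : Ω → Γ) (W : ℤ → Ω) : Set Γ := {p | ∀ i, Cyc (ι (W i)) p (ι (W (i + 1)))}

theorem df_ne {p : Γ} (hp : p ∈ Df ι W) (i : ℤ) : ι (W i) ≠ p := (cyc_ne (hp i)).1

theorem df_smul (hK : ∀ (k : K) x, ι (k • x) = k • ι x) {k : K} {N : ℤ} (hper : ∀ i, W (i + N) = k • W i) {p : Γ} :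
    k • p ∈ Df ι W ↔ p ∈ Df ι W := by
  constructor
  · intro h i
    have h1 := h (i + N)
    rw [show i + N + 1 = i + 1 + N by ring, hper, hper, hK, hK, cs_cyc] at h1
    exact h1
  · intro h i
    have h1 := h (i - N)
    have e1 : W i = k • W (i - N) := by
      rw [← hper]
      congr 1
      ring
    have e2 : W (i + 1) = k • W (i - N + 1) := by
      rw [← hper]
      congr 1
      ring
    rw [e1, e2, hK, hK, cs_cyc]
    exact h1

/-- convexity -/
theorem df_cvx : TorL.Cvx (Df ι W) := by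
  intro a ha b hb c hc d hd hcr
  have key : ∀ c, c ∉ Df ι W → ∃ i, ¬ Cr a b c (ι (W i)) := by
    intro c hc
    have : ∃ i, ¬ Cyc (ι (W i)) c (ι (W (i + 1))) := by
      by_contra hcon
      push Not at hcon
      exact hc hcon
    obtain ⟨i, hi⟩ := this
    exact ⟨i, df1 (ha i) (hb i) hi⟩
  have hstep : ∀ i, ¬ Cr a b (ι (W i)) (ι (W (i + 1))) := fun i => df2 (ha i) (hb i)
  have htr : ∀ {x z : Γ} (i : ℤ), ¬ Cr a b x (ι (W i)) → ¬ Cr a b (ι (W i)) z → ¬ Cr a b x z := by
    intro x z i h1 h2 h3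
    rcases TorL.cr_tri h3 (df_ne ha i).symm (df_ne hb i).symm with h4 | h4
    · exact h1 h4
    · exact h2 h4
  have hup : ∀ (i : ℤ) (n : ℕ), ¬ Cr a b (ι (W i)) (ι (W (i + n))) := by
    intro i n
    induction n with
    | zero =>
      rw [Nat.cast_zero, add_zero]
      intro h
      exact not_cr_same (cr_comm.1 h)
    | succ n ih =>
      have e : i + ((n + 1 : ℕ) : ℤ) = i + n + 1 := by push_cast; ring
      rw [e]
      exact htr _ ih (hstep _)
  have hall : ∀ i j : ℤ, ¬ Cr a b (ι (W i)) (ι (W j)) := by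
    intro i j
    rcases le_total i j with h | h
    · have := hup i (j - i).toNat
      rwa [show i + (((j - i).toNat : ℕ) : ℤ) = j by omega] at this
    · have := hup j (i - j).toNat
      rw [show j + (((i - j).toNat : ℕ) : ℤ) = i by omega] at this
      intro h2
      exact this (cr_swap2.1 h2)
  obtain ⟨i, hi⟩ := key c hc
  obtain ⟨j, hj⟩ := key d hd
  have h1 : ¬ Cr a b (ι (W j)) d := fun h => hj (cr_swap2.1 h)
  exact htr j (htr i hi (hall i j)) h1 hcr

/-- chords of `X` do not leave the complement -/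
theorem df_edge (hι : StrictMono ι) (hX : Sy Co X) (h : Ch X W) {q q' : Ω} (hq : arc K q q' ∈ X) (hne : q ≠ q')
    (hq' : ι q' ∈ Df ι W) : ι q ∈ Df ι W := by
  by_contra hcon
  have : ∃ i, ¬ Cyc (ι (W i)) (ι q) (ι (W (i + 1))) := by
    by_contra hcon2
    push Not at hcon2
    exact hcon hcon2
  obtain ⟨i, hi⟩ := this
  have hc' : ∀ j, Cyc (W j) q' (W (j + 1)) := by
    intro j
    have := hq' j
    unfold Cyc at this ⊢
    simpa only [hι.lt_iff_lt] using this
  have hi' : ¬ Cyc (W i) q (W (i + 1)) := by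
    intro h1
    apply hi
    unfold Cyc at h1 ⊢
    simpa only [hι.lt_iff_lt] using h1
  have hv : ∀ j, q ≠ W (j + 1) := by
    intro j he
    subst he
    have h1 := hc' j
    have h2 := hc' (j + 1)
    rw [show j + 1 + 1 = j + 2 by ring] at h2
    exact (h.nx j).2.2 q' hne.symm hq (Or.inl (df4 h1 h2 (h.cw j)))
  have h1 : q ≠ W i := by
    have := hv (i - 1)
    rwa [show i - 1 + 1 = i by ring] at this
  exact sy_co_iff (fun _ _ h => h) hX (h.mem i) hq (df3 hi' h1 (hv i) (hc' i))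

/-- points related to the chain are not on the side of the face -/
theorem df_fill (hι : StrictMono ι) (hX : Sy Co X) (h : Ch X W) {x : Ω} (hx : Gn X (W 0) x) : ι x ∉ Df ι W := by
  induction hx with
  | refl => exact fun hh => df_ne hh 0 rfl
  | @tail b c _ h2 ih =>
    intro hc
    by_cases hbc : b = c
    · exact ih (hbc ▸ hc)
    · exact ih (df_edge hι hX h h2 hbc hc)

end TorH
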