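import Pool.Agent.Lib.MP_05cdf2_gt.H.WChB

/-! MP_05cdf2_gt, stream H (helper63): two chains with a common point on their sides are equal up to a shift. (complete)

`ch_cmp`. `df_empty`: if no point is on the side of the face then the translates of `[k x, x)` cover everything. -/

set_option autoImplicit false
set_option linter.unusedSectionVars false

namespace TorH
open TorM TorA

section
variable {α : Type} [LinearOrder α]

/-- the chain of `w0, w1` contains strictly the interval `[b, a]` -/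
theorem cm1 {a b p x w0 w1 : α} (h1 : Cyc a p b) (h2 : Cyc b x a) (h3 : Cyc w1 a w0)
    (h4 : ¬ Cr a b w0 w1) (h5 : Cyc w0 p w1) : Cyc w1 x w0 := by
  unfold Cr Cyc at *
  grind

theorem cm2 {a b p x w0 w1 : α} (h1 : Cyc a p b) (h2 : Cyc b x a) (h3 : Cyc w1 b w0)
    (h4 : ¬ Cr a b w0 w1) (h5 : Cyc w0 p w1) : Cyc w1 x w0 := by
  unfold Cr Cyc at *
  grind

theorem cm3 {a b p : α} (h : Cyc a p b) : Cyc p b a := by
  unfold Cyc at *
  tauto

theorem cm5 {p a b c : α} (h1 : Cyc p c b) (h2 : Cyc p b a) : Cyc p c a := by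
  unfold Cyc at *
  grind

/-- not in the open interval `(p, q)` -/
theorem cm6 {p a q : α} (h : ¬ Cyc p a q) (h1 : a ≠ p) (h2 : a ≠ q) (h3 : p ≠ q) : Cyc q a p := by
  unfold Cyc at *
  grind

end

variable {K Ω : Type} [Group K] [LinearOrder Ω] [CS K Ω] {X : Finset (Arc K Ω)}
variable {Γ : Type} [LinearOrder Γ] [CS K Γ] {ι : Ω → Γ}

theorem cyc_iota (hι : StrictMono ι) {x y z : Ω} : Cyc (ι x) (ι y) (ι z) ↔ Cyc x y z := by
  unfold Cyc
  simp only [hι.lt_iff_lt]

theorem cr_iota (hι : StrictMono ι) {x y z w : Ω} : Cr (ι x) (ι y) (ι z) (ι w) ↔ Cr x y z w := by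
  unfold Cr
  simp only [cyc_iota hι]

/-- order seen from the side of the face -/
theorem df_mono {W : ℤ → Ω} {p : Γ} (hp : p ∈ Df ι W) {i j : ℤ} (hij : i < j) : Cyc p (ι (W j)) (ι (W i)) := by
  obtain ⟨n, rfl⟩ : ∃ n : ℕ, j = i + 1 + n := ⟨(j - (i + 1)).toNat, by omega⟩
  clear hij
  induction n with
  | zero =>
    rw [Nat.cast_zero, add_zero]
    exact cm3 (hp i)
  | succ n ih =>
    have e : i + 1 + ((n + 1 : ℕ) : ℤ) = i + 1 + n + 1 := by push_cast; ring
    rw [e]
    exact cm5 (cm3 (hp (i + 1 + n))) ih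

/-- a point of the complement: behind a chord or on the chain -/
theorem df_not {W : ℤ → Ω} (hι : StrictMono ι) {x : Ω} (h : ι x ∉ Df ι W) (hW : ∀ i, W i ≠ W (i + 1)) :
    (∃ i, x = W i) ∨ ∃ i, Cyc (W (i + 1)) x (W i) := by
  have : ∃ i, ¬ Cyc (ι (W i)) (ι x) (ι (W (i + 1))) := by
    by_contra hcon
    push Not at hcon
    exact h hcon
  obtain ⟨i, hi⟩ := this
  rw [cyc_iota hι] at hi
  by_cases h1 : x = W i
  · exact Or.inl ⟨i, h1⟩
  · by_cases h2 : x = W (i + 1)
    · exact Or.inl ⟨i + 1, h2⟩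
    · exact Or.inr ⟨i, cm6 hi h1 h2 (hW i)⟩

theorem cmp_one (hι : StrictMono ι) (hX : Sy Co X) {W W' : ℤ → Ω} (h : Ch X W) (h' : Ch X W') {p : Γ}
    (hp : p ∈ Df ι W) (hp' : p ∈ Df ι W') (h1 : ∀ i, ι (W i) ∉ Df ι W') (h2 : ∀ j, ι (W' j) ∉ Df ι W) (j : ℤ) :
    ∃ i, W' j = W i := by
  rcases df_not hι (h2 j) h.ne with h3 | ⟨i, h3⟩
  · exact h3
  exfalso
  have hx : ∀ l, ¬ Cyc (W' (l + 1)) (W' j) (W' l) := by
    intro l hc
    by_cases e1 : j = l
    · subst e1
      exact (cyc_ne hc).2.1 rfl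
    · by_cases e2 : j = l + 1
      · subst e2
        exact (cyc_ne hc).1 rfl
      · exact cyc_as (h'.side hX e1 e2) (cyc_rot.2 hc)
  have hncr : ∀ l, ¬ Cr (ι (W i)) (ι (W (i + 1))) (ι (W' l)) (ι (W' (l + 1))) := fun l hc =>
    sy_co_iff (fun _ _ h => h) hX (h.mem i) (h'.mem l) ((cr_iota hι).1 hc)
  have ha : ∃ m, W i = W' m := by
    rcases df_not hι (h1 i) h'.ne with h4 | ⟨l, h4⟩
    · exact h4
    · exfalso
      exact hx l ((cyc_iota hι).1 (cm1 (hp i) ((cyc_iota hι).2 h3) ((cyc_iota hι).2 h4) (hncr l) (hp' l)))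
  have hb : ∃ m, W (i + 1) = W' m := by
    rcases df_not hι (h1 (i + 1)) h'.ne with h4 | ⟨l, h4⟩
    · exact h4
    · exfalso
      exact hx l ((cyc_iota hι).1 (cm2 (hp i) ((cyc_iota hι).2 h3) ((cyc_iota hι).2 h4) (hncr l) (hp' l)))
  obtain ⟨m, hm⟩ := ha
  obtain ⟨m', hm'⟩ := hb
  have hlt : ∀ a b : ℤ, Cyc p (ι (W' a)) (ι (W' b)) → b < a := by
    intro a b hc
    rcases lt_trichotomy a b with h4 | h4 | h4
    · exact absurd hc (cyc_as (df_mono hp' h4))
    · subst h4
      exact absurd rfl (cyc_ne hc).2.1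
    · exact h4
  have e1 : Cyc p (ι (W (i + 1))) (ι (W i)) := cm3 (hp i)
  have e2 : Cyc p (ι (W' j)) (ι (W i)) := by
    have h4 := (cyc_iota hι).2 h3
    have h5 := hp i
    clear * - h4 h5
    unfold Cyc at *
    grind
  have e3 : Cyc p (ι (W (i + 1))) (ι (W' j)) := by
    have h4 := (cyc_iota hι).2 h3
    have h5 := hp i
    clear * - h4 h5
    unfold Cyc at *
    grind
  rw [hm] at e2
  rw [hm'] at e3
  have l1 := hlt _ _ e2
  have l2 := hlt _ _ e3
  have hmem := h.mem i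
  rw [hm, hm'] at hmem
  have h5 := (h'.nx (m - 1)).2.2 (W' m')
  rw [show m - 1 + 1 = m by ring, show m - 1 + 2 = m + 1 by ring] at h5
  refine h5 (fun he => by have := h'.inj he; omega) hmem (Or.inl ?_)
  exact h'.mono hX (by omega) (by omega)

/-- two chains with a common point on the side of the face -/
theorem ch_cmp (hι : StrictMono ι) (hX : Sy Co X) {W W' : ℤ → Ω} (h : Ch X W) (h' : Ch X W') {p : Γ}
    (hp : p ∈ Df ι W) (hp' : p ∈ Df ι W') (h1 : ∀ i, ι (W i) ∉ Df ι W') (h2 : ∀ j, ι (W' j) ∉ Df ι W) :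
    ∃ c, ∀ j, W' j = W (j + c) := by
  choose σ hσ using cmp_one hι hX h h' hp hp' h1 h2
  choose τ hτ using cmp_one hι hX h' h hp' hp h2 h1
  have hmono : ∀ a b : ℤ, a < b → σ a < σ b := by
    intro a b hab
    have h3 := df_mono hp' hab
    rw [hσ a, hσ b] at h3
    rcases lt_trichotomy (σ a) (σ b) with h4 | h4 | h4
    · exact h4
    · rw [h4] at h3
      exact absurd rfl (cyc_ne h3).2.1
    · exact absurd h3 (cyc_as (df_mono hp h4))
  have hsurj : ∀ i, ∃ j, σ j = i := by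
    intro i
    refine ⟨τ i, ?_⟩
    have h3 := hσ (τ i)
    rw [← hτ i] at h3
    exact (h.inj h3).symm
  have hstep : ∀ j, σ (j + 1) = σ j + 1 := by
    intro j
    obtain ⟨m, hm⟩ := hsurj (σ j + 1)
    have h3 : j < m := by
      by_contra hcon
      rcases (not_lt.1 hcon).lt_or_eq with h4 | h4
      · have := hmono _ _ h4
        omega
      · subst h4
        omega
    rcases (Int.add_one_le_of_lt h3).lt_or_eq with h4 | h4
    · have h5 := hmono _ _ h4
      have h6 := hmono j (j + 1) (by omega)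
      omega
    · rw [h4, hm]
  have hall : ∀ j, σ j = j + σ 0 := by
    intro j
    induction j using Int.induction_on with
    | zero => simp
    | succ n ih => rw [hstep, ih]; ring
    | pred n ih =>
      have := hstep (-(n : ℤ) - 1)
      rw [show -(n : ℤ) - 1 + 1 = -n by ring] at this
      omega
  exact ⟨σ 0, fun j => by rw [hσ j, hall j]⟩

/-- if no point is on the side of the face then the translates of `[k x, x)` cover everything -/
theorem df_empty (hι : StrictMono ι) (hX : Sy Co X) {W : ℤ → Ω} (h : Ch X W) (h0 : Df ι W = ∅) {N : ℤ} (hN : 0 < N)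
    (p : Γ) : ∃ n : ℤ, p = ι (W (n * N)) ∨ p = ι (W ((n + 1) * N)) ∨ Cyc (ι (W ((n + 1) * N))) p (ι (W (n * N))) := by
  have hp : p ∉ Df ι W := by
    rw [h0]
    exact Set.notMem_empty _
  have : ∃ i, ¬ Cyc (ι (W i)) p (ι (W (i + 1))) := by
    by_contra hcon
    push Not at hcon
    exact hp hcon
  obtain ⟨i, hi⟩ := this
  have h1 := Int.emod_nonneg i hN.ne'
  have h2 := Int.emod_lt_of_pos i hN
  have h3 := Int.emod_add_mul_ediv i N
  refine ⟨i / N, ?_⟩
  have e1 : i / N * N ≤ i := by rw [mul_comm]; omega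
  have e2 : i + 1 ≤ (i / N + 1) * N := by
    rw [add_mul, mul_comm (i / N), one_mul]
    omega
  have e3 : i / N * N < (i / N + 1) * N := by omega
  generalize i / N * N = a at e1 e3
  generalize (i / N + 1) * N = b at e2 e3
  -- position of a vertex
  have hv : ∀ l, a ≤ l → l ≤ b → ι (W l) = ι (W a) ∨ ι (W l) = ι (W b) ∨ Cyc (ι (W b)) (ι (W l)) (ι (W a)) := by
    intro l h4 h5
    rcases h4.lt_or_eq with h6 | h6
    · rcases h5.lt_or_eq with h7 | h7
      · right
        right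
        rw [cyc_iota hι]
        exact cyc_rot.1 (h.mono hX h6 h7)
      · right
        left
        rw [h7]
    · left
      rw [h6]
  have v1 := hv i e1 (by omega)
  have v2 := hv (i + 1) (by omega) e2
  have v3 : ι (W i) ≠ ι (W (i + 1)) := fun he => h.ne i (hι.injective he)
  by_cases p1 : p = ι (W i)
  · rw [p1]
    exact v1
  by_cases p2 : p = ι (W (i + 1))
  · rw [p2]
    exact v2
  right
  right
  have h4 : Cyc (ι (W (i + 1))) p (ι (W i)) := cm6 hi p1 p2 v3
  have v4 : a < i + 1 := by omega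
  have v5 : i < b := by omega
  have v6 : ∀ l l', a < l → l < l' → Cyc (ι (W a)) (ι (W l')) (ι (W l)) := fun l l' h5 h6 =>
    (cyc_iota hι).2 (h.mono hX h5 h6)
  have v7 : a < i → i + 1 < b → Cyc (ι (W a)) (ι (W b)) (ι (W (i + 1))) ∧ Cyc (ι (W a)) (ι (W (i + 1))) (ι (W i)) :=
    fun h5 h6 => ⟨v6 _ _ v4 h6, v6 _ _ h5 (by omega)⟩
  rcases e1.lt_or_eq with h5 | h5
  · rcases e2.lt_or_eq with h6 | h6
    · obtain ⟨q1, q2⟩ := v7 h5 h6
      clear * - q1 q2 h4
      unfold Cyc at *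
      grind
    · have q1 := v6 i b h5 v5
      rw [h6] at h4
      clear * - q1 h4
      unfold Cyc at *
      grind
  · rw [h5]
    rcases e2.lt_or_eq with h6 | h6
    · have q1 := v6 (i + 1) b v4 h6
      rw [h5] at q1
      clear * - q1 h4
      unfold Cyc at *
      grind
    · rw [← h6]
      exact h4

end TorH
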