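import Pool.Agent.Lib.MP_05cdf2_gt.H.WCmp
import Pool.Agent.Lib.MP_05cdf2_gt.H.WBW
import Pool.Agent.Lib.MP_05cdf2_gt.L.Hf

/-! MP_05cdf2_gt, stream H (helper63): the closed walks around the faces of a filling system in `F g`. (complete)

`K` a subgroup of `F g`, `Ω` a chord space in `F g` (`ι : Ω → F g`), `E` a `K`-invariant Galois pair, `X` a filling system for `E` on `Ω`
which contains the boundary arcs `{y, bs y}`. `face_alt`: the period `k` of a closed walk around a face is `1`, or it maps a point to a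
point of the same line, or it fixes a class of `E` of the right colour, or a power of `k` is a power of a conjugate `u ζ u⁻¹`.
Hypothesis `hM`: a point `u` related to `Ω` lies in some `[y, bs y)`, or `u ζ u⁻¹ ∈ K`. -/

set_option autoImplicit false
set_option linter.unusedSectionVars false

namespace TorH
open TorM TorA TorL

variable {g : ℕ}

theorem ntF (K : Subgroup (F g)) : NT K := by
  intro k n hn hk
  apply Subtype.ext
  have h1 : (k : F g) ^ n = 1 := by
    rw [← Subgroup.coe_pow, hk, Subgroup.coe_one]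
  have h2 : (k : F g) ^ n = (1 : F g) ^ n := by rw [h1, one_pow]
  exact IsMulTorsionFree.pow_left_injective hn.ne' h2

/-- left multiplication -/
noncomputable instance csF (K : Subgroup (F g)) : CS K (F g) :=
  { (inferInstance : MulAction K (F g)) with
    cyc := fun k x y z => cyc_mul (k : F g) x y z
    fin := fun a b c d => by
      have h1 := cr_finite a b (c⁻¹ * d)
      have h2 : Set.InjOn (fun k : K => (k : F g) * c) ((fun k : K => (k : F g) * c) ⁻¹' {x : F g | Cr a b x (x * (c⁻¹ * d))}) := by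
        intro k _ l _ h
        exact Subtype.ext (mul_right_cancel h)
      refine (h1.preimage h2).subset ?_
      intro k hk
      show Cr a b ((k : F g) * c) ((k : F g) * c * (c⁻¹ * d))
      have h3 : (k : F g) * c * (c⁻¹ * d) = (k : F g) * d := by group
      rw [h3]
      exact hk
    free := fun k x h => by
      apply Subtype.ext
      have h1 : (k : F g) * x = x := h
      simpa using h1 }

theorem csF_smul (K : Subgroup (F g)) (k : K) (x : F g) : k • x = (k : F g) * x := rfl

section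
variable {α : Type} [LinearOrder α]

theorem fa1 {x y b z : α} (h1 : Cyc y b z) (h2 : z = x ∨ Cyc y z x) (_ : Cyc y b x) : Cyc x b z ∨ x = z := by
  unfold Cyc at *
  grind

theorem fa2 {y y' b : α} (h1 : Cyc y' y b) (h2 : Cyc y y' b) : False := by
  unfold Cyc at *
  grind

theorem fa3 {x y b z : α} (h1 : Cyc y x b) (h2 : ¬ Cyc x b z) (h3 : ¬ (x = z ∧ b ≠ x)) (_ : z ≠ y) : Cyc x z y := by
  unfold Cyc at *
  grind

/-- `u` is between `y` and `y'`, the vertices of the chain are not -/
theorem fa4 {y y' u a b : α} (h1 : Cyc y u y') (h2 : Cyc a u b) (hb : b = y ∨ b = y' ∨ Cyc y y' b)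
    (hne : b ≠ y') (ha : a = y ∨ a = y' ∨ Cyc y y' a) : Cyc a y' b := by
  unfold Cyc at *
  grind

theorem fa5 {y y' u a c : α} (h1 : Cyc y u y') (_ : Cyc y' u c) (h3 : Cyc a u y') (_ : Cyc a c y')
    (hc : c = y ∨ c = y' ∨ Cyc y y' c) (ha : a = y ∨ a = y' ∨ Cyc y y' a) : False := by
  unfold Cyc at *
  grind

theorem fa6 {y y' u c : α} (h1 : Cyc y u y') (h3 : Cyc y y' c) : Cr y y' u c := by
  unfold Cr Cyc at *
  grind

theorem fa7 {a u b v : α} (h1 : Cyc a u b) (_ : v ≠ a) (h3 : v ≠ b) (_ : ¬ Cyc u a v)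
    (h5 : ¬ Cyc u b v) : Cyc a v b := by
  unfold Cyc at *
  grind

end

section
variable {K : Type} {Ω : Type} [Group K] [LinearOrder Ω] [CS K Ω] {bs bp : Ω → Ω} {X : Finset (Arc K Ω)}

/-- the walk around a line -/
theorem outer_next (bs_ne : ∀ y, bs y ≠ y) (bs_first : ∀ y v, v ≠ y → v = bs y ∨ Cyc y (bs y) v)
    (bp_last : ∀ y v, v ≠ y → v = bp y ∨ Cyc y v (bp y)) (bp_ne : ∀ y, bp y ≠ y)
    (hbs : ∀ y, arc K y (bs y) ∈ X) {y z : Ω} (h : Nx X (bp y) y z) : z = bs y ∧ y = bp z := by
  have h1 : z = bs y := by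
    by_contra hne
    have h2 := (bs_first y z h.1).resolve_left hne
    have h3 := h.2.2 (bs y) (bs_ne y) (hbs y)
    push Not at h3
    have h4 := bp_last y z h.1
    rcases bp_last y (bs y) (bs_ne y) with h5 | h5
    · rw [← h5] at h4
      rcases h4 with h4 | h4
      · exact hne h4
      · exact cyc_as h2 h4
    · rcases fa1 h2 h4 h5 with h6 | h6
      · exact h3.1 h6
      · exact (cyc_ne h5).2.1 (h3.2 h6)
  refine ⟨h1, ?_⟩
  rw [h1]
  refine (bp_last (bs y) y (bs_ne y).symm).resolve_right ?_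
  intro h2
  rcases bs_first y (bp (bs y)) (cyc_ne h2).2.1.symm with h3 | h3
  · exact bp_ne _ h3
  · exact fa2 h2 h3

end

variable [NeZero g] {K : Subgroup (F g)} {Ω : Type} [LinearOrder Ω] [CS K Ω] {ι : Ω → F g}

/-- invariance of the classes -/
theorem gpS_smul {E : GP (F g)} {k : F g} (hE : E.map (lt k) = E) {x y : F g} : E.S (k * x) (k * y) ↔ E.S x y := by
  conv_lhs => rw [← hE]
  show E.S (k⁻¹ * (k * x)) (k⁻¹ * (k * y)) ↔ _
  rw [inv_mul_cancel_left, inv_mul_cancel_left]

/-- a convex saturated set which is invariant under `k` -/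
theorem sat_fix {E : GP (F g)} (hLF : LF E) {k : F g} (hE : E.map (lt k) = E) {D : Set (F g)} (hD : Sat E D)
    (hk : ∀ p, k * p ∈ D ↔ p ∈ D) : ∃ l, l ∉ E.P ∧ E.S l (k * l) := by
  have key : ∀ D : Set (F g), Sat E D → (∀ p, k * p ∈ D ↔ p ∈ D) → Ln E D → ∃ l, l ∉ E.P ∧ E.S l (k * l) := by
    intro D hD hk hL
    obtain ⟨a, l, h1, h2, h3⟩ := hL.adj
    have h4 := adj_map' h1 (lt k)
    rw [hE] at h4
    have h5 : mp (lt k) D = D := by
      ext p
      rw [mem_mp, lt_symm]
      have := hk (k⁻¹ * p)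
      rw [mul_inv_cancel_left] at this
      exact this.symm
    rw [h5] at h4
    exact ⟨l, h3, h1.inn_unique hLF hD h4⟩
  rcases ln_or hLF hD with h | h
  · exact key D hD hk h
  · exact key Dᶜ hD.compl (fun p => not_congr (hk p)) h

theorem face_alt (hι : StrictMono ι) (hK : ∀ (k : K) x, ι (k • x) = (k : F g) * ι x) {E : GP (F g)} (hLF : LF E)
    (hE : ∀ k ∈ K, E.map (lt k) = E) (hz : ∀ x, E.S x (x * zeta g)) {A : Ω → Ω → Prop} {bs bp : Ω → Ω}
    (hA : NE K A) (hAE : ∀ {x y}, A x y → E.S (ι x) (ι y))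
    (bs_ne : ∀ y, bs y ≠ y) (bp_ne : ∀ y, bp y ≠ y)
    (bs_first : ∀ y v, v ≠ y → v = bs y ∨ Cyc y (bs y) v) (bp_last : ∀ y v, v ≠ y → v = bp y ∨ Cyc y v (bp y))
    (bs_A : ∀ y, A y (bs y))
    (hM : ∀ (u : F g) (x : Ω), E.S u (ι x) → (∃ y, u = ι y ∨ Cyc (ι y) u (ι (bs y))) ∨ u * zeta g * u⁻¹ ∈ K)
    {X : Finset (Arc K Ω)} (hX : Sy Co X) (hXE : ∀ x y, arc K x y ∈ X → E.S (ι x) (ι y))
    (hf : ∀ x y, E.S (ι x) (ι y) → Gn X x y)
    (hbs : ∀ y, arc K y (bs y) ∈ X) (hbp : ∀ y, arc K y (bp y) ∈ X) {w : ℕ → Ω} {N : ℕ} {k : K} (hN : 0 < N)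
    (hw : ∀ i, w i ≠ w (i + 1) ∧ arc K (w i) (w (i + 1)) ∈ X ∧ Nx X (w i) (w (i + 1)) (w (i + 2)))
    (h0 : w N = k • w 0) (h1 : w (N + 1) = k • w 1) :
    k = 1 ∨ (∃ i, A (w i) (k • w i)) ∨ (∃ l, l ∉ E.P ∧ E.S l ((k : F g) * l)) ∨
      ∃ (u : F g) (n m : ℤ), m ≠ 0 ∧ u * zeta g * u⁻¹ ∈ K ∧ (u * zeta g * u⁻¹) ^ n = (k : F g) ^ m := by
  have ht := ntF K
  by_cases hk : k = 1
  · exact Or.inl hk
  right
  by_cases hout : ∃ i, w i = bp (w (i + 1))
  · -- the outer side of a line
    left
    obtain ⟨i, hi⟩ := hout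
    have hall : ∀ n : ℕ, w (i + n) = bp (w (i + n + 1)) ∧ A (w (i + n)) (w (i + n + 1)) := by
      have hst : ∀ j, w j = bp (w (j + 1)) → w (j + 2) = bs (w (j + 1)) ∧ w (j + 1) = bp (w (j + 2)) := by
        intro j hj
        have h2 := (hw j).2.2
        have h3 : Nx X (bp (w (j + 1))) (w (j + 1)) (w (j + 2)) := by
          rw [← hj]
          exact h2
        exact outer_next bs_ne bs_first bp_last bp_ne hbs h3
      have hbp' : ∀ n : ℕ, w (i + n) = bp (w (i + n + 1)) := by
        intro n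
        induction n with
        | zero => exact hi
        | succ n ih => exact (hst _ ih).2
      intro n
      refine ⟨hbp' n, ?_⟩
      -- the successor of the predecessor
      have h2 : w (i + n + 1) = bs (w (i + n)) := by
        have h3 := hbp' n
        refine (bs_first (w (i + n)) (w (i + n + 1)) (hw _).1.symm).resolve_right ?_
        intro h4
        rcases bp_last (w (i + n + 1)) (bs (w (i + n))) (cyc_ne h4).2.1 with h5 | h5
        · rw [← h3] at h5
          exact bs_ne _ h5
        · rw [← h3] at h5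
          exact cyc_as h5 (cyc_rot.1 (cyc_rot.1 h4))
      rw [h2]
      exact bs_A _
    have hA' : ∀ n : ℕ, A (w i) (w (i + n)) := by
      intro n
      induction n with
      | zero => exact hA.refl _
      | succ n ih => exact hA.trans ih (hall n).2
    refine ⟨i, ?_⟩
    have hp : ∀ m : ℕ, w (N + m) = k • w m ∧ w (N + m + 1) = k • w (m + 1) := by
      intro m
      induction m with
      | zero => exact ⟨h0, h1⟩
      | succ m ih =>
        refine ⟨ih.2, ?_⟩
        have n1 := (hw (N + m)).2.2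
        have n2 := nx_smul k (hw m).2.2
        rw [ih.1, ih.2] at n1
        exact nx_unique n1 n2
    rw [← (hp i).1, add_comm]
    exact hA' N
  push Not at hout
  right
  have cw : ∀ i, Cyc (w i) (w (i + 2)) (w (i + 1)) := by
    intro i
    have h2 := (bp_last (w (i + 1)) (w i) (hw i).1).resolve_left (hout i)
    have h3 := (hw i).2.2.2.2 (bp (w (i + 1))) (bp_ne _) (hbp _)
    rw [not_or] at h3
    exact fa3 h2 h3.1 h3.2 (hw i).2.2.1
  obtain ⟨W, hW, hWw, hper⟩ := ch_of ht hX hN hw h0 h1 hk cw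
  have hK' : ∀ (k : K) x, ι (k • x) = k • ι x := hK
  have hN' : (0 : ℤ) < N := by exact_mod_cast hN
  have hpow : ∀ n : ℤ, W (n * N) = k ^ n • W 0 := by
    intro n
    induction n using Int.induction_on with
    | zero => simp
    | succ n ih =>
      rw [show ((n : ℤ) + 1) * N = n * N + N by ring, hper, ih, ← mul_smul, ← zpow_one_add, add_comm]
    | pred n ih =>
      rw [show (-(n : ℤ)) * N = (-(n : ℤ) - 1) * N + N by ring, hper] at ih
      rw [zpow_sub_one, ← inv_smul_eq_iff.2 ih.symm, ← mul_smul]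
      congr 1
      rw [← zpow_neg_one, ← zpow_add, ← zpow_add, add_comm]
  have hWx : ∀ x, E.S (ι x) (ι (W 0)) → Gn X (W 0) x := fun x hx => hf _ _ (GP.symm hx)
  -- the points of `Ω` which are related to the chain
  have hWE : ∀ i, E.S (ι (W i)) (ι (W 0)) := by
    intro i
    induction i using Int.induction_on with
    | zero => exact GP.refl _
    | succ n ih => exact GP.trans (GP.symm (hXE _ _ (hW.mem n))) ih
    | pred n ih =>
      have h2 := hXE _ _ (hW.mem (-(n : ℤ) - 1))
      rw [show -(n : ℤ) - 1 + 1 = -n by ring] at h2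
      exact GP.trans h2 ih
  by_cases hD0 : Df ι W = ∅
  · -- nothing on the side of the face
    exfalso
    refine bw (k : F g) (ι (W 0)) ?_ ?_
    · intro n m l h2 h3
      have e : ∀ n : ℤ, (k : F g) ^ n * ι (W 0) = ι (W (n * N)) := by
        intro n
        rw [hpow, hK, Subgroup.coe_zpow]
      rw [e, e, e, cyc_iota hι]
      exact hW.mono hX (by nlinarith) (by nlinarith)
    · intro p
      have e : ∀ n : ℤ, (k : F g) ^ n * ι (W 0) = ι (W (n * N)) := by
        intro n
        rw [hpow, hK, Subgroup.coe_zpow]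
      obtain ⟨n, hn⟩ := df_empty hι hX hW hD0 hN' p
      refine ⟨n, ?_⟩
      rw [e, e]
      exact hn
  have hDne : (Df ι W).Nonempty := Set.nonempty_iff_ne_empty.2 hD0
  by_cases hC : ∃ u ∈ Df ι W, E.S u (ι (W 0))
  · right
    obtain ⟨u, hu, huE⟩ := hC
    have hnot : ∀ y, u ≠ ι y := by
      rintro y rfl
      exact df_fill hι hX hW (hWx y huE) hu
    rcases hM u (W 0) huE with ⟨y, h2 | h2⟩ | h2
    · exact absurd h2 (hnot y)
    · -- `u` is behind a line
      exfalso
      have hpos : ∀ v, ι v = ι y ∨ ι v = ι (bs y) ∨ Cyc (ι y) (ι (bs y)) (ι v) := by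
        intro v
        by_cases hv : v = y
        · exact Or.inl (by rw [hv])
        · right
          rcases bs_first y v hv with h3 | h3
          · exact Or.inl (by rw [h3])
          · exact Or.inr ((cyc_iota hι).2 h3)
      have hyE : E.S (ι y) (ι (W 0)) := by
        rcases hpos (W 0) with h3 | h3 | h3
        · rw [h3]
          exact GP.refl _
        · rw [h3]
          exact hAE (bs_A y)
        · exact GP.trans (GP.noncr huE (hAE (bs_A y)) (fa6 h2 h3)) huE
      have h3 : ι (bs y) ∉ Df ι W := df_fill hι hX hW (hWx _ (GP.trans (GP.symm (hAE (bs_A y))) hyE))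
      have h4 : ∃ i, ¬ Cyc (ι (W i)) (ι (bs y)) (ι (W (i + 1))) := by
        by_contra hcon
        push Not at hcon
        exact h3 hcon
      obtain ⟨i, hi⟩ := h4
      have h5 : ι (W (i + 1)) = ι (bs y) := by
        by_contra hne
        exact hi (fa4 h2 (hu i) (hpos _) hne (hpos _))
      have h6 := hu (i + 1)
      have h7 := hu i
      have h8 : Cyc (ι (W i)) (ι (W (i + 2))) (ι (W (i + 1))) := (cyc_iota hι).2 (hW.cw i)
      rw [show i + 1 + 1 = i + 2 by ring] at h6
      rw [h5] at h6 h7 h8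
      exact fa5 h2 h6 h7 h8 (hpos _) (hpos _)
    · -- a middle point
      obtain ⟨h, hh⟩ : ∃ h : K, (h : F g) = u * zeta g * u⁻¹ := ⟨⟨_, h2⟩, rfl⟩
      have hhu : (h : F g) * u = u * zeta g := by
        rw [hh]
        group
      have hW' : Ch X (fun i => h • W i) :=
        ⟨fun i => nx_smul h (hW.nx i), fun i h3 => hW.ne i (smul_left_cancel h h3),
          fun i => by rw [arc_smul]; exact hW.mem i, fun i => (cs_cyc h _ _ _).2 (hW.cw i),
          fun i j h3 => hW.inj (smul_left_cancel h h3)⟩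
      have hEh : ∀ {x y : F g}, E.S ((h : F g) * x) ((h : F g) * y) ↔ E.S x y := gpS_smul (hE h h.2)
      have hhE : ∀ i, E.S (ι (h • W i)) (ι (W 0)) := by
        intro i
        have h3 : E.S ((h : F g) * ι (W i)) ((h : F g) * u) := hEh.2 (GP.trans (hWE i) (GP.symm huE))
        rw [hhu] at h3
        rw [hK]
        exact GP.trans h3 (GP.trans (GP.symm (hz u)) huE)
      have hnot' : ∀ y, u * zeta g ≠ ι y := by
        intro y hy
        refine hnot (h⁻¹ • y) ?_
        rw [hK, ← hy, ← hhu, Subgroup.coe_inv, inv_mul_cancel_left]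
      have z1 : u * zeta g ∈ Df ι W := fun i =>
        fa7 (hu i) (hnot' _) (hnot' _) (no_mid u _) (no_mid u _)
      have z2 : u * zeta g ∈ Df ι (fun i => h • W i) := by
        intro i
        show Cyc (ι (h • W i)) (u * zeta g) (ι (h • W (i + 1)))
        rw [hK, hK, ← hhu, cyc_mul]
        exact hu i
      obtain ⟨c, hc⟩ := ch_cmp hι hX hW hW' z1 z2
        (fun i => df_fill hι hX hW' (hf _ _ (GP.trans (hhE 0) (GP.symm (hWE i)))))
        (fun j => df_fill hι hX hW (hWx _ (hhE j)))
      have hcn : ∀ n : ℕ, h ^ n • W 0 = W (n * c) := by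
        intro n
        induction n with
        | zero => simp
        | succ n ih =>
          rw [pow_succ', mul_smul, ih]
          have h3 := hc (n * c)
          rw [h3]
          congr 1
          push_cast
          ring
      have h3 : h ^ N = k ^ c := by
        have h4 := hcn N
        rw [mul_comm, hpow] at h4
        exact cs_inj h4
      refine ⟨u, N, c, ?_, h2, ?_⟩
      · rintro rfl
        have h4 := hc 0
        simp only [add_zero] at h4
        have h5 := CS.free _ _ h4
        rw [h5, Subgroup.coe_one] at hh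
        have h6 : zeta g = 1 := by
          have h7 : u⁻¹ * (u * zeta g * u⁻¹) * u = 1 := by rw [← hh]; group
          have h8 : u⁻¹ * (u * zeta g * u⁻¹) * u = zeta g := by group
          rw [← h8, h7]
        exact zeta_ne_one (Nat.pos_of_ne_zero (NeZero.ne g)) h6
      · rw [← hh, ← Subgroup.coe_zpow, ← Subgroup.coe_zpow, zpow_natCast, h3]
  · -- the side of the face is saturated
    left
    push Not at hC
    have hsat : ∀ x y, E.S x y → x ∈ Df ι W → y ∈ Df ι W := by
      intro x y hxy hx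
      by_contra hy
      have h4 : ∃ i, ¬ Cyc (ι (W i)) y (ι (W (i + 1))) := by
        by_contra hcon
        push Not at hcon
        exact hy hcon
      obtain ⟨i, hi⟩ := h4
      have hyW : ∀ j, y ≠ ι (W j) := by
        rintro j rfl
        exact hC x hx (GP.trans hxy (hWE j))
      have h5 := df3 hi (hyW _) (hyW _) (hx i)
      have h6 := GP.noncr (GP.symm hxy) (hXE _ _ (hW.mem i)) h5
      exact hC x hx (GP.trans hxy (GP.trans (GP.symm h6) (hWE i)))
    have hS : Sat E (Df ι W) := ⟨hDne, ⟨ι (W 0), fun h2 => df_ne h2 0 rfl⟩, df_cvx,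
      fun x y h2 => ⟨hsat x y h2, hsat y x (GP.symm h2)⟩⟩
    exact sat_fix hLF (hE k k.2) hS (fun p => df_smul hK' (k := k) hper (p := p))

end TorH
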