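import Pool.Agent.Lib.MP_05cdf2_gt.H.YRel

/-! MP_05cdf2_gt, stream H (helper63): walks along the faces of a system, signed functions on the arcs. (complete)

`nxp X (x, y) = (y, z)` with `Nx X x y z`; `jt j x y` = `j (arc x y)` with the sign of the orientation; `fsum X j o` = sum of `jt j` around
the face of the oriented chord `o` (if the face closes up). `PS X j n x y s`: there is a walk of length `n` from `x` to `y` with sum `s`. -/

set_option autoImplicit false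
set_option linter.unusedSectionVars false

namespace TorH
open TorM TorA Function

variable {K Ω : Type} [Group K] [LinearOrder Ω] [CS K Ω]

/-- oriented non degenerate chords of `X` -/
def GX (X : Finset (Arc K Ω)) (o : Ω × Ω) : Prop := o.1 ≠ o.2 ∧ arc K o.1 o.2 ∈ X

open Classical in
/-- next oriented chord -/
noncomputable def nxp (X : Finset (Arc K Ω)) (o : Ω × Ω) : Ω × Ω :=
  if h : ∃ z, Nx X o.1 o.2 z then (o.2, h.choose) else o

theorem nxp_eq {X : Finset (Arc K Ω)} {x y z : Ω} (h : Nx X x y z) : nxp X (x, y) = (y, z) := by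
  have h1 : ∃ z, Nx X (x, y).1 (x, y).2 z := ⟨z, h⟩
  unfold nxp
  rw [dif_pos h1]
  exact Prod.ext rfl (nx_unique h1.choose_spec h)

theorem nxp_spec {X : Finset (Arc K Ω)} {o : Ω × Ω} (h : GX X o) :
    (nxp X o).1 = o.2 ∧ Nx X o.1 o.2 (nxp X o).2 := by
  obtain ⟨z, hz⟩ := nx_exists (X := X) h.1 (by rw [arc_comm]; exact h.2)
  have h1 : nxp X o = (o.2, z) := nxp_eq hz
  rw [h1]
  exact ⟨rfl, hz⟩

theorem nxp_good {X : Finset (Arc K Ω)} {o : Ω × Ω} (h : GX X o) : GX X (nxp X o) := by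
  obtain ⟨h1, h2⟩ := nxp_spec h
  refine ⟨?_, ?_⟩
  · rw [h1]
    exact h2.1.symm
  · rw [h1]
    exact h2.2.1

theorem nxp_smul {X : Finset (Arc K Ω)} {o : Ω × Ω} (h : GX X o) (k : K) : nxp X (k • o) = k • nxp X o := by
  obtain ⟨h1, h2⟩ := nxp_spec h
  have h3 : nxp X (k • o.1, k • o.2) = (k • o.2, k • (nxp X o).2) := nxp_eq (nx_smul k h2)
  refine Eq.trans (show nxp X (k • o) = nxp X (k • o.1, k • o.2) from rfl) (h3.trans ?_)
  exact Prod.ext (by rw [Prod.smul_fst, h1]) rfl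

theorem nxp_iter_good {X : Finset (Arc K Ω)} {o : Ω × Ω} (h : GX X o) (n : ℕ) : GX X ((nxp X)^[n] o) := by
  induction n with
  | zero => exact h
  | succ n ih =>
    rw [iterate_succ_apply']
    exact nxp_good ih

theorem nxp_iter_smul {X : Finset (Arc K Ω)} {o : Ω × Ω} (h : GX X o) (k : K) (n : ℕ) :
    (nxp X)^[n] (k • o) = k • (nxp X)^[n] o := by
  induction n with
  | zero => rfl
  | succ n ih =>
    rw [iterate_succ_apply', iterate_succ_apply', ih, nxp_smul (nxp_iter_good h n)]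

theorem GX.smul {X : Finset (Arc K Ω)} {o : Ω × Ω} (h : GX X o) (k : K) : GX X (k • o) := by
  refine ⟨fun h' => h.1 (smul_left_cancel k h'), ?_⟩
  show arc K (k • o.1) (k • o.2) ∈ X
  rw [arc_smul]
  exact h.2

theorem GX.swap {X : Finset (Arc K Ω)} {x y : Ω} (h : GX X (x, y)) : GX X (y, x) :=
  ⟨h.1.symm, by rw [arc_comm]; exact h.2⟩

theorem pair_smul_inj {o : Ω × Ω} {k l : K} (h : k • o = l • o) : k = l :=
  cs_inj (congrArg Prod.fst h)

theorem minPer_smul {X : Finset (Arc K Ω)} {o : Ω × Ω} (h : GX X o) (k : K) :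
    minimalPeriod (nxp X) (k • o) = minimalPeriod (nxp X) o := by
  rw [minimalPeriod_eq_minimalPeriod_iff]
  intro n
  unfold IsPeriodicPt IsFixedPt
  rw [nxp_iter_smul h]
  constructor
  · intro h1
    exact smul_left_cancel k h1
  · intro h1
    rw [h1]

/-! signed functions -/

open Classical in
/-- sign of an oriented chord -/
noncomputable def sg (K : Type) {Ω : Type} [Group K] [LinearOrder Ω] [CS K Ω] (x y : Ω) : ℚ :=
  if ∃ k : K, k • (rep (arc K x y)).1 = x ∧ k • (rep (arc K x y)).2 = y then 1 else -1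

theorem sg_smul (k : K) (x y : Ω) : sg K (k • x) (k • y) = sg K x y := by
  unfold sg
  rw [arc_smul]
  have h : (∃ l : K, l • (rep (arc K x y)).1 = k • x ∧ l • (rep (arc K x y)).2 = k • y) ↔
      (∃ l : K, l • (rep (arc K x y)).1 = x ∧ l • (rep (arc K x y)).2 = y) := by
    constructor
    · rintro ⟨l, h1, h2⟩
      exact ⟨k⁻¹ * l, by rw [mul_smul, h1, inv_smul_smul], by rw [mul_smul, h2, inv_smul_smul]⟩
    · rintro ⟨l, h1, h2⟩
      exact ⟨k * l, by rw [mul_smul, h1], by rw [mul_smul, h2]⟩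
  by_cases h0 : ∃ l : K, l • (rep (arc K x y)).1 = x ∧ l • (rep (arc K x y)).2 = y
  · rw [if_pos (h.2 h0), if_pos h0]
  · rw [if_neg (fun h1 => h0 (h.1 h1)), if_neg h0]

/-- no torsion -/
def NT (K : Type) [Group K] : Prop := ∀ (k : K) (n : ℕ), 0 < n → k ^ n = 1 → k = 1

theorem sg_swap (ht : NT K) {x y : Ω} (h : x ≠ y) : sg K y x = - sg K x y := by
  unfold sg
  rw [arc_comm y x]
  obtain ⟨⟨p, q⟩, hpq⟩ : ∃ t, rep (arc K x y) = t := ⟨_, rfl⟩
  rw [hpq]
  have hmk := arc_rep (arc K x y)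
  rw [hpq, arc_eq] at hmk
  simp only at hmk ⊢
  have hboth : ¬ ((∃ k : K, k • p = x ∧ k • q = y) ∧ (∃ k : K, k • p = y ∧ k • q = x)) := by
    rintro ⟨⟨k, h1, h2⟩, ⟨l, h3, h4⟩⟩
    have e1 : (l * k⁻¹) • x = y := by rw [← h1, mul_smul, inv_smul_smul, h3]
    have e2 : (l * k⁻¹) • y = x := by rw [← h2, mul_smul, inv_smul_smul, h4]
    have e3 : (l * k⁻¹) ^ 2 = 1 := by
      refine CS.free _ x ?_
      rw [pow_two, mul_smul, e1, e2]
    have e4 := ht _ 2 two_pos e3
    rw [e4, one_smul] at e1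
    exact h e1
  have hone : (∃ k : K, k • p = x ∧ k • q = y) ∨ (∃ k : K, k • p = y ∧ k • q = x) := by
    obtain ⟨k, h1 | h1⟩ := hmk
    · exact Or.inl ⟨k, h1⟩
    · exact Or.inr ⟨k, h1⟩
  rcases hone with h1 | h1
  · rw [if_pos h1, if_neg (fun h2 => hboth ⟨h1, h2⟩)]
  · rw [if_pos h1, if_neg (fun h2 => hboth ⟨h2, h1⟩), neg_neg]

theorem sg_ne (x y : Ω) : sg K x y ≠ 0 := by
  unfold sg
  split_ifs
  · exact one_ne_zero
  · exact neg_ne_zero.2 one_ne_zero

/-- signed value -/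
noncomputable def jt (j : Arc K Ω → ℚ) (x y : Ω) : ℚ := j (arc K x y) * sg K x y

theorem jt_smul (j : Arc K Ω → ℚ) (k : K) (x y : Ω) : jt j (k • x) (k • y) = jt j x y := by
  unfold jt
  rw [arc_smul, sg_smul]

theorem jt_swap (ht : NT K) (j : Arc K Ω → ℚ) {x y : Ω} (h : x ≠ y) : jt j y x = - jt j x y := by
  unfold jt
  rw [arc_comm, sg_swap ht h, mul_neg]

/-- sum around the face of `o` -/
noncomputable def fsum (X : Finset (Arc K Ω)) (j : Arc K Ω → ℚ) (o : Ω × Ω) : ℚ :=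
  ∑ i ∈ Finset.range (minimalPeriod (nxp X) o), jt j ((nxp X)^[i] o).1 ((nxp X)^[i] o).2

theorem fsum_smul {X : Finset (Arc K Ω)} (j : Arc K Ω → ℚ) {o : Ω × Ω} (h : GX X o) (k : K) :
    fsum X j (k • o) = fsum X j o := by
  unfold fsum
  rw [minPer_smul h]
  refine Finset.sum_congr rfl fun i _ => ?_
  rw [nxp_iter_smul h]
  exact jt_smul j k _ _

theorem fsum_next {X : Finset (Arc K Ω)} (j : Arc K Ω → ℚ) {o : Ω × Ω} (h : 0 < minimalPeriod (nxp X) o) :
    fsum X j (nxp X o) = fsum X j o := by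
  unfold fsum
  rw [minimalPeriod_apply (minimalPeriod_pos_iff_mem_periodicPts.1 h)]
  obtain ⟨n, hn⟩ : ∃ n, minimalPeriod (nxp X) o = n + 1 := ⟨_, (Nat.succ_pred_eq_of_pos h).symm⟩
  have hper := iterate_minimalPeriod (f := nxp X) (x := o)
  rw [hn] at hper ⊢
  rw [Finset.sum_range_succ, Finset.sum_range_succ']
  refine congrArg₂ _ (Finset.sum_congr rfl fun i _ => ?_) ?_
  · rw [iterate_succ_apply]
  · rw [← iterate_succ_apply, hper]
    rfl

theorem fsum_iter {X : Finset (Arc K Ω)} (j : Arc K Ω → ℚ) {o : Ω × Ω} (h : 0 < minimalPeriod (nxp X) o)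
    (n : ℕ) : fsum X j ((nxp X)^[n] o) = fsum X j o := by
  induction n with
  | zero => rfl
  | succ n ih =>
    rw [iterate_succ_apply', fsum_next, ih]
    rw [minimalPeriod_apply_iterate (minimalPeriod_pos_iff_mem_periodicPts.1 h)]
    exact h

/-! walks with sums -/

/-- walk of length `n` with sum `s` -/
def PS (X : Finset (Arc K Ω)) (j : Arc K Ω → ℚ) (n : ℕ) (x y : Ω) (s : ℚ) : Prop :=
  ∃ w : ℕ → Ω, w 0 = x ∧ w n = y ∧ (∀ i < n, GX X (w i, w (i + 1))) ∧
    s = ∑ i ∈ Finset.range n, jt j (w i) (w (i + 1))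

variable {X : Finset (Arc K Ω)} {j : Arc K Ω → ℚ}

theorem PS.trans {m n : ℕ} {x y z : Ω} {s t : ℚ} (h1 : PS X j m x y s) (h2 : PS X j n y z t) :
    PS X j (m + n) x z (s + t) := by
  obtain ⟨w, h3, h4, h5, rfl⟩ := h1
  obtain ⟨v, h6, h7, h8, rfl⟩ := h2
  obtain ⟨u, hu⟩ : ∃ u : ℕ → Ω, ∀ i, u i = if i ≤ m then w i else v (i - m) := ⟨_, fun _ => rfl⟩
  have e1 : ∀ i, i ≤ m → u i = w i := fun i hi => by rw [hu, if_pos hi]
  have e2 : ∀ i, u (m + i) = v i := by
    intro i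
    rw [hu]
    by_cases hi : m + i ≤ m
    · have h0 : i = 0 := by omega
      subst h0
      rw [if_pos hi, h6, Nat.add_zero, h4]
    · rw [if_neg hi, Nat.add_sub_cancel_left]
  refine ⟨u, ?_, ?_, ?_, ?_⟩
  · rw [e1 0 (Nat.zero_le _), h3]
  · rw [e2 n, h7]
  · intro i hi
    by_cases him : i < m
    · rw [e1 i him.le, e1 (i + 1) him]
      exact h5 i him
    · obtain ⟨l, rfl⟩ : ∃ l, i = m + l := ⟨i - m, by omega⟩
      rw [e2 l, add_assoc, e2 (l + 1)]
      exact h8 l (by omega)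
  · rw [Finset.sum_range_add]
    refine congrArg₂ _ (Finset.sum_congr rfl fun i hi => ?_) (Finset.sum_congr rfl fun i hi => ?_)
    · have hi' := Finset.mem_range.1 hi
      rw [e1 i hi'.le, e1 (i + 1) hi']
    · rw [e2 i, add_assoc, e2 (i + 1)]

theorem PS.single {x y : Ω} (h : GX X (x, y)) : PS X j 1 x y (jt j x y) := by
  refine ⟨fun i => if i = 0 then x else y, rfl, rfl, ?_, ?_⟩
  · intro i hi
    obtain rfl : i = 0 := by omega
    exact h
  · rw [Finset.sum_range_one]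
    rfl

theorem PS.nil (x : Ω) : PS X j 0 x x 0 := ⟨fun _ => x, rfl, rfl, fun i hi => absurd hi (by omega), rfl⟩

theorem PS.sub {n : ℕ} {w : ℕ → Ω} (h : ∀ i < n, GX X (w i, w (i + 1))) (i m : ℕ) (him : i + m ≤ n) :
    PS X j m (w i) (w (i + m)) (∑ l ∈ Finset.range m, jt j (w (i + l)) (w (i + l + 1))) :=
  ⟨fun l => w (i + l), rfl, rfl, fun l hl => h (i + l) (by omega), rfl⟩

theorem PS.smul {n : ℕ} {x y : Ω} {s : ℚ} (h : PS X j n x y s) (k : K) : PS X j n (k • x) (k • y) s := by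
  obtain ⟨w, h3, h4, h5, rfl⟩ := h
  refine ⟨fun i => k • w i, congrArg (k • ·) h3, congrArg (k • ·) h4, fun i hi => (h5 i hi).smul k, ?_⟩
  refine Finset.sum_congr rfl fun i _ => ?_
  exact (jt_smul j k _ _).symm

theorem PS.symm (ht : NT K) {n : ℕ} {x y : Ω} {s : ℚ} (h : PS X j n x y s) : PS X j n y x (-s) := by
  induction n generalizing x y s with
  | zero =>
    obtain ⟨w, h3, h4, h5, rfl⟩ := h
    subst h3 h4
    rw [Finset.sum_range_zero, neg_zero]
    exact PS.nil _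
  | succ n ih =>
    obtain ⟨w, rfl, rfl, h5, rfl⟩ := h
    have h6 : PS X j n (w 0) (w n) (∑ i ∈ Finset.range n, jt j (w i) (w (i + 1))) :=
      ⟨w, rfl, rfl, fun i hi => h5 i (by omega), rfl⟩
    have h7 : PS X j 1 (w (n + 1)) (w n) (jt j (w (n + 1)) (w n)) := PS.single (h5 n (by omega)).swap
    have h8 := h7.trans (ih h6)
    rw [jt_swap ht j (h5 n (by omega)).1, ← neg_add, add_comm 1 n] at h8
    rw [Finset.sum_range_succ, add_comm (∑ i ∈ Finset.range n, jt j (w i) (w (i + 1)))]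
    exact h8

/-- existence of walks -/
theorem ps_of_gn (hX : ∀ x : Ω, arc K x x ∉ X) (j : Arc K Ω → ℚ) {x y : Ω} (h : Gn X x y) : ∃ n s, PS X j n x y s := by
  induction h with
  | refl => exact ⟨0, 0, PS.nil _⟩
  | @tail b c _ h2 ih =>
    obtain ⟨n, s, h3⟩ := ih
    refine ⟨n + 1, s + jt j b c, h3.trans (PS.single ⟨?_, h2⟩)⟩
    intro hh
    simp only at hh
    rw [hh] at h2
    exact hX _ h2

end TorH
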