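import Pool.Agent.Lib.MP_05cdf2_gt.H.WNext
import Pool.Agent.Lib.MP_05cdf2_gt.K.Poly

/-! MP_05cdf2_gt, stream H (helper63): closed walks. (complete)

`closed_zero`: if the sums around the closed faces vanish then the sum of every closed walk vanishes. -/

set_option autoImplicit false
set_option linter.unusedSectionVars false

namespace TorH
open TorM TorA Function

section
variable {α : Type} [LinearOrder α]

theorem po_l {a p c v : α} (h1 : Cyc p a c) (h2 : Cyc a v c) (_ : v ≠ p) : Cyc p a v ∧ ¬ Cyc p c v := by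
  unfold Cyc at *
  grind

theorem po_r {a p c v : α} (h1 : Cyc a p c) (h2 : Cyc c v a) (_ : v ≠ p) : Cyc p c v ∧ ¬ Cyc p a v := by
  unfold Cyc at *
  grind

end

theorem md_aux {a d n : ℕ} (ha : a < n) (hd : d < n) : (a + d) % n = if a + d < n then a + d else a + d - n := by
  split_ifs with h
  · exact Nat.mod_eq_of_lt h
  · rw [Nat.mod_eq_sub_mod (by omega), Nat.mod_eq_of_lt (by omega)]

variable {K Ω : Type} [Group K] [LinearOrder Ω] [CS K Ω] {X : Finset (Arc K Ω)} {j : Arc K Ω → ℚ}

/-- data of a closed polygon without diagonals -/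
structure Pg (X : Finset (Arc K Ω)) (n : ℕ) (u : ℕ → Ω) : Prop where
  n3 : 3 ≤ n
  per : ∀ i, u (i + n) = u i
  good : ∀ i, GX X (u i, u (i + 1))
  inj : ∀ i j, i < j → j < i + n → u i ≠ u j
  diag : ∀ i j, i < j → j < i + n → arc K (u i) (u j) ∈ X → j = i + 1 ∨ j = i + n - 1

theorem pg_of {n : ℕ} (hn : 3 ≤ n) {w : ℕ → Ω} (h : ∀ i < n, GX X (w i, w (i + 1))) (hc : w n = w 0)
    (hinj : ∀ i j, i < j → j < n → w i ≠ w j)
    (hdiag : ∀ i j, i < j → j < n → arc K (w i) (w j) ∈ X → j = i + 1 ∨ (i = 0 ∧ j = n - 1)) :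
    ∃ u : ℕ → Ω, (∀ i, i ≤ n → u i = w i) ∧ Pg X n u := by
  have hlt : ∀ i, i % n < n := fun i => Nat.mod_lt _ (by omega)
  refine ⟨fun i => w (i % n), ?_, hn, ?_, ?_, ?_, ?_⟩
  · intro i hi
    show w (i % n) = w i
    rcases Nat.lt_or_ge i n with h1 | h1
    · rw [Nat.mod_eq_of_lt h1]
    · obtain rfl : i = n := le_antisymm hi h1
      rw [Nat.mod_self, hc]
  · intro i
    show w ((i + n) % n) = w (i % n)
    rw [Nat.add_mod_right]
  · intro i
    show GX X (w (i % n), w ((i + 1) % n))
    have h1 := h (i % n) (hlt i)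
    have h2 : (i + 1) % n = (i % n + 1) % n := by rw [Nat.mod_add_mod]
    rw [h2, md_aux (hlt i) (by omega : 1 < n)]
    split_ifs with h3
    · exact h1
    · have h4 : i % n + 1 = n := by have := hlt i; omega
      rw [h4, Nat.sub_self, ← hc]
      rw [h4] at h1
      exact h1
  · intro i j hij hjn
    show w (i % n) ≠ w (j % n)
    obtain ⟨d, rfl⟩ : ∃ d, j = i + d := ⟨j - i, by omega⟩
    have h2 : (i + d) % n = (i % n + d) % n := by rw [Nat.mod_add_mod]
    have h3 := hlt i
    rw [h2, md_aux h3 (by omega : d < n)]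
    split_ifs with h4
    · exact hinj _ _ (by omega) h4
    · exact (hinj _ _ (by omega) h3).symm
  · intro i j hij hjn
    show arc K (w (i % n)) (w (j % n)) ∈ X → _
    obtain ⟨d, rfl⟩ : ∃ d, j = i + d := ⟨j - i, by omega⟩
    have h2 : (i + d) % n = (i % n + d) % n := by rw [Nat.mod_add_mod]
    have h3 := hlt i
    rw [h2, md_aux h3 (by omega : d < n)]
    split_ifs with h4
    · intro h5
      rcases hdiag _ _ (by omega) h4 h5 with h6 | h6 <;> omega
    · intro h5
      rw [arc_comm] at h5
      rcases hdiag _ _ (by omega) h3 h5 with h6 | h6 <;> omega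

/-- a closed polygon without diagonals is a face -/
theorem Pg.nx (hX : Sy Co X) {n : ℕ} {u : ℕ → Ω} (h : Pg X n u) :
    (∀ i, Nx X (u i) (u (i + 1)) (u (i + 2))) ∨ (∀ i, Nx X (u (i + 2)) (u (i + 1)) (u i)) := by
  have hn := h.n3
  have side : ∀ i v, v ≠ u (i + 1) → arc K (u (i + 1)) v ∈ X → v ≠ u i → v ≠ u (i + 2) →
      (Cyc (u (i + 1)) (u (i + 2)) v ↔ Cyc (u (i + 1)) (u i) v) := by
    intro i v hv hvX h1 h2
    have hnv : ∀ m, m ≤ n - 2 → u (i + 2 + m) ≠ v := by
      intro m hm hcon
      rw [← hcon] at hvX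
      rcases h.diag (i + 1) (i + 2 + m) (by omega) (by omega) hvX with h3 | h3
      · obtain rfl : m = 0 := by omega
        exact h2 hcon.symm
      · have h4 : i + 2 + m = i + n := by omega
        rw [h4, h.per] at hcon
        exact h1 hcon.symm
    have h3 := path_side (p := u (i + 1)) (q := v) (fun m => u (i + 2 + m)) (n - 2)
      (fun m _ => hX _ hvX _ (h.good (i + 2 + m)).2 _ _ _ _ rfl rfl)
      (fun m hm => (h.inj (i + 1) (i + 2 + m) (by omega) (by omega)).symm) hnv
    have h4 : i + 2 + (n - 2) = i + n := by omega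
    simp only [Nat.add_zero, h4, h.per] at h3
    exact h3
  rcases convex n hn u h.per h.inj (fun i j => hX _ (h.good i).2 _ (h.good j).2 _ _ _ _ rfl rfl) with h0 | h0
  · right
    intro i
    refine ⟨(h.good i).1, by rw [arc_comm]; exact (h.good i).2, ?_⟩
    intro v hv hvX hcon
    rcases hcon with hcon | ⟨h1, -⟩
    · have h2 := po_r (h0 i (i + 2) (by omega) (by omega)) hcon hv
      exact h2.2 ((side i v hv hvX (cyc_ne hcon).2.1 (cyc_ne hcon).1.symm).1 h2.1)
    · exact h.inj i (i + 2) (by omega) (by omega) h1.symm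
  · left
    intro i
    refine ⟨(h.good (i + 1)).1.symm, (h.good (i + 1)).2, ?_⟩
    intro v hv hvX hcon
    rcases hcon with hcon | ⟨h1, -⟩
    · have h2 := po_l (h0 i (i + 2) (by omega) (by omega)) hcon hv
      exact h2.2 ((side i v hv hvX (cyc_ne hcon).1.symm (cyc_ne hcon).2.1).2 h2.1)
    · exact h.inj i (i + 2) (by omega) (by omega) h1

/-- the sum around a polygon without diagonals -/
theorem Pg.sum (ht : NT K) (hX : Sy Co X) (hj : ∀ o, GX X o → 3 ≤ minimalPeriod (nxp X) o → fsum X j o = 0)
    {n : ℕ} {u : ℕ → Ω} (h : Pg X n u) : ∑ i ∈ Finset.range n, jt j (u i) (u (i + 1)) = 0 := by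
  have hn := h.n3
  have hper0 : u n = u 0 := by
    have := h.per 0
    rwa [Nat.zero_add] at this
  have hper1 : u (n + 1) = u 1 := by
    have := h.per 1
    rwa [add_comm 1 n] at this
  rcases h.nx hX with h0 | h0
  · have hit : ∀ m, (nxp X)^[m] (u 0, u 1) = (u m, u (m + 1)) := by
      intro m
      induction m with
      | zero => rfl
      | succ m ih =>
        rw [iterate_succ_apply', ih]
        exact nxp_eq (h0 m)
    have hp : IsPeriodicPt (nxp X) n (u 0, u 1) := by
      unfold IsPeriodicPt IsFixedPt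
      rw [hit, hper0, hper1]
    have h1 := hp.minimalPeriod_le (by omega)
    have h2 := hp.minimalPeriod_pos (by omega)
    have h3 : minimalPeriod (nxp X) (u 0, u 1) = n := by
      by_contra hne
      have h4 := iterate_minimalPeriod (f := nxp X) (x := (u 0, u 1))
      rw [hit] at h4
      exact h.inj 0 _ h2 (by omega) (congrArg Prod.fst h4).symm
    have h5 := hj (u 0, u 1) (h.good 0) (by omega)
    unfold fsum at h5
    rw [h3] at h5
    rw [← h5]
    refine Finset.sum_congr rfl fun i _ => ?_
    rw [hit]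
  · have hit : ∀ m i, (nxp X)^[m] (u (i + m + 1), u (i + m)) = (u (i + 1), u i) := by
      intro m
      induction m with
      | zero => intro i; rfl
      | succ m ih =>
        intro i
        have h1 : nxp X (u (i + (m + 1) + 1), u (i + (m + 1))) = (u (i + m + 1), u (i + m)) := nxp_eq (h0 (i + m))
        rw [iterate_succ_apply, h1, ih]
    have hit' : ∀ m, m ≤ n → (nxp X)^[m] (u 1, u 0) = (u (n - m + 1), u (n - m)) := by
      intro m hm
      have h1 := hit m (n - m)
      rw [Nat.sub_add_cancel hm, hper0, hper1] at h1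
      exact h1
    have hp : IsPeriodicPt (nxp X) n (u 1, u 0) := by
      unfold IsPeriodicPt IsFixedPt
      rw [hit' n le_rfl, Nat.sub_self]
    have h1 := hp.minimalPeriod_le (by omega)
    have h2 := hp.minimalPeriod_pos (by omega)
    have h3 : minimalPeriod (nxp X) (u 1, u 0) = n := by
      by_contra hne
      have h4 := iterate_minimalPeriod (f := nxp X) (x := (u 1, u 0))
      rw [hit' _ h1] at h4
      exact h.inj 0 _ (by omega) (by omega) (congrArg Prod.snd h4).symm
    have h5 := hj (u 1, u 0) (h.good 0).swap (by omega)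
    unfold fsum at h5
    rw [h3] at h5
    have h6 : ∑ i ∈ Finset.range n, jt j (u (n - 1 - i + 1)) (u (n - 1 - i + 2)) = 0 := by
      rw [← neg_eq_zero, ← Finset.sum_neg_distrib, ← h5]
      refine Finset.sum_congr rfl fun i hi => ?_
      have hi' := Finset.mem_range.1 hi
      rw [hit' i hi'.le]
      have e1 : n - 1 - i + 1 = n - i := by omega
      have e2 : n - 1 - i + 2 = n - i + 1 := by omega
      rw [e1, e2, jt_swap ht j (h.good (n - i)).1]
    rw [Finset.sum_range_reflect (fun i => jt j (u (i + 1)) (u (i + 2))) n] at h6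
    obtain ⟨m, rfl⟩ : ∃ m, n = m + 1 := ⟨n - 1, by omega⟩
    rw [Finset.sum_range_succ']
    rw [Finset.sum_range_succ, hper0, show m + 2 = m + 1 + 1 from rfl, hper1] at h6
    exact h6

/-- closed walks have sum `0` -/
theorem closed_zero (ht : NT K) (hX : Sy Co X) (hj : ∀ o, GX X o → 3 ≤ minimalPeriod (nxp X) o → fsum X j o = 0) :
    ∀ (n : ℕ) (x : Ω) (s : ℚ), PS X j n x x s → s = 0 := by
  intro n
  induction n using Nat.strong_induction_on with
  | _ n ih =>
    rintro x s ⟨w, h0, hn, hw, rfl⟩
    have hc : w n = w 0 := by rw [h0, hn]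
    have hsplit : ∀ i m, i + m ≤ n → ∑ l ∈ Finset.range n, jt j (w l) (w (l + 1)) =
        ∑ l ∈ Finset.range i, jt j (w (0 + l)) (w (0 + l + 1)) + ∑ l ∈ Finset.range m, jt j (w (i + l)) (w (i + l + 1)) +
          ∑ l ∈ Finset.range (n - (i + m)), jt j (w (i + m + l)) (w (i + m + l + 1)) := by
      intro i m him
      obtain ⟨q, rfl⟩ : ∃ q, n = i + m + q := ⟨n - (i + m), by omega⟩
      rw [Finset.sum_range_add, Finset.sum_range_add, Nat.add_sub_cancel_left]
      simp only [Nat.zero_add]
    by_cases hrep : ∃ i m, 0 < m ∧ i + m < n ∧ w i = w (i + m)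
    · obtain ⟨i, m, hm, him, heq⟩ := hrep
      rw [hsplit i m him.le]
      have p1 := PS.sub (j := j) hw 0 i (by omega)
      have p2 := PS.sub (j := j) hw i m (by omega)
      have p3 := PS.sub (j := j) hw (i + m) (n - (i + m)) (by omega)
      rw [← heq] at p2
      rw [Nat.zero_add, heq] at p1
      rw [show i + m + (n - (i + m)) = n by omega, hc] at p3
      have q1 := ih m (by omega) _ _ p2
      have q2 := ih (i + (n - (i + m))) (by omega) _ _ (p1.trans p3)
      rw [q1, add_zero]
      exact q2
    · push Not at hrep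
      by_cases hd : ∃ i m, 2 ≤ m ∧ i + m < n ∧ m + 1 < n ∧ arc K (w i) (w (i + m)) ∈ X
      · obtain ⟨i, m, hm, him, him', hmem⟩ := hd
        have hG : GX X (w i, w (i + m)) := ⟨hrep i m (by omega) him, hmem⟩
        rw [hsplit i m him.le]
        have p1 := PS.sub (j := j) hw 0 i (by omega)
        have p2 := PS.sub (j := j) hw i m (by omega)
        have p3 := PS.sub (j := j) hw (i + m) (n - (i + m)) (by omega)
        rw [Nat.zero_add] at p1
        rw [show i + m + (n - (i + m)) = n by omega, hc] at p3
        have q1 := ih (m + 1) (by omega) _ _ (p2.trans (PS.single hG.swap))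
        have q2 := ih (i + 1 + (n - (i + m))) (by omega) _ _ ((p1.trans (PS.single hG)).trans p3)
        rw [jt_swap ht j hG.1] at q1
        linarith
      · push Not at hd
        have hn1 : n ≠ 1 := by
          rintro rfl
          exact (hw 0 one_pos).1 hc.symm
        rcases Nat.lt_or_ge n 3 with h3 | h3
        · interval_cases n
          · rfl
          · exact absurd rfl hn1
          · rw [Finset.sum_range_succ, Finset.sum_range_one, hc, jt_swap ht j (hw 0 two_pos).1, add_neg_cancel]
        · have hi1 : ∀ a b, a < b → b < n → w a ≠ w b := by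
            intro a b hab hb
            have := hrep a (b - a) (by omega) (by omega)
            rwa [show a + (b - a) = b by omega] at this
          have hi2 : ∀ a b, a < b → b < n → arc K (w a) (w b) ∈ X → b = a + 1 ∨ (a = 0 ∧ b = n - 1) := by
            intro a b hab hb hmem
            by_contra hcon
            refine hd a (b - a) (by omega) (by omega) (by omega) ?_
            rw [show a + (b - a) = b by omega]
            exact hmem
          obtain ⟨u, hu, hpg⟩ := pg_of h3 hw hc hi1 hi2
          rw [← hpg.sum ht hX hj]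
          refine Finset.sum_congr rfl fun i hi => ?_
          have hi' := Finset.mem_range.1 hi
          rw [hu i hi'.le, hu (i + 1) hi']

end TorH
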