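import Pool.Agent.Lib.MP_05cdf2_gt.H.WNext

/-! MP_05cdf2_gt, stream H (helper63): removal of an orbit of points from a filling system. (complete)

`ER E q`: the relation `E` on the points outside of the orbit of `q`. `rem_one`: a filling system for `E` gives one for `ER E q`.
Slides: if `v1` is a neighbour of `q` outside of the orbit, and `a` the neighbour of `q` next to `v1` then `{q, a}` is replaced by `{v1, a}`;
the number of neighbours of `q` goes down. `rem_fin`: the same for finitely many orbits. -/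

set_option autoImplicit false
set_option linter.unusedSectionVars false

namespace TorH
open TorM TorA

section
variable {α : Type} [LinearOrder α]

theorem rm_l {q v a d : α} (h1 : Cyc q v a) (h2 : Cr q d v a) : Cyc q v d ∧ Cyc q d a := by
  unfold Cr Cyc at *
  grind

theorem rm_r {q v a d : α} (h1 : Cyc q a v) (h2 : Cr q d v a) : Cyc q a d ∧ Cyc q d v := by
  unfold Cr Cyc at *
  grind

end

variable {K Ω : Type} [Group K] [LinearOrder Ω] [CS K Ω]

/-- the orbit of `q` -/
def Ob (K : Type) {Ω : Type} [Group K] [LinearOrder Ω] [CS K Ω] (q x : Ω) : Prop := ∃ k : K, k • q = x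

theorem ob_smul {q x : Ω} (k : K) : Ob K q (k • x) ↔ Ob K q x := by
  constructor
  · rintro ⟨l, hl⟩
    exact ⟨k⁻¹ * l, by rw [mul_smul, hl, inv_smul_smul]⟩
  · rintro ⟨l, hl⟩
    exact ⟨k * l, by rw [mul_smul, hl]⟩

/-- `E` outside of the orbit of `q` -/
def ER (K : Type) {Ω : Type} [Group K] [LinearOrder Ω] [CS K Ω] (E : Ω → Ω → Prop) (q x y : Ω) : Prop :=
  x = y ∨ (E x y ∧ ¬ Ob K q x ∧ ¬ Ob K q y)

theorem ne_ER {E : Ω → Ω → Prop} (hE : NE K E) (q : Ω) : NE K (ER K E q) := by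
  refine ⟨fun x => Or.inl rfl, ?_, ?_, ?_, ?_⟩
  · rintro x y (h | ⟨h1, h2, h3⟩)
    · exact Or.inl h.symm
    · exact Or.inr ⟨hE.symm h1, h3, h2⟩
  · rintro x y z (rfl | ⟨h1, h2, h3⟩) h
    · exact h
    · rcases h with rfl | ⟨h4, h5, h6⟩
      · exact Or.inr ⟨h1, h2, h3⟩
      · exact Or.inr ⟨hE.trans h1 h4, h2, h6⟩
  · rintro k x y (rfl | ⟨h1, h2, h3⟩)
    · exact Or.inl rfl
    · exact Or.inr ⟨hE.smul k h1, fun h => h2 ((ob_smul k).1 h), fun h => h3 ((ob_smul k).1 h)⟩
  · rintro a b x y (rfl | ⟨h1, h2, h3⟩) h4 hc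
    · exact absurd (cr_comm.1 hc) not_cr_same
    · rcases h4 with rfl | ⟨h5, h6, h7⟩
      · exact absurd hc not_cr_same
      · exact Or.inr ⟨hE.noncr h1 h5 hc, h6, h2⟩

theorem ER.le {E : Ω → Ω → Prop} (hE : NE K E) {q x y : Ω} (h : ER K E q x y) : E x y := by
  rcases h with rfl | h
  · exact hE.refl _
  · exact h.1

/-- the neighbours -/
def nbS (σ : Finset (Arc K Ω)) (q : Ω) : Set Ω := {z | z ≠ q ∧ arc K q z ∈ σ}

theorem nbS_fin (σ : Finset (Arc K Ω)) (q : Ω) : (nbS σ q).Finite := (nb_finite σ q).subset fun _ h => h.2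

open Classical in
/-- the arcs of `σ` in `E'` -/
noncomputable def flt (σ : Finset (Arc K Ω)) (E' : Ω → Ω → Prop) : Finset (Arc K Ω) := σ.filter fun a => In E' a

theorem mem_flt {σ : Finset (Arc K Ω)} {E' : Ω → Ω → Prop} (hE' : NE K E') {x y : Ω} :
    arc K x y ∈ flt σ E' ↔ arc K x y ∈ σ ∧ E' x y := by
  classical
  unfold flt
  rw [Finset.mem_filter, in_iff hE']

theorem flt_sy {σ : Finset (Arc K Ω)} {E E' : Ω → Ω → Prop} (h : Sy (CE E) σ) : Sy (CE E') (flt σ E') := by
  classical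
  refine sy_ce ((CE.co h).mono (Finset.filter_subset _ _)) ?_
  intro a ha
  exact (Finset.mem_filter.1 ha).2

/-- existence of a neighbour outside of the orbit -/
theorem exists_nb {σ : Finset (Arc K Ω)} {q v : Ω} (h : Gn σ q v) (hv : ¬ Ob K q v) :
    ∃ v1, arc K q v1 ∈ σ ∧ ¬ Ob K q v1 := by
  have h1 : ∀ x, Gn σ q x → ¬ Ob K q x → ∃ b c, Ob K q b ∧ ¬ Ob K q c ∧ arc K b c ∈ σ := by
    intro x hx
    induction hx with
    | refl => intro h; exact absurd ⟨1, one_smul _ _⟩ h
    | @tail b c _ h3 ih =>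
      intro hc
      by_cases hb : Ob K q b
      · exact ⟨b, c, hb, hc, h3⟩
      · exact ih hb
  obtain ⟨b, c, ⟨k, rfl⟩, h3, h4⟩ := h1 v h hv
  refine ⟨k⁻¹ • c, ?_, fun h5 => h3 ((ob_smul k⁻¹).1 h5)⟩
  rw [← arc_smul k, smul_inv_smul]
  exact h4

/-- the slide -/
theorem slide_step (ht : NT K) {E : Ω → Ω → Prop} (hE : NE K E) {σ : Finset (Arc K Ω)} (hσ : Sy (CE E) σ)
    (hf : Fi E σ) {q v1 a : Ω} (h1 : arc K q v1 ∈ σ) (hv1 : ¬ Ob K q v1) (ha : a ∈ nbS σ q) (hne : a ≠ v1)
    (hun : ∀ c d, arc K c d ∈ σ → ¬ Cr c d v1 a) :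
    ∃ σ1 : Finset (Arc K Ω), Sy (CE E) σ1 ∧ Fi E σ1 ∧ (nbS σ1 q).ncard < (nbS σ q).ncard := by
  have hq1 : v1 ≠ q := by
    rintro rfl
    exact hv1 ⟨1, one_smul _ _⟩
  have hanc : arc K v1 q ≠ arc K q a := by
    intro h
    rw [arc_eq] at h
    obtain ⟨k, ⟨h2, h3⟩ | ⟨h2, h3⟩⟩ := h
    · exact hv1 ⟨k⁻¹, by rw [← h2, inv_smul_smul]⟩
    · have h4 := CS.free k q h3
      rw [h4, one_smul] at h2
      exact hne h2.symm
  have hsimple : Co (arc K v1 a) (arc K v1 a) :=
    ear_simple (CE.co hσ) hq1 ha.1.symm (by rw [arc_comm]; exact h1) ha.2 hanc (co_of_un hun)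
  have hEv : E v1 a := hE.trans (hE.symm (CE.isIn hσ h1 _ _ rfl)) (CE.isIn hσ ha.2 _ _ rfl)
  have hsy : Sy (CE E) (insert (arc K v1 a) σ) := by
    refine sy_ce (sy_insert (CE.co hσ) hsimple (co_of_un hun)) ?_
    intro b hb
    rcases Finset.mem_insert.1 hb with rfl | hb
    · exact (in_iff hE).2 hEv
    · exact CE.isIn hσ hb
  set σ1 : Finset (Arc K Ω) := insert (arc K v1 a) (σ.erase (arc K q a)) with hσ1
  have hm1 : arc K v1 a ∈ σ1 := Finset.mem_insert_self _ _
  have hm2 : arc K q v1 ∈ σ1 := by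
    refine Finset.mem_insert_of_mem (Finset.mem_erase.2 ⟨?_, h1⟩)
    rw [arc_comm q v1]
    exact hanc
  -- new neighbours of `q`
  have hnew : ∀ z, arc K q z = arc K v1 a → ∃ k : K, k • v1 = z ∧ k • a = q := by
    intro z hz
    rw [eq_comm, arc_eq] at hz
    obtain ⟨k, ⟨h2, h3⟩ | ⟨h2, h3⟩⟩ := hz
    · exact absurd ⟨k⁻¹, by rw [← h2, inv_smul_smul]⟩ hv1
    · exact ⟨k, h2, h3⟩
  refine ⟨σ1, hsy.mono (Finset.insert_subset_insert _ (Finset.erase_subset _ _)), ?_, ?_⟩
  · intro x y hxy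
    refine Gn.bind ?_ (hf x y hxy)
    intro u v huv
    by_cases h : arc K u v = arc K q a
    · have k1 : Gn σ1 q a := (Gn.one hm2).trans (Gn.one hm1)
      rw [eq_comm, arc_eq] at h
      obtain ⟨k, ⟨rfl, rfl⟩ | ⟨rfl, rfl⟩⟩ := h
      · exact k1.smul k
      · exact (k1.smul k).symm
    · exact Gn.one (Finset.mem_insert_of_mem (Finset.mem_erase.2 ⟨h, huv⟩))
  · by_cases hao : Ob K q a
    · obtain ⟨l, hl⟩ := hao
      have hl1 : l ≠ 1 := by
        rintro rfl
        rw [one_smul] at hl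
        exact ha.1 hl.symm
      have hll : l • q ≠ l⁻¹ • q := by
        intro h
        have h2 := cs_inj h
        have h3 : l ^ 2 = 1 := by
          rw [pow_two]
          nth_rewrite 1 [h2]
          exact inv_mul_cancel l
        exact hl1 (ht l 2 two_pos h3)
      have harc : arc K q (l⁻¹ • q) = arc K q a := by
        rw [← hl, ← arc_smul l q (l⁻¹ • q), smul_inv_smul, arc_comm]
      have hsub : ({l • q, l⁻¹ • q} : Set Ω) ⊆ nbS σ q := by
        rintro z (rfl | rfl)
        · rw [hl]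
          exact ha
        · refine ⟨?_, by rw [harc]; exact ha.2⟩
          intro h
          exact hl1 (inv_eq_one.1 (CS.free _ _ h))
      have hcov : nbS σ1 q ⊆ insert (l⁻¹ • v1) (nbS σ q \ {l • q, l⁻¹ • q}) := by
        rintro z ⟨hz1, hz2⟩
        rw [hσ1, Finset.mem_insert, Finset.mem_erase] at hz2
        rcases hz2 with hz2 | ⟨hz2, hz3⟩
        · obtain ⟨k, h2, h3⟩ := hnew z hz2
          left
          rw [← hl, ← mul_smul] at h3
          have h4 := CS.free _ _ h3
          rw [← h2, eq_inv_of_mul_eq_one_left h4]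
        · right
          refine ⟨⟨hz1, hz3⟩, ?_⟩
          rintro (rfl | rfl)
          · exact hz2 (by rw [hl])
          · exact hz2 harc
      have hfin := nbS_fin σ q
      have e1 : (nbS σ q \ {l • q, l⁻¹ • q}).ncard + ({l • q, l⁻¹ • q} : Set Ω).ncard = (nbS σ q).ncard :=
        Set.ncard_sdiff_add_ncard_of_subset hsub hfin
      rw [Set.ncard_pair hll] at e1
      have e2 := Set.ncard_le_ncard hcov ((hfin.subset Set.sdiff_subset).insert _)
      have e3 := Set.ncard_insert_le (l⁻¹ • v1) (nbS σ q \ {l • q, l⁻¹ • q})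
      omega
    · refine Set.ncard_lt_ncard ?_ (nbS_fin σ q)
      have hno : ∀ z, arc K q z ≠ arc K v1 a := by
        intro z hz
        obtain ⟨k, -, h3⟩ := hnew z hz
        exact hao ⟨k⁻¹, by rw [← h3, inv_smul_smul]⟩
      rw [Set.ssubset_iff_of_subset]
      · refine ⟨a, ha, ?_⟩
        rintro ⟨-, h2⟩
        rw [hσ1, Finset.mem_insert, Finset.mem_erase] at h2
        rcases h2 with h2 | ⟨h2, -⟩
        · exact hno _ h2
        · exact h2 rfl
      · rintro z ⟨hz1, hz2⟩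
        rw [hσ1, Finset.mem_insert, Finset.mem_erase] at hz2
        rcases hz2 with hz2 | ⟨-, hz3⟩
        · exact absurd hz2 (hno z)
        · exact ⟨hz1, hz3⟩

/-- the final step: `q` has only one neighbour -/
theorem rem_last {E : Ω → Ω → Prop} (hE : NE K E) {σ : Finset (Arc K Ω)} (hσ : Sy (CE E) σ)
    (hf : Fi E σ) {q v1 : Ω} (hv1 : ¬ Ob K q v1) (h0 : ∀ z ∈ nbS σ q, z = v1) :
    Fi (ER K E q) (flt σ (ER K E q)) := by
  classical
  obtain ⟨r, hr1, hr2⟩ : ∃ r : Ω → Ω, (∀ k : K, r (k • q) = k • v1) ∧ ∀ x, ¬ Ob K q x → r x = x := by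
    refine ⟨fun x => if h : Ob K q x then h.choose • v1 else x, ?_, ?_⟩
    · intro k
      have h : Ob K q (k • q) := ⟨k, rfl⟩
      have h1 := cs_inj h.choose_spec
      show (if h : Ob K q (k • q) then h.choose • v1 else k • q) = k • v1
      rw [dif_pos h, h1]
    · intro x hx
      show (if h : Ob K q x then h.choose • v1 else x) = x
      rw [dif_neg hx]
  have hnb : ∀ (k : K) d, arc K (k • q) d ∈ σ → d = k • q ∨ d = k • v1 := by
    intro k d hd
    by_cases h : d = k • q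
    · exact Or.inl h
    · right
      have h1 : k⁻¹ • d ∈ nbS σ q := by
        refine ⟨fun h2 => h (by rw [← h2, smul_inv_smul]), ?_⟩
        rw [← arc_smul k, smul_inv_smul]
        exact hd
      rw [← h0 _ h1, smul_inv_smul]
  have hv1' : ∀ k : K, ¬ Ob K q (k • v1) := fun k h => hv1 ((ob_smul k).1 h)
  have hE' := ne_ER hE (K := K) q
  have key : ∀ c d, arc K c d ∈ σ → E c d → Gn (flt σ (ER K E q)) (r c) (r d) := by
    intro c d hcd hE2
    by_cases hc : Ob K q c
    · obtain ⟨k, rfl⟩ := hc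
      rcases hnb k d hcd with rfl | rfl
      · exact Relation.ReflTransGen.refl
      · rw [hr1, hr2 _ (hv1' k)]
        exact Relation.ReflTransGen.refl
    · by_cases hd : Ob K q d
      · obtain ⟨k, rfl⟩ := hd
        rw [arc_comm] at hcd
        rcases hnb k c hcd with rfl | rfl
        · exact Relation.ReflTransGen.refl
        · rw [hr1, hr2 _ (hv1' k)]
          exact Relation.ReflTransGen.refl
      · rw [hr2 _ hc, hr2 _ hd]
        exact Gn.one ((mem_flt hE').2 ⟨hcd, Or.inr ⟨hE2, hc, hd⟩⟩)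
  rintro x y (rfl | ⟨h1, h2, h3⟩)
  · exact Relation.ReflTransGen.refl
  · have h4 : Gn (flt σ (ER K E q)) (r x) (r y) := by
      have h5 := hf x y h1
      clear h1 h3
      induction h5 with
      | refl => exact Relation.ReflTransGen.refl
      | tail _ h6 ih => exact ih.trans (key _ _ h6 (CE.isIn hσ h6 _ _ rfl))
    rwa [hr2 _ h2, hr2 _ h3] at h4

/-- removal of an orbit -/
theorem rem_one (ht : NT K) {E : Ω → Ω → Prop} (hE : NE K E) {σ : Finset (Arc K Ω)} (hσ : Sy (CE E) σ)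
    (hf : Fi E σ) (q : Ω) : ∃ σ' : Finset (Arc K Ω), Sy (CE (ER K E q)) σ' ∧ Fi (ER K E q) σ' := by
  by_cases hv : ∃ v, E q v ∧ ¬ Ob K q v
  · obtain ⟨v, hv1, hv2⟩ := hv
    induction hn : (nbS σ q).ncard using Nat.strong_induction_on generalizing σ with
    | _ n ih =>
      subst hn
      obtain ⟨v1, h1, h2⟩ := exists_nb (hf q v hv1) hv2
      have hq1 : v1 ≠ q := by
        rintro rfl
        exact h2 ⟨1, one_smul _ _⟩
      by_cases h0 : ∀ z ∈ nbS σ q, z = v1
      · exact ⟨_, flt_sy hσ, rem_last hE hσ hf h2 h0⟩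
      · push Not at h0
        obtain ⟨a0, ha0, hne0⟩ := h0
        obtain ⟨a, ha, hne, hun⟩ : ∃ a ∈ nbS σ q, a ≠ v1 ∧ ∀ c d, arc K c d ∈ σ → ¬ Cr c d v1 a := by
          have hquad : ∀ a ∈ nbS σ q, (∀ d, arc K q d ∈ σ → ¬ Cr q d v1 a) →
              ∀ c d, arc K c d ∈ σ → ¬ Cr c d v1 a := by
            intro a ha hh c d hcd hcr
            rcases quad (t := q) hcr (sy_co_iff (fun _ _ h => h) (CE.co hσ) hcd (by rw [arc_comm]; exact h1))
              (sy_co_iff (fun _ _ h => h) (CE.co hσ) hcd ha.2) with rfl | rfl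
            · exact hh d hcd hcr
            · exact hh c (by rw [arc_comm]; exact hcd) (cr_swap1.1 hcr)
          by_cases hp : ∃ a ∈ nbS σ q, Cyc q v1 a
          · obtain ⟨a1, ha1, hc1⟩ := hp
            set W : Set Ω := {z | z ∈ nbS σ q ∧ Cyc q v1 z} with hW
            have hWf : W.Finite := (nbS_fin σ q).subset fun z hz => hz.1
            obtain ⟨a, ha, hmin⟩ := Finset.exists_min_image hWf.toFinset (rp q)
              ((Set.Finite.toFinset_nonempty hWf).2 ⟨a1, ha1, hc1⟩)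
            rw [Set.Finite.mem_toFinset] at ha
            refine ⟨a, ha.1, (cyc_ne ha.2).2.1.symm, hquad a ha.1 ?_⟩
            intro d hd hcr
            obtain ⟨h3, h4⟩ := rm_l ha.2 hcr
            have hdq : d ≠ q := (cyc_ne h3).2.2.symm
            have h5 := hmin d ((Set.Finite.mem_toFinset hWf).2 ⟨⟨hdq, hd⟩, h3⟩)
            exact absurd ((cyc_rp hdq ha.1.1).1 h4) (not_lt.2 h5)
          · have hc1 : Cyc q a0 v1 := by
              refine (cyc_tot ha0.1.symm hne0 hq1.symm).resolve_right ?_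
              intro h3
              exact hp ⟨a0, ha0, h3⟩
            set W : Set Ω := {z | z ∈ nbS σ q ∧ Cyc q z v1} with hW
            have hWf : W.Finite := (nbS_fin σ q).subset fun z hz => hz.1
            obtain ⟨a, ha, hmax⟩ := Finset.exists_max_image hWf.toFinset (rp q)
              ((Set.Finite.toFinset_nonempty hWf).2 ⟨a0, ha0, hc1⟩)
            rw [Set.Finite.mem_toFinset] at ha
            refine ⟨a, ha.1, (cyc_ne ha.2).2.1, hquad a ha.1 ?_⟩
            intro d hd hcr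
            obtain ⟨h3, h4⟩ := rm_r ha.2 hcr
            have hdq : d ≠ q := (cyc_ne h4).1.symm
            have h5 := hmax d ((Set.Finite.mem_toFinset hWf).2 ⟨⟨hdq, hd⟩, h4⟩)
            exact absurd ((cyc_rp ha.1.1 hdq).1 h3) (not_lt.2 h5)
        obtain ⟨σ1, s1, s2, s3⟩ := slide_step ht hE hσ hf h1 h2 ha hne hun
        exact ih _ s3 s1 s2 rfl
  · push Not at hv
    refine ⟨flt σ (ER K E q), flt_sy hσ, ?_⟩
    rintro x y (rfl | ⟨h1, h2, h3⟩)
    · exact Relation.ReflTransGen.refl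
    · have key : ∀ z, Gn σ x z → Gn (flt σ (ER K E q)) x z ∧ ¬ Ob K q z := by
        intro z hz
        induction hz with
        | refl => exact ⟨Relation.ReflTransGen.refl, h2⟩
        | @tail b c h4 h5 ih =>
          have hEb : E x b := Gn.isIn hE (fun a ha => CE.isIn hσ ha) h4
          have hEc : E b c := CE.isIn hσ h5 _ _ rfl
          have hc : ¬ Ob K q c := by
            rintro ⟨k, rfl⟩
            have h6 : E q (k⁻¹ • x) := by
              have h7 := hE.smul k⁻¹ (hE.symm (hE.trans hEb hEc))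
              rwa [inv_smul_smul] at h7
            exact h2 ((ob_smul k⁻¹).1 (hv _ h6))
          exact ⟨ih.1.tail ((mem_flt (ne_ER hE q)).2 ⟨h5, Or.inr ⟨hEc, ih.2, hc⟩⟩), hc⟩
      exact (key y (hf x y h1)).1

/-- `E` outside of finitely many orbits -/
def EP (K : Type) {Ω : Type} [Group K] [LinearOrder Ω] [CS K Ω] (E : Ω → Ω → Prop) (P : Finset Ω) (x y : Ω) : Prop :=
  x = y ∨ (E x y ∧ (∀ p ∈ P, ¬ Ob K p x) ∧ ∀ p ∈ P, ¬ Ob K p y)

theorem EP_empty {E : Ω → Ω → Prop} (hE : NE K E) : EP K E ∅ = E := by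
  ext x y
  constructor
  · rintro (rfl | h)
    · exact hE.refl _
    · exact h.1
  · intro h
    exact Or.inr ⟨h, fun p hp => absurd hp (Finset.notMem_empty _), fun p hp => absurd hp (Finset.notMem_empty _)⟩

theorem EP_insert [DecidableEq Ω] {E : Ω → Ω → Prop} {P : Finset Ω} {p : Ω} :
    EP K E (insert p P) = ER K (EP K E P) p := by
  ext x y
  constructor
  · rintro (rfl | ⟨h1, h2, h3⟩)
    · exact Or.inl rfl
    · exact Or.inr ⟨Or.inr ⟨h1, fun q hq => h2 q (Finset.mem_insert_of_mem hq),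
        fun q hq => h3 q (Finset.mem_insert_of_mem hq)⟩, h2 p (Finset.mem_insert_self _ _),
        h3 p (Finset.mem_insert_self _ _)⟩
  · rintro (rfl | ⟨rfl | ⟨h1, h2, h3⟩, h4, h5⟩)
    · exact Or.inl rfl
    · exact Or.inl rfl
    · refine Or.inr ⟨h1, ?_, ?_⟩
      · intro q hq
        rcases Finset.mem_insert.1 hq with rfl | hq
        · exact h4
        · exact h2 q hq
      · intro q hq
        rcases Finset.mem_insert.1 hq with rfl | hq
        · exact h5
        · exact h3 q hq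

/-- removal of finitely many orbits -/
theorem rem_fin (ht : NT K) {E : Ω → Ω → Prop} (hE : NE K E) {σ : Finset (Arc K Ω)} (hσ : Sy (CE E) σ)
    (hf : Fi E σ) (P : Finset Ω) : NE K (EP K E P) ∧ ∃ σ' : Finset (Arc K Ω), Sy (CE (EP K E P)) σ' ∧ Fi (EP K E P) σ' := by
  classical
  induction P using Finset.induction_on with
  | empty =>
    rw [EP_empty hE]
    exact ⟨hE, σ, hσ, hf⟩
  | insert p P _ ih =>
    obtain ⟨h1, σ', h2, h3⟩ := ih
    rw [EP_insert]
    exact ⟨ne_ER h1 p, rem_one ht h1 h2 h3 p⟩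

end TorH
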