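import Pool.Agent.Lib.MP_05cdf2_gt.H.WRem

/-! MP_05cdf2_gt, stream H (helper63): transfer of filling systems to an invariant subspace. (complete)

`f : Ω' → Ω` strictly monotone and equivariant. `sub_fill`: a filling system for the relation `E` on the image of `f` gives a filling system
for `E` pulled back to `Ω'`. -/

set_option autoImplicit false
set_option linter.unusedSectionVars false

namespace TorH
open TorM TorA

variable {K Ω Ω' : Type} [Group K] [LinearOrder Ω] [CS K Ω] [LinearOrder Ω'] [CS K Ω']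

theorem cyc_mono {f : Ω' → Ω} (hf : StrictMono f) {x y z : Ω'} : Cyc (f x) (f y) (f z) ↔ Cyc x y z := by
  unfold Cyc
  rw [hf.lt_iff_lt, hf.lt_iff_lt, hf.lt_iff_lt]

theorem cr_mono {f : Ω' → Ω} (hf : StrictMono f) {x y z w : Ω'} : Cr (f x) (f y) (f z) (f w) ↔ Cr x y z w := by
  unfold Cr
  rw [cyc_mono hf, cyc_mono hf, cyc_mono hf, cyc_mono hf]

/-- pullback of a relation -/
theorem ne_comap {f : Ω' → Ω} (hf : StrictMono f) (hK : ∀ (k : K) x, f (k • x) = k • f x) {E : Ω → Ω → Prop}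
    (hE : NE K E) : NE K (fun x y => E (f x) (f y)) := by
  refine ⟨fun x => hE.refl _, fun h => hE.symm h, fun h h' => hE.trans h h', ?_, ?_⟩
  · intro k x y h
    simp only [hK]
    exact hE.smul k h
  · intro a b x y h h' hc
    exact hE.noncr h h' ((cr_mono hf).2 hc)

theorem arc_inj {f : Ω' → Ω} (hf : StrictMono f) (hK : ∀ (k : K) x, f (k • x) = k • f x) {x y z w : Ω'} :
    arc K (f x) (f y) = arc K (f z) (f w) ↔ arc K x y = arc K z w := by
  rw [arc_eq, arc_eq]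
  refine exists_congr fun k => ?_
  rw [← hK, ← hK, hf.injective.eq_iff, hf.injective.eq_iff, hf.injective.eq_iff, hf.injective.eq_iff]

theorem sub_fill {f : Ω' → Ω} (hf : StrictMono f) (hK : ∀ (k : K) x, f (k • x) = k • f x) {E : Ω → Ω → Prop}
    (hE : NE K E) (hr : ∀ x y, E x y → x ≠ y → (∃ x', f x' = x) ∧ ∃ y', f y' = y) {σ : Finset (Arc K Ω)}
    (hσ : Sy (CE E) σ) (hσf : Fi E σ) :
    ∃ σ' : Finset (Arc K Ω'), Sy (CE (fun x y => E (f x) (f y))) σ' ∧ Fi (fun x y => E (f x) (f y)) σ' := by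
  classical
  have hE' := ne_comap hf hK hE
  have hfin : {a : Arc K Ω' | ∃ x y, arc K x y = a ∧ arc K (f x) (f y) ∈ σ}.Finite := by
    have hsub : {a : Arc K Ω' | ∃ x y, arc K x y = a ∧ arc K (f x) (f y) ∈ σ} ⊆
        ⋃ b ∈ σ, {a : Arc K Ω' | ∃ x y, arc K x y = a ∧ arc K (f x) (f y) = b} := by
      rintro a ⟨x, y, h1, h2⟩
      rw [Set.mem_iUnion₂]
      exact ⟨_, h2, x, y, h1, rfl⟩
    refine (σ.finite_toSet.biUnion fun b _ => ?_).subset hsub
    refine Set.Subsingleton.finite ?_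
    rintro _ ⟨x, y, rfl, h2⟩ _ ⟨z, w, rfl, h4⟩
    exact (arc_inj hf hK).1 (h2.trans h4.symm)
  set σ' : Finset (Arc K Ω') := hfin.toFinset with hσ'
  have hmem : ∀ x y : Ω', arc K x y ∈ σ' ↔ arc K (f x) (f y) ∈ σ := by
    intro x y
    rw [hσ', Set.Finite.mem_toFinset]
    constructor
    · rintro ⟨z, w, h1, h2⟩
      rwa [(arc_inj hf hK).2 h1] at h2
    · intro h
      exact ⟨x, y, rfl, h⟩
  refine ⟨σ', sy_ce ?_ ?_, ?_⟩
  · intro a ha b hb x y z w h1 h2 hc
    subst h1 h2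
    exact sy_co_iff (fun _ _ h => h) (CE.co hσ) ((hmem _ _).1 ha) ((hmem _ _).1 hb) ((cr_mono hf).2 hc)
  · intro a ha
    obtain ⟨x, y, rfl⟩ := arc_surj a
    rw [in_iff hE']
    exact CE.isIn hσ ((hmem _ _).1 ha) _ _ rfl
  · intro x y hxy
    have h1 := hσf _ _ hxy
    have key : ∀ z, Gn σ (f x) z → ∃ z', f z' = z ∧ Gn σ' x z' := by
      intro z hz
      induction hz with
      | refl => exact ⟨x, rfl, Relation.ReflTransGen.refl⟩
      | @tail b c _ h3 ih =>
        obtain ⟨b', rfl, h4⟩ := ih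
        by_cases hbc : f b' = c
        · exact ⟨b', hbc, h4⟩
        · obtain ⟨c', rfl⟩ := (hr _ _ (CE.isIn hσ h3 _ _ rfl) hbc).2
          exact ⟨c', rfl, h4.tail ((hmem _ _).2 h3)⟩
    obtain ⟨z', h2, h3⟩ := key _ h1
    rwa [hf.injective h2] at h3

end TorH
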