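import Pool.Agent.Lib.MP_05cdf2_gt.K.Chord
import Pool.Agent.Lib.MP_05cdf2_gt.H.HDef

/-! MP_05cdf2_gt, stream H (helper63): chord spaces. (complete)

`CS K Ω`: a group `K` acting freely on a cyclically ordered set `Ω`, finitely many translates of a chord cross a given chord.
`Arc K Ω` = orbits of unordered pairs of points, `arc K x y` the arc of the chord `{x, y}`. `Co a b`: no lift of `a` crosses a lift
of `b`. `NE E`: invariant equivalence relation, chords of related points which cross are in the same class. `rp p x` =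
position of `x` seen from `p` (counterclockwise). -/

set_option autoImplicit false

namespace TorH
open TorM

/-- chord space -/
class CS (K Ω : Type) [Group K] [LinearOrder Ω] extends MulAction K Ω where
  cyc : ∀ (k : K) (x y z : Ω), Cyc (k • x) (k • y) (k • z) ↔ Cyc x y z
  fin : ∀ a b c d : Ω, {k : K | Cr a b (k • c) (k • d)}.Finite
  free : ∀ (k : K) (x : Ω), k • x = x → k = 1

variable {K Ω : Type} [Group K] [LinearOrder Ω] [CS K Ω]

theorem cs_cyc (k : K) (x y z : Ω) : Cyc (k • x) (k • y) (k • z) ↔ Cyc x y z := CS.cyc k x y z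

theorem cs_cr (k : K) (x y z w : Ω) : Cr (k • x) (k • y) (k • z) (k • w) ↔ Cr x y z w := by
  unfold Cr
  rw [cs_cyc, cs_cyc, cs_cyc, cs_cyc]

theorem cs_inj {k l : K} {x : Ω} (h : k • x = l • x) : k = l := by
  have h1 : (l⁻¹ * k) • x = x := by
    rw [mul_smul, h, inv_smul_smul]
  have h2 := CS.free _ _ h1
  rw [inv_mul_eq_one] at h2
  exact h2.symm

variable (K Ω) in
/-- orbits of unordered pairs -/
def arcS : Setoid (Ω × Ω) where
  r x y := ∃ k : K, (k • x.1 = y.1 ∧ k • x.2 = y.2) ∨ (k • x.1 = y.2 ∧ k • x.2 = y.1)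
  iseqv := by
    refine ⟨fun x => ⟨1, Or.inl ⟨one_smul _ _, one_smul _ _⟩⟩, ?_, ?_⟩
    · rintro x y ⟨k, ⟨h1, h2⟩ | ⟨h1, h2⟩⟩
      · exact ⟨k⁻¹, Or.inl ⟨by rw [← h1, inv_smul_smul], by rw [← h2, inv_smul_smul]⟩⟩
      · exact ⟨k⁻¹, Or.inr ⟨by rw [← h2, inv_smul_smul], by rw [← h1, inv_smul_smul]⟩⟩
    · rintro x y z ⟨k, ⟨h1, h2⟩ | ⟨h1, h2⟩⟩ ⟨l, ⟨h3, h4⟩ | ⟨h3, h4⟩⟩
      · exact ⟨l * k, Or.inl ⟨by rw [mul_smul, h1, h3], by rw [mul_smul, h2, h4]⟩⟩
      · exact ⟨l * k, Or.inr ⟨by rw [mul_smul, h1, h3], by rw [mul_smul, h2, h4]⟩⟩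
      · exact ⟨l * k, Or.inr ⟨by rw [mul_smul, h1, h4], by rw [mul_smul, h2, h3]⟩⟩
      · exact ⟨l * k, Or.inl ⟨by rw [mul_smul, h1, h4], by rw [mul_smul, h2, h3]⟩⟩

variable (K Ω) in
/-- arcs -/
def Arc : Type := Quotient (arcS K Ω)

noncomputable instance : DecidableEq (Arc K Ω) := Classical.decEq _

variable (K) in
/-- the arc of a chord -/
def arc (x y : Ω) : Arc K Ω := Quotient.mk (arcS K Ω) (x, y)

theorem arc_eq {x y z w : Ω} :
    arc K x y = arc K z w ↔ ∃ k : K, (k • x = z ∧ k • y = w) ∨ (k • x = w ∧ k • y = z) :=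
  Quotient.eq (r := arcS K Ω)

theorem arc_smul (k : K) (x y : Ω) : arc K (k • x) (k • y) = arc K x y :=
  (arc_eq.2 ⟨k, Or.inl ⟨rfl, rfl⟩⟩).symm

theorem arc_comm (x y : Ω) : arc K x y = arc K y x := arc_eq.2 ⟨1, Or.inr ⟨one_smul _ _, one_smul _ _⟩⟩

theorem arc_surj (a : Arc K Ω) : ∃ x y : Ω, arc K x y = a := by
  obtain ⟨⟨x, y⟩, h⟩ := Quotient.exists_rep a
  exact ⟨x, y, h⟩

/-- compatible arcs -/
def Co (a b : Arc K Ω) : Prop := ∀ x y z w : Ω, arc K x y = a → arc K z w = b → ¬ Cr x y z w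

theorem Co.symm {a b : Arc K Ω} (h : Co a b) : Co b a := by
  intro x y z w h1 h2 h3
  exact h z w x y h2 h1 (cr_comm.2 h3)

/-- one lift of the first arc is enough -/
theorem co_iff {x y : Ω} {b : Arc K Ω} : Co (arc K x y) b ↔ ∀ z w : Ω, arc K z w = b → ¬ Cr x y z w := by
  constructor
  · intro h z w h1
    exact h x y z w rfl h1
  · intro h x' y' z w h1 h2 h3
    rw [arc_eq] at h1
    obtain ⟨k, ⟨rfl, rfl⟩ | ⟨rfl, rfl⟩⟩ := h1
    · refine h (k • z) (k • w) ?_ ((cs_cr k _ _ _ _).2 h3)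
      rw [arc_smul, h2]
    · refine h (k • z) (k • w) ?_ (cr_swap1.1 ((cs_cr k _ _ _ _).2 h3))
      rw [arc_smul, h2]

theorem sy_co_iff {C : Arc K Ω → Arc K Ω → Prop} (hC : ∀ a b, C a b → Co a b) {ρ : Finset (Arc K Ω)}
    (h : Sy C ρ) {x y z w : Ω} (h1 : arc K x y ∈ ρ) (h2 : arc K z w ∈ ρ) : ¬ Cr x y z w :=
  hC _ _ (h _ h1 _ h2) x y z w rfl rfl

/-- invariant non crossing equivalence relation -/
structure NE (K : Type) {Ω : Type} [Group K] [LinearOrder Ω] [CS K Ω] (E : Ω → Ω → Prop) : Prop where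
  refl : ∀ x, E x x
  symm : ∀ {x y}, E x y → E y x
  trans : ∀ {x y z}, E x y → E y z → E x z
  smul : ∀ (k : K) {x y}, E x y → E (k • x) (k • y)
  noncr : ∀ {a b x y}, E x y → E a b → Cr a b x y → E a x

/-- the arc lies in `E` -/
def In (E : Ω → Ω → Prop) (a : Arc K Ω) : Prop := ∀ x y : Ω, arc K x y = a → E x y

theorem in_iff {E : Ω → Ω → Prop} (hE : NE K E) {x y : Ω} : In E (arc K x y) ↔ E x y := by
  constructor
  · intro h
    exact h x y rfl
  · intro h x' y' h1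
    rw [arc_eq] at h1
    obtain ⟨k, ⟨h1, h2⟩ | ⟨h1, h2⟩⟩ := h1
    · have := hE.smul k⁻¹ h
      rw [← h1, ← h2] at h
      have h3 := hE.smul k⁻¹ h
      rw [inv_smul_smul, inv_smul_smul] at h3
      exact h3
    · rw [← h1, ← h2] at h
      have h3 := hE.smul k⁻¹ h
      rw [inv_smul_smul, inv_smul_smul] at h3
      exact hE.symm h3

open Classical in
/-- position seen from `p` -/
noncomputable def rp (p x : Ω) : Bool ×ₗ Ω := toLex (decide (x < p), x)

theorem cyc_rp {α : Type} [LinearOrder α] {p x y : α} (hx : x ≠ p) (hy : y ≠ p) :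
    Cyc p x y ↔ rp p x < rp p y := by
  unfold rp
  rw [Prod.Lex.toLex_lt_toLex]
  rcases lt_or_gt_of_ne hx with h1 | h1 <;> rcases lt_or_gt_of_ne hy with h2 | h2
  · simp only [h1, h2, decide_true, lt_self_iff_false, true_and, false_or]
    unfold Cyc
    constructor
    · rintro (⟨h3, h4⟩ | ⟨h3, h4⟩ | ⟨h3, h4⟩)
      · exact absurd (h3.trans h1) (lt_irrefl _)
      · exact h3
      · exact absurd (h4.trans h1) (lt_irrefl _)
    · intro h
      exact Or.inr (Or.inl ⟨h, h2⟩)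
  · simp only [h1, h2.not_gt, decide_true, decide_false]
    unfold Cyc
    constructor
    · rintro (⟨h3, h4⟩ | ⟨h3, h4⟩ | ⟨h3, h4⟩)
      · exact absurd (h3.trans h1) (lt_irrefl _)
      · exact absurd (h4.trans h2) (lt_irrefl _)
      · exact absurd (h3.trans h2) (lt_irrefl _)
    · rintro (h | h)
      · exact absurd h (by decide)
      · exact absurd h.1 (by decide)
  · simp only [h1.not_gt, h2, decide_true, decide_false]
    constructor
    · intro _
      exact Or.inl (by decide)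
    · intro _
      exact Or.inr (Or.inr ⟨h2, h1⟩)
  · simp only [h1.not_gt, h2.not_gt, decide_false, lt_self_iff_false, true_and, false_or]
    unfold Cyc
    constructor
    · rintro (⟨h3, h4⟩ | ⟨h3, h4⟩ | ⟨h3, h4⟩)
      · exact h4
      · exact absurd (h4.trans h2) (lt_irrefl _)
      · exact absurd (h3.trans h2) (lt_irrefl _)
    · intro h
      exact Or.inl ⟨h1, h⟩

theorem rp_inj {α : Type} [LinearOrder α] {p x y : α} (h : rp p x = rp p y) : x = y := by
  have h1 := toLex.injective h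
  exact congrArg Prod.snd h1

end TorH
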