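import Pool.Agent.Lib.MP_05cdf2_gt.H.XFlow
import Pool.Agent.Lib.MP_05cdf2_gt.H.HZero

/-! MP_05cdf2_gt, stream H (helper63): filling systems and (H0) in a chord space. (complete)

`Gn X` = relation generated by the chords of `X`; `Fi E X`: it contains `E`. `fill_ext`: every system is contained in a filling
one. `Cl E c`: the class `c x y` of a chord is additive and invariant. `XH0`: systems of arcs independent modulo `U`. -/

set_option autoImplicit false
set_option linter.unusedSectionVars false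

namespace TorH
open TorM TorA Module

variable {K Ω : Type} [Group K] [LinearOrder Ω] [CS K Ω]

/-- a lift of an arc -/
noncomputable def rep (a : Arc K Ω) : Ω × Ω := (Quotient.exists_rep a).choose

theorem arc_rep (a : Arc K Ω) : arc K (rep a).1 (rep a).2 = a := (Quotient.exists_rep a).choose_spec

/-- relation generated by the chords of `X` -/
def Gn (X : Finset (Arc K Ω)) : Ω → Ω → Prop := Relation.ReflTransGen fun x y => arc K x y ∈ X

theorem Gn.one {X : Finset (Arc K Ω)} {x y : Ω} (h : arc K x y ∈ X) : Gn X x y := Relation.ReflTransGen.single h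

theorem Gn.trans {X : Finset (Arc K Ω)} {x y z : Ω} (h : Gn X x y) (h' : Gn X y z) : Gn X x z :=
  Relation.ReflTransGen.trans h h'

theorem Gn.symm {X : Finset (Arc K Ω)} {x y : Ω} (h : Gn X x y) : Gn X y x := by
  induction h with
  | refl => exact Relation.ReflTransGen.refl
  | tail _ h1 ih => exact (Gn.one (by rwa [arc_comm])).trans ih

theorem Gn.smul {X : Finset (Arc K Ω)} (k : K) {x y : Ω} (h : Gn X x y) : Gn X (k • x) (k • y) := by
  induction h with
  | refl => exact Relation.ReflTransGen.refl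
  | tail _ h ih => exact ih.tail (by rwa [arc_smul])

theorem Gn.bind {X Y : Finset (Arc K Ω)} (h : ∀ x y, arc K x y ∈ X → Gn Y x y) {x y : Ω} (hx : Gn X x y) :
    Gn Y x y := by
  induction hx with
  | refl => exact Relation.ReflTransGen.refl
  | tail _ h1 ih => exact ih.trans (h _ _ h1)

theorem Gn.mono {X Y : Finset (Arc K Ω)} (h : X ⊆ Y) {x y : Ω} (hx : Gn X x y) : Gn Y x y :=
  Gn.bind (fun _ _ h1 => Gn.one (h h1)) hx

theorem Gn.isIn {E : Ω → Ω → Prop} (hE : NE K E) {X : Finset (Arc K Ω)} (h : ∀ a ∈ X, In E a) {x y : Ω}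
    (hx : Gn X x y) : E x y := by
  induction hx with
  | refl => exact hE.refl _
  | tail _ h1 ih => exact hE.trans ih (h _ h1 _ _ rfl)

/-- filling systems -/
def Fi (E : Ω → Ω → Prop) (X : Finset (Arc K Ω)) : Prop := ∀ x y, E x y → Gn X x y

theorem crn_surg' {p' q' p q x y : Ω} (hpq : Co (arc K p' q') (arc K p q)) (h1 : Cyc p x q) (h2 : Cyc p q y) :
    crn K p' q' x p + crn K p' q' p y ≤ crn K p' q' x y := by
  unfold crn
  have hn : ∀ k : K, ¬ Cr (k • p') (k • q') p q := fun k => hpq _ _ _ _ (arc_smul k p' q') rfl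
  rw [← Set.ncard_union_eq _ (crn_fin p' q' x p) (crn_fin p' q' p y)]
  · refine Set.ncard_le_ncard ?_ (crn_fin p' q' x y)
    rintro k (hk | hk)
    · exact (cnt1 h1 h2 (hn k) hk).1
    · exact cnt2 h1 h2 (hn k) hk
  · rw [Set.disjoint_left]
    intro k hk
    exact (cnt1 h1 h2 (hn k) hk).2

/-- crossing number with `s` -/
noncomputable def nu (s : Finset (Arc K Ω)) (a : Arc K Ω) : ℕ := ∑ τ ∈ s, mu (rep τ).1 (rep τ).2 a

theorem nu_eq_zero {s : Finset (Arc K Ω)} {a : Arc K Ω} : nu s a = 0 ↔ ∀ τ ∈ s, Co τ a := by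
  unfold nu
  rw [Finset.sum_eq_zero_iff]
  refine forall₂_congr fun τ _ => ?_
  rw [mu_eq_zero, arc_rep]

theorem nu_surg {s : Finset (Arc K Ω)} (hs : Sy Co s) {p q x y : Ω} (h : arc K p q ∈ s)
    (hr : rep (arc K p q) = (p, q)) (h1 : Cyc p x q) (h2 : Cyc p q y) :
    nu s (arc K x p) + nu s (arc K p y) < nu s (arc K x y) := by
  unfold nu
  rw [← Finset.sum_add_distrib]
  refine Finset.sum_lt_sum ?_ ⟨arc K p q, h, ?_⟩
  · intro τ hτ
    refine crn_surg' ?_ h1 h2
    rw [arc_rep]
    exact hs _ hτ _ h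
  · rw [hr]
    exact crn_surg (hs _ h _ h) h1 h2

/-- every system is contained in a filling one -/
theorem fill_ext {E : Ω → Ω → Prop} (hE : NE K E) {s σ : Finset (Arc K Ω)} (hs : Sy (CE E) s)
    (hσ : Sy (CE E) σ) (hf : Fi E σ) : ∃ σ' : Finset (Arc K Ω), Sy (CE E) (s ∪ σ') ∧ Fi E σ' := by
  induction hn : mS (nu s) σ using Nat.strong_induction_on generalizing σ with
  | _ n ih =>
    subst hn
    by_cases h0 : ∀ a ∈ σ, nu s a = 0
    · refine ⟨σ, sy_ce ?_ ?_, hf⟩
      · intro a ha b hb
        rcases Finset.mem_union.1 ha with ha | ha <;> rcases Finset.mem_union.1 hb with hb | hb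
        · exact CE.co hs a ha b hb
        · exact nu_eq_zero.1 (h0 b hb) a ha
        · exact (nu_eq_zero.1 (h0 a ha) b hb).symm
        · exact CE.co hσ a ha b hb
      · intro a ha
        rcases Finset.mem_union.1 ha with ha | ha
        · exact CE.isIn hs ha
        · exact CE.isIn hσ ha
    · push Not at h0
      obtain ⟨a0, ha0, hne⟩ := h0
      have h1 : ∃ τ ∈ s, ¬ Co τ a0 := by
        by_contra hcon
        push Not at hcon
        exact hne (nu_eq_zero.2 hcon)
      obtain ⟨τ, hτ, hτa⟩ := h1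
      obtain ⟨⟨p, q⟩, hpq⟩ : ∃ t, rep τ = t := ⟨_, rfl⟩
      have hmk : arc K p q = τ := by
        have := arc_rep τ
        rwa [hpq] at this
      subst hmk
      obtain ⟨x, y, h1, h2, h3, h4⟩ := exists_fst (p := p) (q := q) (T := (σ : Set (Arc K Ω)))
        σ.finite_toSet ha0 hτa
      have hτE : E p q := CE.isIn hs hτ _ _ rfl
      have hxyE : E x y := CE.isIn hσ h3 _ _ rfl
      have hpxE : E p x := hE.noncr hxyE hτE (cr_of h1 h2)
      have hpyE : E p y := hE.trans hpxE hxyE
      have hsys := surgery (CE.co hσ) (CE.co hs _ hτ _ hτ) ⟨h1, h2, h3, h4⟩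
      have hsysE : Sy (CE E) (insert (arc K x p) (insert (arc K p y) σ)) := by
        refine sy_ce hsys ?_
        intro b hb
        rw [Finset.mem_insert, Finset.mem_insert] at hb
        rcases hb with rfl | rfl | hb
        · exact (in_iff hE).2 (hE.symm hpxE)
        · exact (in_iff hE).2 hpyE
        · exact CE.isIn hσ hb
      set D : Finset (Arc K Ω) := {arc K x p, arc K p y} with hD
      have hlt : mS (nu s) (σ.erase (arc K x y) ∪ D) < mS (nu s) σ := by
        have e1 := mS_union_le (nu s) (σ.erase (arc K x y)) D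
        have e2 := mS_erase (μ := nu s) h3
        have e3 : mS (nu s) D ≤ nu s (arc K x p) + nu s (arc K p y) := by
          unfold mS
          by_cases h : arc K x p = arc K p y
          · rw [hD, h, Finset.pair_eq_singleton, Finset.sum_singleton]
            exact Nat.le_add_right _ _
          · rw [hD, Finset.sum_pair h]
        have e4 := nu_surg (CE.co hs) hτ hpq h1 h2
        omega
      refine ih _ hlt (hsysE.mono ?_) ?_ rfl
      · intro b hb
        rcases Finset.mem_union.1 hb with hb | hb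
        · exact Finset.mem_insert_of_mem (Finset.mem_insert_of_mem (Finset.mem_of_mem_erase hb))
        · rw [hD, Finset.mem_insert, Finset.mem_singleton] at hb
          rw [Finset.mem_insert, Finset.mem_insert]
          rcases hb with hb | hb
          · exact Or.inl hb
          · exact Or.inr (Or.inl hb)
      · intro z w hzw
        refine Gn.bind ?_ (hf z w hzw)
        intro u v huv
        by_cases he : arc K u v = arc K x y
        · have k1 : Gn (σ.erase (arc K x y) ∪ D) x y :=
            (Gn.one (Finset.mem_union_right _ (by rw [hD]; simp))).trans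
              (Gn.one (y := y) (x := p) (Finset.mem_union_right _ (by rw [hD]; simp)))
          rw [eq_comm, arc_eq] at he
          obtain ⟨k, ⟨rfl, rfl⟩ | ⟨rfl, rfl⟩⟩ := he
          · exact k1.smul k
          · exact (k1.smul k).symm
        · exact Gn.one (Finset.mem_union_left _ (Finset.mem_erase.2 ⟨he, huv⟩))

/-! classes -/

/-- additive invariant classes of chords -/
structure Cl (K : Type) {Ω V : Type} [Group K] [LinearOrder Ω] [CS K Ω] [AddCommGroup V] (E : Ω → Ω → Prop)
    (c : Ω → Ω → V) : Prop where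
  add : ∀ {x y z}, E x y → E y z → c x y + c y z = c x z
  smul : ∀ (k : K) {x y}, E x y → c (k • x) (k • y) = c x y

section
variable {V : Type} [AddCommGroup V] [Module ℚ V] {E : Ω → Ω → Prop} {c : Ω → Ω → V}

theorem Cl.self (hE : NE K E) (hc : Cl K E c) (x : Ω) : c x x = 0 := by
  have h := hc.add (hE.refl x) (hE.refl x)
  simpa using h

theorem Cl.neg (hE : NE K E) (hc : Cl K E c) {x y : Ω} (h : E x y) : c y x = - c x y := by
  have h1 := hc.add h (hE.symm h)
  rw [hc.self hE] at h1
  exact (neg_eq_of_add_eq_zero_right h1).symm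

/-- the class of an arc -/
noncomputable def ac (c : Ω → Ω → V) (a : Arc K Ω) : V := c (rep a).1 (rep a).2

theorem ac_mem (hE : NE K E) (hc : Cl K E c) {U : Submodule ℚ V} {x y : Ω} (h : E x y) :
    ac c (arc K x y) ∈ U ↔ c x y ∈ U := by
  obtain ⟨⟨p, q⟩, hpq⟩ : ∃ t, rep (arc K x y) = t := ⟨_, rfl⟩
  have hmk := arc_rep (arc K x y)
  unfold ac
  rw [hpq] at hmk ⊢
  simp only at hmk ⊢
  rw [eq_comm, arc_eq] at hmk
  obtain ⟨k, ⟨rfl, rfl⟩ | ⟨rfl, rfl⟩⟩ := hmk
  · rw [hc.smul k h]
  · rw [hc.smul k (hE.symm h), hc.neg hE h]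
    exact U.neg_mem_iff

/-- a chord which is related by a path of arcs with classes in `U` has class in `U` -/
theorem path_mem (hE : NE K E) (hc : Cl K E c) {U : Submodule ℚ V} {X : Finset (Arc K Ω)}
    (hX : ∀ a ∈ X, In E a) (hU : ∀ a ∈ X, ac c a ∈ U) {x y : Ω} (h : Gn X x y) : c x y ∈ U := by
  induction h with
  | refl => rw [hc.self hE]; exact U.zero_mem
  | tail h1 h2 ih =>
    have e1 := Gn.isIn hE hX h1
    have e2 := hX _ h2 _ _ rfl
    rw [← hc.add e1 e2]
    exact U.add_mem ih ((ac_mem hE hc e2).1 (hU _ h2))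

/-- there is an arc with class not in `U` compatible with `s` -/
theorem exists_arc (hE : NE K E) (hc : Cl K E c) (hspan : Submodule.span ℚ {v | ∃ x y, E x y ∧ v = c x y} = ⊤)
    {σ : Finset (Arc K Ω)} (hσ : Sy (CE E) σ) (hf : Fi E σ) {s : Finset (Arc K Ω)} (hs : Sy (CE E) s)
    {U : Submodule ℚ V} (hU : U ≠ ⊤) : ∃ p q : Ω, E p q ∧ c p q ∉ U ∧ Sy (CE E) (insert (arc K p q) s) := by
  obtain ⟨σ', h1, h2⟩ := fill_ext hE hs hσ hf
  by_contra hcon
  push Not at hcon
  apply hU
  rw [eq_top_iff, ← hspan, Submodule.span_le]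
  rintro _ ⟨x, y, hxy, rfl⟩
  refine path_mem hE hc (X := σ') (fun a ha => CE.isIn h1 (Finset.mem_union_right _ ha)) ?_ (h2 x y hxy)
  intro a ha
  obtain ⟨z, w, rfl⟩ := arc_surj a
  have hzw : E z w := CE.isIn h1 (Finset.mem_union_right _ ha) _ _ rfl
  by_contra hcon2
  refine hcon z w hzw (fun h => hcon2 ((ac_mem hE hc hzw).2 h)) (h1.mono ?_)
  intro b hb
  rcases Finset.mem_insert.1 hb with rfl | hb
  · exact Finset.mem_union_right _ ha
  · exact Finset.mem_union_left _ hb

theorem zs_flow (hE : NE K E) (hc : Cl K E c) (hspan : Submodule.span ℚ {v | ∃ x y, E x y ∧ v = c x y} = ⊤)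
    {σ : Finset (Arc K Ω)} (hσ : Sy (CE E) σ) (hf : Fi E σ) (s : Finset (Arc K Ω)) (U : Submodule ℚ V)
    (hs : Sy (CE E) s) (hU : U ≠ ⊤) : AcI (Po (Zs (CE E) (ac c) s U)) := by
  obtain ⟨p, q, h1, h2, h3⟩ := exists_arc hE hc hspan hσ hf hs hU
  refine flow_at hE s (fun a => ac c a ∉ U) p q h3 (fun h => h2 ((ac_mem hE hc h1).1 h)) ?_
  intro x y hxy h4 h5 h6
  have hxyE : E x y := CE.isIn h6 (Finset.mem_insert_self _ _) _ _ rfl
  have hpxE : E p x := hE.noncr hxyE h1 (cr_of h4 h5)
  have hpyE : E p y := hE.trans hpxE hxyE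
  by_contra hcon
  push Not at hcon
  apply hxy
  rw [ac_mem hE hc hxyE, ← hc.add (hE.symm hpxE) hpyE]
  exact U.add_mem ((ac_mem hE hc (hE.symm hpxE)).1 hcon.1) ((ac_mem hE hc hpyE).1 hcon.2)

end

end TorH
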