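import Pool.Agent.Lib.MP_05cdf2_gt.H.XSurg
import Pool.Agent.Lib.MP_05cdf2_gt.H.HFlow

/-! MP_05cdf2_gt, stream H (helper63): the flow towards one arc, cutting always at the end `p`. (complete)

`CE E a b`: compatible arcs in `E`. `flow_at`: systems compatible with `s` all of whose arcs satisfy `P`; target `{p, q}`. -/

set_option autoImplicit false

namespace TorH
open TorM TorA

variable {K Ω : Type} [Group K] [LinearOrder Ω] [CS K Ω]

/-- compatible arcs in `E` -/
def CE (E : Ω → Ω → Prop) (a b : Arc K Ω) : Prop := Co a b ∧ In E a ∧ In E b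

theorem CE.co {E : Ω → Ω → Prop} {ρ : Finset (Arc K Ω)} (h : Sy (CE E) ρ) : Sy Co ρ :=
  fun a ha b hb => (h a ha b hb).1

theorem CE.isIn {E : Ω → Ω → Prop} {ρ : Finset (Arc K Ω)} (h : Sy (CE E) ρ) {a : Arc K Ω} (ha : a ∈ ρ) :
    In E a := (h a ha a ha).2.1

theorem sy_ce {E : Ω → Ω → Prop} {ρ : Finset (Arc K Ω)} (h : Sy Co ρ) (h' : ∀ a ∈ ρ, In E a) : Sy (CE E) ρ :=
  fun a ha b hb => ⟨h a ha b hb, h' a ha, h' b hb⟩

theorem sy_insert {X : Finset (Arc K Ω)} {a : Arc K Ω} (hX : Sy Co X) (ha : Co a a) (h : ∀ b ∈ X, Co a b) :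
    Sy Co (insert a X) := by
  intro b hb c hc
  rw [Finset.mem_insert] at hb hc
  rcases hb with rfl | hb <;> rcases hc with rfl | hc
  · exact ha
  · exact h c hc
  · exact (h b hb).symm
  · exact hX b hb c hc

/-- first crossing of a finite set of chords -/
theorem exists_fst {p q : Ω} {T : Set (Arc K Ω)} (hT : T.Finite) {a : Arc K Ω} (ha : a ∈ T)
    (hc : ¬ Co (arc K p q) a) : ∃ x y : Ω, Cyc p x q ∧ Cyc p q y ∧ arc K x y ∈ T ∧
      ∀ x' y' : Ω, Cyc p x' q → Cyc p q y' → arc K x' y' ∈ T →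
        Cyc p x x' ∨ (x = x' ∧ (y' = y ∨ Cyc p y' y)) := by
  set W : Set (Ω × Ω) := {t | Cyc p t.1 q ∧ Cyc p q t.2 ∧ arc K t.1 t.2 ∈ T} with hW
  have hfin : W.Finite := by
    have h1 : ∀ b ∈ T, {t : Ω × Ω | Cr p q t.1 t.2 ∧ arc K t.1 t.2 = b}.Finite := by
      intro b _
      obtain ⟨z, w, rfl⟩ := arc_surj b
      have h2 : ((fun k : K => (k • z, k • w)) '' {k | Cr p q (k • z) (k • w)} ∪
          (fun k : K => (k • w, k • z)) '' {k | Cr p q (k • z) (k • w)}).Finite :=
        ((CS.fin p q z w).image _).union ((CS.fin p q z w).image _)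
      refine h2.subset ?_
      rintro ⟨x, y⟩ ⟨h3, h4⟩
      simp only at h3 h4
      rw [eq_comm, arc_eq] at h4
      obtain ⟨k, ⟨rfl, rfl⟩ | ⟨rfl, rfl⟩⟩ := h4
      · exact Or.inl ⟨k, h3, rfl⟩
      · exact Or.inr ⟨k, cr_swap2.1 h3, rfl⟩
    refine (hT.biUnion h1).subset ?_
    rintro ⟨x, y⟩ ⟨h2, h3, h4⟩
    rw [Set.mem_iUnion₂]
    exact ⟨arc K x y, h4, cr_of h2 h3, rfl⟩
  have hne : W.Nonempty := by
    unfold Co at hc
    push Not at hc
    obtain ⟨p', q', z, w, h1, h2, h3⟩ := hc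
    rw [eq_comm, arc_eq] at h1
    have key : ∃ z' w', arc K z' w' = a ∧ Cr p q z' w' := by
      obtain ⟨k, ⟨rfl, rfl⟩ | ⟨rfl, rfl⟩⟩ := h1
      · refine ⟨k⁻¹ • z, k⁻¹ • w, ?_, ?_⟩
        · rw [arc_smul, h2]
        · rw [← cs_cr k, smul_inv_smul, smul_inv_smul]
          exact h3
      · refine ⟨k⁻¹ • z, k⁻¹ • w, ?_, ?_⟩
        · rw [arc_smul, h2]
        · rw [← cs_cr k, smul_inv_smul, smul_inv_smul]
          exact cr_swap1.1 h3
    obtain ⟨z', w', h4, h5⟩ := key
    rcases cr_or h5 with ⟨h6, h7⟩ | ⟨h6, h7⟩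
    · exact ⟨(z', w'), h6, h7, by rw [h4]; exact ha⟩
    · exact ⟨(w', z'), h6, h7, by rw [arc_comm, h4]; exact ha⟩
  let f : Ω × Ω → (Bool ×ₗ Ω) ×ₗ (Bool ×ₗ Ω)ᵒᵈ := fun t => toLex (rp p t.1, OrderDual.toDual (rp p t.2))
  obtain ⟨t, ht, hmin⟩ := Finset.exists_min_image hfin.toFinset f
    ((Set.Finite.toFinset_nonempty hfin).2 hne)
  rw [Set.Finite.mem_toFinset] at ht
  refine ⟨t.1, t.2, ht.1, ht.2.1, ht.2.2, ?_⟩
  intro x' y' h1 h2 h3
  have h4 := hmin (x', y') ((Set.Finite.mem_toFinset hfin).2 ⟨h1, h2, h3⟩)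
  have hne' : ∀ {u : Ω}, Cyc p u q → u ≠ p := by
    rintro u h rfl
    unfold Cyc at h
    grind
  have hne2 : ∀ {u : Ω}, Cyc p q u → u ≠ p := by
    rintro u h rfl
    unfold Cyc at h
    grind
  have h5 : rp p t.1 < rp p x' ∨ (rp p t.1 = rp p x' ∧ rp p y' ≤ rp p t.2) := by
    have h6 : toLex (rp p t.1, OrderDual.toDual (rp p t.2)) ≤ toLex (rp p x', OrderDual.toDual (rp p y')) := h4
    rw [Prod.Lex.toLex_le_toLex] at h6
    rcases h6 with h6 | ⟨h6, h7⟩
    · exact Or.inl h6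
    · exact Or.inr ⟨h6, h7⟩
  rcases h5 with h5 | ⟨h5, h6⟩
  · exact Or.inl ((cyc_rp (hne' ht.1) (hne' h1)).2 h5)
  · refine Or.inr ⟨rp_inj h5, ?_⟩
    rcases h6.eq_or_lt with h7 | h7
    · exact Or.inl (rp_inj h7)
    · exact Or.inr ((cyc_rp (hne2 h2) (hne2 ht.2.1)).2 h7)

theorem flow_at {E : Ω → Ω → Prop} (hE : NE K E) (s : Finset (Arc K Ω)) (P : Arc K Ω → Prop) (p q : Ω)
    (hs : Sy (CE E) (insert (arc K p q) s)) (hP : P (arc K p q))
    (hcut : ∀ x y : Ω, P (arc K x y) → Cyc p x q → Cyc p q y → Sy (CE E) (insert (arc K x y) s) →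
      P (arc K x p) ∨ P (arc K p y)) :
    AcI (Po {ρ : Finset (Arc K Ω) | ρ.Nonempty ∧ Sy (CE E) (s ∪ ρ) ∧ ∀ a ∈ ρ, P a}) := by
  classical
  have hτ : Co (arc K p q) (arc K p q) := (hs _ (Finset.mem_insert_self _ _) _ (Finset.mem_insert_self _ _)).1
  have hτE : E p q := (hs _ (Finset.mem_insert_self _ _) _ (Finset.mem_insert_self _ _)).2.1 _ _ rfl
  have hτs : ∀ a ∈ s, Co (arc K p q) a := fun a ha =>
    (hs _ (Finset.mem_insert_self _ _) _ (Finset.mem_insert_of_mem ha)).1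
  refine flow_abs _ (mu p q) (arc K p q) ?_ ?_ ?_
  · rintro ρ ⟨h1, h2, h3⟩ h4
    refine ⟨Finset.insert_nonempty _ _, ?_, ?_⟩
    · rw [Finset.union_insert]
      refine sy_ce (sy_insert (CE.co h2) hτ ?_) ?_
      · intro b hb
        rcases Finset.mem_union.1 hb with hb | hb
        · exact hτs b hb
        · exact mu_eq_zero.1 (h4 b hb)
      · intro b hb
        rcases Finset.mem_insert.1 hb with rfl | hb
        · exact (in_iff hE).2 hτE
        · exact CE.isIn h2 hb
    · intro b hb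
      rcases Finset.mem_insert.1 hb with rfl | hb
      · exact hP
      · exact h3 b hb
  · refine ⟨Finset.singleton_nonempty _, ?_, ?_⟩
    · refine hs.mono ?_
      intro b hb
      rcases Finset.mem_union.1 hb with hb | hb
      · exact Finset.mem_insert_of_mem hb
      · rw [Finset.mem_singleton.1 hb]
        exact Finset.mem_insert_self _ _
    · intro b hb
      rw [Finset.mem_singleton.1 hb]
      exact hP
  · intro F hF hne
    obtain ⟨ρ0, hρ0, a0, ha0, hmu0⟩ := hne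
    set T : Set (Arc K Ω) := {a | ∃ ρ ∈ F, a ∈ ρ} with hTdef
    have hT : T.Finite := by
      refine (F.biUnion fun ρ => ρ).finite_toSet.subset ?_
      rintro a ⟨ρ, h1, h2⟩
      rw [Finset.mem_coe, Finset.mem_biUnion]
      exact ⟨ρ, h1, h2⟩
    obtain ⟨x, y, h1, h2, ⟨ρ1, hρ1, hch1⟩, hfst⟩ := exists_fst (p := p) (q := q) hT (a := a0) ⟨ρ0, hρ0, ha0⟩
      (fun h => hmu0 (mu_eq_zero.2 h))
    have hxyP : P (arc K x y) := (hF ρ1 hρ1).2.2 _ hch1
    have hxys : Sy (CE E) (insert (arc K x y) s) := by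
      refine (hF ρ1 hρ1).2.1.mono ?_
      intro b hb
      rcases Finset.mem_insert.1 hb with rfl | hb
      · exact Finset.mem_union_right _ hch1
      · exact Finset.mem_union_left _ hb
    have hxyE : E x y := CE.isIn hxys (Finset.mem_insert_self _ _) _ _ rfl
    have hpxE : E p x := hE.noncr hxyE hτE (cr_of h1 h2)
    have hpyE : E p y := hE.trans hpxE hxyE
    have hD := hcut x y hxyP h1 h2 hxys
    set D : Finset (Arc K Ω) := ({arc K x p, arc K p y} : Finset (Arc K Ω)).filter P with hDdef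
    have hDne : D.Nonempty := by
      rcases hD with h | h
      · exact ⟨arc K x p, Finset.mem_filter.2 ⟨by simp, h⟩⟩
      · exact ⟨arc K p y, Finset.mem_filter.2 ⟨by simp, h⟩⟩
    refine ⟨arc K x y, D, ⟨ρ1, hρ1, hch1⟩, ?_, ?_⟩
    · calc ∑ b ∈ D, mu p q b ≤ ∑ b ∈ ({arc K x p, arc K p y} : Finset (Arc K Ω)), mu p q b :=
            Finset.sum_le_sum_of_subset (Finset.filter_subset _ _)
        _ ≤ mu p q (arc K x p) + mu p q (arc K p y) := by
            by_cases h : arc K x p = arc K p y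
            · rw [h, Finset.pair_eq_singleton, Finset.sum_singleton]
              exact Nat.le_add_right _ _
            · rw [Finset.sum_pair h]
        _ < mu p q (arc K x y) := crn_surg hτ h1 h2
    · intro ρ hρ haρ
      have hsys : Sy Co (insert (arc K x p) (insert (arc K p y) (s ∪ ρ))) := by
        refine surgery (CE.co (hF ρ hρ).2.1) hτ ⟨h1, h2, Finset.mem_union_right _ haρ, ?_⟩
        intro x' y' h3 h4 h5
        rcases Finset.mem_union.1 h5 with h5 | h5
        · exact absurd (cr_of h3 h4) (hτs _ h5 _ _ _ _ rfl rfl)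
        · exact hfst x' y' h3 h4 ⟨ρ, hρ, h5⟩
      have hsysE : Sy (CE E) (insert (arc K x p) (insert (arc K p y) (s ∪ ρ))) := by
        refine sy_ce hsys ?_
        intro b hb
        rw [Finset.mem_insert, Finset.mem_insert] at hb
        rcases hb with rfl | rfl | hb
        · exact (in_iff hE).2 (hE.symm hpxE)
        · exact (in_iff hE).2 hpyE
        · exact CE.isIn (hF ρ hρ).2.1 hb
      have hDsub : ∀ b ∈ D, b ∈ insert (arc K x p) (insert (arc K p y) (s ∪ ρ)) := by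
        intro b hb
        have := (Finset.mem_filter.1 hb).1
        rw [Finset.mem_insert, Finset.mem_singleton] at this
        rw [Finset.mem_insert, Finset.mem_insert]
        rcases this with h | h
        · exact Or.inl h
        · exact Or.inr (Or.inl h)
      have hDP : ∀ b ∈ D, P b := fun b hb => (Finset.mem_filter.1 hb).2
      have hcom : ∀ ρ' : Finset (Arc K Ω), ρ' ⊆ ρ → ρ' ∪ D ∈
          {ρ : Finset (Arc K Ω) | ρ.Nonempty ∧ Sy (CE E) (s ∪ ρ) ∧ ∀ a ∈ ρ, P a} := by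
        intro ρ' hρ'
        refine ⟨hDne.mono Finset.subset_union_right, hsysE.mono ?_, ?_⟩
        · intro b hb
          rcases Finset.mem_union.1 hb with hb | hb
          · exact Finset.mem_insert_of_mem (Finset.mem_insert_of_mem (Finset.mem_union_left _ hb))
          · rcases Finset.mem_union.1 hb with hb | hb
            · exact Finset.mem_insert_of_mem (Finset.mem_insert_of_mem (Finset.mem_union_right _ (hρ' hb)))
            · exact hDsub b hb
        · intro b hb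
          rcases Finset.mem_union.1 hb with hb | hb
          · exact (hF ρ hρ).2.2 b (hρ' hb)
          · exact hDP b hb
      exact ⟨hcom ρ (Finset.Subset.refl _), hcom _ (Finset.erase_subset _ _)⟩

end TorH
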