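import Pool.Agent.Lib.MP_05cdf2_gt.H.XDef

/-! MP_05cdf2_gt, stream H (helper63): surgery in a chord space. (complete)

`IsF X p q x y`: `{x, y}` is a chord of `X` crossing `{p, q}` (`x` on the side from `p` to `q`) and it is the closest one to `p`.
Then `{x, p}`, `{p, y}` do not cross the chords of `X`, and if `{p, q}` is simple then their lifts do not cross each other. -/

set_option autoImplicit false

namespace TorH
open TorM

section
variable {α : Type} [LinearOrder α]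

theorem xs_old {a u w t p q : α} (h2 : Cyc a u t) (h3 : Cyc a t w)
    (hX : ¬ Cr u w p q)
    (hf : ∀ u' w', (u' = p ∧ w' = q) ∨ (u' = q ∧ w' = p) → Cyc a u' t → Cyc a t w' →
      Cyc a u u' ∨ (u = u' ∧ (w' = w ∨ Cyc a w' w))) :
    ¬ Cr u a p q ∧ ¬ Cr a w p q := by
  have h4 := hf p q (Or.inl ⟨rfl, rfl⟩)
  have h5 := hf q p (Or.inr ⟨rfl, rfl⟩)
  clear hf
  unfold Cr Cyc at *
  constructor <;> grind

theorem xs_new1 {a u w t y yu yt yw : α} (h2 : Cyc a u t) (h3 : Cyc a t w)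
    (g1 : Cyc y yu yt) (g2 : Cyc y yt yw)
    (c2 : ¬ Cr u a yu yw) (c4 : ¬ Cr u w yu y)
    (c6 : ¬ Cr a t y yt) :
    ¬ Cr u a yu y := by
  unfold Cr Cyc at *
  grind

theorem xs_new2 {a u w t y yu yt yw : α} (h2 : Cyc a u t) (h3 : Cyc a t w)
    (g1 : Cyc y yu yt) (g2 : Cyc y yt yw) (n3 : yw ≠ w)
    (c2 : ¬ Cr u a yu yw) (c3 : ¬ Cr a w yu yw)
    (c5 : ¬ Cr u w y yw) (c6 : ¬ Cr a t y yt) :
    ¬ Cr u a y yw := by
  unfold Cr Cyc at *
  grind

theorem xs_new3 {a u w t y yu yt yw : α} (h2 : Cyc a u t) (h3 : Cyc a t w)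
    (g1 : Cyc y yu yt) (g2 : Cyc y yt yw)
    (c3 : ¬ Cr a w yu yw)
    (c5 : ¬ Cr u w y yw) (c6 : ¬ Cr a t y yt) :
    ¬ Cr a w y yw := by
  unfold Cr Cyc at *
  grind

theorem cnt1 {o u t w p q : α} (h2 : Cyc o u t) (h3 : Cyc o t w)
    (h : ¬ Cr p q o t) (hc : Cr p q u o) : Cr p q u w ∧ ¬ Cr p q o w := by
  unfold Cr Cyc at *
  grind

theorem cnt2 {o u t w p q : α} (h2 : Cyc o u t) (h3 : Cyc o t w)
    (h : ¬ Cr p q o t) (hc : Cr p q o w) : Cr p q u w := by
  unfold Cr Cyc at *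
  grind

theorem cnt3 {o u t w : α} (h2 : Cyc o u t) (h3 : Cyc o t w) : Cr o t u w := by
  unfold Cr Cyc at *
  grind

/-- orientation of a crossing -/
theorem cr_or {p q x y : α} (h : Cr p q x y) : (Cyc p x q ∧ Cyc p q y) ∨ (Cyc p y q ∧ Cyc p q x) := by
  unfold Cr Cyc at *
  grind

theorem cr_of {p q x y : α} (h1 : Cyc p x q) (h2 : Cyc p q y) : Cr p q x y := cnt3 h1 h2

end

variable {K Ω : Type} [Group K] [LinearOrder Ω] [CS K Ω]

/-- the chord `{x, y}` of `X` crosses `{p, q}`, and it is the closest one to `p` -/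
structure IsF (X : Finset (Arc K Ω)) (p q x y : Ω) : Prop where
  l : Cyc p x q
  r : Cyc p q y
  ch : arc K x y ∈ X
  first : ∀ x' y' : Ω, Cyc p x' q → Cyc p q y' → arc K x' y' ∈ X →
    Cyc p x x' ∨ (x = x' ∧ (y' = y ∨ Cyc p y' y))

theorem surg_old {X : Finset (Arc K Ω)} (hX : Sy Co X) {p q x y : Ω} (h : IsF X p q x y) (z w : Ω)
    (hzw : arc K z w ∈ X) : ¬ Cr x p z w ∧ ¬ Cr p y z w := by
  refine xs_old h.l h.r (sy_co_iff (fun _ _ h => h) hX h.ch hzw) ?_
  rintro u' w' (⟨rfl, rfl⟩ | ⟨rfl, rfl⟩) h1 h2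
  · exact h.first _ _ h1 h2 hzw
  · refine h.first _ _ h1 h2 ?_
    rw [arc_comm]
    exact hzw

theorem surg_new {X : Finset (Arc K Ω)} (hX : Sy Co X) {p q x y : Ω} (hpq : Co (arc K p q) (arc K p q))
    (h : IsF X p q x y) (k : K) :
    ¬ Cr x p (k • x) (k • p) ∧ ¬ Cr x p (k • p) (k • y) ∧ ¬ Cr p y (k • p) (k • y) := by
  have hold : ∀ l : K, ¬ Cr x p (l • x) (l • y) ∧ ¬ Cr p y (l • x) (l • y) := fun l => by
    refine surg_old hX h _ _ ?_
    rw [arc_smul]
    exact h.ch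
  have g1 : Cyc (k • p) (k • x) (k • q) := (cs_cyc k _ _ _).2 h.l
  have g2 : Cyc (k • p) (k • q) (k • y) := (cs_cyc k _ _ _).2 h.r
  have c2 := (hold k).1
  have c3 := (hold k).2
  have c4 : ¬ Cr x y (k • x) (k • p) := by
    intro hc
    rw [← cs_cr k⁻¹, inv_smul_smul, inv_smul_smul] at hc
    exact (hold k⁻¹).1 (cr_comm.1 hc)
  have c5 : ¬ Cr x y (k • p) (k • y) := by
    intro hc
    rw [← cs_cr k⁻¹, inv_smul_smul, inv_smul_smul] at hc
    exact (hold k⁻¹).2 (cr_comm.1 hc)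
  have c6 : ¬ Cr p q (k • p) (k • q) := hpq _ _ _ _ rfl (arc_smul k p q)
  refine ⟨xs_new1 h.l h.r g1 g2 c2 c4 c6, ?_, xs_new3 h.l h.r g1 g2 c3 c5 c6⟩
  by_cases hk : k = 1
  · subst hk
    rw [one_smul, one_smul]
    intro hc
    unfold Cr Cyc at hc
    grind
  · refine xs_new2 h.l h.r g1 g2 ?_ c2 c3 c5 c6
    intro h2
    exact hk (CS.free _ _ h2)

/-- surgery -/
theorem surgery {X : Finset (Arc K Ω)} (hX : Sy Co X) {p q x y : Ω} (hpq : Co (arc K p q) (arc K p q))
    (h : IsF X p q x y) : Sy Co (insert (arc K x p) (insert (arc K p y) X)) := by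
  have h1 : Co (arc K x p) (arc K x p) := by
    rw [co_iff]
    intro z w hzw
    rw [eq_comm, arc_eq] at hzw
    obtain ⟨k, ⟨rfl, rfl⟩ | ⟨rfl, rfl⟩⟩ := hzw
    · exact (surg_new hX hpq h k).1
    · intro hc
      exact (surg_new hX hpq h k).1 (cr_swap2.1 hc)
  have h2 : Co (arc K x p) (arc K p y) := by
    rw [co_iff]
    intro z w hzw
    rw [eq_comm, arc_eq] at hzw
    obtain ⟨k, ⟨rfl, rfl⟩ | ⟨rfl, rfl⟩⟩ := hzw
    · exact (surg_new hX hpq h k).2.1
    · intro hc
      exact (surg_new hX hpq h k).2.1 (cr_swap2.1 hc)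
  have h3 : Co (arc K p y) (arc K p y) := by
    rw [co_iff]
    intro z w hzw
    rw [eq_comm, arc_eq] at hzw
    obtain ⟨k, ⟨rfl, rfl⟩ | ⟨rfl, rfl⟩⟩ := hzw
    · exact (surg_new hX hpq h k).2.2
    · intro hc
      exact (surg_new hX hpq h k).2.2 (cr_swap2.1 hc)
  have h4 : ∀ b ∈ X, Co (arc K x p) b := by
    intro b hb
    rw [co_iff]
    intro z w hzw
    exact (surg_old hX h z w (hzw ▸ hb)).1
  have h5 : ∀ b ∈ X, Co (arc K p y) b := by
    intro b hb
    rw [co_iff]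
    intro z w hzw
    exact (surg_old hX h z w (hzw ▸ hb)).2
  intro a ha b hb
  rw [Finset.mem_insert, Finset.mem_insert] at ha hb
  rcases ha with rfl | rfl | ha <;> rcases hb with rfl | rfl | hb
  · exact h1
  · exact h2
  · exact h4 b hb
  · exact h2.symm
  · exact h3
  · exact h5 b hb
  · exact (h4 a ha).symm
  · exact (h5 a ha).symm
  · exact hX a ha b hb

/-! crossing numbers -/

/-- number of translates of `{p, q}` crossing `{x, y}` -/
noncomputable def crn (K : Type) {Ω : Type} [Group K] [LinearOrder Ω] [CS K Ω] (p q x y : Ω) : ℕ :=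
  {k : K | Cr (k • p) (k • q) x y}.ncard

theorem crn_fin (p q x y : Ω) : {k : K | Cr (k • p) (k • q) x y}.Finite := by
  have h : {k : K | Cr (k • p) (k • q) x y} = {k : K | Cr x y (k • p) (k • q)} := by
    ext k
    exact cr_comm
  rw [h]
  exact CS.fin x y p q

theorem crn_smul (l : K) (p q x y : Ω) : crn K p q (l • x) (l • y) = crn K p q x y := by
  unfold crn
  rw [← Set.ncard_image_of_injective {k : K | Cr (k • p) (k • q) x y} (mul_right_injective l)]
  congr 1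
  ext k
  simp only [Set.mem_ofPred_eq, Set.mem_image]
  constructor
  · intro h
    refine ⟨l⁻¹ * k, ?_, mul_inv_cancel_left l k⟩
    rw [← cs_cr l, ← mul_smul, ← mul_smul, mul_inv_cancel_left]
    exact h
  · rintro ⟨k, hk, rfl⟩
    rw [mul_smul, mul_smul]
    exact (cs_cr l _ _ _ _).2 hk

theorem crn_comm (p q x y : Ω) : crn K p q y x = crn K p q x y := by
  unfold crn
  congr 1
  ext k
  exact cr_swap2

/-- number of lifts of `{p, q}` crossing a lift of `a` -/
noncomputable def mu (p q : Ω) : Arc K Ω → ℕ :=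
  Quotient.lift (fun x : Ω × Ω => crn K p q x.1 x.2) (by
    rintro ⟨x, y⟩ ⟨z, w⟩ ⟨k, ⟨h1, h2⟩ | ⟨h1, h2⟩⟩
    · simp only at h1 h2
      subst h1 h2
      exact (crn_smul k _ _ _ _).symm
    · simp only at h1 h2
      subst h1 h2
      show crn K p q x y = crn K p q (k • y) (k • x)
      rw [crn_comm]
      exact (crn_smul k _ _ _ _).symm)

theorem mu_mk (p q x y : Ω) : mu p q (arc K x y) = crn K p q x y := rfl

theorem crn_surg {p q x y : Ω} (hpq : Co (arc K p q) (arc K p q)) (h1 : Cyc p x q) (h2 : Cyc p q y) :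
    crn K p q x p + crn K p q p y < crn K p q x y := by
  unfold crn
  have hn : ∀ k : K, ¬ Cr (k • p) (k • q) p q := fun k => hpq _ _ _ _ (arc_smul k p q) rfl
  rw [← Set.ncard_union_eq _ (crn_fin p q x p) (crn_fin p q p y)]
  · refine Set.ncard_lt_ncard ?_ (crn_fin p q x y)
    rw [Set.ssubset_iff_of_subset]
    · refine ⟨1, ?_, ?_⟩
      · show Cr ((1 : K) • p) ((1 : K) • q) x y
        rw [one_smul, one_smul]
        exact cnt3 h1 h2
      · rintro (h | h)
        · have h' : Cr ((1 : K) • p) ((1 : K) • q) x p := h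
          rw [one_smul, one_smul] at h'
          unfold Cr Cyc at h'
          grind
        · have h' : Cr ((1 : K) • p) ((1 : K) • q) p y := h
          rw [one_smul, one_smul] at h'
          exact not_cr_left h'
    · rintro k (hk | hk)
      · exact (cnt1 h1 h2 (hn k) hk).1
      · exact cnt2 h1 h2 (hn k) hk
  · rw [Set.disjoint_left]
    intro k hk
    exact (cnt1 h1 h2 (hn k) hk).2

theorem mu_eq_zero {p q : Ω} {a : Arc K Ω} : mu p q a = 0 ↔ Co (arc K p q) a := by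
  obtain ⟨x, y, rfl⟩ := arc_surj a
  rw [mu_mk]
  unfold crn
  rw [Set.ncard_eq_zero (crn_fin p q x y)]
  constructor
  · intro h
    refine Co.symm ?_
    rw [co_iff]
    intro z w hzw hc
    have hno : ∀ k : K, ¬ Cr (k • p) (k • q) x y := fun k hk => by
      have : k ∈ {k : K | Cr (k • p) (k • q) x y} := hk
      rw [h] at this
      exact this
    rw [eq_comm, arc_eq] at hzw
    obtain ⟨k, ⟨rfl, rfl⟩ | ⟨rfl, rfl⟩⟩ := hzw
    · exact hno k (cr_comm.1 hc)
    · exact hno k (cr_comm.1 (cr_swap2.1 hc))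
  · intro h
    rw [Set.eq_empty_iff_forall_notMem]
    intro k hk
    exact h _ _ _ _ (arc_smul k p q) rfl hk

end TorH
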