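import Pool.Agent.Lib.MP_05cdf2_gt.H.YMain

/-! MP_05cdf2_gt, stream H (helper6): admissibility of the background system.

`rot_all`: a piece which contains an inner oriented chord ending at `v` contains all inner oriented chords starting at `v`.
`adm_of`: if the types are given by a function `τ` on the points (constant on the classes of `A`), the background system consists of the
boundary arcs only, the boundary successor of a point is a translate of the point, and every class of `E` with a chord which is not in `A`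
has points of two types or heavy points, then `Adm M M.s0`. -/

set_option autoImplicit false
set_option linter.unusedSectionVars false

namespace TorH
open TorM TorA

variable {K Ω T : Type} [Group K] [LinearOrder Ω] [CS K Ω] {M : AD K Ω T}

theorem bs_smul' (k : K) (y : Ω) : M.bs (k • y) = k • M.bs y := by
  by_contra hne
  have h1 : k • M.bs y ≠ k • y := fun h => M.bs_ne y (smul_left_cancel k h)
  rcases M.bs_first (k • y) (k • M.bs y) h1 with h2 | h2
  · exact hne h2.symm
  · have h3 : k⁻¹ • M.bs (k • y) ≠ y := by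
      intro h
      apply M.bs_ne (k • y)
      rw [← h, smul_inv_smul]
      conv_rhs => rw [← h]
      rw [smul_inv_smul]
    have h4 := (cs_cyc k⁻¹ _ _ _).2 h2
    rw [inv_smul_smul, inv_smul_smul] at h4
    rcases M.bs_first y _ h3 with h5 | h5
    · rw [h5] at h4
      exact (cyc_ne h4).2.1 rfl
    · exact cyc_as h5 h4

theorem bp_smul' (k : K) (y : Ω) : M.bp (k • y) = k • M.bp y := by
  by_contra hne
  have h1 : k • M.bp y ≠ k • y := fun h => M.bp_ne y (smul_left_cancel k h)
  rcases M.bp_last (k • y) (k • M.bp y) h1 with h2 | h2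
  · exact hne h2.symm
  · have h3 : k⁻¹ • M.bp (k • y) ≠ y := by
      intro h
      apply M.bp_ne (k • y)
      rw [← h, smul_inv_smul]
      conv_rhs => rw [← h]
      rw [smul_inv_smul]
    have h4 := (cs_cyc k⁻¹ _ _ _).2 h2
    rw [inv_smul_smul, inv_smul_smul] at h4
    rcases M.bp_last y _ h3 with h5 | h5
    · rw [h5] at h4
      exact (cyc_ne h4).2.1 rfl
    · exact cyc_as h5 h4

theorem bs_bp (y : Ω) : M.bs (M.bp y) = y := by
  by_contra hne
  have h1 : y ≠ M.bp y := (M.bp_ne y).symm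
  rcases M.bs_first (M.bp y) y h1 with h2 | h2
  · exact hne h2.symm
  · rcases M.bp_last y (M.bs (M.bp y)) hne with h3 | h3
    · exact M.bs_ne _ h3
    · exact cyc_as (cyc_rot.1 (cyc_rot.1 h3)) h2

theorem bp_bs (y : Ω) : M.bp (M.bs y) = y := by
  by_contra hne
  have h1 : y ≠ M.bs y := (M.bs_ne y).symm
  rcases M.bp_last (M.bs y) y h1 with h2 | h2
  · exact hne h2.symm
  · rcases M.bs_first y (M.bp (M.bs y)) hne with h3 | h3
    · exact M.bp_ne _ h3
    · exact cyc_as (cyc_rot.1 h3) h2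

/-- rotation around a vertex -/
theorem rot {X : Finset (Arc K Ω)} {G : Ω → Ω → Prop} (hG : Pc X M.s0 G) (hs0 : ∀ y z, arc K y z ∈ M.s0 → z = M.bs y ∨ z = M.bp y)
    {v : Ω} : ∀ (n : ℕ) (x z : Ω), {u | arc K v u ∈ X ∧ Cyc v x u ∧ Cyc v u z}.ncard = n → G x v → z ≠ v →
      arc K v z ∈ X → Cyc v x z → G v z := by
  intro n
  induction n using Nat.strong_induction_on with
  | _ n ih =>
    intro x z hn hx hzv hz hxz
    have hxe := hG.edge hx
    obtain ⟨z1, hz1⟩ := nx_exists (X := X) hxe.1 (by rw [arc_comm]; exact hxe.2)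
    have hg1 := hG.next hx hz1
    by_cases he : z1 = z
    · rw [← he]
      exact hg1
    have h1 := hz1.2.2 z hzv hz
    push Not at h1
    have hxz1 : x ≠ z1 := by
      intro h
      have h2 := h1.2 h
      exact (cyc_ne hxz).2.1 h2.symm
    have h2 : Cyc v x z1 := by
      rcases cyc_tot (hxe.1.symm) hxz1 hz1.1.symm with h2 | h2
      · exact h2
      · exfalso
        -- `z1` is before `x` seen from `v`: then `z` is between `x` and `z1`
        refine h1.1 ?_
        have h3 := cyc_tr h2 hxz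
        have h4 := hxz
        unfold Cyc at h2 h3 h4 ⊢
        grind
    have h3 : Cyc v z1 z := by
      rcases cyc_tot hz1.1.symm he hzv.symm with h3 | h3
      · exact h3
      · exfalso
        refine h1.1 ?_
        have h4 := hxz
        unfold Cyc at h2 h3 h4 ⊢
        grind
    have h4 : arc K v z1 ∉ M.s0 := by
      intro h5
      rcases hs0 _ _ h5 with h6 | h6
      · rcases M.bs_first v x hxe.1 with h7 | h7
        · exact hxz1 (h7.trans h6.symm)
        · rw [← h6] at h7
          exact cyc_as h2 h7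
      · rcases M.bp_last v z hzv with h7 | h7
        · exact he (h6.trans h7.symm)
        · rw [← h6] at h7
          exact cyc_as h3 h7
    have h5 := hG.flip hg1 h4
    refine ih _ ?_ z1 z rfl h5 hzv hz h3
    rw [← hn]
    refine Set.ncard_lt_ncard ?_ ((nb_finite X v).subset fun u hu => hu.1)
    refine ⟨fun u hu => ⟨hu.1, cyc_tr h2 hu.2.1, hu.2.2⟩, fun hcon => ?_⟩
    have h6 := hcon (show z1 ∈ {u | arc K v u ∈ X ∧ Cyc v x u ∧ Cyc v u z} from ⟨hz1.2.1, h2, h3⟩)
    exact (cyc_ne h6.2.1).2.1 rfl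

/-- a vertex with an inner oriented chord of the piece -/
def Gd (M : AD K Ω T) (G : Ω → Ω → Prop) (v : Ω) : Prop := ∃ x, x ≠ M.bp v ∧ G x v

theorem rot_all {X : Finset (Arc K Ω)} {G : Ω → Ω → Prop} (hG : Pc X M.s0 G) (hX : M.s0 ⊆ X)
    (hs0 : ∀ y z, arc K y z ∈ M.s0 → z = M.bs y ∨ z = M.bp y) (hper : ∀ y, ∃ k : K, M.bs y = k • y) {v : Ω}
    (hv : Gd M G v) {z : Ω} (hz : arc K v z ∈ X) (hzv : z ≠ v) (hzb : z ≠ M.bs v) : G v z := by
  obtain ⟨x, hx1, hx2⟩ := hv
  have hxe := hG.edge hx2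
  have hx3 : Cyc v x (M.bp v) := (M.bp_last v x hxe.1).resolve_left hx1
  have h1 : G v (M.bp v) := rot hG hs0 _ x (M.bp v) rfl hx2 (M.bp_ne v) (hX (M.bp_mem v)) hx3
  obtain ⟨k, hk⟩ := hper (M.bp v)
  rw [bs_bp] at hk
  -- at `v1 = bp v`
  have hz1 : arc K (M.bp v) (k⁻¹ • z) ∈ X := by
    have h2 := arc_smul k⁻¹ v z
    rw [← h2] at hz
    have h3 : k⁻¹ • v = M.bp v := by
      conv_lhs => rw [hk]
      rw [inv_smul_smul]
    rwa [h3] at hz
  have h3 : k⁻¹ • v = M.bp v := by
    conv_lhs => rw [hk]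
    rw [inv_smul_smul]
  have hz2 : k⁻¹ • z ≠ M.bp v := by
    intro h
    rw [← h3] at h
    exact hzv (smul_left_cancel _ h)
  have hz3 : k⁻¹ • z ≠ v := by
    intro h
    apply hzb
    have h4 : M.bs v = k • M.bs (M.bp v) := by
      rw [← bs_smul', ← hk]
    rw [bs_bp] at h4
    rw [h4, ← h, smul_inv_smul]
  have h5 : Cyc (M.bp v) v (k⁻¹ • z) := by
    have h6 := M.bs_first (M.bp v) (k⁻¹ • z) hz2
    rw [bs_bp] at h6
    exact h6.resolve_left hz3
  have h6 := rot hG hs0 _ v (k⁻¹ • z) rfl h1 hz2 hz1 h5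
  have h7 := hG.smul k h6
  rw [smul_inv_smul, ← hk] at h7
  exact h7

theorem Gd.step {X : Finset (Arc K Ω)} {G : Ω → Ω → Prop} (hG : Pc X M.s0 G) (hX : M.s0 ⊆ X)
    (hs0 : ∀ y z, arc K y z ∈ M.s0 → z = M.bs y ∨ z = M.bp y) (hper : ∀ y, ∃ k : K, M.bs y = k • y) {v z : Ω}
    (hv : Gd M G v) (hz : arc K v z ∈ X) : Gd M G z := by
  by_cases hzv : z = v
  · rw [hzv]
    exact hv
  by_cases h1 : z = M.bs v
  · obtain ⟨k, hk⟩ := hper v
    obtain ⟨x, hx1, hx2⟩ := hv
    refine ⟨k • x, ?_, ?_⟩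
    · rw [h1, hk, bp_smul']
      exact fun h => hx1 (smul_left_cancel k h)
    · rw [h1, hk]
      exact hG.smul k hx2
  by_cases h2 : z = M.bp v
  · obtain ⟨k, hk⟩ := hper (M.bp v)
    rw [bs_bp] at hk
    have h3 : k⁻¹ • v = M.bp v := by
      conv_lhs => rw [hk]
      rw [inv_smul_smul]
    obtain ⟨x, hx1, hx2⟩ := hv
    refine ⟨k⁻¹ • x, ?_, ?_⟩
    · rw [h2, ← h3, bp_smul']
      exact fun h => hx1 (smul_left_cancel k⁻¹ h)
    · rw [h2, ← h3]
      exact hG.smul k⁻¹ hx2
  · have h3 := rot_all hG hX hs0 hper hv hz hzv h1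
    refine ⟨v, ?_, h3⟩
    intro h
    apply h1
    rw [h, bs_bp]

/-- **admissibility of the background system** -/
theorem adm_of (τ : Ω → T) (hτ : ∀ x y, M.E x y → ¬ M.A x y → M.ty x y = τ x) (hτA : ∀ x y, M.A x y → τ x = τ y)
    (hs0 : ∀ y z, arc K y z ∈ M.s0 → z = M.bs y ∨ z = M.bp y) (hper : ∀ y, ∃ k : K, M.bs y = k • y)
    (hPP : ∀ x y, M.E x y → ¬ M.A x y → ¬ M.hv (τ x) → τ x = τ y → ∃ y', M.E x y' ∧ τ y' ≠ τ x) : Adm M M.s0 := by
  intro X hX hsX hf G hG hne
  obtain ⟨x, y, hxy, hA⟩ := hne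
  have he := hG.edge hxy
  have hE : M.E x y := (in_iff M.hE).1 (CE.isIn hX he.2)
  have hA' : ¬ M.A y x := fun h => hA (M.hA.symm h)
  by_cases h1 : τ x = τ y
  · by_cases h2 : M.hv (τ x)
    · exact ⟨x, y, hxy, hE, hA, Or.inr (by rw [hτ x y hE hA]; exact h2)⟩
    · have hgd : Gd M G y := ⟨x, fun h => hA' (h ▸ M.bp_A y), hxy⟩
      obtain ⟨y', h3, h4⟩ := hPP y x (M.hE.symm hE) hA' (by rw [← h1]; exact h2) h1.symm
      have h5 := hf _ _ h3
      -- first edge which changes the type
      have key : ∀ u, Gn X y u → (Gd M G u ∧ τ u = τ y) ∨ ∃ a b, G a b ∧ M.ok a b := by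
        intro u hu
        induction hu with
        | refl => exact Or.inl ⟨hgd, rfl⟩
        | @tail a b _ hab ih =>
          rcases ih with ⟨h6, h7⟩ | h6
          · by_cases h8 : τ b = τ y
            · exact Or.inl ⟨h6.step hG hsX hs0 hper hab, h8⟩
            · refine Or.inr ⟨a, b, ?_, ?_⟩
              · refine rot_all hG hsX hs0 hper h6 hab ?_ ?_
                · rintro rfl
                  exact h8 h7
                · intro h9
                  apply h8
                  rw [h9, ← hτA _ _ (M.bs_A a), h7]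
              · have hEab : M.E a b := (in_iff M.hE).1 (CE.isIn hX hab)
                have hAab : ¬ M.A a b := fun h9 => h8 ((hτA _ _ h9).symm.trans h7)
                refine ⟨hEab, hAab, Or.inl ?_⟩
                rw [hτ a b hEab hAab, hτ b a (M.hE.symm hEab) fun h9 => hAab (M.hA.symm h9), h7]
                exact fun h9 => h8 h9.symm
          · exact Or.inr h6
      rcases key y' h5 with ⟨-, h6⟩ | h6
      · exact absurd h6 h4
      · exact h6
  · refine ⟨x, y, hxy, hE, hA, Or.inl ?_⟩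
    rw [hτ x y hE hA, hτ y x (M.hE.symm hE) hA']
    exact h1

end TorH
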