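import Pool.Agent.Lib.MP_05cdf2_gt.H.YDef

/-! MP_05cdf2_gt, stream H (helper63): ears, and the flow at a corner with both sides not allowed. (complete)

`ear_simple`: `{y, t}`, `{t, w}` chords of a system `X`, `{y, w}` not crossed by `X`, different arcs: `{y, w}` is simple.
`ear_ok`: if one of them is allowed and the other is not then `{y, w}` is allowed.
`flow_b`: if an allowed arc starts at `p` in a sector whose sides are not allowed then the allowed systems are acyclic. -/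

set_option autoImplicit false
set_option linter.unusedSectionVars false

namespace TorH
open TorM TorA

section
variable {α : Type} [LinearOrder α]

theorem ear1 {y t w kt kw : α} (hc : Cr y w t kw)
    (n1 : ¬ Cr y w t kt) (n2 : ¬ Cr y w kt kw) (n3 : ¬ Cr kt kw y t) (n4 : ¬ Cr kt kw t w)
    (ho : Cyc y t w ↔ Cyc t kt kw) (g1 : kt ≠ t) (g2 : kt ≠ kw) : kt = w := by
  unfold Cr Cyc at *
  grind

theorem ear2 {y t w kt ky : α} (hc : Cr y w ky t)
    (n1 : ¬ Cr y w kt t) (n2 : ¬ Cr y w ky kt) (n3 : ¬ Cr ky kt y t) (n4 : ¬ Cr ky kt t w)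
    (ho : Cyc y t w ↔ Cyc ky kt t) (g1 : kt ≠ t) (g2 : kt ≠ ky) : kt = y := by
  unfold Cr Cyc at *
  grind

theorem cr_bc {a b c d : α} (h : Cr a b c d) : b ≠ c := by
  unfold Cr Cyc at h
  grind

theorem quad_xq {p q x y c d : α} (h : Cr p q x y) (h1 : ¬ Cr c d p q) (h2 : ¬ Cr c d x y) : ¬ Cr c d x q := by
  unfold Cr Cyc at *
  grind

end

variable {K Ω T : Type} [Group K] [LinearOrder Ω] [CS K Ω]

theorem co_lift {a b : Arc K Ω} (h : Co a b) {x y z w : Ω} (h1 : arc K x y = a) (h2 : arc K z w = b) :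
    ¬ Cr x y z w := h x y z w h1 h2

theorem co_of_un {s : Finset (Arc K Ω)} {x y : Ω} (h : ∀ c d : Ω, arc K c d ∈ s → ¬ Cr c d x y) :
    ∀ b ∈ s, Co (arc K x y) b := by
  intro b hb
  rw [co_iff]
  rintro c d rfl hcr
  exact h c d hb (cr_comm.1 hcr)

theorem ear_simple {X : Finset (Arc K Ω)} (hX : Sy Co X) {y t w : Ω} (hyt : y ≠ t) (htw : t ≠ w)
    (h1 : arc K y t ∈ X) (h2 : arc K t w ∈ X) (hne : arc K y t ≠ arc K t w)
    (hc : ∀ b ∈ X, Co (arc K y w) b) : Co (arc K y w) (arc K y w) := by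
  have key : ∀ k : K, ¬ Cr y w (k • y) (k • w) := by
    intro k hcr
    have q1 : ¬ Cr (k • y) (k • w) y t := co_lift (hc _ h1) (arc_smul k y w) rfl
    have q2 : ¬ Cr (k • y) (k • w) t w := co_lift (hc _ h2) (arc_smul k y w) rfl
    have gyt : k • t ≠ k • y := fun h => hyt (smul_left_cancel k h).symm
    have gtw : k • t ≠ k • w := fun h => htw (smul_left_cancel k h)
    have ho := (cs_cyc k y t w).symm
    have n2 : ¬ Cr y w (k • t) (k • w) := co_lift (hc _ h2) rfl (arc_smul k t w)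
    have n2' : ¬ Cr y w (k • y) (k • t) := co_lift (hc _ h1) rfl (arc_smul k y t)
    have n3 : ¬ Cr (k • t) (k • w) y t := co_lift (hX _ h2 _ h1) (arc_smul k t w) rfl
    have n4 : ¬ Cr (k • t) (k • w) t w := co_lift (hX _ h2 _ h2) (arc_smul k t w) rfl
    have n5 : ¬ Cr (k • y) (k • t) y t := co_lift (hX _ h1 _ h1) (arc_smul k y t) rfl
    have n6 : ¬ Cr (k • y) (k • t) t w := co_lift (hX _ h1 _ h2) (arc_smul k y t) rfl
    rcases quad (cr_comm.1 hcr) q1 q2 with he | he
    · rw [he] at hcr n2' ho gyt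
      have h3 := ear1 hcr n2' n2 n3 n4 ho gyt gtw
      apply hne
      rw [← arc_smul k y t, he, h3]
    · rw [he] at hcr n2 ho gtw
      have h3 := ear2 hcr n2 n2' n5 n6 ho gtw gyt
      apply hne
      rw [← arc_smul k t w, he, h3]
  rw [co_iff]
  intro z v hzv
  rw [eq_comm, arc_eq] at hzv
  obtain ⟨k, ⟨rfl, rfl⟩ | ⟨rfl, rfl⟩⟩ := hzv
  · exact key k
  · intro h
    exact key k (cr_swap2.1 h)

variable {M : AD K Ω T}

/-- not crossed by the background -/
def AD.un (M : AD K Ω T) (x y : Ω) : Prop := ∀ c d : Ω, TorH.arc K c d ∈ M.s0 → ¬ Cr c d x y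

theorem un_symm {x y : Ω} (h : M.un x y) : M.un y x := fun c d hcd hcr => h c d hcd (cr_swap2.1 hcr)

theorem ear_ok {y t w : Ω} (hE : M.E y t) (hn : ¬ M.ok y t) (ho : M.ok t w) (u1 : M.un y t) (u2 : M.un t w)
    (u3 : M.un y w) : M.ok y w := by
  have hEyw : M.E y w := M.hE.trans hE ho.1
  by_cases hA : M.A y t
  · have h1 : ¬ M.A y w := fun h => ho.2.1 (M.hA.trans (M.hA.symm hA) h)
    refine ⟨hEyw, h1, ?_⟩
    have e1 : M.ty y w = M.ty t w := M.T2 y t w hA hEyw h1
    have e2 : M.ty w y = M.ty w t := M.T1 w y t (M.hE.symm hEyw) (M.hE.symm ho.1)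
      (fun h => h1 (M.hA.symm h)) (fun h => ho.2.1 (M.hA.symm h)) u1
    rw [e1, e2]
    exact ho.2.2
  · have e0 : M.ty y t = M.ty t y ∧ ¬ M.hv (M.ty y t) := by
      by_contra hcon
      apply hn
      refine ⟨hE, hA, ?_⟩
      by_cases he : M.ty y t = M.ty t y
      · right
        by_contra hh
        exact hcon ⟨he, hh⟩
      · exact Or.inl he
    have hA' : ¬ M.A t y := fun h => hA (M.hA.symm h)
    have e1 : M.ty t y = M.ty t w := M.T1 t y w (M.hE.symm hE) ho.1 hA' ho.2.1 u3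
    have hl : ¬ M.hv (M.ty t w) := by
      rw [← e1, ← e0.1]
      exact e0.2
    have hne : M.ty t w ≠ M.ty w t := ho.2.2.resolve_right hl
    have hAyw : ¬ M.A y w := by
      intro h
      have e2 : M.ty y t = M.ty w t := M.T2 y w t h hE hA
      apply hne
      rw [← e1, ← e0.1, e2]
    refine ⟨hEyw, hAyw, Or.inl ?_⟩
    have e3 : M.ty y w = M.ty y t := M.T1 y w t hEyw hE hAyw hA (un_symm u2)
    have e4 : M.ty w y = M.ty w t := M.T1 w y t (M.hE.symm hEyw) (M.hE.symm ho.1)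
      (fun h => hAyw (M.hA.symm h)) (fun h => ho.2.1 (M.hA.symm h)) u1
    rw [e3, e4, e0.1, e1]
    exact hne

/-- if a chord is allowed then one of the two pieces is allowed -/
theorem cut_ok {p x y : Ω} (hE1 : M.E x p) (ho : M.ok x y) (u1 : M.un x p) (u2 : M.un p y)
    (u3 : M.un x y) : M.ok x p ∨ M.ok p y := by
  by_contra hcon
  push Not at hcon
  have hE2 : M.E p y := M.hE.trans (M.hE.symm hE1) ho.1
  have h1 : ¬ M.ok p x := fun h => hcon.1 (ok_symm h)
  exact hcon.2 (ear_ok (M.hE.symm hE1) h1 ho (un_symm u1) u3 u2)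

/-- every allowed chord of `s` at `p` is separated from `q` by another chord of `s` at `p` -/
def AD.B (M : AD K Ω T) (s : Finset (Arc K Ω)) (p q : Ω) : Prop :=
  ∀ z, TorH.arc K p z ∈ s → M.ok p z →
    (Cyc p z q → ∃ v, TorH.arc K p v ∈ s ∧ Cyc p z v ∧ Cyc p v q) ∧
    (Cyc p q z → ∃ v, TorH.arc K p v ∈ s ∧ Cyc p q v ∧ Cyc p v z)

theorem flow_b {s : Finset (Arc K Ω)} (hs0 : M.s0 ⊆ s) {p q : Ω} (hs : Sy (CE M.E) (insert (arc K p q) s))
    (hpq : M.ok p q) (hns : arc K p q ∉ s) (hB : M.B s p q) : AcI (Po (As (CE M.E) M.al s)) := by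
  have h0 := flow_at M.hE s (fun a => M.al a ∧ a ∉ s) p q hs ⟨al_mk.2 hpq, hns⟩ ?_
  · exact h0
  · rintro x y ⟨hxy, hxys⟩ h1 h2 h3
    have hok : M.ok x y := al_mk.1 hxy
    have hcr : Cr p q x y := cr_of h1 h2
    have hpxE : M.E p x := M.hE.noncr hok.1 hpq.1 hcr
    have cxy : ∀ c d, arc K c d ∈ s → ¬ Cr c d x y := fun c d hcd =>
      co_lift ((CE.co h3) _ (Finset.mem_insert_of_mem hcd) _ (Finset.mem_insert_self _ _)) rfl rfl
    have cpq : ∀ c d, arc K c d ∈ s → ¬ Cr c d p q := fun c d hcd =>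
      co_lift ((CE.co hs) _ (Finset.mem_insert_of_mem hcd) _ (Finset.mem_insert_self _ _)) rfl rfl
    have u3 : M.un x y := fun c d hcd => cxy c d (hs0 hcd)
    have u1 : M.un x p := by
      intro c d hcd
      have := quad_xq (p := q) (q := p) (cr_swap1.2 hcr) (c := c) (d := d) ?_ (u3 c d hcd)
      · exact this
      · intro h
        exact cpq c d (hs0 hcd) (cr_swap2.1 h)
    have u2 : M.un p y := by
      intro c d hcd
      have := quad_xq (p := x) (q := y) (x := p) (y := q) (cr_comm.2 hcr) (c := c) (d := d) (u3 c d hcd)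
        (cpq c d (hs0 hcd))
      exact this
    rcases cut_ok (M.hE.symm hpxE) hok u1 u2 u3 with h4 | h4
    · refine Or.inl ⟨al_mk.2 h4, ?_⟩
      intro hcon
      have hcon' : arc K p x ∈ s := by rwa [arc_comm]
      obtain ⟨v, hv, h5, h6⟩ := (hB x hcon' (ok_symm h4)).1 h1
      refine cxy p v hv ?_
      clear * - h5 h6 h2
      unfold Cr Cyc at *
      grind
    · refine Or.inr ⟨al_mk.2 h4, ?_⟩
      intro hcon
      obtain ⟨v, hv, h5, h6⟩ := (hB y hcon h4).2 h2
      refine cxy p v hv ?_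
      clear * - h5 h6 h1
      unfold Cr Cyc at *
      grind

end TorH
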