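import Pool.Agent.Lib.MP_05cdf2_gt.H.YWalk

/-! MP_05cdf2_gt, stream H (helper63): the surface relation. (complete)

`Pc X s G`: `G` is a set of oriented chords of `X`, invariant, closed under the moves `(x, y) → (y, z)` (next) and `(x, y) → (y, x)`
(for chords not in `s`): a union of pieces of the complement of `s`. `Face X c`: the class of a closed walk around a piece of the
complement of `X` is `0`. `surf`: the sum of the classes of the oriented arcs of `G` is `0`. `flip_of_ind`: arcs independent modulo `s` do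
not separate new pieces. -/

set_option autoImplicit false
set_option linter.unusedSectionVars false

namespace TorH
open TorM TorA

variable {K Ω T : Type} [Group K] [LinearOrder Ω] [CS K Ω]

/-- unions of pieces of the complement of `s` -/
structure Pc (X s : Finset (Arc K Ω)) (G : Ω → Ω → Prop) : Prop where
  edge : ∀ {x y}, G x y → x ≠ y ∧ arc K x y ∈ X
  smul : ∀ (k : K) {x y}, G x y → G (k • x) (k • y)
  next : ∀ {x y z}, G x y → Nx X x y z → G y z
  flip : ∀ {x y}, G x y → arc K x y ∉ s → G y x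

/-- a closed walk around a piece of the complement of `X` has class `0` -/
def Face {V : Type} [Zero V] (X : Finset (Arc K Ω)) (c : Ω → Ω → V) : Prop :=
  ∀ (w : ℕ → Ω) (N : ℕ) (k : K), 0 < N →
    (∀ i, w i ≠ w (i + 1) ∧ arc K (w i) (w (i + 1)) ∈ X ∧ Nx X (w i) (w (i + 1)) (w (i + 2))) →
    w N = k • w 0 → w (N + 1) = k • w 1 → c (w 0) (w N) = 0

variable (K Ω) in
/-- orbits of ordered pairs -/
def oaS : Setoid (Ω × Ω) where
  r x y := ∃ k : K, k • x.1 = y.1 ∧ k • x.2 = y.2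
  iseqv := by
    refine ⟨fun x => ⟨1, one_smul _ _, one_smul _ _⟩, ?_, ?_⟩
    · rintro x y ⟨k, h1, h2⟩
      exact ⟨k⁻¹, by rw [← h1, inv_smul_smul], by rw [← h2, inv_smul_smul]⟩
    · rintro x y z ⟨k, h1, h2⟩ ⟨l, h3, h4⟩
      exact ⟨l * k, by rw [mul_smul, h1, h3], by rw [mul_smul, h2, h4]⟩

variable (K Ω) in
/-- oriented arcs -/
def OA : Type := Quotient (oaS K Ω)

noncomputable instance : DecidableEq (OA K Ω) := Classical.decEq _

variable (K) in
/-- the oriented arc of an oriented chord -/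
def oa (x y : Ω) : OA K Ω := Quotient.mk (oaS K Ω) (x, y)

theorem oa_eq {x y z w : Ω} : oa K x y = oa K z w ↔ ∃ k : K, k • x = z ∧ k • y = w :=
  Quotient.eq (r := oaS K Ω)

/-- a lift -/
noncomputable def orep (o : OA K Ω) : Ω × Ω := (Quotient.exists_rep o).choose

theorem oa_rep (o : OA K Ω) : oa K (orep o).1 (orep o).2 = o := (Quotient.exists_rep o).choose_spec

theorem orep_eq (x y : Ω) : ∃ k : K, orep (oa K x y) = (k • x, k • y) := by
  have h := oa_rep (oa K x y)
  rw [eq_comm, oa_eq] at h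
  obtain ⟨k, h1, h2⟩ := h
  exact ⟨k, Prod.ext h1.symm h2.symm⟩

/-- reversed -/
noncomputable def orev (o : OA K Ω) : OA K Ω := oa K (orep o).2 (orep o).1

theorem orev_oa (x y : Ω) : orev (oa K x y) = oa K y x := by
  obtain ⟨k, hk⟩ := orep_eq (K := K) x y
  unfold orev
  rw [hk, eq_comm, oa_eq]
  exact ⟨k, rfl, rfl⟩

theorem orev_orev (o : OA K Ω) : orev (orev o) = o := by
  have h := orev_oa (K := K) (orep o).2 (orep o).1
  rw [oa_rep] at h
  exact h

section
variable {X s : Finset (Arc K Ω)} {G : Ω → Ω → Prop}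

theorem Pc.smul_iff (h : Pc X s G) (k : K) {x y : Ω} : G (k • x) (k • y) ↔ G x y := by
  constructor
  · intro h1
    have := h.smul k⁻¹ h1
    rwa [inv_smul_smul, inv_smul_smul] at this
  · exact h.smul k

theorem oset_finite (h : Pc X s G) : {o : OA K Ω | G (orep o).1 (orep o).2}.Finite := by
  have h1 : (⋃ a ∈ X, ({oa K (rep a).1 (rep a).2, oa K (rep a).2 (rep a).1} : Set (OA K Ω))).Finite := by
    refine X.finite_toSet.biUnion fun a _ => ?_
    exact Set.toFinite _
  refine h1.subset ?_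
  intro o ho
  have h2 := (h.edge ho).2
  rw [Set.mem_iUnion₂]
  refine ⟨_, h2, ?_⟩
  have h3 := arc_rep (arc K (orep o).1 (orep o).2)
  rw [arc_eq] at h3
  obtain ⟨k, ⟨h4, h5⟩ | ⟨h4, h5⟩⟩ := h3
  · left
    rw [← oa_rep o, eq_comm, oa_eq]
    refine ⟨k, ?_, ?_⟩
    · rw [oa_rep]
      exact h4
    · rw [oa_rep]
      exact h5
  · right
    rw [Set.mem_singleton_iff, ← oa_rep o, eq_comm, oa_eq]
    refine ⟨k, ?_, ?_⟩
    · rw [oa_rep]
      exact h5
    · rw [oa_rep]
      exact h4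

/-- the finite set of the oriented arcs of `G` -/
noncomputable def Pc.os (h : Pc X s G) : Finset (OA K Ω) := (oset_finite h).toFinset

theorem Pc.mem_os (h : Pc X s G) {x y : Ω} : oa K x y ∈ h.os ↔ G x y := by
  unfold Pc.os
  rw [Set.Finite.mem_toFinset]
  obtain ⟨k, hk⟩ := orep_eq (K := K) x y
  show G (orep (oa K x y)).1 (orep (oa K x y)).2 ↔ _
  rw [hk]
  exact h.smul_iff k

theorem Pc.os_ex (h : Pc X s G) {o : OA K Ω} (ho : o ∈ h.os) : ∃ x y, o = oa K x y ∧ G x y :=
  ⟨_, _, (oa_rep o).symm, by rw [← h.mem_os, oa_rep]; exact ho⟩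

open Classical in
/-- next oriented arc -/
noncomputable def onx (X : Finset (Arc K Ω)) (o : OA K Ω) : OA K Ω :=
  if h : ∃ z, Nx X (orep o).1 (orep o).2 z then oa K (orep o).2 h.choose else o

theorem onx_eq {x y z : Ω} (h : Nx X x y z) : onx X (oa K x y) = oa K y z := by
  obtain ⟨k, hk⟩ := orep_eq (K := K) x y
  have h1 : ∃ z, Nx X (orep (oa K x y)).1 (orep (oa K x y)).2 z := by
    rw [hk]
    exact ⟨k • z, nx_smul k h⟩
  unfold onx
  rw [dif_pos h1]
  have h2 := h1.choose_spec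
  have h3 : h1.choose = k • z := by
    refine nx_unique h2 ?_
    rw [hk]
    exact nx_smul k h
  rw [h3, hk, eq_comm, oa_eq]
  exact ⟨k, rfl, rfl⟩

theorem Pc.ex_next (h : Pc X s G) {x y : Ω} (hxy : G x y) : ∃ z, Nx X x y z ∧ G y z := by
  have h1 := h.edge hxy
  obtain ⟨z, hz⟩ := nx_exists (X := X) (x := x) (y := y) h1.1 (by rw [arc_comm]; exact h1.2)
  exact ⟨z, hz, h.next hxy hz⟩

theorem Pc.onx_mem (h : Pc X s G) {o : OA K Ω} (ho : o ∈ h.os) : onx X o ∈ h.os := by
  obtain ⟨x, y, rfl, hxy⟩ := h.os_ex ho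
  obtain ⟨z, hz, hyz⟩ := h.ex_next hxy
  rw [onx_eq hz, h.mem_os]
  exact hyz

theorem Pc.onx_inj (h : Pc X s G) {o o' : OA K Ω} (ho : o ∈ h.os) (ho' : o' ∈ h.os)
    (he : onx X o = onx X o') : o = o' := by
  obtain ⟨x, y, rfl, hxy⟩ := h.os_ex ho
  obtain ⟨x', y', rfl, hxy'⟩ := h.os_ex ho'
  obtain ⟨z, hz, hyz⟩ := h.ex_next hxy
  obtain ⟨z', hz', hyz'⟩ := h.ex_next hxy'
  rw [onx_eq hz, onx_eq hz', oa_eq] at he
  obtain ⟨k, h1, h2⟩ := he
  have h3 := nx_smul k hz
  rw [h1, h2] at h3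
  have e1 := h.edge hxy
  have e2 := h.edge hxy'
  have h4 : k • x = x' := by
    refine nx_inj ?_ ?_ e2.1 ?_ h3 hz'
    · rw [← h1]
      exact fun hh => e1.1 (smul_left_cancel k hh)
    · rw [← h1, arc_smul, arc_comm]
      exact e1.2
    · rw [arc_comm]
      exact e2.2
  rw [oa_eq]
  exact ⟨k, h4, h1⟩

theorem Pc.sum_onx {W : Type} [AddCommMonoid W] (h : Pc X s G) (f : OA K Ω → W) :
    ∑ o ∈ h.os, f (onx X o) = ∑ o ∈ h.os, f o := by
  refine Finset.sum_nbij (onx X) (fun o ho => h.onx_mem ho) (fun o ho o' ho' he => h.onx_inj ho ho' he) ?_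
    (fun _ _ => rfl)
  exact Finset.surjOn_of_injOn_of_card_le (onx X) (fun o ho => h.onx_mem ho)
    (fun o ho o' ho' he => h.onx_inj ho ho' he) le_rfl

theorem Pc.onx_iter (h : Pc X s G) (n : ℕ) {o : OA K Ω} (ho : o ∈ h.os) : (onx X)^[n] o ∈ h.os := by
  induction n with
  | zero => exact ho
  | succ n ih =>
    rw [Function.iterate_succ_apply']
    exact h.onx_mem ih

theorem Pc.sum_iter {W : Type} [AddCommMonoid W] (h : Pc X s G) (f : OA K Ω → W) (n : ℕ) :
    ∑ o ∈ h.os, f ((onx X)^[n] o) = ∑ o ∈ h.os, f o := by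
  induction n with
  | zero => rfl
  | succ n ih =>
    rw [← ih, ← h.sum_onx fun o => f ((onx X)^[n] o)]
    refine Finset.sum_congr rfl fun o _ => ?_
    rw [Function.iterate_succ_apply]

/-- the next map has finite order on the oriented arcs of `G` -/
theorem Pc.period (h : Pc X s G) : ∃ N, 0 < N ∧ ∀ o ∈ h.os, (onx X)^[N] o = o := by
  classical
  let f : {o // o ∈ h.os} → {o // o ∈ h.os} := fun o => ⟨onx X o.1, h.onx_mem o.2⟩
  have hf : Function.Injective f := fun o o' he => Subtype.ext (h.onx_inj o.2 o'.2 (congrArg Subtype.val he))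
  have hfb : Function.Bijective f := Finite.injective_iff_bijective.1 hf
  let e : Equiv.Perm {o // o ∈ h.os} := Equiv.ofBijective f hfb
  have hit : ∀ (n : ℕ) (o : {o // o ∈ h.os}), (onx X)^[n] o.1 = ((e ^ n) o).1 := by
    intro n
    induction n with
    | zero => intro o; rfl
    | succ n ih =>
      intro o
      rw [Function.iterate_succ_apply', ih, pow_succ', Equiv.Perm.mul_apply]
      rfl
  refine ⟨orderOf e, orderOf_pos e, fun o ho => ?_⟩
  rw [hit _ ⟨o, ho⟩, pow_orderOf_eq_one]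
  rfl

theorem Pc.walk (h : Pc X s G) {x y : Ω} (hxy : G x y) : ∃ w : ℕ → Ω, w 0 = x ∧ w 1 = y ∧
    ∀ i, G (w i) (w (i + 1)) ∧ Nx X (w i) (w (i + 1)) (w (i + 2)) := by
  have hst : ∀ p : {p : Ω × Ω // G p.1 p.2}, ∃ z, Nx X p.1.1 p.1.2 z ∧ G p.1.2 z := fun p => h.ex_next p.2
  choose f hf using hst
  let P : ℕ → {p : Ω × Ω // G p.1 p.2} := fun n => Nat.rec ⟨(x, y), hxy⟩ (fun _ p => ⟨(p.1.2, f p), (hf p).2⟩) n
  have hP : ∀ n, (P (n + 1)).1 = ((P n).1.2, f (P n)) := fun n => rfl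
  have hP1 : ∀ n, (P (n + 1)).1.1 = (P n).1.2 := fun n => by rw [hP]
  refine ⟨fun n => (P n).1.1, rfl, hP1 0, fun i => ⟨?_, ?_⟩⟩
  · show G (P i).1.1 (P (i + 1)).1.1
    rw [hP1]
    exact (P i).2
  · show Nx X (P i).1.1 (P (i + 1)).1.1 (P (i + 1 + 1)).1.1
    rw [hP1 (i + 1), hP1 i, hP i]
    exact (hf (P i)).1

variable {V : Type} [AddCommGroup V] [Module ℚ V] {E : Ω → Ω → Prop} {c : Ω → Ω → V}

/-- class of an oriented arc -/
noncomputable def oc (c : Ω → Ω → V) (o : OA K Ω) : V := c (orep o).1 (orep o).2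

theorem oc_oa (hc : Cl K E c) {x y : Ω} (h : E x y) : oc c (oa K x y) = c x y := by
  obtain ⟨k, hk⟩ := orep_eq (K := K) x y
  unfold oc
  rw [hk]
  exact hc.smul k h

/-- the surface relation -/
theorem surf (hE : NE K E) (hc : Cl K E c) (hXE : ∀ a ∈ X, In E a) (hF : Face X c) (h : Pc X s G) :
    ∑ o ∈ h.os, oc c o = 0 := by
  obtain ⟨N, hN, hper⟩ := h.period
  have h1 : ∀ o ∈ h.os, ∑ i ∈ Finset.range N, oc c ((onx X)^[i] o) = 0 := by
    intro o ho
    obtain ⟨x, y, rfl, hxy⟩ := h.os_ex ho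
    obtain ⟨w, hw0, hw1, hw⟩ := h.walk hxy
    have hEw : ∀ i, E (w i) (w (i + 1)) := fun i => hXE _ (h.edge (hw i).1).2 _ _ rfl
    have hit : ∀ i, (onx X)^[i] (oa K x y) = oa K (w i) (w (i + 1)) := by
      intro i
      induction i with
      | zero => rw [hw0, hw1]; rfl
      | succ i ih =>
        rw [Function.iterate_succ_apply', ih, onx_eq (hw i).2]
    have htel : ∀ n, E (w 0) (w n) ∧ ∑ i ∈ Finset.range n, c (w i) (w (i + 1)) = c (w 0) (w n) := by
      intro n
      induction n with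
      | zero =>
        rw [Finset.sum_range_zero]
        exact ⟨hE.refl _, (hc.self hE _).symm⟩
      | succ n ih =>
        rw [Finset.sum_range_succ, ih.2]
        exact ⟨hE.trans ih.1 (hEw n), hc.add ih.1 (hEw n)⟩
    have h2 : ∑ i ∈ Finset.range N, oc c ((onx X)^[i] (oa K x y)) = c (w 0) (w N) := by
      rw [← (htel N).2]
      refine Finset.sum_congr rfl fun i _ => ?_
      rw [hit, oc_oa hc (hEw i)]
    rw [h2]
    have h3 := hper _ ho
    rw [hit, ← hw0, ← hw1, eq_comm, oa_eq] at h3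
    obtain ⟨k, h4, h5⟩ := h3
    exact hF w N k hN (fun i => ⟨(h.edge (hw i).1).1, (h.edge (hw i).1).2, (hw i).2⟩) h4.symm h5.symm
  have h2 : (N : ℚ) • ∑ o ∈ h.os, oc c o = 0 := by
    have h3 : ∑ i ∈ Finset.range N, ∑ o ∈ h.os, oc c ((onx X)^[i] o) = 0 := by
      rw [Finset.sum_comm]
      exact Finset.sum_eq_zero h1
    rw [Finset.sum_congr rfl (fun i _ => h.sum_iter (oc c) i), Finset.sum_const, Finset.card_range] at h3
    rw [Nat.cast_smul_eq_nsmul]
    exact h3
  rcases smul_eq_zero.1 h2 with h3 | h3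
  · exfalso
    have : (N : ℚ) ≠ 0 := by exact_mod_cast hN.ne'
    exact this h3
  · exact h3

theorem oc_rev (hE : NE K E) (hc : Cl K E c) (hXE : ∀ a ∈ X, In E a) (h : Pc X s G) {o : OA K Ω} (ho : o ∈ h.os) :
    oc c (orev o) = - oc c o := by
  obtain ⟨x, y, rfl, hxy⟩ := h.os_ex ho
  have hExy : E x y := hXE _ (h.edge hxy).2 _ _ rfl
  rw [orev_oa, oc_oa hc hExy, oc_oa hc (hE.symm hExy), hc.neg hE hExy]

/-- arcs independent modulo `s` do not separate new pieces -/
theorem flip_of_ind (hE : NE K E) (hc : Cl K E c) (hXE : ∀ a ∈ X, In E a) (hF : Face X c)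
    {l : Finset (Arc K Ω)} (hl : Ind (ac c) (Sn (ac c) s) l) {G : Ω → Ω → Prop} (h : Pc X (s ∪ l) G) : Pc X s G := by
  refine ⟨h.edge, h.smul, h.next, ?_⟩
  intro p1 p2 hG hns
  by_cases hsl : arc K p1 p2 ∈ s ∪ l
  · by_contra hcon
    have hul : arc K p1 p2 ∈ l := (Finset.mem_union.1 hsl).resolve_left hns
    set u := arc K p1 p2 with hu
    set W := sp (ac c) (Sn (ac c) s) (l.erase u) with hW
    have hEp : E p1 p2 := hXE _ (h.edge hG).2 _ _ rfl
    have hsum := surf hE hc hXE hF h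
    set R := h.os.filter fun o => orev o ∈ h.os with hR
    have hR0 : ∑ o ∈ R, oc c o = 0 := by
      have e1 : ∑ o ∈ R, oc c (orev o) = ∑ o ∈ R, oc c o := by
        refine Finset.sum_nbij orev ?_ ?_ ?_ (fun _ _ => rfl)
        · intro o ho
          rw [hR, Finset.mem_filter] at ho ⊢
          exact ⟨ho.2, by rw [orev_orev]; exact ho.1⟩
        · intro o _ o' _ he
          have := congrArg orev he
          rwa [orev_orev, orev_orev] at this
        · intro o ho
          have ho' : o ∈ R := ho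
          rw [hR, Finset.mem_filter] at ho'
          refine ⟨orev o, ?_, orev_orev o⟩
          rw [Finset.mem_coe, hR, Finset.mem_filter]
          exact ⟨ho'.2, by rw [orev_orev]; exact ho'.1⟩
      have e2 : ∑ o ∈ R, oc c (orev o) = - ∑ o ∈ R, oc c o := by
        rw [← Finset.sum_neg_distrib]
        refine Finset.sum_congr rfl fun o ho => ?_
        exact oc_rev hE hc hXE h (Finset.mem_filter.1 ho).1
      rw [e1] at e2
      have e3 : (2 : ℚ) • ∑ o ∈ R, oc c o = 0 := by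
        rw [two_smul]
        exact add_eq_zero_iff_eq_neg.2 e2
      exact (smul_eq_zero.1 e3).resolve_left (by norm_num)
    have hR1 : ∑ o ∈ h.os.filter (fun o => ¬ orev o ∈ h.os), oc c o = 0 := by
      rw [← Finset.sum_filter_add_sum_filter_not h.os (fun o => orev o ∈ h.os)] at hsum
      rw [← hR, hR0, zero_add] at hsum
      exact hsum
    have ho0 : oa K p1 p2 ∈ h.os.filter (fun o => ¬ orev o ∈ h.os) := by
      rw [Finset.mem_filter, orev_oa, h.mem_os, h.mem_os]
      exact ⟨hG, hcon⟩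
    rw [← Finset.sum_erase_add _ _ ho0] at hR1
    have hmem : ∑ o ∈ (h.os.filter (fun o => ¬ orev o ∈ h.os)).erase (oa K p1 p2), oc c o ∈ W := by
      refine W.sum_mem fun o ho => ?_
      rw [Finset.mem_erase, Finset.mem_filter] at ho
      obtain ⟨hne, ho1, ho2⟩ := ho
      obtain ⟨x, y, rfl, hxy⟩ := h.os_ex ho1
      have hExy : E x y := hXE _ (h.edge hxy).2 _ _ rfl
      rw [oc_oa hc hExy, ← ac_mem hE hc hExy]
      have hxyin : arc K x y ∈ s ∪ l := by
        by_contra hh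
        rw [orev_oa, h.mem_os] at ho2
        exact ho2 (h.flip hxy hh)
      have hxyu : arc K x y ≠ u := by
        intro hh
        rw [hu, eq_comm, arc_eq] at hh
        obtain ⟨k, ⟨h1, h2⟩ | ⟨h1, h2⟩⟩ := hh
        · exact hne (oa_eq.2 ⟨k⁻¹, by rw [← h1, inv_smul_smul], by rw [← h2, inv_smul_smul]⟩)
        · apply hcon
          rw [← h.smul_iff k, h1, h2]
          exact hxy
      rcases Finset.mem_union.1 hxyin with h1 | h1
      · exact le_sp (mem_sp h1)
      · exact mem_sp (Finset.mem_erase.2 ⟨hxyu, h1⟩)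
    have hfin : oc c (oa K p1 p2) ∈ W := by
      have : oc c (oa K p1 p2) = - ∑ o ∈ (h.os.filter (fun o => ¬ orev o ∈ h.os)).erase (oa K p1 p2), oc c o := by
        rw [eq_neg_iff_add_eq_zero, add_comm]
        exact hR1
      rw [this]
      exact W.neg_mem hmem
    rw [oc_oa hc hEp, ← ac_mem hE hc hEp] at hfin
    exact hl u hul hfin
  · exact h.flip hG hsl

end

end TorH
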