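import Pool.Agent.Lib.MP_05cdf2_gt.H.YSlide
import Pool.Agent.Lib.MP_05cdf2_gt.H.YRel

/-! MP_05cdf2_gt, stream H (helper63): (H1) and (H) in a chord space. (complete)

`Adm M s`: in every filling system `X` containing `s`, every piece of the complement of `s` with a chord not in `A` has an allowed
chord. `XH1`: the complex of the allowed systems over an admissible system `s` is `Ac (dim V / span s)`. `XH2`: the same for allowed
systems independent in a space `V'` mapping to `V`. -/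

set_option autoImplicit false
set_option linter.unusedSectionVars false

namespace TorH
open TorM TorA Module

variable {K Ω T : Type} [Group K] [LinearOrder Ω] [CS K Ω]

/-- admissible systems -/
def Adm (M : AD K Ω T) (s : Finset (Arc K Ω)) : Prop :=
  ∀ X : Finset (Arc K Ω), Sy (CE M.E) X → s ⊆ X → Fi M.E X → ∀ G : Ω → Ω → Prop, Pc X s G →
    (∃ x y, G x y ∧ ¬ M.A x y) → ∃ x y, G x y ∧ M.ok x y

variable {M : AD K Ω T} {s X : Finset (Arc K Ω)}

theorem adm_insert (h : Adm M s) {p q : Ω} (hok : M.ok p q) : Adm M (insert (arc K p q) s) := by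
  intro X hX hsX hf G hG hne
  by_cases h0 : ∃ x y, G x y ∧ arc K x y = arc K p q
  · obtain ⟨x, y, h1, h2⟩ := h0
    refine ⟨x, y, h1, ?_⟩
    rw [← al_mk, h2, al_mk]
    exact hok
  · push Not at h0
    refine h X hX ((Finset.subset_insert _ _).trans hsX) hf G ⟨hG.edge, hG.smul, hG.next, ?_⟩ hne
    intro x y h1 h2
    refine hG.flip h1 ?_
    rw [Finset.mem_insert]
    rintro (h3 | h3)
    · exact h0 x y h1 h3
    · exact h2 h3

theorem adm_allowed (h : Adm M s) (t : Finset (Arc K Ω)) (ht : ∀ a ∈ t, M.al a) : Adm M (s ∪ t) := by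
  classical
  induction t using Finset.induction_on with
  | empty => rwa [Finset.union_empty]
  | insert a t _ ih =>
    rw [Finset.union_insert]
    obtain ⟨p, q, rfl⟩ := arc_surj a
    exact adm_insert (ih fun b hb => ht b (Finset.mem_insert_of_mem hb))
      (al_mk.1 (ht _ (Finset.mem_insert_self _ _)))

section
variable {V : Type} [AddCommGroup V] [Module ℚ V] {c : Ω → Ω → V}

/-- data and hypotheses for the classes -/
structure CL (M : AD K Ω T) (c : Ω → Ω → V) : Prop where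
  cl : Cl K M.E c
  zero : ∀ x y, M.A x y → c x y = 0
  face : ∀ X : Finset (Arc K Ω), Sy (CE M.E) X → M.s0 ⊆ X → Fi M.E X → Face X c

theorem adm_union (hc : CL M c) (hs0 : M.s0 ⊆ s) (h : Adm M s) {l : Finset (Arc K Ω)}
    (hl : Ind (ac c) (Sn (ac c) s) l) : Adm M (s ∪ l) := by
  intro X hX hsX hf G hG hne
  refine h X hX (Finset.subset_union_left.trans hsX) hf G ?_ hne
  exact flip_of_ind M.hE hc.cl (fun a ha => CE.isIn hX ha)
    (hc.face X hX (hs0.trans (Finset.subset_union_left.trans hsX)) hf) hl hG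

/-- the oriented chords followed by a sector with sides not allowed -/
def G0 (M : AD K Ω T) (X s : Finset (Arc K Ω)) (x y : Ω) : Prop :=
  x ≠ y ∧ arc K x y ∈ X ∧ x ≠ M.bp y ∧ M.D s x y

theorem bp_smul (k : K) (y : Ω) : k • M.bp y = M.bp (k • y) := by
  by_contra hne
  have h1 := M.bp_last (k • y) (k • M.bp y) (fun h => M.bp_ne y (smul_left_cancel k h))
  have h2 : Cyc (k • y) (k • M.bp y) (M.bp (k • y)) := h1.resolve_left hne
  have h3 := M.bp_last y (k⁻¹ • M.bp (k • y)) (fun h => M.bp_ne (k • y) (inv_smul_eq_iff.1 h))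
  have h4 : Cyc y (k⁻¹ • M.bp (k • y)) (M.bp y) := by
    refine h3.resolve_left ?_
    intro h
    apply hne
    rw [← h, smul_inv_smul]
  have h5 := (cs_cyc k _ _ _).2 h4
  rw [smul_inv_smul] at h5
  exact cyc_as h2 h5

theorem next_cyc (hs0 : M.s0 ⊆ X) {x y z : Ω} (hxy : x ≠ y) (hb : x ≠ M.bp y) (hn : Nx X x y z) :
    Cyc y x z := by
  have h1 := (M.bp_last y x hxy).resolve_left hb
  have h2 := hn.2.2 (M.bp y) (M.bp_ne y) (hs0 (M.bp_mem y))
  have h3 := hn.1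
  clear * - h1 h2 h3 hb hxy
  unfold Cyc at *
  grind

theorem pc_G0 (hX : Sy (CE M.E) X) (hsX : s ⊆ X) (hs0 : M.s0 ⊆ s) (hI : ¬ IIC M s) : Pc X s (G0 M X s) := by
  refine ⟨fun h => ⟨h.1, h.2.1⟩, ?_, ?_, ?_⟩
  · rintro k x y ⟨h1, h2, h3, h4⟩
    refine ⟨fun h => h1 (smul_left_cancel k h), by rw [arc_smul]; exact h2, ?_, D_smul k h4⟩
    rw [← bp_smul]
    exact fun h => h3 (smul_left_cancel k h)
  · rintro x y z ⟨h1, h2, h3, h4⟩ hn
    have hc := next_cyc (hs0.trans hsX) h1 h3 hn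
    refine ⟨hn.1.symm, hn.2.1, ?_, D_step hX hsX hs0 hI h4 h1 h2 hn hc⟩
    intro hy
    have hz := M.bp_last z x (by
      rintro rfl
      exact (cyc_ne hc).2.1 rfl)
    rw [← hy] at hz
    rcases hz with hz | hz
    · exact h1 hz
    · exact cyc_as hz (cyc_rot.1 (cyc_rot.1 hc))
  · rintro x y ⟨h1, h2, h3, h4⟩ hns
    refine ⟨h1.symm, by rw [arc_comm]; exact h2, ?_, D_flip hX hsX hs0 hI h4 h1 h2 hns⟩
    intro hy
    apply hns
    rw [hy]
    exact hs0 (M.bp_mem x)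

/-- if there is no allowed arc in a sector with sides not allowed then such sectors are inside `A` -/
theorem G0_A (hX : Sy (CE M.E) X) (hsX : s ⊆ X) (hf : Fi M.E X) (hs0 : M.s0 ⊆ s) (hI : ¬ IIC M s)
    (h : Adm M s) {x y : Ω} (hxy : G0 M X s x y) : M.A x y := by
  by_contra hA
  obtain ⟨x', y', h1, h2⟩ := h X hX hsX hf _ (pc_G0 hX hsX hs0 hI) ⟨x, y, hxy, hA⟩
  exact D_nok hX hsX hI h1.2.2.2 h1.2.1 h2

/-- the data of the slide -/
theorem exists_SD (hc : CL M c) {σ : Finset (Arc K Ω)} (hσ : Sy (CE M.E) σ) (hσf : Fi M.E σ)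
    {l : Finset (Arc K Ω)} (hsl : Sy (CE M.E) (s ∪ l)) (hs0 : M.s0 ⊆ s) (hadm : Adm M (s ∪ l))
    (hI : ¬ IIC M (s ∪ l)) (hla : ∀ a ∈ l, ¬ M.al a) (hl : Ind (ac c) (Sn (ac c) s) l) {p1 p2 : Ω}
    (hu : arc K p1 p2 ∈ l) : ∃ z w, SD M (s ∪ l) p1 p2 z w := by
  classical
  obtain ⟨σ', hX, hf'⟩ := fill_ext M.hE hsl hσ hσf
  set X : Finset (Arc K Ω) := (s ∪ l) ∪ σ' with hXdef
  have hsX : s ∪ l ⊆ X := Finset.subset_union_left
  have hf : Fi M.E X := fun x y h => (hf' x y h).mono Finset.subset_union_right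
  have hs0' : M.s0 ⊆ s ∪ l := hs0.trans Finset.subset_union_left
  have hmem : arc K p1 p2 ∈ s ∪ l := Finset.mem_union_right _ hu
  have hmem' : arc K p2 p1 ∈ s ∪ l := by rw [arc_comm]; exact hmem
  have hnok : ¬ M.ok p1 p2 := fun h => hla _ hu (al_mk.2 h)
  have hEp : M.E p1 p2 := CE.isIn hsl hmem _ _ rfl
  have hcu : c p1 p2 ∉ Sn (ac c) s := fun h => hl.notMem hu ((ac_mem M.hE hc.cl hEp).2 h)
  have hA : ¬ M.A p1 p2 := by
    intro h
    apply hcu
    rw [hc.zero _ _ h]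
    exact Submodule.zero_mem _
  have hA' : ¬ M.A p2 p1 := fun h => hA (M.hA.symm h)
  have hne : p1 ≠ p2 := by
    rintro rfl
    exact hA (M.hA.refl _)
  have hb1 : p1 ≠ M.bp p2 := by
    intro h
    exact hA' (h ▸ M.bp_A p2)
  -- the next chord at `p2`
  have hw : ∃ w, arc K p2 w ∈ s ∪ l ∧ M.ok p2 w ∧ Cyc p2 p1 w ∧
      ∀ v, arc K p2 v ∈ s ∪ l → Cyc p2 p1 v → ¬ Cyc p2 v w := by
    have hD : ¬ M.D (s ∪ l) p1 p2 := fun h => hA (G0_A hX hsX hf hs0' hI hadm ⟨hne, hsX hmem, hb1, h⟩)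
    obtain ⟨w, h1, h2, h3⟩ := not_D hD
    refine ⟨w, h1, h2, ?_⟩
    rcases h3 with ⟨h3, h4⟩ | h3
    · exfalso
      rcases h3 with h3 | h3
      · exact h4 p1 hmem' h3 (Or.inl rfl)
      · rw [h3] at h2
        exact hnok (ok_symm h2)
    · exact h3
  -- the previous chord at `p1`
  have hz : ∃ z, arc K p1 z ∈ s ∪ l ∧ M.ok p1 z ∧ Cyc p1 z p2 ∧
      ∀ v, arc K p1 v ∈ s ∪ l → Cyc p1 z v → ¬ Cyc p1 v p2 := by
    set W : Set Ω := {v | arc K p1 v ∈ X ∧ Cyc p1 v p2} with hW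
    have hWf : W.Finite := (nb_finite X p1).subset fun v hv => hv.1
    have hWne : W.Nonempty := by
      refine ⟨M.bs p1, (hs0'.trans hsX) (M.bs_mem p1), ?_⟩
      refine (M.bs_first p1 p2 hne.symm).resolve_left ?_
      intro h
      exact hA (h ▸ M.bs_A p1)
    obtain ⟨x, hx, hmax⟩ := Finset.exists_max_image hWf.toFinset (rp p1)
      ((Set.Finite.toFinset_nonempty hWf).2 hWne)
    rw [Set.Finite.mem_toFinset] at hx
    have hxp : x ≠ p1 := (cyc_ne hx.2).1.symm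
    have hmax' : ∀ v, arc K p1 v ∈ X → Cyc p1 v p2 → ¬ Cyc p1 x v := by
      intro v h1 h2 h3
      have h4 := hmax v ((Set.Finite.mem_toFinset hWf).2 ⟨h1, h2⟩)
      exact absurd ((cyc_rp hxp (cyc_ne h2).1.symm).1 h3) (not_lt.2 h4)
    have hnx : Nx X x p1 p2 := by
      refine ⟨hne.symm, hsX hmem, ?_⟩
      intro v hv hvX hcon
      rcases hcon with hcon | ⟨h1, -⟩
      · have hx2 := hx.2
        refine hmax' v hvX ?_ ?_ <;>
        · clear * - hcon hx2 hv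
          unfold Cyc at *
          grind
      · exact (cyc_ne hx.2).2.1 h1
    have hxb : x ≠ M.bp p1 := by
      intro h
      have h1 := M.bp_last p1 p2 hne.symm
      rw [← h] at h1
      rcases h1 with h1 | h1
      · exact (cyc_ne hx.2).2.1 h1.symm
      · exact cyc_as hx.2 h1
    have hxX : arc K x p1 ∈ X := by rw [arc_comm]; exact hx.1
    have hD : ¬ M.D (s ∪ l) x p1 := by
      intro h
      have h1 : G0 M X (s ∪ l) x p1 := ⟨hxp, hxX, hxb, h⟩
      exact hA (G0_A hX hsX hf hs0' hI hadm ((pc_G0 hX hsX hs0' hI).next h1 hnx))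
    obtain ⟨z, h1, h2, h3⟩ := not_D hD
    have hzp : z ≠ p1 := by
      rintro rfl
      exact h2.2.1 (M.hA.refl _)
    rcases h3 with ⟨h3, h4⟩ | ⟨h3, h4⟩
    · refine ⟨z, h1, h2, ?_, ?_⟩
      · rcases h3 with h3 | h3
        · exact cyc_tr h3 hx.2
        · rw [h3]
          exact hx.2
      · intro v h5 h6 h7
        have h8 := hmax' v (hsX h5) h7
        refine h4 v h5 h6 ?_
        by_cases hvx : v = x
        · exact Or.inl hvx
        · right
          exact (cyc_tot (cyc_ne h6).2.2 hvx hxp.symm).resolve_right h8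
    · exfalso
      have h5 := hnx.2.2 z hzp (hsX h1)
      push Not at h5
      have h6 := h4 p2 hmem hx.2
      by_cases hzp2 : z = p2
      · rw [hzp2] at h2
        exact hnok h2
      · have h7 := hx.2
        have h8 := h5.1
        clear * - h3 h6 h7 h8 hzp2
        unfold Cyc at *
        grind
  obtain ⟨w, w1, w2, w3, w4⟩ := hw
  obtain ⟨z, z1, z2, z3, z4⟩ := hz
  have inS : ∀ {x y : Ω}, arc K x y ∈ s ∪ l → M.ok x y → arc K x y ∈ s := by
    intro x y h1 h2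
    exact (Finset.mem_union.1 h1).resolve_right fun h => hla _ h (al_mk.2 h2)
  have clS : ∀ {x y : Ω}, arc K x y ∈ s → M.E x y → c x y ∈ Sn (ac c) s := fun h1 h2 =>
    (ac_mem M.hE hc.cl h2).1 (mem_sp h1)
  refine ⟨z, w, hsl, hs0', hne, hmem, hnok, z1, z2, w1, w2, z3, cyc_rot.1 w3, ?_, ?_, ?_, ?_, ?_⟩
  · rintro v h1 ⟨h2, h3⟩
    exact z4 v h1 h2 h3
  · rintro v h1 ⟨h2, h3⟩
    exact w4 v h1 h2 h3
  · rintro rfl
    apply hcu
    rw [← hc.cl.add z2.1 (M.hE.symm w2.1), hc.cl.neg M.hE w2.1]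
    exact Submodule.add_mem _ (clS (inS z1 z2) z2.1) (Submodule.neg_mem _ (clS (inS w1 w2) w2.1))
  · intro h
    have hok : M.ok p1 w := ear_ok hEp hnok w2 (sys_un hsl hs0' hmem) (sys_un hsl hs0' w1)
      (sys_un hsl hs0' h)
    apply hcu
    rw [← hc.cl.add hok.1 (M.hE.symm w2.1), hc.cl.neg M.hE w2.1]
    exact Submodule.add_mem _ (clS (inS h hok) hok.1) (Submodule.neg_mem _ (clS (inS w1 w2) w2.1))
  · intro h
    have hok : M.ok p2 z := ear_ok (M.hE.symm hEp) (fun h => hnok (ok_symm h)) z2 (sys_un hsl hs0' hmem')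
      (sys_un hsl hs0' z1) (sys_un hsl hs0' h)
    apply hcu
    rw [← hc.cl.add z2.1 (M.hE.symm hok.1), hc.cl.neg M.hE hok.1]
    exact Submodule.add_mem _ (clS (inS z1 z2) z2.1) (Submodule.neg_mem _ (clS (inS h hok) hok.1))

variable [FiniteDimensional ℚ V]

theorem XH1 (hc : CL M c) (hspan : Submodule.span ℚ {v | ∃ x y, M.E x y ∧ v = c x y} = ⊤)
    {σ : Finset (Arc K Ω)} (hσ : Sy (CE M.E) σ) (hσf : Fi M.E σ)
    (hwf : WellFounded (fun x y : Finset (Arc K Ω) => Sy (CE M.E) x ∧ y ⊂ x)) (s : Finset (Arc K Ω))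
    (hs : Sy (CE M.E) s) (hs0 : M.s0 ⊆ s) (hadm : Adm M s) :
    Ac (Po (As (CE M.E) M.al s)) (finrank ℚ (V ⧸ Sn (ac c) s)) := by
  refine H1 (CE M.E) (ac c) M.al (fun s => M.s0 ⊆ s ∧ Adm M s) hwf
    (fun s U hs hU => zs_flow M.hE hc.cl hspan hσ hσf s U hs hU) ?_ _ s hs ⟨hs0, hadm⟩ rfl
  rintro s hs ⟨hs0, hadm⟩
  right
  intro l hlne hsl hla hl
  have hadm' := adm_union hc hs0 hadm hl
  by_cases hI : IIC M (s ∪ l)
  · left
    obtain ⟨p, q, h1, h2, h3, h4⟩ := hI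
    exact flow_b (hs0.trans Finset.subset_union_left) h1 h2 h3 h4
  · right
    obtain ⟨u, hu⟩ := hlne
    obtain ⟨p1, p2, rfl⟩ := arc_surj u
    obtain ⟨z, w, hSD⟩ := exists_SD hc hσ hσf hsl hs0 hadm' hI hla hl hu
    have hEp : M.E p1 p2 := CE.isIn hsl hSD.mem _ _ rfl
    refine ⟨arc K p2 z, hSD.e2, al_mk.2 hSD.ok2, hSD.co2, ?_, ⟨?_, adm_insert hadm' hSD.ok2⟩, hSD.flow⟩
    · rw [ac_mem M.hE hc.cl hSD.ok2.1, ← hc.cl.add (M.hE.symm hEp) hSD.okz.1]
      refine Submodule.add_mem _ ?_ ?_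
      · rw [hc.cl.neg M.hE hEp]
        exact Submodule.neg_mem _ ((ac_mem M.hE hc.cl hEp).1 (mem_sp hSD.mem))
      · exact (ac_mem M.hE hc.cl hSD.okz.1).1 (mem_sp hSD.mz)
    · exact (hs0.trans Finset.subset_union_left).trans (Finset.subset_insert _ _)

theorem XH2 {V' : Type} [AddCommGroup V'] [Module ℚ V'] [FiniteDimensional ℚ V'] {c' : Ω → Ω → V'}
    (π : V' →ₗ[ℚ] V) (hπ : ∀ x y, π (c' x y) = c x y) (hc : CL M c)
    (hspan : Submodule.span ℚ {v | ∃ x y, M.E x y ∧ v = c x y} = ⊤)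
    {σ : Finset (Arc K Ω)} (hσ : Sy (CE M.E) σ) (hσf : Fi M.E σ)
    (hwf : WellFounded (fun x y : Finset (Arc K Ω) => Sy (CE M.E) x ∧ y ⊂ x)) (s : Finset (Arc K Ω))
    (hs : Sy (CE M.E) s) (hs0 : M.s0 ⊆ s) (hadm : Adm M s) :
    Ac (Po {ρ | ρ ∈ As (CE M.E) M.al s ∧ Ind (ac c') (Sn (ac c') s) ρ}) (finrank ℚ (V ⧸ Sn (ac c) s)) := by
  refine H2 (CE M.E) (ac c) (ac c') π (fun a => hπ _ _) M.al (fun s => M.s0 ⊆ s ∧ Adm M s) ?_ hwf
    (fun s hs h => XH1 hc hspan hσ hσf hwf s hs h.1 h.2) s hs ⟨hs0, hadm⟩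
  rintro s t ⟨h1, h2⟩ - h3
  exact ⟨h1.trans Finset.subset_union_left, adm_allowed h2 t h3⟩

end

end TorH
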