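import Pool.Agent.Lib.MP_05cdf2_gt.H.YEar

/-! MP_05cdf2_gt, stream H (helper63): the slide. (complete)

`SD M s p1 p2 z w`: `{p1, p2}` is a chord of `s` which is not allowed; on the side of the arc from `p1` to `p2` the next chord of `s`
at `p2` is `{p2, w}`, the one at `p1` is `{p1, z}`, both allowed; `w ≠ z`, the ears `{p1, w}`, `{p2, z}` are not in `s`. Then the ears are
allowed, simple, compatible with `s`, and the allowed systems over `s` without the ear `{p2, z}` are acyclic. -/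

set_option autoImplicit false
set_option linter.unusedSectionVars false

namespace TorH
open TorM TorA

section
variable {α : Type} [LinearOrder α]

theorem sl_order {a b z w : α} (h1 : Cyc a z b) (h2 : Cyc a w b) (hne : w ≠ z) (h : ¬ Cr a z b w) :
    Cyc a z w := by
  unfold Cr Cyc at *
  grind

/-- a chord from `b` which crosses `{a, w}` -/
theorem sl_mid {a b w v : α} (h1 : Cyc a w b) (h : Cr b v a w) : Cyc b a v ∧ Cyc b v w := by
  unfold Cr Cyc at *
  grind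

theorem sl_mid' {a b z v : α} (h1 : Cyc a z b) (h : Cr a v b z) : Cyc a z v ∧ Cyc a v b := by
  unfold Cr Cyc at *
  grind

theorem sl_end {a b w x y : α} (h0 : Cyc a w b) (h1 : Cyc a x w) (h2 : Cyc a w y) (n1 : ¬ Cr x y b w)
    (n2 : ¬ Cr x y a b) : y = b := by
  unfold Cr Cyc at *
  grind

theorem sl_ear {a b z w x v : α} (h0 : Cyc a z w) (h1 : Cyc a w b) (h2 : Cyc a x w) (hxz : x ≠ z)
    (n0 : ¬ Cr x b a z) (n1 : ¬ Cr a v x b) (n2 : ¬ Cr v x a b) (n3 : ¬ Cr v x a z)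
    (n4 : ¬ (Cyc a z v ∧ Cyc a v b)) (hv : v ≠ a) (hvx : v ≠ x) (hvb : v ≠ b) : v = z := by
  unfold Cr Cyc at *
  grind

end

variable {K Ω T : Type} [Group K] [LinearOrder Ω] [CS K Ω]

/-- data for the slide -/
structure SD (M : AD K Ω T) (s : Finset (Arc K Ω)) (p1 p2 z w : Ω) : Prop where
  hs : Sy (CE M.E) s
  hs0 : M.s0 ⊆ s
  ne : p1 ≠ p2
  mem : arc K p1 p2 ∈ s
  nok : ¬ M.ok p1 p2
  mz : arc K p1 z ∈ s
  okz : M.ok p1 z
  mw : arc K p2 w ∈ s
  okw : M.ok p2 w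
  cz : Cyc p1 z p2
  cw : Cyc p1 w p2
  nz : ∀ v, arc K p1 v ∈ s → ¬ (Cyc p1 z v ∧ Cyc p1 v p2)
  nw : ∀ v, arc K p2 v ∈ s → ¬ (Cyc p2 p1 v ∧ Cyc p2 v w)
  wz : w ≠ z
  e1 : arc K p1 w ∉ s
  e2 : arc K p2 z ∉ s

variable {M : AD K Ω T} {s : Finset (Arc K Ω)} {p1 p2 z w : Ω}

theorem sys_un {s : Finset (Arc K Ω)} (hs : Sy (CE M.E) s) (hs0 : M.s0 ⊆ s) {x y : Ω} (h : arc K x y ∈ s) :
    M.un x y := fun _ _ hcd => co_lift (CE.co hs _ (hs0 hcd) _ h) rfl rfl

theorem SD.ncr (h : SD M s p1 p2 z w) {a b c d : Ω} (h1 : arc K a b ∈ s) (h2 : arc K c d ∈ s) : ¬ Cr a b c d :=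
  co_lift (CE.co h.hs _ h1 _ h2) rfl rfl

/-- the ear at `p2` is not crossed -/
theorem SD.un1 (h : SD M s p1 p2 z w) : ∀ c d : Ω, arc K c d ∈ s → ¬ Cr c d p1 w := by
  intro c d hcd hcr
  rcases quad (t := p2) hcr (h.ncr hcd h.mem) (h.ncr hcd h.mw) with rfl | rfl
  · exact h.nw d hcd (sl_mid h.cw hcr)
  · exact h.nw c (by rw [arc_comm]; exact hcd) (sl_mid h.cw (cr_swap1.1 hcr))

theorem SD.un2 (h : SD M s p1 p2 z w) : ∀ c d : Ω, arc K c d ∈ s → ¬ Cr c d p2 z := by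
  intro c d hcd hcr
  have hm : arc K p2 p1 ∈ s := by rw [arc_comm]; exact h.mem
  rcases quad (t := p1) hcr (h.ncr hcd hm) (h.ncr hcd h.mz) with rfl | rfl
  · exact h.nz d hcd (sl_mid' h.cz hcr)
  · exact h.nz c (by rw [arc_comm]; exact hcd) (sl_mid' h.cz (cr_swap1.1 hcr))

theorem SD.co1 (h : SD M s p1 p2 z w) : Sy (CE M.E) (insert (arc K p1 w) s) := by
  have hE1 : M.E p1 p2 := CE.isIn h.hs h.mem _ _ rfl
  have hc := co_of_un h.un1
  refine sy_ce (sy_insert (CE.co h.hs) ?_ hc) ?_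
  · refine ear_simple (CE.co h.hs) h.ne (cyc_ne h.cw).2.1.symm h.mem h.mw ?_ hc
    intro he
    have h1 := al_mk.2 h.okw
    rw [← he] at h1
    exact h.nok (al_mk.1 h1)
  · intro b hb
    rcases Finset.mem_insert.1 hb with rfl | hb
    · exact (in_iff M.hE).2 (M.hE.trans hE1 h.okw.1)
    · exact CE.isIn h.hs hb

theorem SD.co2 (h : SD M s p1 p2 z w) : Sy (CE M.E) (insert (arc K p2 z) s) := by
  have hE1 : M.E p1 p2 := CE.isIn h.hs h.mem _ _ rfl
  have hc := co_of_un h.un2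
  refine sy_ce (sy_insert (CE.co h.hs) ?_ hc) ?_
  · refine ear_simple (CE.co h.hs) h.ne.symm (cyc_ne h.cz).1 (by rw [arc_comm]; exact h.mem) h.mz ?_ hc
    intro he
    have h1 := al_mk.2 h.okz
    rw [← he, arc_comm] at h1
    exact h.nok (al_mk.1 h1)
  · intro b hb
    rcases Finset.mem_insert.1 hb with rfl | hb
    · exact (in_iff M.hE).2 (M.hE.trans (M.hE.symm hE1) h.okz.1)
    · exact CE.isIn h.hs hb

theorem SD.ok1 (h : SD M s p1 p2 z w) : M.ok p1 w := by
  have hE1 : M.E p1 p2 := CE.isIn h.hs h.mem _ _ rfl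
  exact ear_ok hE1 h.nok h.okw (sys_un h.hs h.hs0 h.mem) (sys_un h.hs h.hs0 h.mw)
    (fun c d hcd => h.un1 c d (h.hs0 hcd))

theorem SD.ok2 (h : SD M s p1 p2 z w) : M.ok p2 z := by
  have hE1 : M.E p1 p2 := CE.isIn h.hs h.mem _ _ rfl
  exact ear_ok (M.hE.symm hE1) (fun h' => h.nok (ok_symm h')) h.okz (un_symm (sys_un h.hs h.hs0 h.mem))
    (sys_un h.hs h.hs0 h.mz) (fun c d hcd => h.un2 c d (h.hs0 hcd))

theorem SD.order (h : SD M s p1 p2 z w) : Cyc p1 z w := sl_order h.cz h.cw h.wz (h.ncr h.mz h.mw)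

theorem SD.ears_ne (h : SD M s p1 p2 z w) : arc K p1 w ≠ arc K p2 z := by
  intro he
  have h1 : Co (arc K p1 w) (arc K p1 w) := CE.co h.co1 _ (Finset.mem_insert_self _ _) _ (Finset.mem_insert_self _ _)
  refine co_lift h1 rfl he.symm (?_ : Cr p1 w p2 z)
  have h2 := h.order
  have h3 := h.cw
  clear * - h2 h3
  unfold Cr Cyc at *
  grind

theorem SD.flow (h : SD M s p1 p2 z w) :
    AcI (Po {ρ | ρ ∈ As (CE M.E) M.al s ∧ arc K p2 z ∉ ρ}) := by
  have h0 := flow_at M.hE s (fun a => M.al a ∧ a ∉ s ∧ a ≠ arc K p2 z) p1 w h.co1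
    ⟨al_mk.2 h.ok1, h.e1, h.ears_ne⟩ ?_
  · have h1 : {ρ : Finset (Arc K Ω) | ρ.Nonempty ∧ Sy (CE M.E) (s ∪ ρ) ∧ ∀ a ∈ ρ, M.al a ∧ a ∉ s ∧ a ≠ arc K p2 z} =
        {ρ | ρ ∈ As (CE M.E) M.al s ∧ arc K p2 z ∉ ρ} := by
      ext ρ
      constructor
      · rintro ⟨h1, h2, h3⟩
        exact ⟨⟨h1, h2, fun a ha => ⟨(h3 a ha).1, (h3 a ha).2.1⟩⟩, fun hh => (h3 _ hh).2.2 rfl⟩
      · rintro ⟨⟨h1, h2, h3⟩, h4⟩
        exact ⟨h1, h2, fun a ha => ⟨(h3 a ha).1, (h3 a ha).2, fun hh => h4 (hh ▸ ha)⟩⟩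
    rw [h1] at h0
    exact h0
  · rintro x y ⟨hxy, hxys, hxye⟩ h1 h2 h3
    left
    have hok : M.ok x y := al_mk.1 hxy
    have cxy : ∀ c d, arc K c d ∈ s → ¬ Cr c d x y := fun c d hcd =>
      co_lift ((CE.co h3) _ (Finset.mem_insert_of_mem hcd) _ (Finset.mem_insert_self _ _)) rfl rfl
    obtain rfl : y = p2 := sl_end h.cw h1 h2 (fun hh => cxy _ _ h.mw (cr_comm.1 hh))
      (fun hh => cxy _ _ h.mem (cr_comm.1 hh))
    have hxp1 : x ≠ p1 := (cyc_ne h1).1.symm
    have hxy2 : x ≠ y := by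
      rintro rfl
      exact cyc_as h.cw h1
    have hxz : x ≠ z := by
      rintro rfl
      exact hxye (arc_comm _ _)
    -- the piece is not crossed by `s`
    have hun : ∀ c d : Ω, arc K c d ∈ s → ¬ Cr c d x p1 := by
      intro c d hcd hcr
      have hm : arc K y p1 ∈ s := by rw [arc_comm]; exact h.mem
      have key : ∀ v, arc K y v ∈ s → ¬ Cr y v x p1 := by
        intro v hv hcr
        refine h.nw v hv ?_
        have h4 := h.cw
        clear * - hcr h4 h1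
        unfold Cr Cyc at *
        grind
      rcases quad (t := y) hcr (cxy c d hcd) (h.ncr hcd hm) with rfl | rfl
      · exact key d hcd hcr
      · exact key c (by rw [arc_comm]; exact hcd) (cr_swap1.1 hcr)
    have hok' : M.ok x p1 := by
      have hE1 : M.E p1 y := CE.isIn h.hs h.mem _ _ rfl
      exact ok_symm (ear_ok hE1 h.nok (ok_symm hok) (sys_un h.hs h.hs0 h.mem)
        (fun c d hcd => fun hh => cxy c d (h.hs0 hcd) (cr_swap2.1 hh))
        (fun c d hcd => fun hh => hun c d (h.hs0 hcd) (cr_swap2.1 hh)))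
    refine ⟨al_mk.2 hok', ?_, ?_⟩
    · intro hcon
      have hcon' : arc K p1 x ∈ s := by rw [arc_comm]; exact hcon
      have n1 := h.nz x hcon'
      have n2 := cxy _ _ h.mz
      have n3 := h.cw
      have n4 := h.order
      clear * - n1 n2 n3 n4 h1 hxz
      unfold Cr Cyc at *
      grind
    · intro hcon
      -- `{x, p1}` is a lift of the ear `{p2, z}`
      have hcon1 := hcon.symm
      rw [arc_eq] at hcon1
      have hn0 : ¬ Cr x y p1 z := fun hh => cxy _ _ h.mz (cr_comm.1 hh)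
      obtain ⟨k, hk⟩ := hcon1
      have hk1 : arc K (k • y) (k • p1) ∈ s := by rw [arc_smul, arc_comm]; exact h.mem
      have hk2 : arc K (k • z) (k • p1) ∈ s := by rw [arc_smul, arc_comm]; exact h.mz
      have hv1 : arc K p1 (k • p1) ∈ s ∧ arc K (k • p1) x ∈ s := by
        rcases hk with ⟨h5, h6⟩ | ⟨h5, h6⟩
        · rw [h5] at hk1
          rw [h6] at hk2
          exact ⟨hk2, by rw [arc_comm]; exact hk1⟩
        · rw [h5] at hk1
          rw [h6] at hk2
          exact ⟨hk1, by rw [arc_comm]; exact hk2⟩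
      have hz1 : p1 ≠ z := (cyc_ne h.cz).1
      have g1 : k • p1 ≠ p1 := by
        intro hh
        have h7 : k = 1 := CS.free _ _ hh
        subst h7
        rw [one_smul, one_smul] at hk
        rcases hk with ⟨h8, h9⟩ | ⟨h8, h9⟩
        · exact hxy2 h8.symm
        · exact h.ne h8.symm
      have g2 : k • p1 ≠ x := by
        intro hh
        rcases hk with ⟨h8, h9⟩ | ⟨h8, h9⟩
        · exact h.ne (smul_left_cancel k (hh.trans h8.symm))
        · exact hz1 (smul_left_cancel k (hh.trans h9.symm))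
      have g3 : k • p1 ≠ y := by
        intro hh
        have h7 := hv1.2
        rw [hh, arc_comm] at h7
        exact hxys h7
      have hv : k • p1 = z := by
        refine sl_ear h.order h.cw h1 hxz hn0 ?_ ?_ ?_ ?_ g1 g2 g3
        · exact cxy _ _ hv1.1
        · exact h.ncr hv1.2 h.mem
        · exact h.ncr hv1.2 h.mz
        · exact h.nz _ hv1.1
      have ho : Cyc (k • p1) (k • z) (k • y) := (cs_cyc k _ _ _).2 h.cz
      rcases hk with ⟨h5, h6⟩ | ⟨h5, h6⟩
      · rw [hv, h5, h6] at ho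
        have n4 := h.order
        have n5 := h.cw
        clear * - ho h1 n4 n5 hxz hn0
        unfold Cr Cyc at *
        grind
      · have h7 : arc K p1 y = arc K z p1 := by
          rw [← arc_smul k p1 y, hv, h5]
        have h8 := al_mk.2 (ok_symm h.okz)
        rw [← h7] at h8
        exact h.nok (al_mk.1 h8)

end TorH
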