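import Pool.Agent.Lib.MP_05cdf2_gt.H.YEar

/-! MP_05cdf2_gt, stream H (helper63): walking along the fat graph. (complete)

`IIC M s`: there is an allowed arc which starts in a sector of `s` whose sides are not allowed. `M.D s x y`: the sides of the sector of
`s` at `y` which follows `x` are not allowed. If there is no such arc then `D` is preserved by the moves `(x, y) → (y, z)` (`z` next
neighbour of `y` after `x`) and `(x, y) → (y, x)` (`{x, y}` not in `s`) of a system `X` containing `s`. -/

set_option autoImplicit false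
set_option linter.unusedSectionVars false

namespace TorH
open TorM TorA

variable {K Ω T : Type} [Group K] [LinearOrder Ω] [CS K Ω] {M : AD K Ω T} {s X : Finset (Arc K Ω)}

/-- an allowed arc starts in a sector with sides not allowed -/
def IIC (M : AD K Ω T) (s : Finset (Arc K Ω)) : Prop :=
  ∃ p q : Ω, Sy (CE M.E) (insert (arc K p q) s) ∧ M.ok p q ∧ arc K p q ∉ s ∧ M.B s p q

/-- the sides of the sector at `y` after `x` are not allowed -/
def AD.D (M : AD K Ω T) (s : Finset (Arc K Ω)) (x y : Ω) : Prop :=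
  ∀ a, TorH.arc K y a ∈ s → M.ok y a →
    ((Cyc y a x ∨ a = x) → ∃ v, TorH.arc K y v ∈ s ∧ Cyc y a v ∧ (v = x ∨ Cyc y v x)) ∧
    (Cyc y x a → ∃ v, TorH.arc K y v ∈ s ∧ Cyc y x v ∧ Cyc y v a)

theorem D_smul (k : K) {x y : Ω} (h : M.D s x y) : M.D s (k • x) (k • y) := by
  intro a ha hok
  have ha' : arc K y (k⁻¹ • a) ∈ s := by
    rw [← arc_smul k, smul_inv_smul]
    exact ha
  have hok' : M.ok y (k⁻¹ • a) := by
    rw [← ok_smul k, smul_inv_smul]
    exact hok
  have hae : k • (k⁻¹ • a) = a := smul_inv_smul k a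
  constructor
  · intro hcon
    have h1 : Cyc y (k⁻¹ • a) x ∨ k⁻¹ • a = x := by
      rcases hcon with hcon | hcon
      · left
        rw [← cs_cyc k, hae]
        exact hcon
      · right
        rw [hcon, inv_smul_smul]
    obtain ⟨v, h2, h3, h4⟩ := (h _ ha' hok').1 h1
    refine ⟨k • v, by rw [arc_smul]; exact h2, ?_, ?_⟩
    · rw [← hae]
      exact (cs_cyc k _ _ _).2 h3
    · rcases h4 with h4 | h4
      · exact Or.inl (by rw [h4])
      · exact Or.inr ((cs_cyc k _ _ _).2 h4)
  · intro hcon
    have h1 : Cyc y x (k⁻¹ • a) := by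
      rw [← cs_cyc k, hae]
      exact hcon
    obtain ⟨v, h2, h3, h4⟩ := (h _ ha' hok').2 h1
    refine ⟨k • v, by rw [arc_smul]; exact h2, (cs_cyc k _ _ _).2 h3, ?_⟩
    rw [← hae]
    exact (cs_cyc k _ _ _).2 h4

theorem not_D {x y : Ω} (h : ¬ M.D s x y) : ∃ w, arc K y w ∈ s ∧ M.ok y w ∧
    (((Cyc y w x ∨ w = x) ∧ ∀ v, arc K y v ∈ s → Cyc y w v → ¬ (v = x ∨ Cyc y v x)) ∨
      (Cyc y x w ∧ ∀ v, arc K y v ∈ s → Cyc y x v → ¬ Cyc y v w)) := by
  unfold AD.D at h
  push Not at h
  obtain ⟨w, h1, h2, h3⟩ := h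
  refine ⟨w, h1, h2, ?_⟩
  by_cases h4 : (Cyc y w x ∨ w = x) ∧ ∀ v, arc K y v ∈ s → Cyc y w v → ¬ (v = x ∨ Cyc y v x)
  · exact Or.inl h4
  · right
    have h5 := h3 (fun h6 => by
      by_contra hcon
      refine h4 ⟨h6, ?_⟩
      intro v hv h7 h8
      exact hcon ⟨v, hv, h7, h8⟩)
    refine ⟨h5.1, ?_⟩
    intro v hv h7 h8
    exact h5.2 v hv h7 h8

section
variable (hX : Sy (CE M.E) X) (hsX : s ⊆ X) (hs0 : M.s0 ⊆ s) (hI : ¬ IIC M s)
include hX hsX hI

theorem iic_of {p q : Ω} (h1 : arc K p q ∈ X) (h2 : M.ok p q) (h3 : arc K p q ∉ s) (h4 : M.B s p q) : False := by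
  refine hI ⟨p, q, hX.mono ?_, h2, h3, h4⟩
  intro b hb
  rcases Finset.mem_insert.1 hb with rfl | hb
  · exact h1
  · exact hsX hb

theorem D_nok {x y : Ω} (h : M.D s x y) (hxy : arc K x y ∈ X) : ¬ M.ok x y := by
  intro hok
  have hyx : arc K y x ∈ X := by rw [arc_comm]; exact hxy
  have hok' := ok_symm hok
  by_cases hs : arc K y x ∈ s
  · obtain ⟨v, h1, h2, h3⟩ := (h x hs hok').1 (Or.inr rfl)
    rcases h3 with h3 | h3
    · subst h3
      exact (cyc_ne h2).2.1 rfl
    · exact cyc_as h2 h3
  · refine iic_of hX hsX hI hyx hok' hs ?_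
    intro z hz hzok
    constructor
    · intro h1
      obtain ⟨v, h2, h3, h4⟩ := (h z hz hzok).1 (Or.inl h1)
      refine ⟨v, h2, h3, ?_⟩
      rcases h4 with h4 | h4
      · subst h4
        exact absurd h2 hs
      · exact h4
    · intro h1
      exact (h z hz hzok).2 h1

theorem D_next {x y z : Ω} (h : M.D s x y) (hn : Nx X x y z) (hc : Cyc y x z) : ¬ M.ok y z := by
  intro hok
  have hno : ∀ v, arc K y v ∈ X → v ≠ y → ¬ Cyc x v z := fun v h1 h2 h3 => hn.2.2 v h2 h1 (Or.inl h3)
  by_cases hs : arc K y z ∈ s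
  · obtain ⟨v, h1, h2, h3⟩ := (h z hs hok).2 hc
    refine hno v (hsX h1) (cyc_ne h2).2.2.symm ?_
    clear * - h2 h3
    unfold Cyc at *
    grind
  · refine iic_of hX hsX hI hn.2.1 hok hs ?_
    intro a ha haok
    have hay : a ≠ y := by
      rintro rfl
      exact haok.2.1 (M.hA.refl _)
    have haX := hno a (hsX ha) hay
    constructor
    · intro h1
      have h2 : Cyc y a x ∨ a = x := by
        clear * - h1 haX hc hay
        unfold Cyc at *
        grind
      obtain ⟨v, h3, h4, h5⟩ := (h a ha haok).1 h2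
      refine ⟨v, h3, h4, ?_⟩
      rcases h5 with h5 | h5
      · rw [h5]
        exact hc
      · exact cyc_tr h5 hc
    · intro h1
      obtain ⟨v, h3, h4, h5⟩ := (h a ha haok).2 (cyc_tr hc h1)
      refine ⟨v, h3, ?_, h5⟩
      have h6 := hno v (hsX h3) (cyc_ne h4).2.2.symm
      have h7 : v ≠ z := by
        rintro rfl
        exact hs h3
      clear * - h4 h6 h7 hc
      unfold Cyc at *
      grind

include hs0

/-- the ear -/
theorem core {y t w : Ω} (hyt : arc K y t ∈ X) (hne : y ≠ t) (htw : arc K t w ∈ s) (hok : M.ok t w)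
    (hn : ¬ M.ok y t) (h1 : ∀ v, arc K t v ∈ s → ¬ Cr t v y w) (h2 : ∀ k : K, k • y = t → ¬ Cr t (k • t) y w)
    (h3 : M.ok y w → arc K y w ∉ s) (h4 : arc K y w ∉ s → M.B s y w) : False := by
  have hE : M.E y t := CE.isIn hX hyt _ _ rfl
  have htwne : t ≠ w := by
    rintro rfl
    exact hok.2.1 (M.hA.refl _)
  set Y : Finset (Arc K Ω) := insert (arc K y t) s with hY
  have hYX : Y ⊆ X := by
    intro b hb
    rcases Finset.mem_insert.1 hb with rfl | hb
    · exact hyt
    · exact hsX hb
  have hYs : Sy Co Y := CE.co (hX.mono hYX)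
  have ht : ∀ v, arc K t v ∈ Y → ¬ Cr t v y w := by
    intro v hv hcr
    rcases Finset.mem_insert.1 hv with hv | hv
    · rw [eq_comm, arc_eq] at hv
      obtain ⟨k, ⟨h5, h6⟩ | ⟨h5, h6⟩⟩ := hv
      · rw [← h6] at hcr
        exact h2 k h5 hcr
      · have h7 : k = 1 := CS.free _ _ h6
        subst h7
        rw [one_smul] at h5
        subst h5
        exact cr_bc hcr rfl
    · exact h1 v hv hcr
  have hun : ∀ c d : Ω, arc K c d ∈ Y → ¬ Cr c d y w := by
    intro c d hcd hcr
    have e1 : ¬ Cr c d y t := co_lift (hYs _ hcd _ (Finset.mem_insert_self _ _)) rfl rfl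
    have e2 : ¬ Cr c d t w := co_lift (hYs _ hcd _ (Finset.mem_insert_of_mem htw)) rfl rfl
    rcases quad hcr e1 e2 with rfl | rfl
    · exact ht d hcd hcr
    · exact ht c (by rw [arc_comm]; exact hcd) (cr_swap1.1 hcr)
  have hco := co_of_un hun
  have hsimp : Co (arc K y w) (arc K y w) := by
    refine ear_simple hYs hne htwne (Finset.mem_insert_self _ _) (Finset.mem_insert_of_mem htw) ?_ hco
    intro he
    have h5 := al_mk.2 hok
    rw [← he] at h5
    exact hn (al_mk.1 h5)
  have hokyw : M.ok y w := by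
    refine ear_ok hE hn hok ?_ ?_ ?_
    · intro c d hcd
      exact co_lift (hYs _ (Finset.mem_insert_of_mem (hs0 hcd)) _ (Finset.mem_insert_self _ _)) rfl rfl
    · intro c d hcd
      exact co_lift (hYs _ (Finset.mem_insert_of_mem (hs0 hcd)) _ (Finset.mem_insert_of_mem htw)) rfl rfl
    · intro c d hcd
      exact hun c d (Finset.mem_insert_of_mem (hs0 hcd))
  have h3' := h3 hokyw
  refine hI ⟨y, w, ?_, hokyw, h3', h4 h3'⟩
  refine sy_ce (sy_insert (CE.co (hX.mono hsX)) hsimp fun b hb => hco b (Finset.mem_insert_of_mem hb)) ?_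
  intro b hb
  rcases Finset.mem_insert.1 hb with rfl | hb
  · exact (in_iff M.hE).2 hokyw.1
  · exact CE.isIn hX (hsX hb)

/-- crossing the chord `{x, y}` which is not in `s` -/
theorem D_flip {x y : Ω} (h : M.D s x y) (hne : x ≠ y) (hxy : arc K x y ∈ X) (hns : arc K x y ∉ s) :
    M.D s y x := by
  have hyx : arc K y x ∈ X := by rw [arc_comm]; exact hxy
  have hns' : arc K y x ∉ s := by rw [arc_comm]; exact hns
  have hn : ¬ M.ok y x := fun hh => D_nok hX hsX hI h hxy (ok_symm hh)
  have hsys : ∀ {a b c d : Ω}, arc K a b ∈ s → arc K c d ∈ s → ¬ Cr a b c d := fun h1 h2 =>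
    co_lift (CE.co hX _ (hsX h1) _ (hsX h2)) rfl rfl
  by_contra hcon
  obtain ⟨w, hw, hok, hc⟩ := not_D hcon
  have hwy : w ≠ y := by
    rintro rfl
    exact hns hw
  have hwx : w ≠ x := by
    rintro rfl
    exact hok.2.1 (M.hA.refl _)
  refine core hX hsX hs0 hI hyx hne.symm hw hok hn ?_ ?_ ?_ ?_
  · intro v hv hcr
    rcases hc with ⟨hc1, hc2⟩ | ⟨hc1, hc2⟩
    · have h1 : Cyc x w v ∧ Cyc x v y := by
        clear * - hcr hc1 hwy
        unfold Cr Cyc at *
        grind
      exact hc2 v hv h1.1 (Or.inr h1.2)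
    · have h1 : Cyc x y v ∧ Cyc x v w := by
        clear * - hcr hc1 hwy
        unfold Cr Cyc at *
        grind
      exact hc2 v hv h1.1 h1.2
  · intro k hk hcr
    have hD := D_smul (M := M) k h
    rw [hk] at hD
    rcases hc with ⟨hc1, hc2⟩ | ⟨hc1, hc2⟩
    · have h1 : Cyc x w (k • x) ∧ Cyc x (k • x) y := by
        clear * - hcr hc1 hwy
        unfold Cr Cyc at *
        grind
      obtain ⟨v, h2, h3, h4⟩ := (hD w hw hok).1 (Or.inl h1.1)
      refine hc2 v h2 h3 (Or.inr ?_)
      rcases h4 with h4 | h4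
      · rw [h4]
        exact h1.2
      · exact cyc_tr h4 h1.2
    · have h1 : Cyc x y (k • x) ∧ Cyc x (k • x) w := by
        clear * - hcr hc1 hwy
        unfold Cr Cyc at *
        grind
      obtain ⟨v, h2, h3, h4⟩ := (hD w hw hok).2 h1.2
      exact hc2 v h2 (cyc_tr h1.1 h3) h4
  · intro hokyw hcon2
    rcases hc with ⟨hc1, hc2⟩ | ⟨hc1, hc2⟩
    · have h1 : Cyc y x w := by
        rcases hc1 with hc1 | hc1
        · exact cyc_rot.1 (cyc_rot.1 hc1)
        · exact absurd hc1 hwy
      obtain ⟨v, h2, h3, h4⟩ := (h w hcon2 hokyw).2 h1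
      refine hsys h2 hw ?_
      clear * - h3 h4
      unfold Cr Cyc at *
      grind
    · have h1 : Cyc y w x := cyc_rot.1 hc1
      obtain ⟨v, h2, h3, h4⟩ := (h w hcon2 hokyw).1 (Or.inl h1)
      rcases h4 with h4 | h4
      · rw [h4] at h2
        exact hns' h2
      · refine hsys h2 hw ?_
        clear * - h3 h4
        unfold Cr Cyc at *
        grind
  · intro hnyw a ha haok
    have hax : a ≠ x := by
      rintro rfl
      exact hns' ha
    have hay : a ≠ y := by
      rintro rfl
      exact haok.2.1 (M.hA.refl _)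
    have haw : a ≠ w := by
      rintro rfl
      exact hnyw ha
    rcases hc with ⟨hc1, hc2⟩ | ⟨hc1, hc2⟩
    · have h1 : Cyc y x w := by
        rcases hc1 with hc1 | hc1
        · exact cyc_rot.1 (cyc_rot.1 hc1)
        · exact absurd hc1 hwy
      constructor
      · intro h2
        have h3 : Cyc y a x := by
          have := hsys ha hw
          clear * - this h2 hax hay h1
          unfold Cr Cyc at *
          grind
        obtain ⟨v, h4, h5, h6⟩ := (h a ha haok).1 (Or.inl h3)
        refine ⟨v, h4, h5, ?_⟩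
        rcases h6 with h6 | h6
        · rw [h6]
          exact h1
        · exact cyc_tr h6 h1
      · intro h2
        obtain ⟨v, h4, h5, h6⟩ := (h a ha haok).2 (cyc_tr h1 h2)
        refine ⟨v, h4, ?_, h6⟩
        have hvw : v ≠ w := by
          rintro rfl
          exact hnyw h4
        have := hsys h4 hw
        clear * - this h5 h1 hvw
        unfold Cr Cyc at *
        grind
    · have h1 : Cyc y w x := cyc_rot.1 hc1
      constructor
      · intro h2
        obtain ⟨v, h4, h5, h6⟩ := (h a ha haok).1 (Or.inl (cyc_tr h2 h1))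
        refine ⟨v, h4, h5, ?_⟩
        have hvw : v ≠ w := by
          rintro rfl
          exact hnyw h4
        rcases h6 with h6 | h6
        · rw [h6] at h4
          exact absurd h4 hns'
        · have := hsys h4 hw
          clear * - this h6 h1 hvw h5
          unfold Cr Cyc at *
          grind
      · intro h2
        have h3 : Cyc y x a := by
          have := hsys ha hw
          clear * - this h2 hax hay h1
          unfold Cr Cyc at *
          grind
        obtain ⟨v, h4, h5, h6⟩ := (h a ha haok).2 h3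
        exact ⟨v, h4, cyc_tr h1 h5, h6⟩

/-- moving to the next chord -/
theorem D_step {x y z : Ω} (h : M.D s x y) (hne : x ≠ y) (hxy : arc K x y ∈ X) (hnx : Nx X x y z)
    (hcz : Cyc y x z) : M.D s y z := by
  have hyx : arc K y x ∈ X := by rw [arc_comm]; exact hxy
  have hn : ¬ M.ok y z := D_next hX hsX hI h hnx hcz
  have hsys : ∀ {a b c d : Ω}, arc K a b ∈ s → arc K c d ∈ s → ¬ Cr a b c d := fun h1 h2 =>
    co_lift (CE.co hX _ (hsX h1) _ (hsX h2)) rfl rfl
  have hno : ∀ v, arc K y v ∈ X → v ≠ y → ¬ Cyc x v z := fun v h1 h2 h3 => hnx.2.2 v h2 h1 (Or.inl h3)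
  by_contra hcon
  obtain ⟨w, hw, hok, hc⟩ := not_D hcon
  have hwy : w ≠ y := by
    rintro rfl
    exact hn (ok_symm hok)
  have hwz : w ≠ z := by
    rintro rfl
    exact hok.2.1 (M.hA.refl _)
  refine core hX hsX hs0 hI hnx.2.1 hnx.1.symm hw hok hn ?_ ?_ ?_ ?_
  · intro v hv hcr
    rcases hc with ⟨hc1, hc2⟩ | ⟨hc1, hc2⟩
    · have h1 : Cyc z w v ∧ Cyc z v y := by
        clear * - hcr hc1 hwy
        unfold Cr Cyc at *
        grind
      exact hc2 v hv h1.1 (Or.inr h1.2)
    · have h1 : Cyc z y v ∧ Cyc z v w := by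
        clear * - hcr hc1 hwy
        unfold Cr Cyc at *
        grind
      exact hc2 v hv h1.1 h1.2
  · intro k hk hcr
    have hD := D_smul (M := M) k h
    rw [hk] at hD
    have hkc : Cyc z (k • x) (k • z) := by
      have h0 := (cs_cyc k y x z).2 hcz
      rw [hk] at h0
      exact h0
    have hkn : ∀ v, arc K z v ∈ X → v ≠ z → ¬ Cyc (k • x) v (k • z) := by
      intro v h1 h2 h3
      have := nx_smul k hnx
      rw [hk] at this
      exact this.2.2 v h2 h1 (Or.inl h3)
    rcases hc with ⟨hc1, hc2⟩ | ⟨hc1, hc2⟩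
    · have h1 : Cyc z w (k • z) ∧ Cyc z (k • z) y := by
        clear * - hcr hc1 hwy
        unfold Cr Cyc at *
        grind
      have h1' : Cyc z w (k • x) ∨ w = k • x := by
        have := hkn w (hsX hw) hwz
        have h5 := h1.1
        clear * - this h5 hkc hwz
        unfold Cyc at *
        grind
      obtain ⟨v, h2, h3, h4⟩ := (hD w hw hok).1 h1'
      refine hc2 v h2 h3 (Or.inr ?_)
      rcases h4 with h4 | h4
      · rw [h4]
        exact cyc_tr hkc h1.2
      · exact cyc_tr h4 (cyc_tr hkc h1.2)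
    · have h1 : Cyc z y (k • z) ∧ Cyc z (k • z) w := by
        clear * - hcr hc1 hwy
        unfold Cr Cyc at *
        grind
      obtain ⟨v, h2, h3, h4⟩ := (hD w hw hok).2 (cyc_tr hkc h1.2)
      refine hc2 v h2 ?_ h4
      have h5 := hkn v (hsX h2) (cyc_ne h3).2.2.symm
      have h6 := h1.1
      clear * - h5 h6 h3 hkc
      unfold Cyc at *
      grind
  · intro hokyw hcon2
    rcases hc with ⟨hc1, hc2⟩ | ⟨hc1, hc2⟩
    · have hnz : arc K y z ∉ s := by
        intro hh
        rcases hc1 with hc1 | hc1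
        · exact hc2 y (by rw [arc_comm]; exact hh) hc1 (Or.inl rfl)
        · exact hwy hc1
      have h1 : Cyc y z w := by
        rcases hc1 with hc1 | hc1
        · exact cyc_rot.1 (cyc_rot.1 hc1)
        · exact absurd hc1 hwy
      obtain ⟨v, h2, h3, h4⟩ := (h w hcon2 hokyw).2 (cyc_tr hcz h1)
      have h5 := hno v (hsX h2) (cyc_ne h3).2.2.symm
      have h6 : v ≠ z := by
        rintro rfl
        exact hnz h2
      refine hsys h2 hw ?_
      clear * - h3 h4 h5 h6 h1 hcz
      unfold Cr Cyc at *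
      grind
    · have h1 : Cyc y w z := cyc_rot.1 hc1
      have h5 := hno w (hsX hcon2) hwy
      have h6 : Cyc y w x ∨ w = x := by
        clear * - h1 h5 hcz hwy
        unfold Cyc at *
        grind
      obtain ⟨v, h2, h3, h4⟩ := (h w hcon2 hokyw).1 h6
      refine hsys h2 hw ?_
      clear * - h3 h4 hcz
      unfold Cr Cyc at *
      grind
  · intro hnyw a ha haok
    have hay : a ≠ y := by
      rintro rfl
      exact haok.2.1 (M.hA.refl _)
    have haw : a ≠ w := by
      rintro rfl
      exact hnyw ha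
    have ha2 := hno a (hsX ha) hay
    rcases hc with ⟨hc1, hc2⟩ | ⟨hc1, hc2⟩
    · have hnz : arc K y z ∉ s := by
        intro hh
        rcases hc1 with hc1 | hc1
        · exact hc2 y (by rw [arc_comm]; exact hh) hc1 (Or.inl rfl)
        · exact hwy hc1
      have haz : a ≠ z := by
        rintro rfl
        exact hnz ha
      have h1 : Cyc y z w := by
        rcases hc1 with hc1 | hc1
        · exact cyc_rot.1 (cyc_rot.1 hc1)
        · exact absurd hc1 hwy
      constructor
      · intro h2
        have h3 : Cyc y a x ∨ a = x := by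
          have := hsys ha hw
          clear * - this h2 haz hay h1 ha2 hcz
          unfold Cr Cyc at *
          grind
        obtain ⟨v, h4, h5, h6⟩ := (h a ha haok).1 h3
        refine ⟨v, h4, h5, ?_⟩
        rcases h6 with h6 | h6
        · rw [h6]
          exact cyc_tr hcz h1
        · exact cyc_tr h6 (cyc_tr hcz h1)
      · intro h2
        obtain ⟨v, h4, h5, h6⟩ := (h a ha haok).2 (cyc_tr (cyc_tr hcz h1) h2)
        refine ⟨v, h4, ?_, h6⟩
        have hvw : v ≠ w := by
          rintro rfl
          exact hnyw h4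
        have hvz : v ≠ z := by
          rintro rfl
          exact hnz h4
        have hv2 := hno v (hsX h4) (cyc_ne h5).2.2.symm
        have := hsys h4 hw
        clear * - this h5 h1 hvw hvz hv2 hcz
        unfold Cr Cyc at *
        grind
    · have h1 : Cyc y w z := cyc_rot.1 hc1
      have hwx : w = x ∨ Cyc y x w := by
        have : ¬ Cr z w y x := co_lift (CE.co hX _ (hsX hw) _ hyx) rfl rfl
        clear * - this h1 hcz hwy
        unfold Cr Cyc at *
        grind
      constructor
      · intro h2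
        have h3 : Cyc y a x ∨ a = x := by
          clear * - h2 hay h1 ha2 hcz
          unfold Cyc at *
          grind
        obtain ⟨v, h4, h5, h6⟩ := (h a ha haok).1 h3
        refine ⟨v, h4, h5, ?_⟩
        have hvw : v ≠ w := by
          rintro rfl
          exact hnyw h4
        rcases hwx with hwx | hwx
        · rcases h6 with h6 | h6
          · exact absurd (h6.trans hwx.symm) hvw
          · rw [hwx]
            exact h6
        · rcases h6 with h6 | h6
          · rw [h6]
            exact hwx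
          · exact cyc_tr h6 hwx
      · intro h2
        have h3 : Cyc y x a := by
          rcases hwx with hwx | hwx
          · rw [← hwx]
            exact h2
          · exact cyc_tr hwx h2
        obtain ⟨v, h4, h5, h6⟩ := (h a ha haok).2 h3
        refine ⟨v, h4, ?_, h6⟩
        have hv2 := hno v (hsX h4) (cyc_ne h5).2.2.symm
        clear * - h5 h1 hv2 hcz
        unfold Cyc at *
        grind

end

end TorH
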